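import Pool.Agent.HPow.Defs

/-!
# KTX: graded theories (long exact sequences): definitions

Clause (IV) of line S for MP_e17fa799_al (architect helper94).
-/

set_option autoImplicit false

namespace Pool.Agent.KTX

open CategoryTheory AlgebraicGeometry Pool.Agent.HPow

universe u

/-- `Spec` of a ring -/
noncomputable abbrev Sp (R : Type) [CommRing R] : Scheme.{0} := Spec (CommRingCat.of R)

/-- `Spec` of a homomorphism -/
noncomputable abbrev Sm {R S : Type} [CommRing R] [CommRing S] (φ : R →+* S) : Sp S ⟶ Sp R :=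
  Spec.map (CommRingCat.ofHom φ)

/-! ### graded theories on schemes -/

/-- A theory on schemes: abelian groups `T X` with pull-backs for flat morphisms, push-forwards for
finite morphisms, and some of the formal properties of `K'ₙ` (for one `n`): functoriality, base
change, exactness in the middle for a closed subscheme and its open complement, devissage, homotopy
invariance, and `push (pull x) = d x` for base changes of free algebras of rank `d`. (The groups `T X`
and the homomorphisms are given for all schemes, but the properties are only required for noetherian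
schemes, so the values for other schemes are irrelevant.) -/
structure STh where
  /-- the groups -/
  T : Scheme.{0} → Type u
  /-- the group structure -/
  grp : ∀ X, AddCommGroup (T X)
  /-- pull-back along flat morphisms -/
  pull : ∀ {X Y : Scheme.{0}} (f : X ⟶ Y) [Flat f], T Y →+ T X
  /-- push-forward along finite morphisms -/
  push : ∀ {X Y : Scheme.{0}} (f : X ⟶ Y) [IsFinite f], T X →+ T Y
  pull_id : ∀ (X : Scheme.{0}) [IsNoetherian X] (x : T X), pull (𝟙 X) x = x
  pull_comp : ∀ {X Y Z : Scheme.{0}} [IsNoetherian X] [IsNoetherian Y] [IsNoetherian Z]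
    (f : X ⟶ Y) (g : Y ⟶ Z) [Flat f] [Flat g] (x : T Z), pull (f ≫ g) x = pull f (pull g x)
  push_id : ∀ (X : Scheme.{0}) [IsNoetherian X] (x : T X), push (𝟙 X) x = x
  push_comp : ∀ {X Y Z : Scheme.{0}} [IsNoetherian Z] (f : X ⟶ Y) (g : Y ⟶ Z) [IsFinite f]
    [IsFinite g] (x : T X), push (f ≫ g) x = push g (push f x)
  /-- base change -/
  bc : ∀ {X' X Y' Y : Scheme.{0}} [IsNoetherian Y] [IsNoetherian Y'] (g' : X' ⟶ X) (f' : X' ⟶ Y')
    (f : X ⟶ Y) (g : Y' ⟶ Y) [Flat g] [IsFinite f] [Flat g'] [IsFinite f'],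
    IsPullback g' f' f g → ∀ x : T X, pull g (push f x) = push f' (pull g' x)
  /-- exactness in the middle -/
  ex : ∀ {Z X U : Scheme.{0}} [IsNoetherian X] (i : Z ⟶ X) (j : U ⟶ X) [IsClosedImmersion i]
    [IsOpenImmersion j], Set.range i = (Set.range j)ᶜ → ∀ x : T X, pull j x = 0 →
      ∃ z : T Z, push i z = x
  /-- the composition in the exact sequence is zero -/
  ex0 : ∀ {Z X U : Scheme.{0}} [IsNoetherian X] (i : Z ⟶ X) (j : U ⟶ X) [IsClosedImmersion i]
    [IsOpenImmersion j], Set.range i = (Set.range j)ᶜ → ∀ z : T Z, pull j (push i z) = 0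
  /-- devissage -/
  dev : ∀ {Z X : Scheme.{0}} [IsNoetherian X] (i : Z ⟶ X) [IsClosedImmersion i],
    Function.Surjective i → Function.Injective (push i)
  /-- homotopy invariance -/
  hom : ∀ {X Y : Scheme.{0}} [IsNoetherian X] (R : Type) [CommRing R] (f : Y ⟶ X)
    (g : Y ⟶ Spec (CommRingCat.of (Polynomial R))) (h : X ⟶ Spec (CommRingCat.of R)) [Flat f],
    IsPullback f g h (Spec.map (CommRingCat.ofHom (Polynomial.C : R →+* Polynomial R))) →
      Function.Bijective (pull f)
  /-- free algebras -/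
  free : ∀ {X Y : Scheme.{0}} [IsNoetherian X] (R R' : Type) [CommRing R] [CommRing R']
    [Algebra R R'] (d : ℕ) (_ : Module.Basis (Fin d) R R') (f : Y ⟶ X)
    (g : Y ⟶ Spec (CommRingCat.of R')) (h : X ⟶ Spec (CommRingCat.of R)) [Flat f] [IsFinite f],
    IsPullback f g h (Spec.map (CommRingCat.ofHom (algebraMap R R'))) →
      ∀ x : T X, push f (pull f x) = d • x

attribute [instance] STh.grp

/-- A graded theory: theories `T_n`, `n ∈ ℤ`, with boundary maps `T_(n+1) U → T_n Z` for closed
subschemes `Z` with open complement `U`, such that the localization sequences are exact and commute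
with flat pull-backs. -/
structure LThy where
  /-- the theories -/
  th : ℤ → STh.{u}
  /-- the boundary maps -/
  bd : ∀ (n : ℤ) {Z X U : Scheme.{0}} (i : Z ⟶ X) (j : U ⟶ X) [IsClosedImmersion i]
    [IsOpenImmersion j], (th (n + 1)).T U →+ (th n).T Z
  bd_pull : ∀ (n : ℤ) {Z X U : Scheme.{0}} [IsNoetherian X] (i : Z ⟶ X) (j : U ⟶ X)
    [IsClosedImmersion i] [IsOpenImmersion j], Set.range i = (Set.range j)ᶜ →
    ∀ x : (th (n + 1)).T X, bd n i j ((th (n + 1)).pull j x) = 0
  exU : ∀ (n : ℤ) {Z X U : Scheme.{0}} [IsNoetherian X] (i : Z ⟶ X) (j : U ⟶ X)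
    [IsClosedImmersion i] [IsOpenImmersion j], Set.range i = (Set.range j)ᶜ →
    ∀ u : (th (n + 1)).T U, bd n i j u = 0 → ∃ x : (th (n + 1)).T X, (th (n + 1)).pull j x = u
  push_bd : ∀ (n : ℤ) {Z X U : Scheme.{0}} [IsNoetherian X] (i : Z ⟶ X) (j : U ⟶ X)
    [IsClosedImmersion i] [IsOpenImmersion j], Set.range i = (Set.range j)ᶜ →
    ∀ u : (th (n + 1)).T U, (th n).push i (bd n i j u) = 0
  exZ : ∀ (n : ℤ) {Z X U : Scheme.{0}} [IsNoetherian X] (i : Z ⟶ X) (j : U ⟶ X)
    [IsClosedImmersion i] [IsOpenImmersion j], Set.range i = (Set.range j)ᶜ →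
    ∀ z : (th n).T Z, (th n).push i z = 0 → ∃ u : (th (n + 1)).T U, bd n i j u = z
  /-- the boundary commutes with flat pull-backs -/
  nat : ∀ (n : ℤ) {Z X U Z' X' U' : Scheme.{0}} [IsNoetherian X] [IsNoetherian X'] (i : Z ⟶ X)
    (j : U ⟶ X) (i' : Z' ⟶ X') (j' : U' ⟶ X') (a : Z' ⟶ Z) (g : X' ⟶ X) (b : U' ⟶ U)
    [IsClosedImmersion i] [IsOpenImmersion j] [IsClosedImmersion i'] [IsOpenImmersion j']
    [Flat a] [Flat g] [Flat b], Set.range i = (Set.range j)ᶜ → IsPullback a i' i g →
    IsPullback b j' j g → ∀ u : (th (n + 1)).T U,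
      (th n).pull a (bd n i j u) = bd n i' j' ((th (n + 1)).pull b u)

/-- multiplication by `p` is bijective on all groups -/
def LThy.PInv (L : LThy.{u}) (p : ℕ) : Prop :=
  ∀ (n : ℤ) (X : Scheme.{0}), Function.Bijective fun x : (L.th n).T X => p • x

/-! ### graded theories on rings: data and axioms -/

/-- The data of a graded theory on rings: `pl f` is the pull-back for flat `f`, `pu f` the
push-forward for finite `f`, `bd π l` the boundary for `π : A → A / s`, `l : A → A[1/s]`. -/
structure RD where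
  T : ℤ → (A : Type) → [CommRing A] → Type u
  grp : ∀ (n : ℤ) (A : Type) [CommRing A], AddCommGroup (T n A)
  pl : ∀ (n : ℤ) {A B : Type} [CommRing A] [CommRing B], (A →+* B) → T n A →+ T n B
  pu : ∀ (n : ℤ) {A B : Type} [CommRing A] [CommRing B], (A →+* B) → T n B →+ T n A
  bd : ∀ (n : ℤ) {A C V : Type} [CommRing A] [CommRing C] [CommRing V], (A →+* C) → (A →+* V) →
    T (n + 1) V →+ T n C

attribute [instance] RD.grp

/-- `V` is `A[1/s]` -/
def IsLoc {A V : Type} [CommRing A] [CommRing V] (s : A) (l : A →+* V) : Prop :=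
  @IsLocalization.Away A _ s V _ l.toAlgebra

/-- the axioms -/
structure RD.Ax (R : RD.{u}) : Prop where
  pl_id : ∀ (n : ℤ) (A : Type) [CommRing A] [IsNoetherianRing A] (x : R.T n A),
    R.pl n (RingHom.id A) x = x
  pl_comp : ∀ (n : ℤ) {A B C : Type} [CommRing A] [CommRing B] [CommRing C] [IsNoetherianRing A]
    [IsNoetherianRing B] [IsNoetherianRing C] (f : A →+* B) (g : B →+* C), f.Flat → g.Flat →
    ∀ x : R.T n A, R.pl n (g.comp f) x = R.pl n g (R.pl n f x)
  pu_id : ∀ (n : ℤ) (A : Type) [CommRing A] [IsNoetherianRing A] (x : R.T n A),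
    R.pu n (RingHom.id A) x = x
  pu_comp : ∀ (n : ℤ) {A B C : Type} [CommRing A] [CommRing B] [CommRing C] [IsNoetherianRing A]
    (f : A →+* B) (g : B →+* C), f.Finite → g.Finite → ∀ x : R.T n C,
      R.pu n (g.comp f) x = R.pu n f (R.pu n g x)
  bc : ∀ (n : ℤ) {A B A' B' : Type} [CommRing A] [CommRing B] [CommRing A'] [CommRing B']
    [IsNoetherianRing A] [IsNoetherianRing A'] (f : A →+* B) (g : A →+* A') (g' : B →+* B')
    (f' : A' →+* B'), f.Finite → g.Flat →
    IsPushout (CommRingCat.ofHom f) (CommRingCat.ofHom g) (CommRingCat.ofHom g')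
      (CommRingCat.ofHom f') → ∀ x : R.T n B, R.pl n g (R.pu n f x) = R.pu n f' (R.pl n g' x)
  ex : ∀ (n : ℤ) {A C V : Type} [CommRing A] [IsNoetherianRing A] [CommRing C] [CommRing V]
    (s : A) (π : A →+* C) (l : A →+* V), Function.Surjective π →
    RingHom.ker π = Ideal.span {s} → IsLoc s l → ∀ x : R.T n A, R.pl n l x = 0 →
      ∃ z : R.T n C, R.pu n π z = x
  exZ : ∀ (n : ℤ) {A C V : Type} [CommRing A] [IsNoetherianRing A] [CommRing C] [CommRing V]
    (s : A) (π : A →+* C) (l : A →+* V), Function.Surjective π →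
    RingHom.ker π = Ideal.span {s} → IsLoc s l → ∀ z : R.T n C, R.pu n π z = 0 →
      ∃ u : R.T (n + 1) V, R.bd n π l u = z
  /-- naturality for automorphisms -/
  nat : ∀ (n : ℤ) {A C V : Type} [CommRing A] [IsNoetherianRing A] [CommRing C] [CommRing V]
    (s : A) (π : A →+* C) (l : A →+* V), Function.Surjective π →
    RingHom.ker π = Ideal.span {s} → IsLoc s l → ∀ (α : A ≃+* A) (γ : C ≃+* C) (β : V ≃+* V),
      (∀ a, γ (π a) = π (α a)) → (∀ a, β (l a) = l (α a)) → ∀ u : R.T (n + 1) V,
        R.pl n (γ : C →+* C) (R.bd n π l u) = R.bd n π l (R.pl (n + 1) (β : V →+* V) u)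
  hom : ∀ (n : ℤ) (A : Type) [CommRing A] [IsNoetherianRing A],
    Function.Bijective (R.pl n (Polynomial.C : A →+* Polynomial A))
  free : ∀ (n : ℤ) (A B : Type) [CommRing A] [IsNoetherianRing A] [CommRing B] [Algebra A B]
    (d : ℕ) (_ : Module.Basis (Fin d) A B) (x : R.T n A),
      R.pu n (algebraMap A B) (R.pl n (algebraMap A B) x) = d • x
  dev : ∀ (n : ℤ) {A C : Type} [CommRing A] [IsNoetherianRing A] [CommRing C] (π : A →+* C),
    Function.Surjective π → (∀ a ∈ RingHom.ker π, IsNilpotent a) → Function.Bijective (R.pu n π)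
  zero : ∀ (n : ℤ) (A : Type) [CommRing A] [Subsingleton A] (x : R.T n A), x = 0
  /-- finite products -/
  prod : ∀ (n : ℤ) {I : Type} [Fintype I] {C : Type} [CommRing C] [IsNoetherianRing C]
    {D : I → Type} [∀ i, CommRing (D i)] (π : ∀ i, C →+* D i),
    Function.Bijective (fun (c : C) (i : I) => π i c) →
      (∀ x : R.T n C, x = ∑ i, R.pu n (π i) (R.pl n (π i) x)) ∧
      ∀ (i : I) (z : R.T n (D i)), R.pl n (π i) (R.pu n (π i) z) = z

/-- multiplication by `p` is bijective on all groups -/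
def RD.PInv (R : RD.{u}) (p : ℕ) : Prop :=
  ∀ (n : ℤ) (A : Type) [CommRing A], Function.Bijective fun x : R.T n A => p • x

open Classical in
/-- the restriction of a graded theory to affine schemes -/
noncomputable def LThy.toR (L : LThy.{u}) : RD.{u} where
  T n A _ := (L.th n).T (Sp A)
  grp n A _ := (L.th n).grp (Sp A)
  pl n A B _ _ f := if h : Flat (Sm f) then (haveI := h; (L.th n).pull (Sm f)) else 0
  pu n A B _ _ f := if h : IsFinite (Sm f) then (haveI := h; (L.th n).push (Sm f)) else 0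
  bd n A C V _ _ _ π l := if h : IsClosedImmersion (Sm π) ∧ IsOpenImmersion (Sm l) then
    (haveI := h.1; haveI := h.2; L.bd n (Sm π) (Sm l)) else 0

/-! ### the part `P` -/

/-- The kernel of the push-forward `T_n (A[y] / (y ^ q + y - h)) → T_n A`. -/
noncomputable def RD.P (R : RD.{u}) (n : ℤ) (q : ℕ) {A : Type} [CommRing A] (h : A) :
    AddSubgroup (R.T n (AS1 q A h)) :=
  (R.pu n (algebraMap A (AS1 q A h))).ker

end Pool.Agent.KTX
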