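import Pool.Agent.KTX.St

/-!
# KTX, module R0: the restriction of a graded theory to affine schemes

Statement: see `St_R0` in `Pool/Agent/KTX/St.lean`.
-/

set_option autoImplicit false
set_option linter.style.haveILetI false

namespace Pool.Agent.KTX

open CategoryTheory AlgebraicGeometry

universe u

namespace R0

/-! ### Spec -/

theorem Sm_comp {R S U : Type} [CommRing R] [CommRing S] [CommRing U] (φ : R →+* S)
    (ψ : S →+* U) : Sm ψ ≫ Sm φ = Sm (ψ.comp φ) := by
  rw [← Spec.map_comp]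
  rfl

theorem Sm_id (R : Type) [CommRing R] : Sm (RingHom.id R) = 𝟙 (Sp R) := Spec.map_id _

theorem flat_Sm {R S : Type} [CommRing R] [CommRing S] {φ : R →+* S} (h : φ.Flat) :
    Flat (Sm φ) := by
  rw [Flat.SpecMap_iff]
  exact h

theorem finite_Sm {R S : Type} [CommRing R] [CommRing S] {φ : R →+* S} (h : φ.Finite) :
    IsFinite (Sm φ) := by
  rw [IsFinite.SpecMap_iff]
  exact h

theorem closed_Sm {R S : Type} [CommRing R] [CommRing S] {φ : R →+* S}
    (h : Function.Surjective φ) : IsClosedImmersion (Sm φ) :=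
  IsClosedImmersion.spec_of_surjective _ h

theorem open_Sm {A V : Type} [CommRing A] [CommRing V] {s : A} {l : A →+* V}
    (h : IsLoc s l) : IsOpenImmersion (Sm l) := by
  letI : Algebra A V := l.toAlgebra
  haveI : IsLocalization.Away s V := h
  exact IsOpenImmersion.of_isLocalization s

theorem iso_Sm {R S : Type} [CommRing R] [CommRing S] (e : R ≃+* S) :
    IsIso (Sm (e : R →+* S)) := by
  haveI : IsIso (CommRingCat.ofHom (e : R →+* S)) := e.toCommRingCatIso.isIso_hom
  infer_instance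

theorem range_Sm {A C V : Type} [CommRing A] [CommRing C] [CommRing V] {s : A} {π : A →+* C}
    {l : A →+* V} (hπ : Function.Surjective π) (hk : RingHom.ker π = Ideal.span {s})
    (hl : IsLoc s l) : Set.range (Sm π) = (Set.range (Sm l))ᶜ := by
  letI : Algebra A V := l.toAlgebra
  haveI : IsLocalization.Away s V := hl
  have e1 : Set.range (Sm π) = PrimeSpectrum.zeroLocus {s} := by
    refine (range_comap_of_surjective _ π hπ).trans ?_
    rw [hk, PrimeSpectrum.zeroLocus_span]
  have e2 : Set.range (Sm l) = (PrimeSpectrum.basicOpen s : Set (PrimeSpectrum A)) :=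
    PrimeSpectrum.localization_away_comap_range V s
  have e3 : (PrimeSpectrum.zeroLocus {s} : Set (PrimeSpectrum A)) =
      (PrimeSpectrum.basicOpen s : Set (PrimeSpectrum A))ᶜ := by
    rw [PrimeSpectrum.basicOpen_eq_zeroLocus_compl, compl_compl]
  exact e1.trans (e3.trans (congrArg _ e2.symm))

/-! ### noetherian schemes -/

theorem noeth_fin {X Y : Scheme.{0}} (f : X ⟶ Y) [IsNoetherian Y] [IsFinite f] :
    IsNoetherian X :=
  { __ := LocallyOfFiniteType.isLocallyNoetherian f
    toCompactSpace := QuasiCompact.compactSpace_of_compactSpace f }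

theorem noeth_open {X Y : Scheme.{0}} (f : X ⟶ Y) [IsNoetherian Y] [IsOpenImmersion f] :
    IsNoetherian X :=
  { __ := isLocallyNoetherian_of_isOpenImmersion f
    toCompactSpace := by
      have : TopologicalSpace.NoetherianSpace X :=
        f.isOpenEmbedding.isInducing.noetherianSpace
      infer_instance }

theorem noeth_empty (X : Scheme.{0}) (h : IsEmpty X) : IsNoetherian X :=
  noeth_open (specZIsTerminal.from X)

/-! ### theories on schemes -/

theorem pull_congr (T : STh.{u}) {X Y : Scheme.{0}} {f g : X ⟶ Y} [Flat f] [Flat g] (h : f = g)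
    (x : T.T Y) : T.pull f x = T.pull g x := by
  subst h
  rfl

theorem push_congr (T : STh.{u}) {X Y : Scheme.{0}} {f g : X ⟶ Y} [IsFinite f] [IsFinite g]
    (h : f = g) (x : T.T X) : T.push f x = T.push g x := by
  subst h
  rfl

theorem pull_push_mono (T : STh.{u}) {X Y : Scheme.{0}} (f : X ⟶ Y) [IsNoetherian Y]
    [IsFinite f] [Flat f] [Mono f] (x : T.T X) : T.pull f (T.push f x) = x := by
  have := noeth_fin f
  rw [T.bc (𝟙 X) (𝟙 X) f f (IsKernelPair.id_of_mono f) x, T.pull_id, T.push_id]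

theorem empty (T : STh.{u}) (X : Scheme.{0}) (h : IsEmpty X) (x : T.T X) : x = 0 := by
  have := noeth_empty X h
  have h0 := T.ex0 (𝟙 X) (𝟙 X) (by ext a; exact h.elim a) x
  rwa [T.push_id, T.pull_id] at h0

theorem surj (T : STh.{u}) (Z X : Scheme.{0}) [IsNoetherian X] (i : Z ⟶ X)
    [IsClosedImmersion i] (hi : Function.Surjective i) : Function.Bijective (T.push i) := by
  refine ⟨T.dev i hi, fun x => ?_⟩
  refine T.ex i (⊥ : X.Opens).ι ?_ x (empty T _ ?_ _)
  · rw [hi.range_eq]
    simp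
  · exact inferInstanceAs (IsEmpty (∅ : Set X))

theorem clopen_step (T : STh.{u}) {X A : Scheme.{0}} [IsNoetherian X] (a : A ⟶ X)
    [IsClosedImmersion a] [IsOpenImmersion a] (y : T.T X) (hy : T.pull a y = 0)
    {Z : Scheme.{0}} (i : Z ⟶ X) [IsClosedImmersion i] [IsOpenImmersion i] (z : T.T Z)
    (hz : T.push i z = y) :
    ∃ (Z' : Scheme.{0}) (i' : Z' ⟶ X) (_ : IsClosedImmersion i') (_ : IsOpenImmersion i')
      (z' : T.T Z'), Set.range i' = Set.range i ∩ (Set.range a)ᶜ ∧ T.push i' z' = y := by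
  have hZ := noeth_open i
  have hA := noeth_open a
  let P := Limits.pullback i a
  let f : P ⟶ Z := Limits.pullback.fst i a
  let g : P ⟶ A := Limits.pullback.snd i a
  have hP : IsNoetherian P := noeth_open f
  have e1 : T.pull i y = z := by rw [← hz]; exact pull_push_mono T i z
  have e2 : T.pull f z = 0 := by
    rw [← e1, ← T.pull_comp f i y]
    have : f ≫ i = g ≫ a := Limits.pullback.condition
    simp only [this]
    rw [T.pull_comp g a y, hy, map_zero]
  let W : Z.Opens := ⟨(Set.range f)ᶜ, f.isClosedEmbedding.isClosed_range.isOpen_compl⟩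
  have hW : IsClosedImmersion W.ι := by
    refine IsClosedImmersion.of_isPreimmersion _ ?_
    rw [Scheme.Opens.range_ι]
    exact f.isOpenEmbedding.isOpen_range.isClosed_compl
  have hr : Set.range W.ι = (Set.range f)ᶜ := Scheme.Opens.range_ι W
  obtain ⟨w, hw⟩ := T.ex W.ι f hr z e2
  refine ⟨W, W.ι ≫ i, inferInstance, inferInstance, w, ?_, ?_⟩
  · have hf : Set.range f = i ⁻¹' Set.range a := Scheme.Pullback.range_fst i a
    rw [hf] at hr
    have hc : ∀ x, (W.ι ≫ i) x = i (W.ι x) := fun x => by simp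
    ext x
    constructor
    · rintro ⟨w, rfl⟩
      rw [hc]
      exact ⟨⟨_, rfl⟩, fun hx => (hr ▸ Set.mem_range_self w : W.ι w ∈ (i ⁻¹' Set.range a)ᶜ) hx⟩
    · rintro ⟨⟨z, rfl⟩, hx⟩
      have : z ∈ Set.range W.ι := by
        rw [hr]
        exact hx
      obtain ⟨w, rfl⟩ := this
      exact ⟨w, hc w⟩
  · rw [T.push_comp W.ι i w, hw, hz]

theorem cover (T : STh.{u}) {X : Scheme.{0}} [IsNoetherian X] {I : Type} [Finite I]
    (A : I → Scheme.{0}) (a : ∀ i, A i ⟶ X) [∀ i, IsClosedImmersion (a i)]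
    [∀ i, IsOpenImmersion (a i)] (hc : ∀ x : X, ∃ i, x ∈ Set.range (a i)) (y : T.T X)
    (hy : ∀ i, T.pull (a i) y = 0) : y = 0 := by
  classical
  cases nonempty_fintype I
  have key : ∀ s : Finset I, ∃ (Z : Scheme.{0}) (i : Z ⟶ X) (_ : IsClosedImmersion i)
      (_ : IsOpenImmersion i) (z : T.T Z), (∀ j ∈ s, ∀ x ∈ Set.range i, x ∉ Set.range (a j)) ∧
        T.push i z = y := by
    intro s
    induction s using Finset.induction_on with
    | empty =>
      exact ⟨X, 𝟙 X, inferInstance, inferInstance, y, by simp, T.push_id X y⟩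
    | insert j s hj ih =>
      obtain ⟨Z, i, h1, h2, z, h3, h4⟩ := ih
      obtain ⟨Z', i', h1', h2', z', h3', h4'⟩ := clopen_step T (a j) y (hy j) i z h4
      refine ⟨Z', i', h1', h2', z', ?_, h4'⟩
      intro k hk x hx
      rw [h3'] at hx
      rcases Finset.mem_insert.1 hk with rfl | hk
      · exact hx.2
      · exact h3 k hk x hx.1
  obtain ⟨Z, i, h1, h2, z, h3, h4⟩ := key Finset.univ
  have hZ : IsEmpty Z := ⟨fun x => by
    obtain ⟨j, hj⟩ := hc (i x)
    exact h3 j (Finset.mem_univ j) _ ⟨x, rfl⟩ hj⟩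
  rw [← h4, empty T Z hZ z, map_zero]

theorem disj (T : STh.{u}) {X A B : Scheme.{0}} [IsNoetherian X] [IsNoetherian B] (a : A ⟶ X)
    (b : B ⟶ X) [IsFinite a] [Flat b] (h : ∀ x y, a x ≠ b y) (z : T.T A) :
    T.pull b (T.push a z) = 0 := by
  let P := Limits.pullback a b
  let f : P ⟶ A := Limits.pullback.fst a b
  let g : P ⟶ B := Limits.pullback.snd a b
  have hP : IsEmpty P := ⟨fun x => h (f x) (g x) (by
    have : f ≫ a = g ≫ b := Limits.pullback.condition
    rw [← Scheme.Hom.comp_apply, ← Scheme.Hom.comp_apply, this])⟩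
  rw [T.bc f g a b (IsPullback.of_hasPullback a b) z, empty T P hP (T.pull f z), map_zero]

/-! ### the operations -/

variable (L : LThy.{u}) (n : ℤ)

open Classical in
/-- the pull-back -/
noncomputable def pl {A B : Type} [CommRing A] [CommRing B] (f : A →+* B) :
    (L.th n).T (Sp A) →+ (L.th n).T (Sp B) :=
  if h : Flat (Sm f) then (haveI := h; (L.th n).pull (Sm f)) else 0

open Classical in
/-- the push-forward -/
noncomputable def pu {A B : Type} [CommRing A] [CommRing B] (f : A →+* B) :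
    (L.th n).T (Sp B) →+ (L.th n).T (Sp A) :=
  if h : IsFinite (Sm f) then (haveI := h; (L.th n).push (Sm f)) else 0

open Classical in
/-- the boundary -/
noncomputable def bd {A C V : Type} [CommRing A] [CommRing C] [CommRing V] (π : A →+* C)
    (l : A →+* V) : (L.th (n + 1)).T (Sp V) →+ (L.th n).T (Sp C) :=
  if h : IsClosedImmersion (Sm π) ∧ IsOpenImmersion (Sm l) then
    (haveI := h.1; haveI := h.2; L.bd n (Sm π) (Sm l)) else 0

theorem pl_eq {A B : Type} [CommRing A] [CommRing B] (f : A →+* B) [h : Flat (Sm f)] :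
    pl L n f = (L.th n).pull (Sm f) :=
  dif_pos h

theorem pu_eq {A B : Type} [CommRing A] [CommRing B] (f : A →+* B) [h : IsFinite (Sm f)] :
    pu L n f = (L.th n).push (Sm f) :=
  dif_pos h

theorem bd_eq {A C V : Type} [CommRing A] [CommRing C] [CommRing V] (π : A →+* C) (l : A →+* V)
    [h1 : IsClosedImmersion (Sm π)] [h2 : IsOpenImmersion (Sm l)] :
    bd L n π l = L.bd n (Sm π) (Sm l) :=
  dif_pos ⟨h1, h2⟩

/-! ### the axioms -/

theorem ax_pl_id (A : Type) [CommRing A] [IsNoetherianRing A] (x : (L.th n).T (Sp A)) :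
    pl L n (RingHom.id A) x = x := by
  haveI : Flat (Sm (RingHom.id A)) := flat_Sm (RingHom.Flat.id A)
  rw [pl_eq, pull_congr _ (Sm_id A)]
  exact (L.th n).pull_id _ x

theorem ax_pl_comp {A B C : Type} [CommRing A] [CommRing B] [CommRing C] [IsNoetherianRing A]
    [IsNoetherianRing B] [IsNoetherianRing C] (f : A →+* B) (g : B →+* C) (hf : f.Flat) (hg : g.Flat) (x : (L.th n).T (Sp A)) :
    pl L n (g.comp f) x = pl L n g (pl L n f x) := by
  haveI := flat_Sm hf
  haveI := flat_Sm hg
  haveI : Flat (Sm (g.comp f)) := by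
    rw [← Sm_comp]
    infer_instance
  rw [pl_eq, pl_eq, pl_eq, pull_congr _ (Sm_comp f g).symm]
  exact (L.th n).pull_comp _ _ x

theorem ax_pu_id (A : Type) [CommRing A] [IsNoetherianRing A] (x : (L.th n).T (Sp A)) :
    pu L n (RingHom.id A) x = x := by
  haveI : IsFinite (Sm (RingHom.id A)) := finite_Sm (RingHom.Finite.id A)
  rw [pu_eq, push_congr _ (Sm_id A)]
  exact (L.th n).push_id _ x

theorem ax_pu_comp {A B C : Type} [CommRing A] [CommRing B] [CommRing C] [IsNoetherianRing A]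
    (f : A →+* B) (g : B →+* C) (hf : f.Finite) (hg : g.Finite) (x : (L.th n).T (Sp C)) :
    pu L n (g.comp f) x = pu L n f (pu L n g x) := by
  haveI := finite_Sm hf
  haveI := finite_Sm hg
  haveI : IsFinite (Sm (g.comp f)) := by
    rw [← Sm_comp]
    infer_instance
  rw [pu_eq, pu_eq, pu_eq, push_congr _ (Sm_comp f g).symm]
  exact (L.th n).push_comp _ _ x

theorem ax_bc {A B A' B' : Type} [CommRing A] [CommRing B] [CommRing A'] [CommRing B']
    [IsNoetherianRing A] [IsNoetherianRing A'] (f : A →+* B) (g : A →+* A') (g' : B →+* B') (f' : A' →+* B') (hf : f.Finite) (hg : g.Flat)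
    (h : IsPushout (CommRingCat.ofHom f) (CommRingCat.ofHom g) (CommRingCat.ofHom g')
      (CommRingCat.ofHom f')) (x : (L.th n).T (Sp B)) :
    pl L n g (pu L n f x) = pu L n f' (pl L n g' x) := by
  haveI h1 := finite_Sm hf
  haveI h2 := flat_Sm hg
  have hsq : IsPullback (Sm g') (Sm f') (Sm f) (Sm g) :=
    isPullback_SpecMap_of_isPushout _ _ _ _ h
  haveI : Flat (Sm g') := MorphismProperty.of_isPullback hsq.flip h2
  haveI : IsFinite (Sm f') := MorphismProperty.of_isPullback hsq h1
  rw [pl_eq, pu_eq, pu_eq, pl_eq]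
  exact (L.th n).bc _ _ _ _ hsq x

theorem ax_ex {A C V : Type} [CommRing A] [IsNoetherianRing A] [CommRing C] [CommRing V]
    (s : A) (π : A →+* C) (l : A →+* V) (hπ : Function.Surjective π)
    (hk : RingHom.ker π = Ideal.span {s}) (hl : IsLoc s l) (x : (L.th n).T (Sp A))
    (hx : pl L n l x = 0) : ∃ z : (L.th n).T (Sp C), pu L n π z = x := by
  haveI := closed_Sm hπ
  haveI := open_Sm hl
  rw [pl_eq] at hx
  rw [pu_eq]
  exact (L.th n).ex (Sm π) (Sm l) (range_Sm hπ hk hl) x hx

theorem ax_exZ {A C V : Type} [CommRing A] [IsNoetherianRing A] [CommRing C] [CommRing V]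
    (s : A) (π : A →+* C) (l : A →+* V) (hπ : Function.Surjective π)
    (hk : RingHom.ker π = Ideal.span {s}) (hl : IsLoc s l) (z : (L.th n).T (Sp C))
    (hz : pu L n π z = 0) : ∃ u : (L.th (n + 1)).T (Sp V), bd L n π l u = z := by
  haveI := closed_Sm hπ
  haveI := open_Sm hl
  rw [pu_eq] at hz
  rw [bd_eq]
  exact L.exZ n (Sm π) (Sm l) (range_Sm hπ hk hl) z hz

theorem ax_nat {A C V : Type} [CommRing A] [IsNoetherianRing A] [CommRing C] [CommRing V]
    (s : A) (π : A →+* C) (l : A →+* V) (hπ : Function.Surjective π)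
    (hk : RingHom.ker π = Ideal.span {s}) (hl : IsLoc s l) (α : A ≃+* A) (γ : C ≃+* C)
    (β : V ≃+* V) (h1 : ∀ a, γ (π a) = π (α a)) (h2 : ∀ a, β (l a) = l (α a))
    (u : (L.th (n + 1)).T (Sp V)) :
    pl L n (γ : C →+* C) (bd L n π l u) = bd L n π l (pl L (n + 1) (β : V →+* V) u) := by
  haveI := closed_Sm hπ
  haveI := open_Sm hl
  haveI := iso_Sm α
  haveI := iso_Sm γ
  haveI := iso_Sm β
  rw [pl_eq, bd_eq, pl_eq]
  refine L.nat n (Sm π) (Sm l) (Sm π) (Sm l) (Sm (γ : C →+* C)) (Sm (α : A →+* A))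
    (Sm (β : V →+* V)) (range_Sm hπ hk hl) (IsPullback.of_horiz_isIso ⟨?_⟩)
    (IsPullback.of_horiz_isIso ⟨?_⟩) u
  · rw [Sm_comp, Sm_comp]
    exact congrArg (fun φ : A →+* C => Sm φ) (RingHom.ext h1)
  · rw [Sm_comp, Sm_comp]
    exact congrArg (fun φ : A →+* V => Sm φ) (RingHom.ext h2)

theorem ax_hom (A : Type) [CommRing A] [IsNoetherianRing A] :
    Function.Bijective (pl L n (Polynomial.C : A →+* Polynomial A)) := by
  haveI hf : Flat (Sm (Polynomial.C : A →+* Polynomial A)) := by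
    refine flat_Sm ?_
    have h : (algebraMap A (Polynomial A)).Flat :=
      RingHom.flat_algebraMap_iff.2 inferInstance
    exact h
  rw [pl_eq]
  exact (L.th n).hom A (Sm (Polynomial.C : A →+* Polynomial A)) (𝟙 _) (𝟙 _)
    (IsPullback.of_vert_isIso ⟨by simp⟩)

theorem ax_free (A B : Type) [CommRing A] [IsNoetherianRing A] [CommRing B] [Algebra A B] (d : ℕ)
    (b : Module.Basis (Fin d) A B) (x : (L.th n).T (Sp A)) :
    pu L n (algebraMap A B) (pl L n (algebraMap A B) x) = d • x := by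
  haveI : Module.Finite A B := Module.Finite.of_basis b
  haveI : Module.Free A B := Module.Free.of_basis b
  haveI hf : Flat (Sm (algebraMap A B)) := flat_Sm (RingHom.flat_algebraMap_iff.2 inferInstance)
  haveI hF : IsFinite (Sm (algebraMap A B)) :=
    finite_Sm (RingHom.finite_algebraMap.2 inferInstance)
  rw [pu_eq, pl_eq]
  exact (L.th n).free A B d b (Sm (algebraMap A B)) (𝟙 _) (𝟙 _)
    (IsPullback.of_vert_isIso ⟨by simp⟩) x

theorem ax_dev {A C : Type} [CommRing A] [IsNoetherianRing A] [CommRing C] (π : A →+* C)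
    (hπ : Function.Surjective π) (hk : ∀ a ∈ RingHom.ker π, IsNilpotent a) :
    Function.Bijective (pu L n π) := by
  haveI := closed_Sm hπ
  have hs : Function.Surjective (Sm π) := by
    have e1 : Set.range (Sm π) = PrimeSpectrum.zeroLocus (RingHom.ker π) :=
      range_comap_of_surjective _ π hπ
    rw [← Set.range_eq_univ, e1]
    refine Set.eq_univ_of_forall fun y => ?_
    intro a ha
    obtain ⟨m, hm⟩ := hk a ha
    exact y.2.mem_of_pow_mem m (by rw [hm]; exact y.asIdeal.zero_mem)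
  rw [pu_eq]
  exact surj (L.th n) _ _ (Sm π) hs

theorem ax_zero (A : Type) [CommRing A] [Subsingleton A] (x : (L.th n).T (Sp A)) : x = 0 :=
  empty (L.th n) (Sp A) (inferInstanceAs (IsEmpty (PrimeSpectrum A))) x

theorem ax_prod {I : Type} [Fintype I] {C : Type} [CommRing C] [IsNoetherianRing C]
    {D : I → Type} [∀ i, CommRing (D i)] (π : ∀ i, C →+* D i)
    (h : Function.Bijective (fun (c : C) (i : I) => π i c)) :
    (∀ x : (L.th n).T (Sp C), x = ∑ i, pu L n (π i) (pl L n (π i) x)) ∧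
      ∀ (i : I) (z : (L.th n).T (Sp (D i))), pl L n (π i) (pu L n (π i) z) = z := by
  classical
  let e : C ≃+* (∀ i, D i) := RingEquiv.ofBijective (RingHom.pi π) h
  have he : ∀ i, (Pi.evalRingHom D i).comp (e : C →+* (∀ i, D i)) = π i := fun i => rfl
  haveI := iso_Sm e
  haveI h1 : ∀ i, IsClosedImmersion (Sm (π i)) := fun i => closed_Sm (by
    rw [← he i]
    exact (Function.surjective_eval i).comp e.surjective)
  haveI h0 : ∀ i, IsOpenImmersion (Sm (Pi.evalRingHom D i)) := fun i =>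
    (inferInstance : IsOpenImmersion (Spec.map (CommRingCat.ofHom (Pi.evalRingHom D i))))
  haveI h2 : ∀ i, IsOpenImmersion (Sm (π i)) := fun i => by
    rw [← he i, ← Sm_comp]
    infer_instance
  have hN : IsNoetherian (Sp C) := inferInstance
  have hD : ∀ i, IsNoetherian (Sp (D i)) := fun i => noeth_open (Sm (π i))
  have key : ∀ (i : I) (z : (L.th n).T (Sp (D i))), pl L n (π i) (pu L n (π i) z) = z := by
    intro i z
    rw [pu_eq, pl_eq]
    exact pull_push_mono (L.th n) (Sm (π i)) z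
  refine ⟨fun x => ?_, key⟩
  refine sub_eq_zero.1 (cover (L.th n) (fun i => Sp (D i)) (fun i => Sm (π i)) ?_ _ ?_)
  · intro y
    obtain ⟨y', hy'⟩ : ∃ y', (Sm (e : C →+* (∀ i, D i))) y' = y :=
      (Scheme.homeoOfIso (asIso (Sm (e : C →+* (∀ i, D i))))).surjective y
    obtain ⟨i, q, hq⟩ := PrimeSpectrum.exists_comap_evalRingHom_eq (R := D) y'
    have e3 : ∀ q : Sp (D i), (Sm (π i)) q =
        (Sm (e : C →+* (∀ i, D i))) ((Sm (Pi.evalRingHom D i)) q) := by
      intro q
      rw [← Scheme.Hom.comp_apply, Sm_comp, he]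
    exact ⟨i, q, (e3 q).trans ((congrArg _ hq).trans hy')⟩
  · intro j
    rw [← pl_eq L n (π j), map_sub, map_sum, Finset.sum_eq_single j, key, sub_self]
    · intro i _ hij
      rw [pu_eq, pl_eq L n (π j)]
      refine disj (L.th n) _ _ ?_ _
      intro y z hyz
      have e1 : (Sm (e : C →+* (∀ i, D i))) ((Sm (Pi.evalRingHom D i)) y) =
          (Sm (e : C →+* (∀ i, D i))) ((Sm (Pi.evalRingHom D j)) z) := by
        rw [← Scheme.Hom.comp_apply, ← Scheme.Hom.comp_apply, Sm_comp, Sm_comp, he, he]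
        exact hyz
      have e2 := (Scheme.homeoOfIso (asIso (Sm (e : C →+* (∀ i, D i))))).injective e1
      have := @PrimeSpectrum.sigmaToPi_injective _ D _ ⟨i, y⟩ ⟨j, z⟩ e2
      exact hij (congrArg Sigma.fst this)
    · intro hj
      exact absurd (Finset.mem_univ j) hj

end R0

/-- **R0** -/
theorem thm_R0 : St_R0.{u} := fun L =>
  { pl_id := fun n A _ _ x => R0.ax_pl_id L n A x
    pl_comp := fun n _ _ _ _ _ _ _ _ _ f g hf hg x => R0.ax_pl_comp L n f g hf hg x
    pu_id := fun n A _ _ x => R0.ax_pu_id L n A x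
    pu_comp := fun n _ _ _ _ _ _ _ f g hf hg x => R0.ax_pu_comp L n f g hf hg x
    bc := fun n _ _ _ _ _ _ _ _ _ _ f g g' f' hf hg h x => R0.ax_bc L n f g g' f' hf hg h x
    ex := fun n _ _ _ _ _ _ _ s π l h1 h2 h3 x hx => R0.ax_ex L n s π l h1 h2 h3 x hx
    exZ := fun n _ _ _ _ _ _ _ s π l h1 h2 h3 z hz => R0.ax_exZ L n s π l h1 h2 h3 z hz
    nat := fun n _ _ _ _ _ _ _ s π l h1 h2 h3 α γ β h4 h5 u =>
      R0.ax_nat L n s π l h1 h2 h3 α γ β h4 h5 u
    hom := fun n A _ _ => R0.ax_hom L n A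
    free := fun n A B _ _ _ _ d b x => R0.ax_free L n A B d b x
    dev := fun n _ _ _ _ _ π h1 h2 => R0.ax_dev L n π h1 h2
    zero := fun n A _ _ x => R0.ax_zero L n A x
    prod := fun n _ _ _ _ _ _ _ π h => R0.ax_prod L n π h }

end Pool.Agent.KTX
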