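import Pool.Agent.KTX.Defs
import Pool.Agent.HPow.IsoL

/-!
# KTX, module Sq: homomorphisms and pushout squares of the rings `A[y] / (y ^ q + y - h)`
-/

set_option autoImplicit false
set_option linter.unusedSectionVars false
set_option linter.style.haveILetI false

namespace Pool.Agent.KTX

open CategoryTheory Polynomial Function Pool.Agent.HPow

/-! ### pushouts of rings -/

theorem isPushout_of {A B A' B' : Type} [CommRing A] [CommRing B] [CommRing A'] [CommRing B']
    (f : A →+* B) (g : A →+* A') (g' : B →+* B') (f' : A' →+* B')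
    (comm : g'.comp f = f'.comp g)
    (ex : ∀ (D : Type) [CommRing D] (u : B →+* D) (v : A' →+* D), u.comp f = v.comp g →
      ∃ w : B' →+* D, w.comp g' = u ∧ w.comp f' = v)
    (uniq : ∀ (D : Type) [CommRing D] (w w' : B' →+* D), w.comp g' = w'.comp g' →
      w.comp f' = w'.comp f' → w = w') :
    IsPushout (CommRingCat.ofHom f) (CommRingCat.ofHom g) (CommRingCat.ofHom g')
      (CommRingCat.ofHom f') := by
  refine ⟨⟨?_⟩, ⟨Limits.PushoutCocone.IsColimit.mk _ ?_ ?_ ?_ ?_⟩⟩
  · rw [← CommRingCat.ofHom_comp, ← CommRingCat.ofHom_comp, comm]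
  · intro s
    have h := ex s.pt s.inl.hom s.inr.hom (by
      have := s.condition
      exact congrArg CommRingCat.Hom.hom this)
    exact CommRingCat.ofHom h.choose
  · intro s
    have h := ex s.pt s.inl.hom s.inr.hom (by
      have := s.condition
      exact congrArg CommRingCat.Hom.hom this)
    ext x
    exact DFunLike.congr_fun h.choose_spec.1 x
  · intro s
    have h := ex s.pt s.inl.hom s.inr.hom (by
      have := s.condition
      exact congrArg CommRingCat.Hom.hom this)
    ext x
    exact DFunLike.congr_fun h.choose_spec.2 x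
  · intro s m h1 h2
    have h := ex s.pt s.inl.hom s.inr.hom (by
      have := s.condition
      exact congrArg CommRingCat.Hom.hom this)
    have h3 : m.hom = h.choose := by
      refine uniq s.pt _ _ ?_ ?_
      · rw [h.choose_spec.1, ← h1]
        rfl
      · rw [h.choose_spec.2, ← h2]
        rfl
    ext x
    exact DFunLike.congr_fun h3 x

/-! ### the homomorphisms -/

section as

variable {q : ℕ}

/-- the structure map -/
noncomputable abbrev asO (q : ℕ) {A : Type} [CommRing A] (h : A) : A →+* AS1 q A h :=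
  algebraMap A (AS1 q A h)

/-- the root -/
noncomputable abbrev asR (q : ℕ) {A : Type} [CommRing A] (h : A) : AS1 q A h :=
  AdjoinRoot.root _

theorem asR_eq (q : ℕ) {A : Type} [CommRing A] (h : A) :
    asR q h ^ q + asR q h = asO q h h := isol_root q h

theorem as_ext {A B : Type} [CommRing A] [CommRing B] {h : A} {φ ψ : AS1 q A h →+* B}
    (h0 : φ.comp (asO q h) = ψ.comp (asO q h)) (h1 : φ (asR q h) = ψ (asR q h)) : φ = ψ :=
  RingHom.ext fun x => isol_ext1 φ ψ (fun w => DFunLike.congr_fun h0 w) h1 x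

/-- homomorphisms from `A[y] / (y ^ q + y - h)` -/
noncomputable def asL {A B : Type} [CommRing A] [CommRing B] (h : A) (φ : A →+* B) (y : B)
    (e : y ^ q + y = φ h) : AS1 q A h →+* B :=
  AdjoinRoot.lift φ y (by
    rw [eval₂_sub, eval₂_add, eval₂_pow, eval₂_X, eval₂_C, e, sub_self])

theorem asL_O {A B : Type} [CommRing A] [CommRing B] (h : A) (φ : A →+* B) (y : B)
    (e : y ^ q + y = φ h) (a : A) : asL h φ y e (asO q h a) = φ a := AdjoinRoot.lift_of _

theorem asL_comp {A B : Type} [CommRing A] [CommRing B] (h : A) (φ : A →+* B) (y : B)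
    (e : y ^ q + y = φ h) : (asL h φ y e).comp (asO q h) = φ :=
  RingHom.ext fun a => asL_O h φ y e a

theorem asL_R {A B : Type} [CommRing A] [CommRing B] (h : A) (φ : A →+* B) (y : B)
    (e : y ^ q + y = φ h) : asL h φ y e (asR q h) = y := AdjoinRoot.lift_root _

/-- `A[y] / (y ^ q + y - h) → A'[y] / (y ^ q + y - h')`, `y ↦ y + c`, `h' + c ^ q + c = φ h` -/
def AsC (q : ℕ) {A A' : Type} [CommRing A] [CommRing A'] (φ : A →+* A') (h : A) (h' c : A') :
    Prop := (asR q h' + asO q h' c) ^ q + (asR q h' + asO q h' c) = asO q h' (φ h)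

/-- the homomorphism `y ↦ y + c` -/
noncomputable def asH {A A' : Type} [CommRing A] [CommRing A'] (φ : A →+* A') (h : A)
    (h' c : A') (e : AsC q φ h h' c) : AS1 q A h →+* AS1 q A' h' :=
  asL h ((asO q h').comp φ) (asR q h' + asO q h' c) e

theorem asH_O {A A' : Type} [CommRing A] [CommRing A'] (φ : A →+* A') (h : A)
    (h' c : A') (e : AsC q φ h h' c) (a : A) : asH φ h h' c e (asO q h a) = asO q h' (φ a) :=
  asL_O _ _ _ _ _

theorem asH_comp {A A' : Type} [CommRing A] [CommRing A'] (φ : A →+* A') (h : A)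
    (h' c : A') (e : AsC q φ h h' c) : (asH φ h h' c e).comp (asO q h) = (asO q h').comp φ :=
  asL_comp _ _ _ _

theorem asH_R {A A' : Type} [CommRing A] [CommRing A'] (φ : A →+* A') (h : A)
    (h' c : A') (e : AsC q φ h h' c) :
    asH φ h h' c e (asR q h) = asR q h' + asO q h' c := asL_R _ _ _ _

theorem asC_zero {A A' : Type} [CommRing A] [CommRing A'] (φ : A →+* A') (h : A) :
    AsC q φ h (φ h) 0 := by
  unfold AsC
  rw [map_zero, add_zero, asR_eq]

/-- the functoriality homomorphism -/
noncomputable abbrev asM (q : ℕ) {A A' : Type} [CommRing A] [CommRing A'] (φ : A →+* A') (h : A) :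
    AS1 q A h →+* AS1 q A' (φ h) := asH φ h (φ h) 0 (asC_zero φ h)

variable {p m t : ℕ} {k : Type} [Field k]

theorem asC_of (hk : Setg p m q t k) {A A' : Type} [CommRing A] [CommRing A'] [Algebra k A']
    (φ : A →+* A') (h : A) (h' c : A') (e : φ h = h' + (c ^ q + c)) : AsC q φ h h' c := by
  unfold AsC
  rw [hk.add_pow, e, map_add, map_add, map_pow, ← asR_eq]
  ring

/-- The square of `asH` is a pushout. -/
theorem asH_pushout (hk : Setg p m q t k) {A A' : Type} [CommRing A] [CommRing A'] [Algebra k A']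
    (φ : A →+* A') (h : A) (h' c : A') (e : AsC q φ h h' c) (e0 : φ h = h' + (c ^ q + c)) :
    IsPushout (CommRingCat.ofHom (asO q h)) (CommRingCat.ofHom φ)
      (CommRingCat.ofHom (asH φ h h' c e)) (CommRingCat.ofHom (asO q h')) := by
  refine isPushout_of _ _ _ _ (asH_comp φ h h' c e) (fun D _ u v huv => ?_)
    (fun D _ w w' h1 h2 => ?_)
  · letI : Algebra k D := (v.comp (algebraMap k A')).toAlgebra
    have h3 : v (φ h) = u (asO q h h) := (DFunLike.congr_fun huv h).symm
    have h4 : v (φ h) = v h' + (v (c ^ q) + v c) := by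
      rw [e0, map_add, map_add]
    have h9 : (u (asR q h) - v c) ^ q + (u (asR q h) - v c) = v h' := by
      rw [hk.sub_pow (B := D) (u (asR q h)) (v c), ← map_pow, ← map_pow]
      have h10 : u (asR q h ^ q) + u (asR q h) = u (asO q h h) := by
        rw [← map_add, asR_eq]
      linear_combination h10 - h3 + h4
    refine ⟨asL h' v (u (asR q h) - v c) h9, ?_, asL_comp _ _ _ _⟩
    refine as_ext ?_ ?_
    · rw [RingHom.comp_assoc, asH_comp, ← RingHom.comp_assoc, asL_comp, ← huv]
    · show asL h' v _ h9 (asH φ h h' c e (asR q h)) = _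
      rw [asH_R, map_add, asL_R, asL_O]
      ring
  · refine as_ext h2 ?_
    have h3 := DFunLike.congr_fun h1 (asR q h)
    change w (asH φ h h' c e (asR q h)) = w' (asH φ h h' c e (asR q h)) at h3
    rw [asH_R, map_add, map_add] at h3
    have h4 := DFunLike.congr_fun h2 c
    change w (asO q h' c) = w' (asO q h' c) at h4
    rw [h4] at h3
    exact add_right_cancel h3

/-! ### flatness, finiteness -/

theorem asO_monic (hk : Setg p m q t k) {A : Type} [CommRing A] (h : A) :
    (X ^ q + X - C h : A[X]).Monic := by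
  have hdeg : (X - C h : A[X]).degree < (q : ℕ) := by
    refine (degree_X_sub_C_le _).trans_lt ?_
    exact_mod_cast hk.q_two_le
  rw [add_sub_assoc]
  exact monic_X_pow_add hdeg

theorem asO_flat (hk : Setg p m q t k) {A : Type} [CommRing A] (h : A) : (asO q h).Flat := by
  haveI : Module.Free A (AS1 q A h) := (asO_monic hk h).free_adjoinRoot
  exact RingHom.flat_algebraMap_iff.2 inferInstance

theorem asO_finite (hk : Setg p m q t k) {A : Type} [CommRing A] (h : A) :
    (asO q h).Finite := by
  haveI : Module.Finite A (AS1 q A h) := (asO_monic hk h).finite_adjoinRoot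
  exact RingHom.finite_algebraMap.2 inferInstance

theorem as_noeth {A : Type} [CommRing A] [IsNoetherianRing A] (h : A) :
    IsNoetherianRing (AS1 q A h) :=
  isNoetherianRing_of_surjective _ _ (AdjoinRoot.mk _) AdjoinRoot.mk_surjective

theorem asO_basis (hk : Setg p m q t k) {A : Type} [CommRing A] [Nontrivial A] (h : A) :
    Nonempty (Module.Basis (Fin q) A (AS1 q A h)) := by
  let pb := AdjoinRoot.powerBasis' (asO_monic hk h)
  have hnat : (X ^ q + X - C h : A[X]).natDegree = q := by
    rw [add_sub_assoc, natDegree_add_eq_left_of_natDegree_lt, natDegree_X_pow]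
    rw [natDegree_X_pow, natDegree_X_sub_C]
    exact hk.q_two_le
  have hdim : pb.dim = q := (AdjoinRoot.powerBasis'_dim (asO_monic hk h)).trans hnat
  exact ⟨pb.basis.reindex (finCongr hdim)⟩

theorem poly_flat (A : Type) [CommRing A] : (C : A →+* A[X]).Flat := by
  have h : (algebraMap A A[X]).Flat := RingHom.flat_algebraMap_iff.2 inferInstance
  exact h

theorem flat_of_equiv {A B : Type} [CommRing A] [CommRing B] (e : A ≃+* B) :
    (e : A →+* B).Flat := RingHom.Flat.of_bijective e.bijective

theorem finite_of_surj {A B : Type} [CommRing A] [CommRing B] (f : A →+* B)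
    (hf : Surjective f) : f.Finite := RingHom.Finite.of_surjective f hf

/-- `y ↦ y + c` for a flat `φ` is flat -/
theorem flat_of_pushout {A B A' B' : Type} [CommRing A] [CommRing B] [CommRing A'] [CommRing B']
    {f : A →+* B} {g : A →+* A'} {g' : B →+* B'} {f' : A' →+* B'}
    (h : IsPushout (CommRingCat.ofHom f) (CommRingCat.ofHom g) (CommRingCat.ofHom g')
      (CommRingCat.ofHom f')) (hg : g.Flat) : g'.Flat := by
  have h2 := AlgebraicGeometry.isPullback_SpecMap_of_isPushout _ _ _ _ h
  have h3 : AlgebraicGeometry.Flat (AlgebraicGeometry.Spec.map (CommRingCat.ofHom g)) := by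
    rw [AlgebraicGeometry.Flat.SpecMap_iff]
    exact hg
  have h4 : AlgebraicGeometry.Flat (AlgebraicGeometry.Spec.map (CommRingCat.ofHom g')) :=
    MorphismProperty.of_isPullback h2.flip h3
  rw [AlgebraicGeometry.Flat.SpecMap_iff] at h4
  exact h4

/-! ### quotients -/

theorem asH_surj {A A' : Type} [CommRing A] [CommRing A'] (φ : A →+* A') (h : A)
    (h' c : A') (e : AsC q φ h h' c) (hφ : Surjective φ) : Surjective (asH φ h h' c e) := by
  intro x
  have h1 : ∀ a' : A', ∃ b, asH φ h h' c e b = asO q h' a' := fun a' => by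
    obtain ⟨a, rfl⟩ := hφ a'
    exact ⟨asO q h a, asH_O _ _ _ _ _ _⟩
  have h2 : ∃ b, asH φ h h' c e b = asR q h' := by
    obtain ⟨b, hb⟩ := h1 c
    exact ⟨asR q h - b, by rw [map_sub, asH_R, hb, add_sub_cancel_right]⟩
  obtain ⟨P, rfl⟩ := AdjoinRoot.mk_surjective x
  induction P using Polynomial.induction_on with
  | C a =>
    rw [AdjoinRoot.mk_C]
    exact h1 a
  | add P Q hP hQ =>
    obtain ⟨a, ha⟩ := hP
    obtain ⟨b, hb⟩ := hQ
    exact ⟨a + b, by rw [map_add, ha, hb, map_add]⟩
  | monomial n a ih =>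
    obtain ⟨a, ha⟩ := ih
    obtain ⟨b, hb⟩ := h2
    refine ⟨a * b, ?_⟩
    rw [map_mul, ha, hb]
    show _ * AdjoinRoot.mk _ X = _
    rw [← map_mul, mul_assoc, ← pow_succ]

theorem asM_ker {A A' : Type} [CommRing A] [CommRing A'] (φ : A →+* A') (h : A)
    (hφ : Surjective φ) (s : A) (hs : RingHom.ker φ = Ideal.span {s}) :
    RingHom.ker (asM q φ h) = Ideal.span {asO q h s} := by
  apply le_antisymm
  · let mk := Ideal.Quotient.mk (Ideal.span {asO q h s})
    have h1 : ∀ a ∈ RingHom.ker φ, mk (asO q h a) = 0 := by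
      intro a ha
      rw [hs, Ideal.mem_span_singleton] at ha
      obtain ⟨b, rfl⟩ := ha
      rw [Ideal.Quotient.eq_zero_iff_mem, map_mul]
      exact Ideal.mul_mem_right _ _ (Ideal.mem_span_singleton_self _)
    let v : A' →+* AS1 q A h ⧸ Ideal.span {asO q h s} :=
      (Ideal.Quotient.lift (RingHom.ker φ) (mk.comp (asO q h)) h1).comp
        ((RingHom.quotientKerEquivOfSurjective hφ).symm : A' →+* A ⧸ RingHom.ker φ)
    have hv : ∀ a, v (φ a) = mk (asO q h a) := by
      intro a
      have h2 : (RingHom.quotientKerEquivOfSurjective hφ).symm (φ a) =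
          Ideal.Quotient.mk _ a := by
        rw [RingEquiv.symm_apply_eq]
        rfl
      show Ideal.Quotient.lift (RingHom.ker φ) (mk.comp (asO q h)) h1
        ((RingHom.quotientKerEquivOfSurjective hφ).symm (φ a)) = _
      rw [h2]
      rfl
    let w : AS1 q A' (φ h) →+* AS1 q A h ⧸ Ideal.span {asO q h s} :=
      asL (φ h) v (mk (asR q h)) (by rw [hv, ← map_pow, ← map_add, asR_eq])
    have hw : w.comp (asM q φ h) = mk := by
      refine as_ext ?_ ?_
      · rw [RingHom.comp_assoc, asH_comp, ← RingHom.comp_assoc, asL_comp]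
        exact RingHom.ext hv
      · show w (asM q φ h (asR q h)) = _
        rw [asH_R, map_zero, add_zero, asL_R]
    intro x hx
    rw [RingHom.mem_ker] at hx
    have h3 := DFunLike.congr_fun hw x
    rw [RingHom.comp_apply, hx, map_zero] at h3
    exact Ideal.Quotient.eq_zero_iff_mem.1 h3.symm
  · rw [Ideal.span_singleton_le_iff_mem, RingHom.mem_ker, asH_O]
    have h1 : s ∈ RingHom.ker φ := by
      rw [hs]
      exact Ideal.mem_span_singleton_self s
    rw [RingHom.mem_ker] at h1
    rw [h1, map_zero]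

/-! ### elimination of a variable -/

theorem isLoc_algebraMap {A V : Type} [CommRing A] [CommRing V] [a : Algebra A V] (s : A)
    [hl : IsLocalization.Away s V] : IsLoc s (algebraMap A V) := by
  have h1 : (algebraMap A V).toAlgebra = a := Algebra.algebra_ext _ _ fun r => rfl
  unfold IsLoc
  rw [h1]
  exact hl

section elim

variable {W V : Type} [CommRing W] [CommRing V] (g h : W) (H : W[X]) (hH : H = C g * X + C h)
  (ι : W →+* V) (gi : V) (hgi : ι g * gi = 1)

/-- `W[x, y] / (y ^ q + y - g x - h) → W_g[y]` -/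
noncomputable def elm : AS1 q W[X] H →+* V[X] :=
  asL _ (eval₂RingHom ((C : V →+* V[X]).comp ι) (C gi * (X ^ q + X - C (ι h)))) X (by
    rw [hH, map_add, map_mul, coe_eval₂RingHom, eval₂_C, eval₂_C, eval₂_X]
    show X ^ q + X = C (ι g) * (C gi * (X ^ q + X - C (ι h))) + C (ι h)
    rw [← mul_assoc, ← C_mul, hgi, C_1]
    ring)

theorem elm_C (w : W) : elm (q := q) g h H hH ι gi hgi (asO q H (C w)) = C (ι w) := by
  unfold elm
  rw [asL_O, coe_eval₂RingHom, eval₂_C]
  rfl

theorem elm_R : elm (q := q) g h H hH ι gi hgi (asR q H) = X := by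
  unfold elm
  rw [asL_R]

/-- `W[y] → W[x, y] / (y ^ q + y - g x - h)` -/
noncomputable def elj (q : ℕ) {W : Type} [CommRing W] (H : W[X]) : W[X] →+* AS1 q W[X] H :=
  eval₂RingHom ((asO q H).comp (C : W →+* W[X])) (asR q H)

theorem elj_C (w : W) : elj q H (C w) = asO q H (C w) := by
  unfold elj
  rw [coe_eval₂RingHom, eval₂_C]
  rfl

theorem elj_X : elj q H X = asR q H := by
  unfold elj
  rw [coe_eval₂RingHom, eval₂_X]

theorem elm_elj : (elm (q := q) g h H hH ι gi hgi).comp (elj q H) = mapRingHom ι := by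
  refine Polynomial.ringHom_ext (fun w => ?_) ?_
  · rw [RingHom.comp_apply, elj_C, elm_C, coe_mapRingHom, map_C]
  · rw [RingHom.comp_apply, elj_X, elm_R, coe_mapRingHom, map_X]

include hH in
theorem elj_mul (b : AS1 q W[X] H) :
    ∃ (n : ℕ) (P : W[X]), asO q H (C g) ^ n * b = elj q H P := by
  set s : AS1 q W[X] H := asO q H (C g) with hs
  have hmul : ∀ b b' : AS1 q W[X] H,
      (∃ (n : ℕ) (P : W[X]), s ^ n * b = elj q H P) →
      (∃ (n : ℕ) (P : W[X]), s ^ n * b' = elj q H P) →
      ∃ (n : ℕ) (P : W[X]), s ^ n * (b * b') = elj q H P := by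
    rintro b b' ⟨n, P, hP⟩ ⟨n', P', hP'⟩
    exact ⟨n + n', P * P', by rw [map_mul, ← hP, ← hP', pow_add]; ring⟩
  have hadd : ∀ b b' : AS1 q W[X] H,
      (∃ (n : ℕ) (P : W[X]), s ^ n * b = elj q H P) →
      (∃ (n : ℕ) (P : W[X]), s ^ n * b' = elj q H P) →
      ∃ (n : ℕ) (P : W[X]), s ^ n * (b + b') = elj q H P := by
    rintro b b' ⟨n, P, hP⟩ ⟨n', P', hP'⟩
    refine ⟨n + n', C g ^ n' * P + C g ^ n * P', ?_⟩
    have h1 : elj q H (C g ^ n' * P + C g ^ n * P') =
        elj q H (C g) ^ n' * elj q H P + elj q H (C g) ^ n * elj q H P' := by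
      simp only [map_add, map_mul, map_pow]
    rw [h1, ← hP, ← hP', elj_C, pow_add]
    ring
  have hx : ∃ (n : ℕ) (P : W[X]), s ^ n * asO q H (X : W[X]) = elj q H P := by
    refine ⟨1, X ^ q + X - C h, ?_⟩
    have h1 : elj q H (X ^ q + X - C h) = asR q H ^ q + asR q H - asO q H (C h) := by
      have h2 : elj q H (X ^ q + X - C h) =
          elj q H X ^ q + elj q H X - elj q H (C h) := by
        simp only [map_sub, map_add, map_pow]
      rw [h2, elj_X, elj_C]
    rw [pow_one, h1, asR_eq, hs, ← map_mul, ← map_sub]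
    congr 1
    rw [hH]
    ring
  have hC : ∀ w, ∃ (n : ℕ) (P : W[X]), s ^ n * asO q H (C w) = elj q H P := fun w =>
    ⟨0, C w, by rw [pow_zero, one_mul, elj_C]⟩
  have hO : ∀ P : W[X], ∃ (n : ℕ) (Q : W[X]), s ^ n * asO q H P = elj q H Q := by
    intro P
    induction P using Polynomial.induction_on with
    | C a => exact hC a
    | add P Q hP hQ =>
      rw [map_add]
      exact hadd _ _ hP hQ
    | monomial n a ih =>
      rw [pow_succ, ← mul_assoc, map_mul]
      exact hmul _ _ ih hx
  obtain ⟨Q, rfl⟩ := AdjoinRoot.mk_surjective b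
  induction Q using Polynomial.induction_on with
  | C a =>
    rw [AdjoinRoot.mk_C]
    exact hO a
  | add P Q hP hQ =>
    rw [map_add]
    exact hadd _ _ hP hQ
  | monomial n a ih =>
    rw [pow_succ, ← mul_assoc, map_mul]
    refine hmul _ _ ih ⟨0, X, ?_⟩
    rw [pow_zero, one_mul, elj_X]
    rfl

theorem elm_loc (hloc : IsLoc g ι) :
    IsLoc (asO q H (C g)) (elm (q := q) g h H hH ι gi hgi) := by
  letI := ι.toAlgebra
  haveI : IsLocalization.Away g V := hloc
  letI a1 : Algebra W[X] V[X] := (mapRingHom ι).toAlgebra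
  haveI h1 : IsLocalization ((Submonoid.powers g).map (C : W →+* W[X])) V[X] :=
    Polynomial.isLocalization (Submonoid.powers g) V
  haveI h2 : IsLocalization.Away (C g : W[X]) V[X] := by
    rw [Submonoid.map_powers] at h1
    exact h1
  letI := (elm (q := q) g h H hH ι gi hgi).toAlgebra
  have halg : ∀ b, algebraMap (AS1 q W[X] H) V[X] b = elm g h H hH ι gi hgi b :=
    fun _ => rfl
  have halg' : ∀ P : W[X], algebraMap W[X] V[X] P =
      elm (q := q) g h H hH ι gi hgi (elj q H P) := fun P =>
    (DFunLike.congr_fun (elm_elj (q := q) g h H hH ι gi hgi) P).symm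
  have hu : IsUnit (elm (q := q) g h H hH ι gi hgi (asO q H (C g))) := by
    rw [elm_C]
    refine IsUnit.of_mul_eq_one (C gi) ?_
    rw [← C_mul, hgi, C_1]
  refine { map_units := ?_, surj := ?_, exists_of_eq := ?_ }
  · rintro ⟨_, n, rfl⟩
    show IsUnit (elm g h H hH ι gi hgi (asO q H (C g) ^ n))
    rw [map_pow]
    exact hu.pow n
  · intro z
    obtain ⟨n, P, hz⟩ := IsLocalization.Away.surj (C g : W[X]) z
    refine ⟨(elj q H P, ⟨asO q H (C g) ^ n, n, rfl⟩), ?_⟩
    show z * elm g h H hH ι gi hgi (asO q H (C g) ^ n) = elm g h H hH ι gi hgi (elj q H P)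
    rw [← halg', ← hz, halg', elj_C, map_pow]
  · intro x y hxy
    rw [halg, halg] at hxy
    obtain ⟨n, P, hP⟩ := elj_mul (q := q) g h H hH (x - y)
    have h3 : algebraMap W[X] V[X] P = algebraMap W[X] V[X] 0 := by
      rw [halg', ← hP, map_mul, map_sub, hxy, sub_self, mul_zero, map_zero]
    obtain ⟨⟨_, m', rfl⟩, hc⟩ := (IsLocalization.eq_iff_exists (Submonoid.powers (C g)) _).1 h3
    have hc' : (C g : W[X]) ^ m' * P = 0 := by
      have hc2 : (C g : W[X]) ^ m' * P = C g ^ m' * 0 := hc
      rw [hc2, mul_zero]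
    refine ⟨⟨asO q H (C g) ^ (m' + n), m' + n, rfl⟩, ?_⟩
    show asO q H (C g) ^ (m' + n) * x = asO q H (C g) ^ (m' + n) * y
    rw [← sub_eq_zero, ← mul_sub, pow_add, mul_assoc, hP, ← elj_C, ← map_pow, ← map_mul, hc',
      map_zero]

end elim

/-! ### polynomial rings -/

/-- `(A[y] / (y ^ q + y - h))[x] → A[x][y] / (y ^ q + y - h)` -/
noncomputable def pla (q : ℕ) {A : Type} [CommRing A] (h : A) :
    (AS1 q A h)[X] →+* AS1 q A[X] (C h) :=
  eval₂RingHom (asM q (C : A →+* A[X]) h) (asO q _ X)

theorem pla_C {A : Type} [CommRing A] (h : A) (b : AS1 q A h) :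
    pla q h (C b) = asM q (C : A →+* A[X]) h b := by
  unfold pla
  rw [coe_eval₂RingHom, eval₂_C]

theorem pla_X {A : Type} [CommRing A] (h : A) : pla q h X = asO q _ X := by
  unfold pla
  rw [coe_eval₂RingHom, eval₂_X]

/-- the inverse -/
noncomputable def pli (q : ℕ) {A : Type} [CommRing A] (h : A) :
    AS1 q A[X] (C h) →+* (AS1 q A h)[X] :=
  asL _ (mapRingHom (asO q h)) (C (asR q h)) (by
    rw [← C_pow, ← C_add, asR_eq, coe_mapRingHom, map_C])

theorem pli_pla {A : Type} [CommRing A] (h : A) : (pli q h).comp (pla q h) = RingHom.id _ := by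
  refine Polynomial.ringHom_ext (fun b => ?_) ?_
  · have h1 : ((pli q h).comp (asM q (C : A →+* A[X]) h)) = (C : AS1 q A h →+* (AS1 q A h)[X]) := by
      refine as_ext ?_ ?_
      · rw [RingHom.comp_assoc, asH_comp]
        refine RingHom.ext fun a => ?_
        show pli q h (asO q _ (C a)) = C (asO q h a)
        unfold pli
        rw [asL_O, coe_mapRingHom, map_C]
      · show pli q h (asM q (C : A →+* A[X]) h (asR q h)) = _
        rw [asH_R, map_zero, add_zero]
        unfold pli
        rw [asL_R]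
    rw [RingHom.comp_apply, pla_C]
    exact DFunLike.congr_fun h1 b
  · rw [RingHom.comp_apply, pla_X]
    unfold pli
    rw [asL_O, coe_mapRingHom, map_X]
    rfl

theorem pla_pli {A : Type} [CommRing A] (h : A) : (pla q h).comp (pli q h) = RingHom.id _ := by
  refine as_ext ?_ ?_
  · unfold pli
    rw [RingHom.comp_assoc, asL_comp]
    refine Polynomial.ringHom_ext (fun a => ?_) ?_
    · show pla q h (mapRingHom (asO q h) (C a)) = asO q _ (C a)
      rw [coe_mapRingHom, map_C, pla_C, asH_O]
    · show pla q h (mapRingHom (asO q h) X) = asO q _ X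
      rw [coe_mapRingHom, map_X, pla_X]
  · show pla q h (pli q h (asR q _)) = asR q _
    unfold pli
    rw [asL_R, pla_C, asH_R, map_zero, add_zero]

/-- `(A[y] / (y ^ q + y - h))[x] ≃ A[x][y] / (y ^ q + y - h)` -/
noncomputable def plE (q : ℕ) {A : Type} [CommRing A] (h : A) :
    (AS1 q A h)[X] ≃+* AS1 q A[X] (C h) :=
  RingEquiv.ofRingHom (pla q h) (pli q h) (pla_pli h) (pli_pla h)

theorem plE_C {A : Type} [CommRing A] (h : A) :
    ((plE q h : (AS1 q A h)[X] ≃+* AS1 q A[X] (C h)) : (AS1 q A h)[X] →+* AS1 q A[X] (C h)).comp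
      (C : AS1 q A h →+* (AS1 q A h)[X]) = asM q (C : A →+* A[X]) h :=
  RingHom.ext fun b => pla_C h b

/-! ### translations -/

theorem asC_tr (hk : Setg p m q t k) {A : Type} [CommRing A] [Algebra k A] (h : A)
    {b : k} (hb : b ^ q + b = 0) : AsC q (RingHom.id A) h h (algebraMap k A b) := by
  refine asC_of hk _ _ _ _ ?_
  rw [← map_pow, ← map_add, hb, map_zero, add_zero]
  rfl

/-- the translation by `b` -/
noncomputable def trn (hk : Setg p m q t k) {A : Type} [CommRing A] [Algebra k A] (h : A)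
    (b : {b : k // b ^ q + b = 0}) : AS1 q A h →+* AS1 q A h :=
  asH (RingHom.id A) h h (algebraMap k A b) (asC_tr hk h b.2)

theorem trn_O (hk : Setg p m q t k) {A : Type} [CommRing A] [Algebra k A] (h : A)
    (b : {b : k // b ^ q + b = 0}) (a : A) : trn hk h b (asO q h a) = asO q h a :=
  asH_O _ _ _ _ _ _

theorem trn_R (hk : Setg p m q t k) {A : Type} [CommRing A] [Algebra k A] (h : A)
    (b : {b : k // b ^ q + b = 0}) :
    trn hk h b (asR q h) = asR q h + asO q h (algebraMap k A b) :=
  asH_R _ _ _ _ _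

/-- the opposite element -/
def ngb (hk : Setg p m q t k) (b : {b : k // b ^ q + b = 0}) : {b : k // b ^ q + b = 0} :=
  ⟨-b.1, by rw [hk.neg_pow (B := k) b.1, ← neg_add, b.2, neg_zero]⟩

theorem trn_trn (hk : Setg p m q t k) {A : Type} [CommRing A] [Algebra k A] (h : A)
    (b : {b : k // b ^ q + b = 0}) : (trn hk h (ngb hk b)).comp (trn hk h b) = RingHom.id _ := by
  refine as_ext ?_ ?_
  · refine RingHom.ext fun a => ?_
    show trn hk h (ngb hk b) (trn hk h b (asO q h a)) = asO q h a
    rw [trn_O, trn_O]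
  · show trn hk h (ngb hk b) (trn hk h b (asR q h)) = asR q h
    rw [trn_R, map_add, trn_R, trn_O]
    show asR q h + asO q h (algebraMap k A (-b.1)) + asO q h (algebraMap k A b.1) = asR q h
    rw [map_neg, map_neg]
    ring

theorem ngb_ngb (hk : Setg p m q t k) (b : {b : k // b ^ q + b = 0}) :
    ngb hk (ngb hk b) = b := Subtype.ext (neg_neg b.1)

theorem trn_trn' (hk : Setg p m q t k) {A : Type} [CommRing A] [Algebra k A] (h : A)
    (b : {b : k // b ^ q + b = 0}) : (trn hk h b).comp (trn hk h (ngb hk b)) = RingHom.id _ := by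
  have h1 := trn_trn hk h (ngb hk b)
  rw [ngb_ngb] at h1
  exact h1

/-- the translation as an automorphism -/
noncomputable def trE (hk : Setg p m q t k) {A : Type} [CommRing A] [Algebra k A] (h : A)
    (b : {b : k // b ^ q + b = 0}) : AS1 q A h ≃+* AS1 q A h :=
  RingEquiv.ofRingHom (trn hk h b) (trn hk h (ngb hk b)) (trn_trn' hk h b) (trn_trn hk h b)

/-- the translation of a polynomial ring -/
noncomputable def ptr {V : Type} [CommRing V] (c : V) : V[X] →+* V[X] :=
  eval₂RingHom (C : V →+* V[X]) (X + C c)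

theorem ptr_C {V : Type} [CommRing V] (c : V) : (ptr c).comp (C : V →+* V[X]) = C :=
  RingHom.ext fun a => by
    show eval₂ (C : V →+* V[X]) (X + C c) (C a) = C a
    rw [eval₂_C]

theorem ptr_X {V : Type} [CommRing V] (c : V) : ptr c X = X + C c := by
  show eval₂ (C : V →+* V[X]) (X + C c) X = _
  rw [eval₂_X]

theorem ptr_ptr {V : Type} [CommRing V] (c : V) : (ptr (-c)).comp (ptr c) = RingHom.id V[X] := by
  refine Polynomial.ringHom_ext (fun a => ?_) ?_
  · have h1 := DFunLike.congr_fun (ptr_C c) a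
    have h2 := DFunLike.congr_fun (ptr_C (-c)) a
    show ptr (-c) (ptr c (C a)) = C a
    rw [RingHom.comp_apply] at h1 h2
    rw [h1, h2]
  · have h2 := DFunLike.congr_fun (ptr_C (-c)) c
    rw [RingHom.comp_apply] at h2
    show ptr (-c) (ptr c X) = X
    rw [ptr_X, map_add, ptr_X, h2, C_neg]
    ring

/-- the translation of a polynomial ring as an automorphism -/
noncomputable def ptE {V : Type} [CommRing V] (c : V) : V[X] ≃+* V[X] :=
  RingEquiv.ofRingHom (ptr c) (ptr (-c)) (by
    have h1 := ptr_ptr (-c)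
    rw [neg_neg] at h1
    exact h1) (ptr_ptr c)

/-- the translations and the elimination of a variable -/
theorem elm_trn (hk : Setg p m q t k) {W V : Type} [CommRing W] [CommRing V] [Algebra k W]
    (g h : W) (H : W[X]) (hH : H = C g * X + C h) (ι : W →+* V) (gi : V) (hgi : ι g * gi = 1)
    (b : {b : k // b ^ q + b = 0}) :
    (elm (q := q) g h H hH ι gi hgi).comp (trn hk H b) =
      (ptr (ι (algebraMap k W b))).comp (elm (q := q) g h H hH ι gi hgi) := by
  have hX : ∀ P : W[X], ptr (ι (algebraMap k W b)) (elm (q := q) g h H hH ι gi hgi (asO q H P)) =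
      elm (q := q) g h H hH ι gi hgi (asO q H P) := by
    intro P
    have hPC : ∀ w : W, ptr (ι (algebraMap k W b)) (elm (q := q) g h H hH ι gi hgi
        (asO q H (C w))) = elm (q := q) g h H hH ι gi hgi (asO q H (C w)) := by
      intro w
      rw [elm_C]
      exact DFunLike.congr_fun (ptr_C _) (ι w)
    have hPX : ptr (ι (algebraMap k W b)) (elm (q := q) g h H hH ι gi hgi (asO q H X)) =
        elm (q := q) g h H hH ι gi hgi (asO q H X) := by
      have h1 : elm (q := q) g h H hH ι gi hgi (asO q H X) =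
          C gi * (X ^ q + X - C (ι h)) := by
        unfold elm
        rw [asL_O, coe_eval₂RingHom, eval₂_X]
      have hC : ∀ v : V, ptr (ι (algebraMap k W b)) (C v) = C v := fun v =>
        DFunLike.congr_fun (ptr_C _) v
      letI : Algebra k V := (ι.comp (algebraMap k W)).toAlgebra
      rw [h1, map_mul, map_sub, map_add, map_pow, ptr_X, hC, hC,
        hk.add_pow (B := V[X]) X (C (ι (algebraMap k W b))), ← C_pow, ← map_pow, ← map_pow]
      have h2 : (C (ι (algebraMap k W (b.1 ^ q))) : V[X]) + C (ι (algebraMap k W b.1)) = 0 := by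
        rw [← C_add, ← map_add, ← map_add, b.2, map_zero, map_zero, C_0]
      linear_combination (C gi : V[X]) * h2
    induction P using Polynomial.induction_on with
    | C a => exact hPC a
    | add P Q hP hQ => rw [map_add, map_add, map_add, hP, hQ]
    | monomial n a ih => rw [pow_succ, ← mul_assoc, map_mul, map_mul, map_mul, ih, hPX]
  refine as_ext ?_ ?_
  · refine RingHom.ext fun P => ?_
    show elm (q := q) g h H hH ι gi hgi (trn hk H b (asO q H P)) = ptr _ (elm (q := q) g h H hH ι
      gi hgi (asO q H P))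
    rw [trn_O, hX]
  · show elm (q := q) g h H hH ι gi hgi (trn hk H b (asR q H)) = ptr _ (elm (q := q) g h H hH ι
      gi hgi (asR q H))
    rw [trn_R, map_add, elm_R, ptr_X]
    congr 1
    exact elm_C g h H hH ι gi hgi (algebraMap k W b)

end as

end Pool.Agent.KTX
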