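import Pool.Agent.KTX.IVDefs

/-!
# Clause (IV) of line S: the groups `K'_n(X)[1/p]` of Hermitian rings and Fermat hypersurfaces;
compact form

MP_e17fa799_al (architect helper33; `RingFormula`, `FermatFormula` of helper94 in a form with short
definitions).
-/

set_option autoImplicit false

namespace Pool.Agent.KTX

open CategoryTheory AlgebraicGeometry Pool.Agent.HPow Pool.Agent.KTH Pool.Agent.KPR
open scoped TensorProduct

/-- `K'_n(X)[1/p] ≅ K'_n(Y)[1/p] × P ^ r` -/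
def IsoP (p n : ℕ) (X Y : Scheme.{0}) (P : Type 1) [AddCommGroup P] (r : ℕ) : Prop :=
  Nonempty (KXI p n X ≃+ KXI p n Y × (Fin r → P))

/-- `K'_n(X)[1/p] ≅ (K'_n(Y)[1/p]) ^ r` -/
def IsoB (p n : ℕ) (X Y : Scheme.{0}) (r : ℕ) : Prop :=
  Nonempty (KXI p n X ≃+ (Fin r → KXI p n Y))

/-- the scheme `Spec (W[x₁, …, x_N, y] / (y ^ q + y - h - ∑ b_i x_i ^ (q + 1)))` -/
noncomputable def HS (q : ℕ) {k : Type} [Field k] {W : Type} [CommRing W] [Algebra k W] (h : W)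
    {N : ℕ} (b : Fin N → k) : Scheme.{0} :=
  Spec (CommRingCat.of (AS1 q (MvPolynomial (Fin N) W) (MvPolynomial.C h +
    ∑ i, MvPolynomial.C (algebraMap k W (b i)) * MvPolynomial.X i ^ (q + 1))))

/-- `b_i ∈ 𝔽_q` for all `i`, and the number `e` of the nonzero `b_i` is even -/
def EvF (q : ℕ) {k : Type} [Field k] {N : ℕ} (b : Fin N → k) (e : ℕ) : Prop :=
  (∀ i, b i ^ q = b i) ∧ Nat.card {i // b i ≠ 0} = e ∧ Even e

/-- Rings. Let `k` be a field with `q ^ (2 t)` elements, `q = p ^ m`, `m, t ≥ 1`, and `W` a noetherian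
`k`-algebra. For every `h ∈ W` there is a group `P` such that
`K'_n(W[x, y] / (y ^ q + y - h - ∑ b_i x_i ^ (q + 1)))[1/p] ≅ K'_n(W)[1/p] × P ^ (q ^ e)` for all
`b₁, …, b_N ∈ 𝔽_q` (`N ≥ 0`) such that the number `e` of the nonzero `b_i` is even; and if `h = 0` this
group is isomorphic to `(K'_n(W)[1/p]) ^ (1 + (q - 1) q ^ e)`. -/
def RingF (p n : ℕ) : Prop :=
  ∀ (m q t : ℕ) (k : Type) [Field k], Setg p m q t k → ∀ (W : Type) [CommRing W]
    [IsNoetherianRing W] [Algebra k W],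
    (∀ h : W, ∃ (P : Type 1) (_ : AddCommGroup P), ∀ (N : ℕ) (b : Fin N → k) (e : ℕ),
      EvF q b e → IsoP p n (HS q h b) (Spec (CommRingCat.of W)) P (q ^ e)) ∧
    ∀ (N : ℕ) (b : Fin N → k) (e : ℕ), EvF q b e →
      IsoB p n (HS q (0 : W) b) (Spec (CommRingCat.of W)) (1 + (q - 1) * q ^ e)

/-- Fermat hypersurfaces. Let `k` be a field with `q ^ (2 t)` elements, `q = p ^ m`, `m, t ≥ 1`, and `X`
a closed subscheme of `ℙ^(2l+1)` over `k` whose underlying set is `∑ x_j ^ (q + 1) = 0`. For every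
scheme `S` of finite type over `ℤ`, `K'_n(X × S)[1/p] ≅ (K'_n(Spec k × S)[1/p]) ^ B`,
`B = 2 l + 2 + (q - 1) (1 + q ^ 2 + … + q ^ (2 l))`. -/
def FermF (p n : ℕ) : Prop :=
  ∀ (m q t : ℕ) (k : Type) [Field k], Setg p m q t k → ∀ (l : ℕ) (X : Scheme.{0})
    (i : X ⟶ Pool.Agent.KSS.PP k (2 * l + 2)) [IsClosedImmersion i],
    Set.range i = Pool.Agent.KSS.ZL (∑ j, MvPolynomial.X j ^ (q + 1)) →
    ∀ S : Scheme.{0}, FTZ S → IsoB p n (px X S) (px (Spec (CommRingCat.of k)) S)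
      (2 * l + 2 + (q - 1) * ∑ j ∈ Finset.range (l + 1), q ^ (2 * j))

theorem ringF_of {p n : ℕ} (H : RingFormula p n) : RingF p n := by
  intro m q t k _ hk W _ _ _
  obtain ⟨h1, h2⟩ := H m q t k hk W
  refine ⟨fun h => ?_, fun N b e hb => ?_⟩
  · obtain ⟨P, iP, -, hP⟩ := h1 h
    refine ⟨P, iP, fun N b e hb => ?_⟩
    obtain ⟨hb1, rfl, hb2⟩ := hb
    exact hP N b hb1 hb2
  · obtain ⟨hb1, rfl, hb2⟩ := hb
    exact h2 N b hb1 hb2

theorem fermF_of {p n : ℕ} (H : FermatFormula p n) : FermF p n :=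
  fun m q t k _ hk l X i _ hX S hS => H m q t k hk l X i hX S hS

end Pool.Agent.KTX
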