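import Pool.Agent.KTX.All

/-!
# KTX: the final statements
-/

set_option autoImplicit false
set_option linter.unusedSectionVars false

namespace Pool.Agent.KTX

open CategoryTheory AlgebraicGeometry Pool.Agent.HPow Pool.Agent.KTH Function

universe u

/-- The coordinate ring `W[x₁, …, x_N, y] / (y ^ q + y - h - ∑ b_i x_i ^ (q + 1))`. -/
abbrev HerV (q : ℕ) {k : Type} [Field k] {W : Type} [CommRing W] [Algebra k W] (h : W) {N : ℕ}
    (b : Fin N → k) : Type :=
  AS1 q (MvPolynomial (Fin N) W) (MvPolynomial.C h +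
    ∑ i, MvPolynomial.C (algebraMap k W (b i)) * MvPolynomial.X i ^ (q + 1))

/-- The part `P_n(h)` of `T_n(W[y] / (y ^ q + y - h))`: the kernel of the push-forward to
`T_n(W)`. -/
noncomputable def LThy.Pn (L : LThy.{u}) (n : ℤ) (q : ℕ) {W : Type} [CommRing W] (h : W)
    [IsFinite (Pool.Agent.KTX.Sm (algebraMap W (AS1 q W h)))] :
    AddSubgroup ((L.th n).T (Pool.Agent.KTX.Sp (AS1 q W h))) :=
  ((L.th n).push (Pool.Agent.KTX.Sm (algebraMap W (AS1 q W h)))).ker

namespace Fin'

variable {p m q t : ℕ} {k : Type} [Field k]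

theorem P_eq (L : LThy.{u}) (n : ℤ) {W : Type} [CommRing W] (h : W)
    [IsFinite (Pool.Agent.KTX.Sm (algebraMap W (AS1 q W h)))] :
    L.toR.P n q h = L.Pn n q h := by
  have h1 : L.toR.pu n (algebraMap W (AS1 q W h)) =
      (L.th n).push (Pool.Agent.KTX.Sm (algebraMap W (AS1 q W h))) := R0.pu_eq _ _ _
  unfold RD.P LThy.Pn
  rw [h1]
  rfl

/-- the part `P` for `h = 0` -/
theorem zeroP {R : RD.{u}} (hR : R.Ax) (hk : Setg p m q t k) (n : ℤ) (W : Type) [CommRing W]
    [IsNoetherianRing W] [Algebra k W] :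
    Nonempty (R.P n q (0 : W) ≃+ (Fin (q - 1) → R.T n W)) := by
  classical
  haveI := hk.finite
  letI : Fintype {b : k // b ^ q + b = 0} := Fintype.ofFinite _
  haveI hN : IsNoetherianRing (AS1 q W (0 : W)) := as_noeth _
  have hq := hk.q_two_le
  have hy : (0 : W) ^ q + 0 = 0 := by rw [zero_pow (by omega), add_zero]
  have hbj := G1.ev_bij hk (0 : W) 0 hy
  obtain ⟨hp1, hp2⟩ := And.intro (fun x => (hR.prod n _ hbj).1 x) (hR.prod n _ hbj).2
  have hfl := G1.flat_of_pi _ hbj
  have hsj : ∀ b, Surjective (G1.ev hk (0 : W) 0 hy b) := fun b z => by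
    obtain ⟨c, hc⟩ := hbj.2 (fun _ => z)
    exact ⟨c, congrFun hc b⟩
  have hfi : ∀ b, (G1.ev hk (0 : W) 0 hy b).Finite := fun b => finite_of_surj _ (hsj b)
  -- different points
  have hdis : ∀ b b', b ≠ b' → ∀ z : R.T n W,
      R.pl n (G1.ev hk (0 : W) 0 hy b') (R.pu n (G1.ev hk (0 : W) 0 hy b) z) = 0 := by
    intro b b' hbb z
    have hpo : IsPushout (CommRingCat.ofHom (G1.ev hk (0 : W) 0 hy b))
        (CommRingCat.ofHom (G1.ev hk (0 : W) 0 hy b'))
        (CommRingCat.ofHom ({ toFun := fun _ => PUnit.unit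
                              map_one' := rfl
                              map_mul' := fun _ _ => rfl
                              map_zero' := rfl
                              map_add' := fun _ _ => rfl } : W →+* PUnit.{1}))
        (CommRingCat.ofHom ({ toFun := fun _ => PUnit.unit
                              map_one' := rfl
                              map_mul' := fun _ _ => rfl
                              map_zero' := rfl
                              map_add' := fun _ _ => rfl } : W →+* PUnit.{1})) := by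
      obtain ⟨e, he⟩ := hbj.2 (fun c => if c = b then 1 else 0)
      have he1 : G1.ev hk (0 : W) 0 hy b e = 1 := by
        have := congrFun he b
        rw [if_pos rfl] at this
        exact this
      have he2 : G1.ev hk (0 : W) 0 hy b' e = 0 := by
        have := congrFun he b'
        rw [if_neg (Ne.symm hbb)] at this
        exact this
      refine isPushout_of _ _ _ _ rfl (fun D _ u v huv => ?_) (fun D _ w w' _ _ => ?_)
      · have h1 : (1 : D) = 0 := by
          have h2 := DFunLike.congr_fun huv e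
          rw [RingHom.comp_apply, RingHom.comp_apply, he1, he2, map_one, map_zero] at h2
          exact h2
        haveI : Subsingleton D := subsingleton_of_zero_eq_one h1.symm
        exact ⟨{ toFun := fun _ => 0
                 map_one' := Subsingleton.elim _ _
                 map_mul' := fun _ _ => Subsingleton.elim _ _
                 map_zero' := rfl
                 map_add' := fun _ _ => Subsingleton.elim _ _ },
          RingHom.ext fun _ => Subsingleton.elim _ _, RingHom.ext fun _ => Subsingleton.elim _ _⟩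
      · have h1 : (1 : D) = 0 := (map_one w).symm.trans (map_zero w)
        haveI : Subsingleton D := subsingleton_of_zero_eq_one h1.symm
        exact RingHom.ext fun _ => Subsingleton.elim _ _
    rw [hR.bc n _ _ _ _ (hfi b) (hfl b') hpo z]
    rw [hR.zero n PUnit.{1} (R.pl n _ z), map_zero]
  -- the sum map
  have hO : ∀ b (z : R.T n W), R.pu n (asO q (0 : W)) (R.pu n (G1.ev hk (0 : W) 0 hy b) z) = z := by
    intro b z
    rw [← hR.pu_comp n _ _ (asO_finite hk _) (hfi b)]
    have h1 : (G1.ev hk (0 : W) 0 hy b).comp (asO q (0 : W)) = RingHom.id W := asL_comp _ _ _ _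
    rw [G1.pu_congr R n h1, hR.pu_id]
  let o : {b : k // b ^ q + b = 0} := ⟨0, by rw [zero_pow (by omega), add_zero]⟩
  let I := {b : {b : k // b ^ q + b = 0} // b ≠ o}
  have hI : Fintype.card I = q - 1 := by
    rw [Fintype.card_subtype_compl, Fintype.card_subtype_eq, G1.card_eq hk]
  let F : (I → R.T n W) →+ R.P n q (0 : W) := AddMonoidHom.mk'
    (fun t => ⟨∑ b : I, (R.pu n (G1.ev hk (0 : W) 0 hy b.1) (t b) -
      R.pu n (G1.ev hk (0 : W) 0 hy o) (t b)), by
        show R.pu n (asO q (0 : W)) _ = 0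
        rw [map_sum]
        refine Finset.sum_eq_zero fun b _ => ?_
        rw [map_sub, hO, hO, sub_self]⟩) (fun t t' => by
      refine Subtype.ext ?_
      show ∑ b : I, (R.pu n (G1.ev hk (0 : W) 0 hy b.1) (t b + t' b) -
        R.pu n (G1.ev hk (0 : W) 0 hy o) (t b + t' b)) = ∑ b : I, _ + ∑ b : I, _
      rw [← Finset.sum_add_distrib]
      refine Finset.sum_congr rfl fun b _ => ?_
      rw [map_add, map_add]
      abel)
  have hF : ∀ (t : I → R.T n W) (b : I),
      R.pl n (G1.ev hk (0 : W) 0 hy b.1) (F t : R.T n (AS1 q W (0 : W))) = t b := by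
    intro t b
    show R.pl n (G1.ev hk (0 : W) 0 hy b.1) (∑ c : I, (R.pu n (G1.ev hk (0 : W) 0 hy c.1) (t c) -
        R.pu n (G1.ev hk (0 : W) 0 hy o) (t c))) = t b
    rw [map_sum, Finset.sum_eq_single b]
    · rw [map_sub, hp2, hdis o b.1 (Ne.symm b.2), sub_zero]
    · intro c _ hcb
      rw [map_sub, hdis c.1 b.1 (fun h => hcb (Subtype.ext h)), hdis o b.1 (Ne.symm b.2), sub_zero]
    · intro h
      exact absurd (Finset.mem_univ b) h
  have hbij : Bijective F := by
    refine ⟨fun t t' htt => ?_, fun x => ?_⟩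
    · funext b
      rw [← hF t b, ← hF t' b, htt]
    · refine ⟨fun b => R.pl n (G1.ev hk (0 : W) 0 hy b.1) x.1, Subtype.ext ?_⟩
      have hx := hp1 x.1
      have hx0 : R.pu n (asO q (0 : W)) x.1 = 0 := x.2
      have h1 : ∑ b, R.pl n (G1.ev hk (0 : W) 0 hy b) x.1 = 0 := by
        rw [← hx0]
        conv_rhs => rw [hx]
        rw [map_sum]
        exact Finset.sum_congr rfl fun b _ => (hO b _).symm
      have h2 : ∀ f : {b : k // b ^ q + b = 0} → R.T n (AS1 q W (0 : W)),
          ∑ b, f b = f o + ∑ b : I, f b.1 := by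
        intro f
        rw [← Finset.add_sum_erase Finset.univ f (Finset.mem_univ o)]
        congr 1
        refine Finset.sum_subtype _ (fun b => ?_) f
        simp
      have h3 : ∀ f : {b : k // b ^ q + b = 0} → R.T n W,
          ∑ b, f b = f o + ∑ b : I, f b.1 := by
        intro f
        rw [← Finset.add_sum_erase Finset.univ f (Finset.mem_univ o)]
        congr 1
        refine Finset.sum_subtype _ (fun b => ?_) f
        simp
      rw [h3] at h1
      show ∑ b : I, (R.pu n (G1.ev hk (0 : W) 0 hy b.1) (R.pl n (G1.ev hk (0 : W) 0 hy b.1) x.1) -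
        R.pu n (G1.ev hk (0 : W) 0 hy o) (R.pl n (G1.ev hk (0 : W) 0 hy b.1) x.1)) = x.1
      rw [Finset.sum_sub_distrib, ← map_sum, eq_neg_of_add_eq_zero_right h1, map_neg, sub_neg_eq_add]
      refine (add_comm _ _).trans ?_
      conv_rhs => rw [hx, h2]
  have e1 := AddEquiv.ofBijective F hbij
  have e2 : (Fin (q - 1)) ≃ I := (Fintype.equivFinOfCardEq hI).symm
  exact ⟨e1.symm.trans
    { toFun := fun f i => f (e2 i)
      invFun := fun f i => f (e2.symm i)
      left_inv := fun f => by funext i; simp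
      right_inv := fun f => by funext i; simp
      map_add' := fun f g => rfl }⟩

/-- products of copies -/
theorem copies {T P : Type*} [AddCommGroup T] [AddCommGroup P] (a c : ℕ) (e : P ≃+ (Fin a → T)) :
    Nonempty (T × (Fin c → P) ≃+ (Fin (1 + a * c) → T)) := by
  have e1 : (Fin c → P) ≃+ (Fin c → Fin a → T) := AddEquiv.piCongrRight fun _ => e
  let e2 : (Fin c → Fin a → T) ≃+ (Fin a × Fin c → T) :=
    { toFun := fun f x => f x.2 x.1
      invFun := fun f i j => f (j, i)
      left_inv := fun _ => rfl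
      right_inv := fun _ => rfl
      map_add' := fun _ _ => rfl }
  let e3 : T × (Fin a × Fin c → T) ≃+ (Option (Fin a × Fin c) → T) :=
    { toFun := fun f o => o.elim f.1 f.2
      invFun := fun f => (f none, fun x => f (some x))
      left_inv := fun _ => rfl
      right_inv := fun f => by
        funext o
        cases o <;> rfl
      map_add' := fun f g => by
        funext o
        cases o <;> rfl }
  have hcard : Fintype.card (Option (Fin a × Fin c)) = 1 + a * c := by
    rw [Fintype.card_option, Fintype.card_prod, Fintype.card_fin, Fintype.card_fin, add_comm]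
  let g := Fintype.equivFinOfCardEq hcard
  let e4 : (Option (Fin a × Fin c) → T) ≃+ (Fin (1 + a * c) → T) :=
    { toFun := fun f i => f (g.symm i)
      invFun := fun f i => f (g i)
      left_inv := fun f => by
        funext i
        simp
      right_inv := fun f => by
        funext i
        simp
      map_add' := fun _ _ => rfl }
  exact ⟨((AddEquiv.prodCongr (AddEquiv.refl T) (e1.trans e2)).trans e3).trans e4⟩

end Fin'

/-- The theorem for rings and the theorem for Fermat hypersurfaces. -/
theorem all_IV (L : LThy.{u}) (p m q t : ℕ) (k : Type) [Field k] (hk : Setg p m q t k)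
    (hp : L.PInv p) :
    (∀ (n : ℤ) (W : Type) [CommRing W] [IsNoetherianRing W] [Algebra k W] (h : W)
      [IsFinite (Pool.Agent.KTX.Sm (algebraMap W (AS1 q W h)))],
      Nonempty ((L.th n).T (Pool.Agent.KTX.Sp (AS1 q W h)) ≃+
        (L.th n).T (Pool.Agent.KTX.Sp W) × L.Pn n q h) ∧
      ∀ (N : ℕ) (b : Fin N → k), (∀ i, b i ^ q = b i) → Even (Nat.card {i // b i ≠ 0}) →
        Nonempty ((L.th n).T (Pool.Agent.KTX.Sp (HerV q h b)) ≃+
          (L.th n).T (Pool.Agent.KTX.Sp W) ×
            (Fin (q ^ Nat.card {i // b i ≠ 0}) → L.Pn n q h))) ∧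
    (∀ (n : ℤ) (W : Type) [CommRing W] [IsNoetherianRing W] [Algebra k W] (N : ℕ)
      (b : Fin N → k), (∀ i, b i ^ q = b i) → Even (Nat.card {i // b i ≠ 0}) →
        Nonempty ((L.th n).T (Pool.Agent.KTX.Sp (HerV q (0 : W) b)) ≃+
          (Fin (1 + (q - 1) * q ^ Nat.card {i // b i ≠ 0}) →
            (L.th n).T (Pool.Agent.KTX.Sp W)))) ∧
    ∀ (l : ℕ) (X : Scheme.{0}) (i : X ⟶ Pool.Agent.KSS.PP k (2 * l + 2)) [IsClosedImmersion i],
      Set.range i = Pool.Agent.KSS.ZL (∑ j, MvPolynomial.X j ^ (q + 1)) →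
      ∀ (S : Scheme.{0}) [LocallyOfFiniteType (Limits.terminal.from S)]
        [QuasiCompact (Limits.terminal.from S)] (n : ℤ),
        Nonempty ((L.th n).T (px X S) ≃+
          (Fin (2 * l + 2 + (q - 1) * ∑ j ∈ Finset.range (l + 1), q ^ (2 * j)) →
            (L.th n).T (px (Pool.Agent.KTX.Sp k) S))) := by
  have hR := thm_R0 L
  have hpR : L.toR.PInv p := fun n A _ => hp n (Pool.Agent.KTX.Sp A)
  refine ⟨fun n W _ _ _ h _ => ⟨?_, fun N b hb he => ?_⟩, fun n W _ _ _ N b hb he => ?_,
    fun l X i _ hi S h1 h2 n => ?_⟩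
  · obtain ⟨e⟩ := G5.dec hR hk hpR n W h
    rw [Fin'.P_eq L n h] at e
    exact ⟨e.symm⟩
  · obtain ⟨e⟩ := all_G5 L.toR hR p m q t k hk hpR n W h N b hb he
    rw [Fin'.P_eq L n h] at e
    exact ⟨e⟩
  · obtain ⟨e⟩ := all_G5 L.toR hR p m q t k hk hpR n W 0 N b hb he
    obtain ⟨e0⟩ := Fin'.zeroP hR hk n W
    obtain ⟨e1⟩ := Fin'.copies (T := L.toR.T n W) (q - 1) (q ^ Nat.card {i // b i ≠ 0}) e0
    exact ⟨e.trans e1⟩
  · exact all_F (L.rel S h1 h2) p m q t k hk (L.rel_PInv S h1 h2 p hp) l X i hi n

end Pool.Agent.KTX
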