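import Pool.Agent.KTX.Defs

/-!
# KTX: inverting `p`

`Loc p A = A[1/p]` for an abelian group `A`; `LThy.inv L p`: the graded theory `X ↦ T_n(X)[1/p]`.
-/

set_option autoImplicit false

noncomputable section

namespace Pool.Agent.KTX

open CategoryTheory AlgebraicGeometry Function
open scoped TensorProduct

universe u

/-- the group `A[1/p] = ℤ[1/p] ⊗ A` -/
def Loc (p : ℕ) (A : Type u) [AddCommGroup A] : Type u :=
  TensorProduct ℤ (Localization.Away (p : ℤ)) A

instance (p : ℕ) (A : Type u) [AddCommGroup A] : AddCommGroup (Loc p A) :=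
  inferInstanceAs (AddCommGroup (TensorProduct ℤ (Localization.Away (p : ℤ)) A))

namespace Loc

variable (p : ℕ) {A B C : Type u} [AddCommGroup A] [AddCommGroup B] [AddCommGroup C]

/-- the element `s ⊗ a` -/
def mk (s : Localization.Away (p : ℤ)) (a : A) : Loc p A := s ⊗ₜ[ℤ] a

/-- the homomorphism `A[1/p] → B[1/p]` -/
def map (f : A →+ B) : Loc p A →+ Loc p B :=
  (LinearMap.lTensor (Localization.Away (p : ℤ)) f.toIntLinearMap).toAddMonoidHom

theorem map_mk (f : A →+ B) (s : Localization.Away (p : ℤ)) (a : A) :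
    map p f (mk p s a) = mk p s (f a) := rfl

theorem hom_ext {D : Type*} [AddCommGroup D] {f g : Loc p A →+ D}
    (h : ∀ s a, f (mk p s a) = g (mk p s a)) : f = g := by
  apply AddMonoidHom.ext
  intro x
  refine TensorProduct.induction_on x ?_ (fun s a => h s a) fun x y hx hy => ?_
  · exact (f.map_zero).trans (g.map_zero).symm
  · have h1 := f.map_add x y
    have h2 := g.map_add x y
    exact h1.trans ((congrArg₂ _ hx hy).trans h2.symm)

theorem map_id' (f : A →+ A) (h : ∀ a, f a = a) (x : Loc p A) : map p f x = x :=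
  DFunLike.congr_fun (hom_ext p (f := map p f) (g := AddMonoidHom.id _) fun s a => by
    rw [map_mk, h]
    rfl) x

theorem map_comp' (f : A →+ B) (g : B →+ C) (k : A →+ C) (h : ∀ a, k a = g (f a))
    (x : Loc p A) : map p k x = map p g (map p f x) :=
  DFunLike.congr_fun (hom_ext p (f := map p k) (g := (map p g).comp (map p f)) fun s a => by
    change mk p s (k a) = mk p s (g (f a))
    rw [h]) x

theorem map_zero' (f : A →+ B) (h : ∀ a, f a = 0) (x : Loc p A) : map p f x = 0 :=
  DFunLike.congr_fun (hom_ext p (f := map p f) (g := 0) fun s a => by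
    change mk p s (f a) = 0
    rw [h]
    exact TensorProduct.tmul_zero _ _) x

theorem map_sq {D : Type u} [AddCommGroup D] (f : A →+ B) (g : B →+ D) (f' : A →+ C) (g' : C →+ D)
    (h : ∀ a, g (f a) = g' (f' a)) (x : Loc p A) :
    map p g (map p f x) = map p g' (map p f' x) := by
  rw [← map_comp' p f g (g.comp f) (fun _ => rfl), map_comp' p f' g' (g.comp f) h]

theorem flat : Module.Flat ℤ (Localization.Away (p : ℤ)) := by
  have h := IsLocalization.flat (Localization.Away (p : ℤ)) (Submonoid.powers (p : ℤ))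
  have h2 : (Algebra.toModule : Module ℤ (Localization.Away (p : ℤ))) =
    AddCommGroup.toIntModule (Localization.Away (p : ℤ)) := Subsingleton.elim _ _
  rw [h2] at h
  exact h

theorem nsmul_left (n : ℕ) (s : Localization.Away (p : ℤ)) (a : A) :
    n • mk p s a = mk p (n • s) a :=
  (map_nsmul (LinearMap.flip (TensorProduct.mk ℤ (Localization.Away (p : ℤ)) A)
    a).toAddMonoidHom n s).symm

theorem nsmul_right (n : ℕ) (s : Localization.Away (p : ℤ)) (a : A) :
    mk p s (n • a) = n • mk p s a :=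
  map_nsmul (TensorProduct.mk ℤ (Localization.Away (p : ℤ)) A s).toAddMonoidHom n a

theorem exact (f : A →+ B) (g : B →+ C) (h0 : ∀ a, g (f a) = 0)
    (h : ∀ b, g b = 0 → ∃ a, f a = b) (x : Loc p B)
    (hx : map p g x = 0) : ∃ y, map p f y = x := by
  have := flat p
  have h1 : Function.Exact f.toIntLinearMap g.toIntLinearMap := fun b =>
    ⟨fun hb => h b hb, fun ⟨a, ha⟩ => by
      rw [← ha]
      exact h0 a⟩
  exact (Module.Flat.lTensor_exact (Localization.Away (p : ℤ)) h1 x).1 hx

theorem inj (f : A →+ B) (h : Injective f) : Injective (map p f) := by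
  have := flat p
  exact Module.Flat.lTensor_preserves_injective_linearMap
    (M := Localization.Away (p : ℤ)) f.toIntLinearMap h

theorem surj (f : A →+ B) (h : Surjective f) : Surjective (map p f) :=
  LinearMap.lTensor_surjective (Localization.Away (p : ℤ)) (g := f.toIntLinearMap) h

theorem bij (f : A →+ B) (h : Bijective f) : Bijective (map p f) :=
  ⟨inj p f h.1, surj p f h.2⟩

theorem map_nsmul' (f : A →+ A) (d : ℕ) (h : ∀ a, f a = d • a) (x : Loc p A) :
    map p f x = d • x :=
  DFunLike.congr_fun (hom_ext p (f := map p f) (g := d • AddMonoidHom.id _) fun s a => by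
    change mk p s (f a) = d • mk p s a
    rw [h]
    exact nsmul_right p d s a) x

/-- multiplication by `p` is bijective -/
theorem pbij : Bijective fun x : Loc p A => p • x := by
  have hu : IsUnit (algebraMap ℤ (Localization.Away (p : ℤ)) (p : ℤ)) :=
    IsLocalization.Away.algebraMap_isUnit _
  obtain ⟨v, hv⟩ := hu.exists_right_inv
  let m : Loc p A →+ Loc p A :=
    (LinearMap.rTensor A (LinearMap.mulLeft ℤ v)).toAddMonoidHom
  have hm : ∀ (s : Localization.Away (p : ℤ)) (a : A), m (mk p s a) = mk p (v * s) a :=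
    fun _ _ => rfl
  have hn : ∀ (n : ℕ) (s : Localization.Away (p : ℤ)) (a : A), n • mk p s a = mk p (n • s) a :=
    fun n s a => nsmul_left p n s a
  have key : ∀ s : Localization.Away (p : ℤ), p • (v * s) = s := by
    intro s
    rw [nsmul_eq_mul, ← mul_assoc]
    have h1 : (p : Localization.Away (p : ℤ)) = algebraMap ℤ (Localization.Away (p : ℤ)) (p : ℤ) := by
      simp
    rw [h1, hv, one_mul]
  have h1 : ∀ x, p • m x = x := fun x =>
    DFunLike.congr_fun (hom_ext p (f := p • m) (g := AddMonoidHom.id _) fun s a => by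
      change p • m (mk p s a) = mk p s a
      rw [hm, hn, key]) x
  have h2 : ∀ x, m (p • x) = x := fun x => by rw [map_nsmul, h1]
  exact Function.bijective_iff_has_inverse.2 ⟨m, h2, h1⟩

end Loc

/-- the theory `X ↦ T(X)[1/p]` -/
def STh.inv (T : STh.{u}) (p : ℕ) : STh.{u} where
  T X := Loc p (T.T X)
  grp X := inferInstance
  pull f _ := Loc.map p (T.pull f)
  push f _ := Loc.map p (T.push f)
  pull_id X _ x := Loc.map_id' p _ (T.pull_id X) x
  pull_comp {X Y Z} _ _ _ f g _ _ x := Loc.map_comp' p _ _ _ (T.pull_comp f g) x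
  push_id X _ x := Loc.map_id' p _ (T.push_id X) x
  push_comp {X Y Z} _ f g _ _ x := Loc.map_comp' p _ _ _ (T.push_comp f g) x
  bc {X' X Y' Y} _ _ g' f' f g _ _ _ _ h x := Loc.map_sq p _ _ _ _ (T.bc g' f' f g h) x
  ex {Z X U} _ i j _ _ h x hx := Loc.exact p _ _ (T.ex0 i j h) (T.ex i j h) x hx
  ex0 {Z X U} _ i j _ _ h z := by
    rw [← Loc.map_comp' p (T.push i) (T.pull j) ((T.pull j).comp (T.push i)) (fun _ => rfl)]
    exact Loc.map_zero' p _ (T.ex0 i j h) z
  dev {Z X} _ i _ h := Loc.inj p _ (T.dev i h)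
  hom {X Y} _ R _ f g h _ hp := Loc.bij p _ (T.hom R f g h hp)
  free {X Y} _ R R' _ _ _ d b f g h _ _ hp x := by
    rw [← Loc.map_comp' p (T.pull f) (T.push f) ((T.push f).comp (T.pull f)) (fun _ => rfl)]
    exact Loc.map_nsmul' p _ d (T.free R R' d b f g h hp) x

/-- the graded theory `X ↦ T_n(X)[1/p]` -/
def LThy.inv (L : LThy.{u}) (p : ℕ) : LThy.{u} where
  th n := (L.th n).inv p
  bd n {Z X U} i j _ _ := Loc.map p (L.bd n i j)
  bd_pull n {Z X U} _ i j _ _ h x := by
    have h1 := Loc.map_comp' p ((L.th (n + 1)).pull j) (L.bd n i j)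
      ((L.bd n i j).comp ((L.th (n + 1)).pull j)) (fun _ => rfl) x
    exact h1.symm.trans (Loc.map_zero' p _ (L.bd_pull n i j h) x)
  exU n {Z X U} _ i j _ _ h u hu := Loc.exact p _ _ (L.bd_pull n i j h) (L.exU n i j h) u hu
  push_bd n {Z X U} _ i j _ _ h u := by
    have h1 := Loc.map_comp' p (L.bd n i j) ((L.th n).push i)
      (((L.th n).push i).comp (L.bd n i j)) (fun _ => rfl) u
    exact h1.symm.trans (Loc.map_zero' p _ (L.push_bd n i j h) u)
  exZ n {Z X U} _ i j _ _ h z hz := Loc.exact p _ _ (L.push_bd n i j h) (L.exZ n i j h) z hz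
  nat n {Z X U Z' X' U'} _ _ i j i' j' a g b _ _ _ _ _ _ _ h h1 h2 u :=
    Loc.map_sq p _ _ _ _ (L.nat n i j i' j' a g b h h1 h2) u

theorem LThy.inv_PInv (L : LThy.{u}) (p : ℕ) : (L.inv p).PInv p := fun _ _ => Loc.pbij p

end Pool.Agent.KTX
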