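import Pool.Agent.KTX.IVDefs
import Pool.Agent.KTX.Fin
import Pool.Agent.KTX.Inv
import Pool.Agent.KGT.Real

/-!
# Clause (IV) of line S for Quillen's groups (helper94)
-/

set_option autoImplicit false
set_option linter.style.haveILetI false

noncomputable section

namespace Pool.Agent.KTX

open CategoryTheory AlgebraicGeometry Pool.Agent.HPow Pool.Agent.KTH Pool.Agent.KPR
open Pool.Agent.KQG Pool.Agent.KGT
open scoped TensorProduct

universe u

/-- `A[1/p] ≅ B[1/p]` -/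
def locEquiv (p : ℕ) {A B : Type u} [AddCommGroup A] [AddCommGroup B] (e : A ≃+ B) :
    Loc p A ≃+ TensorProduct ℤ (Localization.Away (p : ℤ)) B :=
  (LinearEquiv.lTensor (Localization.Away (p : ℤ)) e.toIntLinearEquiv).toAddEquiv

/-- Quillen's groups with `p` inverted as a graded theory -/
theorem real_inv (h : St_HOMK) (p : ℕ) : ∃ L : LThy.{1}, L.PInv p ∧
    ∀ (n : ℕ) (X : Scheme.{0}), Nonempty ((L.th n).T X ≃+ KXI p n X) := by
  obtain ⟨L, G, e1, -, -⟩ := real h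
  refine ⟨L.inv p, L.inv_PInv p, fun n X => ?_⟩
  obtain ⟨a⟩ := e1 n X
  exact ⟨locEquiv p a⟩

theorem real_ring (h : St_HOMK) (p n : ℕ) : RingFormula p n := by
  intro m q t k _ hk W _ _ _
  obtain ⟨L, hp, e⟩ := real_inv h p
  obtain ⟨h1, h2, -⟩ := all_IV L p m q t k hk hp
  obtain ⟨a⟩ := e n (Sp W)
  refine ⟨fun x => ?_, fun N b hb he => ?_⟩
  · haveI : IsFinite (Sm (algebraMap W (AS1 q W x))) := R0.finite_Sm (asO_finite hk x)
    obtain ⟨⟨f⟩, g⟩ := h1 n W x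
    refine ⟨L.Pn n q x, inferInstance, ?_, fun N b hb he => ?_⟩
    · obtain ⟨c⟩ := e n (Sp (AS1 q W x))
      exact ⟨c.symm.trans (f.trans (AddEquiv.prodCongr a (AddEquiv.refl _)))⟩
    · obtain ⟨g⟩ := g N b hb he
      obtain ⟨c⟩ := e n (Sp (HerV q x b))
      exact ⟨c.symm.trans (g.trans (AddEquiv.prodCongr a (AddEquiv.refl _)))⟩
  · obtain ⟨g⟩ := h2 n W N b hb he
    obtain ⟨c⟩ := e n (Sp (HerV q (0 : W) b))
    exact ⟨c.symm.trans (g.trans (AddEquiv.piCongrRight fun _ => a))⟩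

theorem real_fermat (h : St_HOMK) (p n : ℕ) : FermatFormula p n := by
  intro m q t k _ hk l X i _ hi S hS
  obtain ⟨L, hp, e⟩ := real_inv h p
  obtain ⟨-, -, h3⟩ := all_IV L p m q t k hk hp
  haveI := hS.1
  haveI := hS.2
  obtain ⟨g⟩ := h3 l X i hi S n
  obtain ⟨a⟩ := e n (px (Sp k) S)
  obtain ⟨c⟩ := e n (px X S)
  exact ⟨c.symm.trans (g.trans (AddEquiv.piCongrRight fun _ => a))⟩

end Pool.Agent.KTX
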