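import Pool.Agent.KTX.St

/-!
# KTX, module O2: the localization step (helper82)
-/

set_option autoImplicit false

namespace Pool.Agent.KTX

open CategoryTheory AlgebraicGeometry Pool.Agent.HPow

universe u

namespace O2

theorem pull_congr (T : STh.{u}) {X Y : Scheme.{0}} {f g : X ⟶ Y} [Flat f] [Flat g] (h : f = g)
    (x : T.T Y) : T.pull f x = T.pull g x := by
  subst h
  rfl

theorem push_congr (T : STh.{u}) {X Y : Scheme.{0}} {f g : X ⟶ Y} [IsFinite f] [IsFinite g]
    (h : f = g) (x : T.T X) : T.push f x = T.push g x := by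
  subst h
  rfl

theorem noeth_fin {X Y : Scheme.{0}} (f : X ⟶ Y) [IsNoetherian Y] [IsFinite f] :
    IsNoetherian X :=
  { __ := LocallyOfFiniteType.isLocallyNoetherian f
    toCompactSpace := QuasiCompact.compactSpace_of_compactSpace f }

theorem noeth_open {X Y : Scheme.{0}} (f : X ⟶ Y) [IsNoetherian Y] [IsOpenImmersion f] :
    IsNoetherian X :=
  { __ := isLocallyNoetherian_of_isOpenImmersion f
    toCompactSpace := by
      have : TopologicalSpace.NoetherianSpace X :=
        f.isOpenEmbedding.isInducing.noetherianSpace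
      infer_instance }

/-- isomorphisms -/
theorem push_pull_iso (T : STh.{u}) {X Y : Scheme.{0}} [IsNoetherian Y] (e : X ⟶ Y) [IsIso e]
    (y : T.T Y) : T.push e (T.pull e y) = y := by
  have hX : IsNoetherian X := noeth_open e
  have h1 : ∀ x : T.T X, T.pull e (T.push e x) = x := by
    intro x
    have h := T.bc (𝟙 X) (𝟙 X) e e (IsPullback.of_vert_isIso ⟨rfl⟩) x
    rw [T.pull_id, T.push_id] at h
    exact h
  have h2 : ∀ y : T.T Y, T.pull (inv e) (T.pull e y) = y := by
    intro y
    rw [← T.pull_comp, pull_congr T (IsIso.inv_hom_id e), T.pull_id]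
  have h3 := congrArg (T.pull (inv e)) (h1 (T.pull e y))
  rw [h2, h2] at h3
  exact h3

/-- the scheme theoretic image of a reduced scheme is reduced -/
theorem red {M Y : Scheme.{0}} (f : M ⟶ Y) [QuasiCompact f] [IsReduced M] :
    IsReduced f.image := by
  have h1 : ∀ U : Y.affineOpens, _root_.IsReduced (Γ(Y, U.1) ⧸ f.ker.ideal U) := by
    intro U
    rw [← Ideal.isRadical_iff_quotient_reduced, Scheme.Hom.ker_apply]
    intro x hx
    obtain ⟨n, hn⟩ := hx
    rw [RingHom.mem_ker, map_pow] at hn
    exact RingHom.mem_ker.2 (eq_zero_of_pow_eq_zero hn)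
  have h2 : ∀ U : Y.affineOpens,
      IsReduced (Spec (CommRingCat.of (Γ(Y, U.1) ⧸ f.ker.ideal U))) := by
    intro U
    have := h1 U
    infer_instance
  have h3 : ∀ U, IsReduced (f.ker.subschemeCover.openCover.X U) := fun U => h2 U
  exact IsReduced.of_openCover _ f.ker.subschemeCover.openCover

/-- reduced closed subschemes of `U` extend to `Y` -/
theorem ext {M Y U : Scheme.{0}} [IsNoetherian M] [IsReduced M] [IsNoetherian Y] (j : U ⟶ Y)
    [IsOpenImmersion j] (i : M ⟶ U) [IsClosedImmersion i] :
    ∃ (N : Scheme.{0}) (_ : IsNoetherian N) (_ : IsReduced N) (c : N ⟶ Y)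
      (_ : IsClosedImmersion c) (e : M ⟶ Limits.pullback c j) (_ : IsIso e),
      e ≫ Limits.pullback.snd c j = i := by
  have hq : QuasiCompact (i ≫ j) := inferInstance
  have hr : IsReduced (i ≫ j).image := red (i ≫ j)
  have hc : IsClosedImmersion (i ≫ j).imageι := inferInstance
  have hN : IsNoetherian (i ≫ j).image := by
    have h5 : IsLocallyNoetherian (i ≫ j).image :=
      LocallyOfFiniteType.isLocallyNoetherian (i ≫ j).imageι
    have h6 : CompactSpace (i ≫ j).image := by
      have : CompactSpace Y := inferInstance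
      exact QuasiCompact.compactSpace_of_compactSpace (i ≫ j).imageι
    exact { }
  have hrange : Set.range (i ≫ j).imageι = closure (Set.range (i ≫ j)) := by
    rw [Scheme.IdealSheafData.range_subschemeι, Scheme.Hom.support_ker]
  have hred : IsReduced (Limits.pullback (i ≫ j).imageι j) :=
    isReduced_of_isOpenImmersion (Limits.pullback.fst (i ≫ j).imageι j)
  have hs : IsClosedImmersion (Limits.pullback.snd (i ≫ j).imageι j) := inferInstance
  have hcl : Set.range (Limits.pullback.snd (i ≫ j).imageι j) = Set.range i := by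
    rw [Scheme.Pullback.range_snd, hrange]
    have h1 : Set.range (i ≫ j) = j '' Set.range i := by
      rw [Scheme.Hom.comp_base, TopCat.coe_comp, Set.range_comp]
    rw [h1, ← j.isOpenEmbedding.isInducing.closure_eq_preimage_closure_image]
    exact i.isClosedEmbedding.isClosed_range.closure_eq
  let s := Limits.pullback.snd (i ≫ j).imageι j
  have hp : Surjective (Limits.pullback.fst i s) := ⟨by
    rw [← Set.range_eq_univ, Scheme.Pullback.range_fst, hcl]
    exact Set.preimage_range _⟩
  have hq2 : Surjective (Limits.pullback.snd i s) := ⟨by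
    rw [← Set.range_eq_univ, Scheme.Pullback.range_snd, ← hcl]
    exact Set.preimage_range _⟩
  have i1 : IsIso (Limits.pullback.fst i s) :=
    isIso_of_isClosedImmersion_of_surjective _
  have i2 : IsIso (Limits.pullback.snd i s) :=
    isIso_of_isClosedImmersion_of_surjective _
  refine ⟨(i ≫ j).image, hN, hr, (i ≫ j).imageι, hc,
    inv (Limits.pullback.fst i s) ≫ Limits.pullback.snd i s, inferInstance, ?_⟩
  have h2 : Limits.pullback.snd i s ≫ s = Limits.pullback.fst i s ≫ i :=
    Limits.pullback.condition.symm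
  rw [Category.assoc]
  change inv (Limits.pullback.fst i s) ≫ Limits.pullback.snd i s ≫ s = i
  rw [h2, IsIso.inv_hom_id_assoc]

/-- operations of closed subschemes -/
theorem op_push (hO0 : St_O0) (L : LThy.{u}) (k : Type) [Field k] {Y Z : Scheme.{0}}
    [IsNoetherian Y] (π : Y ⟶ Sp k) (i : Z ⟶ Y) [IsClosedImmersion i]
    {ω : ∀ n : ℤ, (L.th n).T (Sp k) →+ (L.th n).T Z} (h : L.IsOp k (i ≫ π) ω) :
    L.IsOp k π fun n => ((L.th n).push i).comp (ω n) := by
  induction h with
  | gen M c =>
    have h1 : Flat ((c ≫ i) ≫ π) := hO0 k M _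
    have h2 : (fun n => ((L.th n).push i).comp
        (((L.th n).push c).comp ((L.th n).pull (c ≫ i ≫ π)))) =
        fun n => ((L.th n).push (c ≫ i)).comp ((L.th n).pull ((c ≫ i) ≫ π)) := by
      funext n
      ext t
      rw [AddMonoidHom.comp_apply, AddMonoidHom.comp_apply, AddMonoidHom.comp_apply,
        (L.th n).push_comp, pull_congr (L.th n) (Category.assoc c i π)]
    rw [h2]
    exact LThy.IsOp.gen M (c ≫ i)
  | zero =>
    have h2 : (fun n => ((L.th n).push i).comp
        (0 : (L.th n).T (Sp k) →+ (L.th n).T Z)) = fun _ => 0 := by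
      funext n
      ext t
      simp
    rw [h2]
    exact LThy.IsOp.zero
  | add ω ω' _ _ h h' =>
    have h2 : (fun n => ((L.th n).push i).comp (ω n + ω' n)) =
        fun n => ((L.th n).push i).comp (ω n) + ((L.th n).push i).comp (ω' n) := by
      funext n
      ext t
      simp
    rw [h2]
    exact LThy.IsOp.add _ _ h h'
  | neg ω _ h =>
    have h2 : (fun n => ((L.th n).push i).comp (- ω n)) =
        fun n => - ((L.th n).push i).comp (ω n) := by
      funext n
      ext t
      simp
    rw [h2]
    exact LThy.IsOp.neg _ h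

/-- operations of open subschemes lift -/
theorem op_lift (hO0 : St_O0) (L : LThy.{u}) (k : Type) [Field k] {Y U : Scheme.{0}}
    [IsNoetherian Y] (π : Y ⟶ Sp k) (j : U ⟶ Y) [IsOpenImmersion j]
    {ω : ∀ n : ℤ, (L.th n).T (Sp k) →+ (L.th n).T U} (h : L.IsOp k (j ≫ π) ω) :
    ∃ ω' : ∀ n : ℤ, (L.th n).T (Sp k) →+ (L.th n).T Y, L.IsOp k π ω' ∧
      ∀ (n : ℤ) (t : (L.th n).T (Sp k)), (L.th n).pull j (ω' n t) = ω n t := by
  have hU : IsNoetherian U := noeth_open j
  induction h with
  | gen M i =>
    obtain ⟨N, hN, hr, c, hc, e, he, hes⟩ := ext j i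
    have f1 : Flat (c ≫ π) := hO0 k N _
    refine ⟨_, LThy.IsOp.gen N c, fun n t => ?_⟩
    have hT := L.th n
    let s := Limits.pullback.snd c j
    let p := Limits.pullback.fst c j
    have i1 : IsClosedImmersion s := inferInstanceAs (IsClosedImmersion (Limits.pullback.snd c j))
    have i2 : IsOpenImmersion p := inferInstanceAs (IsOpenImmersion (Limits.pullback.fst c j))
    have hp : IsNoetherian (Limits.pullback c j) := noeth_open p
    have f2 : Flat (s ≫ j ≫ π) := hO0 k _ _
    have f3 : Flat (p ≫ c ≫ π) := hO0 k _ _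
    have f4 : Flat (e ≫ s ≫ j ≫ π) := hO0 k _ _
    have h1 := (L.th n).bc p s c j (IsPullback.of_hasPullback c j) ((L.th n).pull (c ≫ π) t)
    have h2 : (L.th n).pull p ((L.th n).pull (c ≫ π) t) = (L.th n).pull (s ≫ j ≫ π) t := by
      rw [← (L.th n).pull_comp]
      refine pull_congr _ ?_ t
      rw [← Category.assoc, ← Category.assoc]
      exact congrArg (· ≫ π) Limits.pullback.condition
    rw [AddMonoidHom.comp_apply, AddMonoidHom.comp_apply, h1, h2]
    have h3 : i ≫ j ≫ π = e ≫ s ≫ j ≫ π := by
      rw [← Category.assoc e s]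
      exact congrArg (· ≫ j ≫ π) hes.symm
    rw [pull_congr (L.th n) h3 t, (L.th n).pull_comp e (s ≫ j ≫ π),
      push_congr (L.th n) hes.symm, (L.th n).push_comp e, push_pull_iso]
  | zero => exact ⟨_, LThy.IsOp.zero, fun n t => by simp⟩
  | add ω ω' _ _ h h' =>
    obtain ⟨a, ha, ha'⟩ := h
    obtain ⟨b, hb, hb'⟩ := h'
    exact ⟨_, LThy.IsOp.add _ _ ha hb, fun n t => by simp [ha', hb']⟩
  | neg ω _ h =>
    obtain ⟨a, ha, ha'⟩ := h
    exact ⟨_, LThy.IsOp.neg _ ha, fun n t => by simp [ha']⟩

end O2

open O2 in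
theorem thm_O2 (hO0 : St_O0) : St_O2.{u} := by
  intro L k _ Y Z U _ π i j _ _ hij b b' hZ hU
  obtain ⟨a, ha, ha'⟩ := hZ
  obtain ⟨c, hc, hc'⟩ := hU
  choose d hd hd' using fun x => op_lift hO0 L k π j (hc x)
  -- restriction is surjective
  have hsur : ∀ (n : ℤ) (u : (L.th n).T U), ∃ y : (L.th n).T Y, (L.th n).pull j y = u := by
    intro n u
    obtain ⟨t, ht⟩ := (hc' n).2 u
    refine ⟨∑ x, d x n (t x), ?_⟩
    rw [map_sum, ← ht]
    exact Finset.sum_congr rfl fun x _ => hd' x n (t x)
  have hbd : ∀ (n : ℤ) (u : (L.th (n + 1)).T U), L.bd n i j u = 0 := by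
    intro n u
    obtain ⟨y, rfl⟩ := hsur (n + 1) u
    exact L.bd_pull n i j hij y
  have hinj : ∀ (n : ℤ) (z : (L.th n).T Z), (L.th n).push i z = 0 → z = 0 := by
    intro n z hz
    obtain ⟨u, rfl⟩ := L.exZ n i j hij z hz
    exact hbd n u
  refine ⟨fun x => Fin.addCases (motive := fun _ => ∀ n : ℤ, (L.th n).T (Sp k) →+ (L.th n).T Y)
    (fun x n => ((L.th n).push i).comp (a x n)) (fun x => d x) x, ?_, ?_⟩
  · intro x
    refine Fin.addCases (fun x => ?_) (fun x => ?_) x
    · simp only [Fin.addCases_left]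
      exact op_push hO0 L k π i (ha x)
    · simp only [Fin.addCases_right]
      exact hd x
  · intro n
    have hsum : ∀ t : Fin (b + b') → (L.th n).T (Sp k),
        (∑ x, (Fin.addCases (motive := fun _ => ∀ n : ℤ, (L.th n).T (Sp k) →+ (L.th n).T Y)
          (fun x n => ((L.th n).push i).comp (a x n)) (fun x => d x) x) n (t x)) =
          (L.th n).push i (∑ x, a x n (t (Fin.castAdd b' x))) +
            ∑ x, d x n (t (Fin.natAdd b x)) := by
      intro t
      rw [Fin.sum_univ_add, map_sum]
      simp only [Fin.addCases_left, Fin.addCases_right, AddMonoidHom.comp_apply]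
    have hpull : ∀ t : Fin (b + b') → (L.th n).T (Sp k),
        (L.th n).pull j ((L.th n).push i (∑ x, a x n (t (Fin.castAdd b' x))) +
            ∑ x, d x n (t (Fin.natAdd b x))) = ∑ x, c x n (t (Fin.natAdd b x)) := by
      intro t
      rw [map_add, (L.th n).ex0 i j hij, zero_add, map_sum]
      exact Finset.sum_congr rfl fun x _ => hd' x n _
    constructor
    · intro t t' htt'
      simp only [hsum] at htt'
      have h1 := congrArg ((L.th n).pull j) htt'
      rw [hpull, hpull] at h1
      have h2 : (fun x => t (Fin.natAdd b x)) = fun x => t' (Fin.natAdd b x) :=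
        (hc' n).1 h1
      have h3 : (∑ x, d x n (t (Fin.natAdd b x))) = ∑ x, d x n (t' (Fin.natAdd b x)) :=
        Finset.sum_congr rfl fun x _ => by rw [congrFun h2 x]
      rw [h3, add_left_inj] at htt'
      have h4 : (∑ x, a x n (t (Fin.castAdd b' x))) = ∑ x, a x n (t' (Fin.castAdd b' x)) := by
        rw [← sub_eq_zero]
        apply hinj n
        rw [map_sub, htt', sub_self]
      have h5 : (fun x => t (Fin.castAdd b' x)) = fun x => t' (Fin.castAdd b' x) :=
        (ha' n).1 h4
      funext x
      refine Fin.addCases (fun x => ?_) (fun x => ?_) x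
      · exact congrFun h5 x
      · exact congrFun h2 x
    · intro y
      obtain ⟨t, ht⟩ := (hc' n).2 ((L.th n).pull j y)
      have h1 : (L.th n).pull j (y - ∑ x, d x n (t x)) = 0 := by
        rw [map_sub, map_sum, ← ht, sub_eq_zero]
        exact Finset.sum_congr rfl fun x _ => (hd' x n _).symm
      obtain ⟨z, hz⟩ := (L.th n).ex i j hij _ h1
      obtain ⟨s, hs⟩ := (ha' n).2 z
      refine ⟨Fin.addCases (motive := fun _ => (L.th n).T (Sp k)) s t, ?_⟩
      simp only [hsum, Fin.addCases_left, Fin.addCases_right]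
      simp only at hs
      rw [hs, hz, sub_add_cancel]

end Pool.Agent.KTX
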