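import Pool.Agent.KTX.StG

/-!
# KTX, module G3: radical extensions (helper69)

Statement and proof: see `St_G3` in `Pool/Agent/KTX/StG.lean`.
-/

set_option autoImplicit false
set_option linter.unusedSectionVars false
set_option linter.style.haveILetI false

namespace Pool.Agent.KTX

open CategoryTheory Polynomial Function Pool.Agent.HPow TensorProduct

universe u

namespace G3

/-! ### free extensions -/

theorem freeR_of_pushout {A B A' B' : Type} [CommRing A] [CommRing B] [CommRing A'] [CommRing B']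
    {f : A →+* B} {g : A →+* A'} {g' : B →+* B'} {f' : A' →+* B'}
    (h : IsPushout (CommRingCat.ofHom f) (CommRingCat.ofHom g) (CommRingCat.ofHom g')
      (CommRingCat.ofHom f')) {d : ℕ} (hf : FreeR f d) : FreeR f' d := by
  letI a1 : Algebra A B := f.toAlgebra
  letI a2 : Algebra A A' := g.toAlgebra
  letI a3 : Algebra B B' := g'.toAlgebra
  letI a4 : Algebra A' B' := f'.toAlgebra
  letI a5 : Algebra A B' := (g'.comp f).toAlgebra
  haveI : IsScalarTower A B B' := IsScalarTower.of_algebraMap_eq' rfl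
  haveI : IsScalarTower A A' B' := IsScalarTower.of_algebraMap_eq' (by
    have := h.w
    exact congrArg CommRingCat.Hom.hom this)
  have h1 : Algebra.IsPushout A B A' B' := CommRingCat.isPushout_iff_isPushout.mp h
  have h2 : Algebra.IsPushout A A' B B' := h1.symm
  obtain ⟨b⟩ := hf
  exact ⟨h2.out.basis b⟩

theorem free_flat {A B : Type} [CommRing A] [CommRing B] {f : A →+* B} {d : ℕ}
    (hf : FreeR f d) : f.Flat := by
  letI a1 : Algebra A B := f.toAlgebra
  obtain ⟨b⟩ := hf
  haveI : Module.Free A B := Module.Free.of_basis b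
  exact RingHom.flat_algebraMap_iff.2 inferInstance

theorem free_finite {A B : Type} [CommRing A] [CommRing B] {f : A →+* B} {d : ℕ}
    (hf : FreeR f d) : f.Finite := by
  letI a1 : Algebra A B := f.toAlgebra
  obtain ⟨b⟩ := hf
  haveI : Module.Finite A B := Module.Finite.of_basis b
  exact RingHom.finite_algebraMap.2 inferInstance

theorem free_noeth {A B : Type} [CommRing A] [CommRing B] [IsNoetherianRing A] {f : A →+* B}
    {d : ℕ} (hf : FreeR f d) : IsNoetherianRing B := by
  letI a1 : Algebra A B := f.toAlgebra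
  obtain ⟨b⟩ := hf
  haveI : Module.Finite A B := Module.Finite.of_basis b
  exact IsNoetherianRing.of_finite A B

theorem free_pu_pl {R : RD.{u}} (hR : R.Ax) (n : ℤ) {A B : Type} [CommRing A] [CommRing B]
    [IsNoetherianRing A] {f : A →+* B} {d : ℕ} (hf : FreeR f d) (x : R.T n A) :
    R.pu n f (R.pl n f x) = d • x := by
  letI a1 : Algebra A B := f.toAlgebra
  obtain ⟨b⟩ := hf
  exact hR.free n A B d b x

/-! ### radical extensions -/

variable {p m q t : ℕ} {k : Type} [Field k]

/-- `q`-th powers in `A₁ ⊗ A₁` -/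
theorem tensor_pow (hk : Setg p m q t k) {A A₁ : Type} [CommRing A] [CommRing A₁]
    [Algebra k A₁] [Algebra A A₁] (hp : ∀ x : A₁, ∃ a : A, algebraMap A A₁ a = x ^ q)
    (d : A₁ ⊗[A] A₁) :
    ∃ a : A, (algebraMap A A₁ a) ⊗ₜ[A] (1 : A₁) = d ^ q := by
  letI : Algebra k (A₁ ⊗[A] A₁) :=
    ((Algebra.TensorProduct.includeLeftRingHom : A₁ →+* A₁ ⊗[A] A₁).comp
      (algebraMap k A₁)).toAlgebra
  induction d using TensorProduct.induction_on with
  | zero =>
    refine ⟨0, ?_⟩
    have := hk.q_two_le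
    rw [map_zero, TensorProduct.zero_tmul, zero_pow (by omega)]
  | tmul x y =>
    obtain ⟨a, ha⟩ := hp x
    obtain ⟨b, hb⟩ := hp y
    refine ⟨a * b, ?_⟩
    rw [Algebra.TensorProduct.tmul_pow, ← ha, ← hb, map_mul]
    have h1 : (algebraMap A A₁ b) = b • (1 : A₁) := Algebra.algebraMap_eq_smul_one b
    have h2 : (algebraMap A A₁ a) * (algebraMap A A₁ b) = b • algebraMap A A₁ a := by
      rw [mul_comm, ← Algebra.smul_def]
    rw [h2, h1, TensorProduct.tmul_smul, TensorProduct.smul_tmul']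
  | add x y hx hy =>
    obtain ⟨a, ha⟩ := hx
    obtain ⟨b, hb⟩ := hy
    refine ⟨a + b, ?_⟩
    rw [hk.add_pow, ← ha, ← hb, map_add, TensorProduct.add_tmul]

/-- the two compositions for a radical extension -/
theorem rad {R : RD.{u}} (hR : R.Ax) (hk : Setg p m q t k) (n : ℤ) {A A₁ : Type} [CommRing A]
    [CommRing A₁] [IsNoetherianRing A] [Algebra k A₁] (f : A →+* A₁) (hf : FreeR f q)
    (hp : ∀ x : A₁, ∃ a : A, f a = x ^ q) (x : R.T n A₁) : R.pl n f (R.pu n f x) = q • x := by
  letI a1 : Algebra A A₁ := f.toAlgebra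
  let i₁ : A₁ →+* A₁ ⊗[A] A₁ := Algebra.TensorProduct.includeLeftRingHom
  let i₂ : A₁ →+* A₁ ⊗[A] A₁ := (Algebra.TensorProduct.includeRight : A₁ →ₐ[A] _).toRingHom
  have hsq : IsPushout (CommRingCat.ofHom f) (CommRingCat.ofHom f) (CommRingCat.ofHom i₁)
      (CommRingCat.ofHom i₂) := CommRingCat.isPushout_tensorProduct A A₁ A₁
  have hf1 : FreeR i₁ q := freeR_of_pushout hsq.flip hf
  have hf2 : FreeR i₂ q := freeR_of_pushout hsq hf
  haveI hN1 : IsNoetherianRing A₁ := free_noeth hf
  haveI hND : IsNoetherianRing (A₁ ⊗[A] A₁) := free_noeth hf1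
  let μ : A₁ ⊗[A] A₁ →+* A₁ := (Algebra.TensorProduct.lmul' A (S := A₁)).toRingHom
  have hμ1 : μ.comp i₁ = RingHom.id A₁ := RingHom.ext fun a => by
    show Algebra.TensorProduct.lmul' A (a ⊗ₜ[A] (1 : A₁)) = a
    rw [Algebra.TensorProduct.lmul'_apply_tmul, mul_one]
  have hμ2 : μ.comp i₂ = RingHom.id A₁ := RingHom.ext fun a => by
    show Algebra.TensorProduct.lmul' A ((1 : A₁) ⊗ₜ[A] a) = a
    rw [Algebra.TensorProduct.lmul'_apply_tmul, one_mul]
  have hμs : Surjective μ := fun a => ⟨i₁ a, DFunLike.congr_fun hμ1 a⟩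
  have hμk : ∀ a ∈ RingHom.ker μ, IsNilpotent a := by
    intro d hd
    rw [RingHom.mem_ker] at hd
    obtain ⟨a, ha⟩ := tensor_pow hk hp d
    refine ⟨q, ?_⟩
    have h1 : μ (d ^ q) = 0 := by
      have := hk.q_two_le
      rw [map_pow, hd, zero_pow (by omega)]
    have h2 : f a = 0 := by
      rw [← ha] at h1
      have h3 := DFunLike.congr_fun hμ1 (f a)
      exact h3.symm.trans h1
    rw [← ha]
    show (f a) ⊗ₜ[A] (1 : A₁) = 0
    rw [h2, TensorProduct.zero_tmul]
  obtain ⟨y, hy⟩ := (hR.dev n μ hμs hμk).2 (R.pl n i₁ x)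
  have hy1 : R.pu n i₁ (R.pu n μ y) = y := by
    rw [← hR.pu_comp n i₁ μ (free_finite hf1) (finite_of_surj μ hμs), hμ1, hR.pu_id]
  have hy2 : R.pu n i₂ (R.pu n μ y) = y := by
    rw [← hR.pu_comp n i₂ μ (free_finite hf2) (finite_of_surj μ hμs), hμ2, hR.pu_id]
  rw [hR.bc n f f i₁ i₂ (free_finite hf) (free_flat hf) hsq, ← hy, hy2, ← hy1, hy,
    free_pu_pl hR n hf1]

/-- `q`-th powers in `A₁[y] / (y ^ q + y - h')` -/
theorem as_pow (hk : Setg p m q t k) {A A₁ : Type} [CommRing A] [CommRing A₁]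
    [Algebra k A₁] (f : A →+* A₁) (hp : ∀ x : A₁, ∃ a : A, f a = x ^ q) (h : A) (h' c : A₁)
    (e : AsC q f h h' c) (x : AS1 q A₁ h') : ∃ b : AS1 q A h, asH f h h' c e b = x ^ q := by
  have hmul : ∀ x y : AS1 q A₁ h', (∃ b : AS1 q A h, asH f h h' c e b = x ^ q) →
      (∃ b : AS1 q A h, asH f h h' c e b = y ^ q) →
      ∃ b : AS1 q A h, asH f h h' c e b = (x * y) ^ q := by
    rintro x y ⟨a, ha⟩ ⟨b, hb⟩
    exact ⟨a * b, by rw [map_mul, ha, hb, mul_pow]⟩
  have hadd : ∀ x y : AS1 q A₁ h', (∃ b : AS1 q A h, asH f h h' c e b = x ^ q) →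
      (∃ b : AS1 q A h, asH f h h' c e b = y ^ q) →
      ∃ b : AS1 q A h, asH f h h' c e b = (x + y) ^ q := by
    rintro x y ⟨a, ha⟩ ⟨b, hb⟩
    exact ⟨a + b, by rw [map_add, ha, hb, hk.add_pow]⟩
  have hO : ∀ a₁ : A₁, ∃ b : AS1 q A h, asH f h h' c e b = (asO q h' a₁) ^ q := by
    intro a₁
    obtain ⟨a, ha⟩ := hp a₁
    exact ⟨asO q h a, by rw [asH_O, ha, map_pow]⟩
  have hR : ∃ b : AS1 q A h, asH f h h' c e b = (asR q h') ^ q := by
    obtain ⟨b, hb⟩ := hO c
    refine ⟨asR q h ^ q - b, ?_⟩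
    rw [map_sub, map_pow, asH_R, hb, hk.add_pow, add_sub_cancel_right]
  obtain ⟨P, rfl⟩ := AdjoinRoot.mk_surjective x
  induction P using Polynomial.induction_on with
  | C a =>
    rw [AdjoinRoot.mk_C]
    exact hO a
  | add P Q hP hQ =>
    rw [map_add]
    exact hadd _ _ hP hQ
  | monomial n a ih =>
    rw [pow_succ, ← mul_assoc, map_mul]
    exact hmul _ _ ih hR

end G3

open G3 in
theorem thm_G3 : St_G3.{u} := by
  intro R hR p m q t k _ hk hPI n A A₁ _ _ _ _ _ f hf hp h h' c e e0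
  have hsq := asH_pushout hk f h h' c e e0
  have hF : FreeR (asH f h h' c e) q := freeR_of_pushout hsq.flip hf
  haveI hN1 : IsNoetherianRing A₁ := free_noeth hf
  haveI hNB : IsNoetherianRing (AS1 q A h) := as_noeth h
  haveI hNB1 : IsNoetherianRing (AS1 q A₁ h') := as_noeth h'
  have hrad : ∀ x : R.T n (AS1 q A₁ h'),
      R.pl n (asH f h h' c e) (R.pu n (asH f h h' c e) x) = q • x :=
    rad hR hk n _ hF (as_pow hk f hp h h' c e)
  have hfree : ∀ x : R.T n (AS1 q A h),
      R.pu n (asH f h h' c e) (R.pl n (asH f h h' c e) x) = q • x := free_pu_pl hR n hF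
  have hq : ∀ (B : Type) [CommRing B], Bijective fun x : R.T n B => q • x := by
    intro B _
    have h1 : ∀ j : ℕ, Bijective fun x : R.T n B => p ^ j • x := by
      intro j
      induction j with
      | zero =>
        simp only [pow_zero, one_smul]
        exact bijective_id
      | succ j ih =>
        have h2 : (fun x : R.T n B => p ^ (j + 1) • x) =
            (fun x : R.T n B => p ^ j • x) ∘ fun x : R.T n B => p • x := by
          funext x
          show p ^ (j + 1) • x = p ^ j • p • x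
          rw [smul_smul, pow_succ]
        rw [h2]
        exact ih.comp (hPI n B)
    rw [hk.hq]
    exact h1 m
  refine ⟨?_, ?_, ?_⟩
  · intro x hx
    have hx' : R.pu n (asO q h') x = 0 := hx
    show R.pu n (asO q h) (R.pu n (asH f h h' c e) x) = 0
    rw [← hR.pu_comp n (asO q h) (asH f h h' c e) (asO_finite hk h) (free_finite hF), asH_comp,
      hR.pu_comp n f (asO q h') (free_finite hf) (asO_finite hk h'), hx', map_zero]
  · intro x _ h0
    have h1 := hrad x
    rw [h0, map_zero] at h1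
    have h2 : (fun x : R.T n (AS1 q A₁ h') => q • x) x =
        (fun x : R.T n (AS1 q A₁ h') => q • x) 0 := by
      show q • x = q • 0
      rw [← h1, smul_zero]
    exact (hq _).1 h2
  · intro y hy
    have hy' : R.pu n (asO q h) y = 0 := hy
    obtain ⟨y₀, hy₀⟩ := (hq (AS1 q A h)).2 y
    have hy₀' : q • y₀ = y := hy₀
    refine ⟨R.pl n (asH f h h' c e) y₀, ?_, ?_⟩
    · show R.pu n (asO q h') (R.pl n (asH f h h' c e) y₀) = 0
      rw [← hR.bc n (asO q h) f (asH f h h' c e) (asO q h') (asO_finite hk h) (free_flat hf) hsq]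
      have h1 : R.pu n (asO q h) y₀ = 0 := by
        have h2 : (fun x : R.T n A => q • x) (R.pu n (asO q h) y₀) =
            (fun x : R.T n A => q • x) 0 := by
          show q • R.pu n (asO q h) y₀ = q • 0
          rw [← map_nsmul, hy₀', hy', smul_zero]
        exact (hq _).1 h2
      rw [h1, map_zero]
    · rw [hfree, hy₀']

end Pool.Agent.KTX
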