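import Pool.Agent.KTX.G2

/-!
# KTX, module G4: the hyperbolic plane
-/

set_option autoImplicit false
set_option linter.unusedSectionVars false
set_option linter.style.haveILetI false

namespace Pool.Agent.KTX

open CategoryTheory AlgebraicGeometry Polynomial Function Pool.Agent.HPow

universe u

namespace G4

variable {p m q t : ℕ} {k : Type} [Field k]

theorem finite_of_freeR {A B : Type} [CommRing A] [CommRing B] {f : A →+* B} {d : ℕ}
    (h : FreeR f d) : f.Finite := by
  obtain ⟨b⟩ := h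
  letI := f.toAlgebra
  exact Module.Finite.of_basis b

/-- the Frobenius permutation -/
def fr (q : ℕ) (k : Type) [Field k] : {a : k // a ^ (q ^ 2) = a} ≃ {a : k // a ^ (q ^ 2) = a} where
  toFun a := ⟨a.1 ^ q, by rw [← pow_mul, mul_comm, pow_mul, a.2]⟩
  invFun a := ⟨a.1 ^ q, by rw [← pow_mul, mul_comm, pow_mul, a.2]⟩
  left_inv a := Subtype.ext (by
    show (a.1 ^ q) ^ q = a.1
    rw [← pow_mul, ← sq, a.2])
  right_inv a := Subtype.ext (by
    show (a.1 ^ q) ^ q = a.1
    rw [← pow_mul, ← sq, a.2])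

/-- the equation modulo `c ^ (q ^ 2) - c` -/
theorem hyg_mod {W D : Type} [CommRing W] [CommRing D] (h : W) (φ : W[X] →+* D)
    (h0 : φ (X ^ (q ^ 2) - X) = 0) : mapRingHom φ (hyg q h) = C (φ (C h)) := by
  unfold hyg
  rw [map_add, map_mul, coe_mapRingHom, map_C, map_X, map_C, h0, C_0, zero_mul, zero_add]

theorem comp_eq (hk : Setg p m q t k) {W D : Type} [CommRing W] [CommRing D] [Algebra k W]
    (h : W) (φ : W[X] →+* D) (e : mapRingHom φ (hyg q h) = C (φ (C h))) (ε : D →+* W)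
    (a : {a : k // a ^ (q ^ 2) = a}) (hε : ε.comp φ = evalRingHom (algebraMap k W a.1))
    (e' : mapRingHom ε (C (φ (C h))) = C h) :
    ((asE q (mapRingHom ε) (C (φ (C h))) (C h) e').comp
      (asE q (mapRingHom φ) (hyg q h) (C (φ (C h))) e)).comp
        (asH (exU q W) (hyf q h) (hyg q h) (C X * X) (hyg_asC hk h)) =
      hyi hk h (fr q k a) := by
  have hε' : ∀ P : W[X], ε (φ P) = eval (algebraMap k W a.1) P := fun P =>
    DFunLike.congr_fun hε P
  have hP : ((mapRingHom ε).comp (mapRingHom φ)).comp (exU q W) = evU (fr q k a).1 := by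
    refine Polynomial.ringHom_ext (fun P => ?_) ?_
    · show mapRingHom ε (mapRingHom φ (exU q W (C P))) = evU (fr q k a).1 (C P)
      rw [coe_mapRingHom, coe_mapRingHom, coe_mapRingHom, coe_mapRingHom, map_C, map_C, map_C,
        map_C]
      congr 1
      rw [hε']
      show eval (algebraMap k W a.1) (expand W q P) = eval (algebraMap k W (a.1 ^ q)) P
      rw [expand_eval, map_pow]
    · show mapRingHom ε (mapRingHom φ (exU q W X)) = evU (fr q k a).1 X
      rw [coe_mapRingHom, coe_mapRingHom, coe_mapRingHom, coe_mapRingHom, map_X, map_X, map_X,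
        map_X]
  refine as_ext ?_ ?_
  · refine RingHom.ext fun P => ?_
    show asE q (mapRingHom ε) (C (φ (C h))) (C h) e' (asE q (mapRingHom φ) (hyg q h)
      (C (φ (C h))) e (asH (exU q W) (hyf q h) (hyg q h) (C X * X) (hyg_asC hk h)
        (asO q (hyf q h) P))) = hyi hk h (fr q k a) (asO q (hyf q h) P)
    unfold hyi
    rw [asH_O, asH_O, asH_O, asH_O]
    exact congrArg _ (DFunLike.congr_fun hP P)
  · show asE q (mapRingHom ε) (C (φ (C h))) (C h) e' (asE q (mapRingHom φ) (hyg q h)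
      (C (φ (C h))) e (asH (exU q W) (hyf q h) (hyg q h) (C X * X) (hyg_asC hk h)
        (asR q (hyf q h)))) = hyi hk h (fr q k a) (asR q (hyf q h))
    unfold hyi
    rw [asH_R, asH_R, map_add, map_add, asH_R, map_zero, add_zero, asH_R, map_zero, add_zero,
      asH_O, asH_O]
    congr 2
    rw [map_mul, map_mul, coe_mapRingHom, coe_mapRingHom, map_C, map_C, map_X, map_X, hε', eval_X]
    congr 3
    show a.1 = (a.1 ^ q) ^ q
    rw [← pow_mul, ← sq, a.2]

end G4

/-- the module -/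
theorem thm_G4 (hG3 : St_G3.{u}) (hGX : St_GX.{u}) (hGC : St_GC) (hRX : St_RX) : St_G4.{u} := by
  intro R hR p m q t k _ hk hp n W _ _ _ h _
  haveI := hk.finite
  let g : W[X] := X ^ (q ^ 2) - X
  let φ : W[X] →+* WQ q W := Ideal.Quotient.mk (Ideal.span {g})
  have hφ : Surjective φ := Ideal.Quotient.mk_surjective
  have hφk : RingHom.ker φ = Ideal.span {g} := Ideal.mk_ker
  have hφ0 : φ g = 0 := Ideal.Quotient.eq_zero_iff_mem.2 (Ideal.mem_span_singleton_self g)
  have e := G4.hyg_mod (q := q) h φ hφ0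
  letI : Algebra k (WQ q W) := (φ.comp (algebraMap k W[X])).toAlgebra
  haveI hN : IsNoetherianRing (AS1 q W[X][X] (hyf q h)) := as_noeth _
  haveI hN1 : IsNoetherianRing (AS1 q W[X][X] (hyg q h)) := as_noeth _
  obtain ⟨ε, hε, hbj⟩ := hGC p m q t k hk W
  have hε' : ∀ a, ∀ P : W[X], ε a (φ P) = eval (algebraMap k W a.1) P := fun a P =>
    DFunLike.congr_fun (hε a) P
  have e' : ∀ a, mapRingHom (ε a) (C (φ (C h))) = C h := by
    intro a
    rw [coe_mapRingHom, map_C, hε', eval_C]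
  obtain ⟨hfr, hpw⟩ := hRX p m q t k hk W
  have hfin := G4.finite_of_freeR hfr
  -- the three steps
  have hA := hG3 R hR p m q t k hk hp n W[X][X] W[X][X] (exU q W) hfr hpw (hyf q h) (hyg q h)
    (C X * X) (hyg_asC hk h) (hyf_exU h)
  have hB := G2.main hR hk hp n W[X] (WQ q W) φ hφ (fun _ => rfl) g (C h) hφk (hyg q h) rfl e
  have hC := hGX R hR p m q t k hk n (WQ q W)[X] {a : k // a ^ (q ^ 2) = a} (fun _ => W[X])
    (fun a => mapRingHom (ε a)) hbj (C (φ (C h))) (fun _ => C h) e'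
  have hD := thm_GP R hR p m q t k hk n W h
  have hAf : (asH (exU q W) (hyf q h) (hyg q h) (C X * X) (hyg_asC hk h)).Finite :=
    G1.asH_finite hk _ hfin _ _ _ _
  have hBf : (asE q (mapRingHom φ) (hyg q h) (C (φ (C h))) e).Finite :=
    finite_of_surj _ (asH_surj _ _ _ _ _ (map_surjective _ hφ))
  have hεs : ∀ a, Surjective (ε a) := by
    intro a w
    refine ⟨φ (C w), ?_⟩
    rw [hε', eval_C]
  have hCf : ∀ a, (asE q (mapRingHom (ε a)) (C (φ (C h))) (C h) (e' a)).Finite := fun a =>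
    finite_of_surj _ (asH_surj _ _ _ _ _ (map_surjective _ (hεs a)))
  have key : ∀ z : {a : k // a ^ (q ^ 2) = a} → R.T n (AS1 q W h),
      ∑ a, R.pu n (hyi hk h a) (R.pl n (asE q (C : W →+* W[X]) h (C h) rfl) (z a)) =
      R.pu n (asH (exU q W) (hyf q h) (hyg q h) (C X * X) (hyg_asC hk h))
        (R.pu n (asE q (mapRingHom φ) (hyg q h) (C (φ (C h))) e)
          (∑ a, R.pu n (asE q (mapRingHom (ε a)) (C (φ (C h))) (C h) (e' a))
            (R.pl n (asE q (C : W →+* W[X]) h (C h) rfl) (z (G4.fr q k a))))) := by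
    intro z
    rw [map_sum, map_sum, ← Equiv.sum_comp (G4.fr q k)]
    refine Finset.sum_congr rfl fun a _ => ?_
    rw [← hR.pu_comp n _ _ hBf (hCf a), ← hR.pu_comp n _ _ hAf (RingHom.Finite.comp (hCf a) hBf)]
    exact G1.pu_congr R n (G4.comp_eq hk h φ e (ε a) a (hε a) (e' a)).symm _
  refine ⟨fun z hz => ?_, fun z hz h0 => ?_, fun x hx => ?_⟩
  · rw [key]
    refine hA.1 _ (hB.1 _ (hC.1 _ fun a => hD.1 _ (hz _)))
  · rw [key] at h0
    have h1 := hC.2.1 _ (fun a => hD.1 _ (hz (G4.fr q k a)))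
      (hB.2.1 _ (hC.1 _ fun a => hD.1 _ (hz (G4.fr q k a)))
        (hA.2.1 _ (hB.1 _ (hC.1 _ fun a => hD.1 _ (hz (G4.fr q k a)))) h0))
    funext a
    have h2 := congrFun h1 ((G4.fr q k).symm a)
    have h3 := hD.2.1 _ (hz _) h2
    rw [Equiv.apply_symm_apply] at h3
    exact h3
  · obtain ⟨x1, hx1, rfl⟩ := hA.2.2 x hx
    obtain ⟨x2, hx2, rfl⟩ := hB.2.2 x1 hx1
    obtain ⟨x3, hx3, rfl⟩ := hC.2.2 x2 hx2
    choose y hy hy' using fun a => hD.2.2 (x3 a) (hx3 a)
    refine ⟨fun a => y ((G4.fr q k).symm a), fun a => hy _, ?_⟩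
    rw [key]
    refine congrArg _ (congrArg _ (Finset.sum_congr rfl fun a _ => ?_))
    rw [Equiv.symm_apply_apply, hy']

end Pool.Agent.KTX
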