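import Pool.Agent.KTX.StG

/-!
# KTX, module OA: transfer of operations (helper25)

Statement: see `St_OA` in `Pool/Agent/KTX/StG.lean`.
-/

set_option autoImplicit false

namespace Pool.Agent.KTX

open CategoryTheory Polynomial Function Pool.Agent.HPow

universe u

namespace OA

/-- Operations are mapped to operations by additive maps which map generators to generators. -/
theorem isOp_map (R : RD.{u}) (k : Type) [Field k] (V V' : Type) [CommRing V] [CommRing V']
    [Algebra k V] [Algebra k V'] (F : ∀ n : ℤ, R.T n V →+ R.T n V')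
    (hF : ∀ (C : Type) [CommRing C] [Algebra k C] [IsNoetherianRing C] [_root_.IsReduced C]
      (ρ : V →ₐ[k] C), Surjective ρ → R.IsOp k V' fun n =>
        (F n).comp ((R.pu n (ρ : V →+* C)).comp (R.pl n (algebraMap k C))))
    (ω : ∀ n : ℤ, R.T n k →+ R.T n V) (h : R.IsOp k V ω) :
    R.IsOp k V' fun n => (F n).comp (ω n) := by
  induction h with
  | gen C ρ hρ => exact hF C ρ hρ
  | zero =>
    have e : (fun n => (F n).comp (0 : R.T n k →+ R.T n V)) = fun _ => 0 := by
      funext n
      exact AddMonoidHom.comp_zero _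
    rw [e]
    exact RD.IsOp.zero
  | add ω ω' _ _ h h' =>
    have e : (fun n => (F n).comp (ω n + ω' n)) =
        fun n => (F n).comp (ω n) + (F n).comp (ω' n) := by
      funext n
      exact AddMonoidHom.comp_add _ _ _
    rw [e]
    exact RD.IsOp.add _ _ h h'
  | neg ω _ h =>
    have e : (fun n => (F n).comp (- ω n)) = fun n => - (F n).comp (ω n) := by
      funext n
      ext x
      exact map_neg (F n) (ω n x)
    rw [e]
    exact RD.IsOp.neg _ h

theorem part1 (R : RD.{u}) (hR : R.Ax) (k : Type) [Field k] (V V' : Type) [CommRing V]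
    [CommRing V'] [IsNoetherianRing V] [Algebra k V] [Algebra k V'] (i : V →+* V')
    (hi : Surjective i) (hik : i.comp (algebraMap k V) = algebraMap k V')
    (ω : ∀ n : ℤ, R.T n k →+ R.T n V') (hω : R.IsOp k V' ω) :
    R.IsOp k V fun n => (R.pu n i).comp (ω n) := by
  refine isOp_map R k V' V (fun n => R.pu n i) (fun C _ _ _ _ ρ hρ => ?_) ω hω
  let i' : V →ₐ[k] V' := { i with commutes' := fun c => DFunLike.congr_fun hik c }
  have h1 := RD.IsOp.gen (R := R) (k := k) (V := V) C (ρ.comp i') (hρ.comp hi)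
  have e : (fun n => (R.pu n i).comp ((R.pu n (ρ : V' →+* C)).comp (R.pl n (algebraMap k C)))) =
      fun n => (R.pu n ((ρ.comp i' : V →ₐ[k] C) : V →+* C)).comp (R.pl n (algebraMap k C)) := by
    funext n
    ext x
    have h2 := hR.pu_comp n i (ρ : V' →+* C) (finite_of_surj i hi) (finite_of_surj _ hρ)
      (R.pl n (algebraMap k C) x)
    exact h2.symm
  rw [e]
  exact h1

theorem iso_pushout {V V' C : Type} [CommRing V] [CommRing V'] [CommRing C] (i : V ≃+* V')
    (ρ : V →+* C) : IsPushout (CommRingCat.ofHom ρ) (CommRingCat.ofHom (i : V →+* V'))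
      (CommRingCat.ofHom (RingHom.id C)) (CommRingCat.ofHom (ρ.comp (i.symm : V' →+* V))) := by
  refine isPushout_of _ _ _ _ ?_ (fun D _ u v huv => ?_) (fun D _ w w' h1 h2 => ?_)
  · refine RingHom.ext fun x => ?_
    show ρ x = ρ (i.symm (i x))
    rw [i.symm_apply_apply]
  · refine ⟨u, rfl, RingHom.ext fun y => ?_⟩
    have h1 := DFunLike.congr_fun huv (i.symm y)
    show u (ρ (i.symm y)) = v y
    refine h1.trans ?_
    show v (i (i.symm y)) = v y
    rw [i.apply_symm_apply]
  · exact h1

theorem part2 (R : RD.{u}) (hR : R.Ax) (k : Type) [Field k] (V V' : Type) [CommRing V]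
    [CommRing V'] [IsNoetherianRing V] [Algebra k V] [Algebra k V'] (i : V ≃+* V')
    (hik : (i : V →+* V').comp (algebraMap k V) = algebraMap k V')
    (ω : ∀ n : ℤ, R.T n k →+ R.T n V) (hω : R.IsOp k V ω) :
    R.IsOp k V' fun n => (R.pl n (i : V →+* V')).comp (ω n) := by
  haveI : IsNoetherianRing V' := isNoetherianRing_of_ringEquiv V i
  refine isOp_map R k V V' (fun n => R.pl n (i : V →+* V')) (fun C _ _ _ _ ρ hρ => ?_) ω hω
  let i' : V' →ₐ[k] V := { (i.symm : V' →+* V) with
    commutes' := fun c => by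
      show i.symm (algebraMap k V' c) = algebraMap k V c
      rw [RingEquiv.symm_apply_eq]
      exact (DFunLike.congr_fun hik c).symm }
  have h1 := RD.IsOp.gen (R := R) (k := k) (V := V') C (ρ.comp i') (hρ.comp i.symm.surjective)
  have e : (fun n => (R.pl n (i : V →+* V')).comp
      ((R.pu n (ρ : V →+* C)).comp (R.pl n (algebraMap k C)))) =
      fun n => (R.pu n ((ρ.comp i' : V' →ₐ[k] C) : V' →+* C)).comp (R.pl n (algebraMap k C)) := by
    funext n
    ext x
    have h2 := hR.bc n (ρ : V →+* C) (i : V →+* V') (RingHom.id C)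
      ((ρ : V →+* C).comp (i.symm : V' →+* V)) (finite_of_surj _ hρ) (flat_of_equiv i)
      (iso_pushout i (ρ : V →+* C)) (R.pl n (algebraMap k C) x)
    rw [hR.pl_id] at h2
    exact h2
  rw [e]
  exact h1

theorem pli_asM {q : ℕ} {A : Type} [CommRing A] (h : A) :
    (pli q h).comp (asM q (C : A →+* A[X]) h) = (C : AS1 q A h →+* (AS1 q A h)[X]) := by
  refine RingHom.ext fun b => ?_
  show pli q h (asM q (C : A →+* A[X]) h b) = C b
  rw [← pla_C]
  exact DFunLike.congr_fun (pli_pla h) (C b)

theorem poly_pushout {q : ℕ} {A B : Type} [CommRing A] [CommRing B] (h : A)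
    (ρ : AS1 q A h →+* B) : IsPushout (CommRingCat.ofHom ρ)
      (CommRingCat.ofHom (asM q (C : A →+* A[X]) h)) (CommRingCat.ofHom (C : B →+* B[X]))
      (CommRingCat.ofHom ((mapRingHom ρ).comp (pli q h))) := by
  refine isPushout_of _ _ _ _ ?_ (fun D _ u v huv => ?_) (fun D _ w w' h1 h2 => ?_)
  · rw [RingHom.comp_assoc, pli_asM]
    refine RingHom.ext fun b => ?_
    show C (ρ b) = mapRingHom ρ (C b)
    rw [coe_mapRingHom, map_C]
  · refine ⟨eval₂RingHom u (v (asO q _ X)), ?_, ?_⟩
    · refine RingHom.ext fun b => ?_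
      show eval₂RingHom u (v (asO q _ X)) (C b) = u b
      rw [coe_eval₂RingHom, eval₂_C]
    · have h1 : (eval₂RingHom u (v (asO q _ X))).comp (mapRingHom ρ) = v.comp (pla q h) := by
        refine Polynomial.ringHom_ext (fun b => ?_) ?_
        · show eval₂RingHom u (v (asO q _ X)) (mapRingHom ρ (C b)) = v (pla q h (C b))
          rw [coe_mapRingHom, map_C, coe_eval₂RingHom, eval₂_C, pla_C]
          exact DFunLike.congr_fun huv b
        · show eval₂RingHom u (v (asO q _ X)) (mapRingHom ρ X) = v (pla q h X)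
          rw [coe_mapRingHom, map_X, coe_eval₂RingHom, eval₂_X, pla_X]
      rw [← RingHom.comp_assoc, h1, RingHom.comp_assoc, pla_pli]
      rfl
  · refine Polynomial.ringHom_ext (fun b => DFunLike.congr_fun h1 b) ?_
    have h3 := DFunLike.congr_fun h2 (asO q _ X)
    have h4 : (mapRingHom ρ).comp (pli q h) (asO q _ X) = X := by
      show mapRingHom ρ (pli q h (asO q _ X)) = X
      unfold pli
      rw [asL_O, coe_mapRingHom, coe_mapRingHom, map_X, map_X]
    change w ((mapRingHom ρ).comp (pli q h) (asO q _ X)) =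
      w' ((mapRingHom ρ).comp (pli q h) (asO q _ X)) at h3
    rw [h4] at h3
    exact h3

theorem poly_reduced (B : Type) [CommRing B] [_root_.IsReduced B] : _root_.IsReduced B[X] := by
  refine ⟨fun P hP => ?_⟩
  rw [Polynomial.isNilpotent_iff] at hP
  ext i
  rw [(hP i).eq_zero, coeff_zero]

theorem part3 {p m q t : ℕ} (R : RD.{u}) (hR : R.Ax) (k : Type) [Field k]
    (hk : Setg p m q t k) (A : Type) [CommRing A] [IsNoetherianRing A] [Algebra k A] (h : A)
    (ω : ∀ n : ℤ, R.T n k →+ R.T n (AS1 q A h)) (hω : R.IsOp k (AS1 q A h) ω) :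
    R.IsOp k (AS1 q A[X] (C h)) fun n =>
      (R.pl n (asE q (C : A →+* A[X]) h (C h) rfl)).comp (ω n) := by
  haveI n1 : IsNoetherianRing (AS1 q A h) := as_noeth h
  haveI n2 : IsNoetherianRing (AS1 q A[X] (C h)) := as_noeth (C h)
  refine isOp_map R k (AS1 q A h) (AS1 q A[X] (C h))
    (fun n => R.pl n (asE q (C : A →+* A[X]) h (C h) rfl)) (fun B _ _ _ _ ρ hρ => ?_) ω hω
  haveI := poly_reduced B
  have hO : ∀ a : A, pli q h (asO q (C h : A[X]) (C a)) = C (asO q h a) := by
    intro a
    unfold pli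
    rw [asL_O, coe_mapRingHom, map_C]
  let ρ' : AS1 q A[X] (C h) →ₐ[k] B[X] :=
    { (mapRingHom (ρ : AS1 q A h →+* B)).comp (pli q h) with
      commutes' := fun c => by
        show mapRingHom (ρ : AS1 q A h →+* B) (pli q h (algebraMap k (AS1 q A[X] (C h)) c)) =
          algebraMap k B[X] c
        have h1 : algebraMap k (AS1 q A[X] (C h)) c = asO q (C h : A[X]) (C (algebraMap k A c)) :=
          rfl
        have h2 : asO q h (algebraMap k A c) = algebraMap k (AS1 q A h) c := rfl
        rw [h1, hO, coe_mapRingHom, map_C, h2]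
        exact congrArg C (ρ.commutes c) }
  have hρ' : Surjective ρ' := by
    have h1 : Surjective (mapRingHom (ρ : AS1 q A h →+* B)) := Polynomial.map_surjective _ hρ
    have h2 : Surjective (pli q h) := (plE q h).symm.surjective
    exact h1.comp h2
  have h1 := RD.IsOp.gen (R := R) (k := k) (V := AS1 q A[X] (C h)) B[X] ρ' hρ'
  have hkB : (algebraMap k B).Flat := RingHom.flat_algebraMap_iff.2 inferInstance
  have hfl : (asM q (C : A →+* A[X]) h).Flat :=
    flat_of_pushout (asH_pushout hk (C : A →+* A[X]) h (C h) 0 (asC_zero _ h) (by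
      rw [zero_pow (by have := hk.q_two_le; omega), add_zero, add_zero])) (poly_flat A)
  have e : (fun n => (R.pl n (asE q (C : A →+* A[X]) h (C h) rfl)).comp
      ((R.pu n (ρ : AS1 q A h →+* B)).comp (R.pl n (algebraMap k B)))) =
      fun n => (R.pu n (ρ' : AS1 q A[X] (C h) →+* B[X])).comp (R.pl n (algebraMap k B[X])) := by
    funext n
    ext x
    have h2 := hR.bc n (ρ : AS1 q A h →+* B) (asM q (C : A →+* A[X]) h) (C : B →+* B[X])
      ((mapRingHom (ρ : AS1 q A h →+* B)).comp (pli q h)) (finite_of_surj _ hρ) hfl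
      (poly_pushout h (ρ : AS1 q A h →+* B)) (R.pl n (algebraMap k B) x)
    have h3 := hR.pl_comp n (algebraMap k B) (C : B →+* B[X]) hkB (poly_flat B) x
    rw [← h3] at h2
    exact h2
  rw [e]
  exact h1

end OA

theorem thm_OA : St_OA.{u} := by
  intro R hR p m q t k _ hk
  exact ⟨fun V V' _ _ _ _ _ i hi hik ω hω => OA.part1 R hR k V V' i hi hik ω hω,
    fun V V' _ _ _ _ _ i hik ω hω => OA.part2 R hR k V V' i hik ω hω,
    fun A _ _ _ h ω hω => OA.part3 R hR k hk A h ω hω⟩

end Pool.Agent.KTX
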