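import Pool.Agent.KTX.StG

/-!
# KTX, module OB: basis of operations for the point `A = k`, `h = 0`
-/

set_option autoImplicit false
set_option linter.unusedSectionVars false
set_option linter.style.haveILetI false

namespace Pool.Agent.KTX

open CategoryTheory Polynomial Function Pool.Agent.HPow

universe u

namespace OB

/-- the projections of a finite product are flat -/
theorem flat_proj {I : Type} [Finite I] {C : Type} [CommRing C] {D : I → Type}
    [∀ i, CommRing (D i)] (π : ∀ i, C →+* D i)
    (h : Bijective (fun (c : C) (i : I) => π i c)) (i : I) : (π i).Flat := by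
  let e : C ≃+* (∀ i, D i) := RingEquiv.ofBijective (RingHom.pi π) h
  have he : (Pi.evalRingHom D i).comp (e : C →+* (∀ i, D i)) = π i := rfl
  haveI h1 : AlgebraicGeometry.IsOpenImmersion
      (AlgebraicGeometry.Spec.map (CommRingCat.ofHom (Pi.evalRingHom D i))) := inferInstance
  have h2 : AlgebraicGeometry.Flat
      (AlgebraicGeometry.Spec.map (CommRingCat.ofHom (Pi.evalRingHom D i))) := inferInstance
  rw [AlgebraicGeometry.Flat.SpecMap_iff] at h2
  rw [← he]
  exact (flat_of_equiv e).comp h2

section pt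

variable {p m q t : ℕ} {k : Type} [Field k]

/-- the point `b` -/
noncomputable def pt (q : ℕ) {k : Type} [Field k] (b : {b : k // b ^ q + b = 0}) :
    AS1 q k (0 : k) →+* k :=
  asL (0 : k) (RingHom.id k) b.1 (by rw [b.2, map_zero])

theorem pt_O (b : {b : k // b ^ q + b = 0}) (c : k) : pt q b (asO q (0 : k) c) = c :=
  asL_O _ _ _ _ _

theorem pt_R (b : {b : k // b ^ q + b = 0}) : pt q b (asR q (0 : k)) = b.1 :=
  asL_R _ _ _ _

theorem pt_comp (b : {b : k // b ^ q + b = 0}) :
    (pt q b).comp (asO q (0 : k)) = RingHom.id k := RingHom.ext fun c => pt_O b c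

theorem pt_surj (b : {b : k // b ^ q + b = 0}) : Surjective (pt q b) :=
  fun c => ⟨_, pt_O b c⟩

theorem pt_mk (b : {b : k // b ^ q + b = 0}) (P : k[X]) :
    pt q b (AdjoinRoot.mk _ P) = P.eval b.1 := by
  unfold pt asL
  rw [AdjoinRoot.lift_mk]
  rfl

theorem inj (hk : Setg p m q t k) {I : Type} [Fintype I] (hI : Fintype.card I = q)
    (e : I → {b : k // b ^ q + b = 0}) (he : Injective e) (x : AS1 q k (0 : k))
    (hx : ∀ i, pt q (e i) x = 0) : x = 0 := by
  obtain ⟨P, rfl⟩ := AdjoinRoot.mk_surjective x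
  have hm := asO_monic hk (0 : k)
  set g : k[X] := X ^ q + X - C (0 : k) with hg
  have hnat : g.natDegree = q := by
    rw [hg, add_sub_assoc, natDegree_add_eq_left_of_natDegree_lt, natDegree_X_pow]
    rw [natDegree_X_pow, natDegree_X_sub_C]
    exact hk.q_two_le
  have h1 : P %ₘ g = 0 := by
    refine eq_zero_of_natDegree_lt_card_of_eval_eq_zero (P %ₘ g) (f := fun i => (e i).1)
      (Subtype.val_injective.comp he) (fun i => ?_) ?_
    · have h2 := hx i
      rw [pt_mk] at h2
      have h3 : P = P %ₘ g + g * (P /ₘ g) := (modByMonic_add_div P g).symm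
      have h4 : g.eval (e i).1 = 0 := by
        rw [hg, eval_sub, eval_add, eval_pow, eval_X, eval_C, (e i).2, sub_zero]
      have h5 := congrArg (fun Q : k[X] => Q.eval (e i).1) h3
      simp only [eval_add, eval_mul, h4, zero_mul, add_zero] at h5
      rw [← h5]
      exact h2
    · rw [hI, ← hnat]
      refine natDegree_modByMonic_lt P hm ?_
      intro h0
      rw [h0, natDegree_one] at hnat
      have := hk.q_two_le
      omega
  rw [AdjoinRoot.mk_eq_zero]
  exact (modByMonic_eq_zero_iff_dvd hm).1 h1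

theorem bij (hk : Setg p m q t k) {I : Type} [Fintype I] (hI : Fintype.card I = q)
    (e : I → {b : k // b ^ q + b = 0}) (he : Injective e) :
    Bijective (fun (c : AS1 q k (0 : k)) (i : I) => pt q (e i) c) := by
  let L : AS1 q k (0 : k) →ₗ[k] (I → k) :=
    { toFun := fun c i => pt q (e i) c
      map_add' := fun a b => funext fun i => map_add _ _ _
      map_smul' := fun a b => funext fun i => by
        show pt q (e i) (a • b) = a * pt q (e i) b
        rw [Algebra.smul_def, map_mul]
        congr 1
        exact pt_O (e i) a }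
  have hinj : Injective L := by
    rw [injective_iff_map_eq_zero]
    intro x hx
    exact inj hk hI e he x fun i => congrFun hx i
  obtain ⟨B⟩ := asO_basis hk (0 : k)
  haveI : FiniteDimensional k (AS1 q k (0 : k)) := Module.Finite.of_basis B
  have hfr : Module.finrank k (AS1 q k (0 : k)) = Module.finrank k (I → k) := by
    rw [Module.finrank_eq_card_basis B, Fintype.card_fin, Module.finrank_fintype_fun_eq_card, hI]
  exact ⟨hinj, (LinearMap.injective_iff_surjective_of_finrank_eq_finrank hfr).1 hinj⟩

/-- different points do not meet -/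
theorem disj (R : RD.{u}) (hR : R.Ax) (b b' : {b : k // b ^ q + b = 0}) (hbb : b ≠ b')
    (hfl : (pt q b').Flat) (n : ℤ) (x : R.T n k) :
    R.pl n (pt q b') (R.pu n (pt q b) x) = 0 := by
  haveI : IsNoetherianRing (AS1 q k (0 : k)) := as_noeth (0 : k)
  let z : k →+* PUnit.{1} :=
    { toFun := fun _ => PUnit.unit
      map_one' := rfl
      map_mul' := fun _ _ => rfl
      map_zero' := rfl
      map_add' := fun _ _ => rfl }
  have hsub : ∀ (D : Type) [CommRing D] (u v : k →+* D),
      u.comp (pt q b) = v.comp (pt q b') → Subsingleton D := by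
    intro D _ u v huv
    have h1 : ∀ c : k, u c = v c := fun c => by
      have h2 := DFunLike.congr_fun huv (asO q (0 : k) c)
      rw [RingHom.comp_apply, RingHom.comp_apply, pt_O, pt_O] at h2
      exact h2
    have h3 := DFunLike.congr_fun huv (asR q (0 : k))
    rw [RingHom.comp_apply, RingHom.comp_apply, pt_R, pt_R, ← h1] at h3
    have h4 : u (b.1 - b'.1) = 0 := by rw [map_sub, h3, sub_self]
    have h5 : b.1 - b'.1 ≠ 0 := fun h0 => hbb (Subtype.ext (sub_eq_zero.1 h0))
    have h6 : (1 : D) = 0 := by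
      rw [← map_one u, ← mul_inv_cancel₀ h5, map_mul, h4, zero_mul]
    exact subsingleton_of_zero_eq_one h6.symm
  have hpo : IsPushout (CommRingCat.ofHom (pt q b)) (CommRingCat.ofHom (pt q b'))
      (CommRingCat.ofHom z) (CommRingCat.ofHom z) := by
    refine isPushout_of _ _ _ _ (RingHom.ext fun _ => rfl) (fun D _ u v huv => ?_)
      (fun D _ w w' _ _ => RingHom.ext fun _ => ?_)
    · haveI := hsub D u v huv
      exact ⟨{ toFun := fun _ => 0
               map_one' := Subsingleton.elim _ _
               map_mul' := fun _ _ => Subsingleton.elim _ _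
               map_zero' := rfl
               map_add' := fun _ _ => Subsingleton.elim _ _ },
        RingHom.ext fun _ => Subsingleton.elim _ _, RingHom.ext fun _ => Subsingleton.elim _ _⟩
    · haveI : Subsingleton D := by
        refine subsingleton_of_zero_eq_one ?_
        rw [← map_zero w, ← map_one w]
      exact Subsingleton.elim _ _
  rw [hR.bc n (pt q b) (pt q b') z z (finite_of_surj _ (pt_surj b)) hfl hpo x,
    hR.zero n PUnit.{1} (R.pl n z x), map_zero]

end pt

end OB

/-- **OB** -/
theorem thm_OB : St_OB.{u} := by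
  intro R hR p m q t k _ hk
  classical
  have hq2 := hk.q_two_le
  have hcard : Nat.card {b : k // b ^ q + b = 0} = q := hk.card_tr
  haveI : Finite {b : k // b ^ q + b = 0} :=
    Nat.finite_of_card_ne_zero (by rw [hcard]; omega)
  let e : Fin (q - 1 + 1) ≃ {b : k // b ^ q + b = 0} :=
    (Finite.equivFinOfCardEq (hcard.trans (by omega))).symm
  haveI : IsNoetherianRing (AS1 q k (0 : k)) := as_noeth (0 : k)
  have hI : Fintype.card (Fin (q - 1 + 1)) = q := by
    rw [Fintype.card_fin]
    omega
  have hbij := OB.bij hk hI e e.injective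
  have hfl : ∀ i, (OB.pt q (e i)).Flat := fun i =>
    OB.flat_proj (fun i => OB.pt q (e i)) hbij i
  have hfin : ∀ i, (OB.pt q (e i)).Finite := fun i => finite_of_surj _ (OB.pt_surj (e i))
  have hsame : ∀ (n : ℤ) (i : Fin (q - 1 + 1)) (z : R.T n k),
      R.pl n (OB.pt q (e i)) (R.pu n (OB.pt q (e i)) z) = z := fun n i z =>
    (hR.prod n (fun i => OB.pt q (e i)) hbij).2 i z
  have hdiff : ∀ (n : ℤ) (i j : Fin (q - 1 + 1)), i ≠ j → ∀ z : R.T n k,
      R.pl n (OB.pt q (e j)) (R.pu n (OB.pt q (e i)) z) = 0 := fun n i j hij z =>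
    OB.disj R hR (e i) (e j) (fun h => hij (e.injective h)) (hfl j) n z
  have hO : ∀ (n : ℤ) (i : Fin (q - 1 + 1)) (z : R.T n k),
      R.pu n (asO q (0 : k)) (R.pu n (OB.pt q (e i)) z) = z := by
    intro n i z
    rw [← hR.pu_comp n (asO q (0 : k)) (OB.pt q (e i)) (asO_finite hk 0) (hfin i) z, OB.pt_comp]
    exact hR.pu_id n k z
  have hgen : ∀ i, R.IsOp k (AS1 q k (0 : k)) fun n => R.pu n (OB.pt q (e i)) := by
    intro i
    have h1 := RD.IsOp.gen (R := R) (k := k) (V := AS1 q k (0 : k)) k
      { toRingHom := OB.pt q (e i)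
        commutes' := fun c => OB.pt_O (e i) c } (OB.pt_surj (e i))
    have h2 : (fun n => (R.pu n (OB.pt q (e i))).comp (R.pl n (algebraMap k k))) =
        fun n => R.pu n (OB.pt q (e i)) := by
      funext n
      ext z
      show R.pu n (OB.pt q (e i)) (R.pl n (RingHom.id k) z) = _
      rw [hR.pl_id]
    rw [← h2]
    exact h1
  refine ⟨fun a n => R.pu n (OB.pt q (e a.succ)) + - R.pu n (OB.pt q (e 0)), fun a => ?_,
    fun n => ⟨fun t => ?_, fun t ht => ?_, fun x hx => ?_⟩⟩
  · exact RD.IsOp.add _ _ (hgen _) (RD.IsOp.neg _ (hgen _))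
  · show R.pu n (asO q (0 : k)) _ = 0
    rw [map_sum]
    refine Finset.sum_eq_zero fun a _ => ?_
    rw [AddMonoidHom.add_apply, AddMonoidHom.neg_apply, map_add, map_neg, hO, hO, add_neg_cancel]
  · funext a
    have h1 := congrArg (R.pl n (OB.pt q (e a.succ))) ht
    rw [map_sum, map_zero (R.pl n (OB.pt q (e a.succ))), Finset.sum_eq_single a] at h1
    · rw [AddMonoidHom.add_apply, AddMonoidHom.neg_apply, map_add, map_neg, hsame,
        hdiff n 0 a.succ (Fin.succ_ne_zero a).symm, neg_zero, add_zero] at h1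
      exact h1
    · intro a' _ ha
      rw [AddMonoidHom.add_apply, AddMonoidHom.neg_apply, map_add, map_neg,
        hdiff n 0 a.succ (Fin.succ_ne_zero a).symm,
        hdiff n a'.succ a.succ (fun h => ha (Fin.succ_injective _ h)), neg_zero, add_zero]
    · intro h
      exact absurd (Finset.mem_univ a) h
  · have h1 := (hR.prod n (fun i => OB.pt q (e i)) hbij).1 x
    have h2 : ∑ i, R.pl n (OB.pt q (e i)) x = 0 := by
      have h3 : R.pu n (asO q (0 : k)) x = 0 := hx
      rw [h1, map_sum] at h3
      rw [← h3]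
      exact Finset.sum_congr rfl fun i _ => (hO n i _).symm
    rw [Fin.sum_univ_succ] at h1 h2
    refine ⟨fun a => R.pl n (OB.pt q (e a.succ)) x, ?_⟩
    have h4 : ∑ a : Fin (q - 1), R.pl n (OB.pt q (e a.succ)) x =
        - R.pl n (OB.pt q (e 0)) x := by
      rw [add_comm] at h2
      exact eq_neg_of_add_eq_zero_left h2
    have h5 : ∑ a : Fin (q - 1), (R.pu n (OB.pt q (e a.succ)) + - R.pu n (OB.pt q (e 0)))
        (R.pl n (OB.pt q (e a.succ)) x) =
        ∑ a : Fin (q - 1), R.pu n (OB.pt q (e a.succ)) (R.pl n (OB.pt q (e a.succ)) x) +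
          - R.pu n (OB.pt q (e 0)) (∑ a : Fin (q - 1), R.pl n (OB.pt q (e a.succ)) x) := by
      rw [map_sum, ← Finset.sum_neg_distrib, ← Finset.sum_add_distrib]
      rfl
    rw [h5, h4, map_neg, neg_neg]
    exact (add_comm _ _).trans h1.symm

end Pool.Agent.KTX
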