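import Pool.Agent.KTX.StG

/-!
# KTX, module OC: bases of operations along the chain of hyperbolic planes (helper40)
-/

set_option autoImplicit false
set_option linter.unusedSectionVars false

namespace Pool.Agent.KTX

open Polynomial Function Pool.Agent.HPow

universe u

namespace OC

variable {R : RD.{u}} {p m q t : ℕ} {k : Type} [Field k]

/-- `RD.HasBP` for an index type -/
def HBI (R : RD.{u}) (q : ℕ) (k : Type) [Field k] (A : Type) [CommRing A] [Algebra k A]
    (h : A) (I : Type) [Fintype I] : Prop :=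
  ∃ ω : I → ∀ n : ℤ, R.T n k →+ R.T n (AS1 q A h), (∀ a, R.IsOp k (AS1 q A h) (ω a)) ∧
    ∀ n : ℤ, (∀ t : I → R.T n k, ∑ a, ω a n (t a) ∈ R.P n q h) ∧
      (∀ t : I → R.T n k, ∑ a, ω a n (t a) = 0 → t = 0) ∧
      ∀ x ∈ R.P n q h, ∃ t : I → R.T n k, ∑ a, ω a n (t a) = x

theorem hbi_equiv {A : Type} [CommRing A] [Algebra k A] {h : A} {I J : Type} [Fintype I]
    [Fintype J] (e : I ≃ J) (h1 : HBI R q k A h I) : HBI R q k A h J := by
  obtain ⟨ω, h2, h3⟩ := h1
  refine ⟨fun j => ω (e.symm j), fun j => h2 _, fun n => ?_⟩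
  have hs : ∀ t : J → R.T n k, ∑ j, ω (e.symm j) n (t j) = ∑ i, ω i n (t (e i)) := by
    intro t
    rw [← Equiv.sum_comp e]
    simp
  refine ⟨fun t => by rw [hs]; exact (h3 n).1 _, fun t ht => ?_, fun x hx => ?_⟩
  · rw [hs] at ht
    have h5 := (h3 n).2.1 _ ht
    funext j
    have h4 := congrFun h5 (e.symm j)
    simpa using h4
  · obtain ⟨t, ht⟩ := (h3 n).2.2 x hx
    refine ⟨fun j => t (e.symm j), ?_⟩
    rw [hs]
    simpa using ht

/-- transfer along a family of homomorphisms -/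
theorem hbi_fam {A A' : Type} [CommRing A] [Algebra k A] [CommRing A'] [Algebra k A'] {h : A}
    {h' : A'} {I J : Type} [Fintype I] [Fintype J]
    (f : ∀ (n : ℤ) (_ : J), R.T n (AS1 q A h) →+ R.T n (AS1 q A' h'))
    (hop : ∀ (j : J) (ω : ∀ n : ℤ, R.T n k →+ R.T n (AS1 q A h)), R.IsOp k (AS1 q A h) ω →
      R.IsOp k (AS1 q A' h') fun n => (f n j).comp (ω n))
    (h1 : ∀ (n : ℤ) (z : J → R.T n (AS1 q A h)), (∀ j, z j ∈ R.P n q h) →
      ∑ j, f n j (z j) ∈ R.P n q h')
    (h2 : ∀ (n : ℤ) (z : J → R.T n (AS1 q A h)), (∀ j, z j ∈ R.P n q h) →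
      ∑ j, f n j (z j) = 0 → z = 0)
    (h3 : ∀ (n : ℤ), ∀ x ∈ R.P n q h', ∃ z : J → R.T n (AS1 q A h), (∀ j, z j ∈ R.P n q h) ∧
      ∑ j, f n j (z j) = x)
    (h4 : HBI R q k A h I) : HBI R q k A' h' (J × I) := by
  obtain ⟨ω, h5, h6⟩ := h4
  refine ⟨fun ji n => (f n ji.1).comp (ω ji.2 n), fun ji => hop ji.1 _ (h5 ji.2), fun n => ?_⟩
  have hs : ∀ t : J × I → R.T n k, ∑ ji, ((f n ji.1).comp (ω ji.2 n)) (t ji) =
      ∑ j, f n j (∑ i, ω i n (t (j, i))) := by
    intro t
    rw [Fintype.sum_prod_type]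
    refine Finset.sum_congr rfl fun j _ => ?_
    rw [map_sum]
    rfl
  refine ⟨fun t => ?_, fun t ht => ?_, fun x hx => ?_⟩
  · rw [hs]
    exact h1 n _ fun j => (h6 n).1 _
  · rw [hs] at ht
    have h7 := h2 n _ (fun j => (h6 n).1 _) ht
    funext ji
    have h8 := (h6 n).2.1 (fun i => t (ji.1, i)) (congrFun h7 ji.1)
    exact congrFun h8 ji.2
  · obtain ⟨z, hz, hzx⟩ := h3 n x hx
    choose s hs' using fun j => (h6 n).2.2 (z j) (hz j)
    refine ⟨fun ji => s ji.1 ji.2, ?_⟩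
    rw [hs, ← hzx]
    exact Finset.sum_congr rfl fun j _ => congrArg _ (hs' j)

/-- transfer along a homomorphism -/
theorem hbi_one {A A' : Type} [CommRing A] [Algebra k A] [CommRing A'] [Algebra k A'] {h : A}
    {h' : A'} {I : Type} [Fintype I]
    (f : ∀ n : ℤ, R.T n (AS1 q A h) →+ R.T n (AS1 q A' h'))
    (hop : ∀ (ω : ∀ n : ℤ, R.T n k →+ R.T n (AS1 q A h)), R.IsOp k (AS1 q A h) ω →
      R.IsOp k (AS1 q A' h') fun n => (f n).comp (ω n))
    (h1 : ∀ n : ℤ, BijP (f n) (R.P n q h) (R.P n q h'))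
    (h4 : HBI R q k A h I) : HBI R q k A' h' I := by
  refine hbi_equiv (Equiv.punitProd I) (hbi_fam (J := PUnit.{1}) (fun n _ => f n)
    (fun _ ω hω => hop ω hω) (fun n z hz => ?_) (fun n z hz h0 => ?_) (fun n x hx => ?_) h4)
  · rw [Fintype.sum_unique]
    exact (h1 n).1 _ (hz _)
  · rw [Fintype.sum_unique] at h0
    funext j
    exact (h1 n).2.1 _ (hz _) h0
  · obtain ⟨y, hy, hyx⟩ := (h1 n).2.2 x hx
    exact ⟨fun _ => y, fun _ => hy, by rw [Fintype.sum_unique]; exact hyx⟩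

theorem alg_as {A : Type} [CommRing A] [Algebra k A] (h : A) :
    algebraMap k (AS1 q A h) = (asO q h).comp (algebraMap k A) :=
  IsScalarTower.algebraMap_eq k A (AS1 q A h)

theorem asH_alg {A A' : Type} [CommRing A] [CommRing A'] [Algebra k A] [Algebra k A']
    (φ : A →+* A') (h : A) (h' c : A') (e : AsC q φ h h' c)
    (hφ : φ.comp (algebraMap k A) = algebraMap k A') :
    (asH φ h h' c e).comp (algebraMap k (AS1 q A h)) = algebraMap k (AS1 q A' h') := by
  rw [alg_as, alg_as, ← RingHom.comp_assoc, asH_comp, RingHom.comp_assoc, hφ]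

/-- pushout for `asE` -/
theorem asE_pushout (hk : Setg p m q t k) {A A' : Type} [CommRing A] [CommRing A']
    [Algebra k A'] (φ : A →+* A') (h : A) (h' : A') (e : φ h = h') :
    CategoryTheory.IsPushout (CommRingCat.ofHom (asO q h)) (CommRingCat.ofHom φ)
      (CommRingCat.ofHom (asE q φ h h' e)) (CommRingCat.ofHom (asO q h')) := by
  refine asH_pushout hk φ h h' 0 _ ?_
  rw [e, zero_pow (by have := hk.q_two_le; omega), add_zero, add_zero]

/-- isomorphisms: `pl` maps `P` to `P` -/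
theorem mem_P (hR : R.Ax) (hk : Setg p m q t k) (n : ℤ) {A A' : Type} [CommRing A] [CommRing A']
    [IsNoetherianRing A] [IsNoetherianRing A'] [Algebra k A'] (φ : A →+* A') (hφ : φ.Flat) (h : A)
    (h' : A') (e : φ h = h') (x : R.T n (AS1 q A h)) (hx : x ∈ R.P n q h) :
    R.pl n (asE q φ h h' e) x ∈ R.P n q h' := by
  have h1 := hR.bc n (asO q h) φ (asE q φ h h' e) (asO q h') (asO_finite hk h) hφ
    (asE_pushout hk φ h h' e) x
  have h2 : R.pu n (asO q h) x = 0 := hx
  rw [h2, map_zero] at h1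
  exact h1.symm

theorem asE_comp {A A' A'' : Type} [CommRing A] [CommRing A'] [CommRing A''] (φ : A →+* A')
    (ψ : A' →+* A'') (h : A) (h' : A') (h'' : A'') (e : φ h = h') (e' : ψ h' = h'')
    (e'' : (ψ.comp φ) h = h'') :
    (asE q ψ h' h'' e').comp (asE q φ h h' e) = asE q (ψ.comp φ) h h'' e'' := by
  refine as_ext ?_ ?_
  · rw [RingHom.comp_assoc, asH_comp, ← RingHom.comp_assoc, asH_comp, asH_comp,
      RingHom.comp_assoc]
  · rw [RingHom.comp_apply, asH_R, asH_R, map_zero, add_zero, asH_R]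

theorem asE_id {A : Type} [CommRing A] (h : A) (e : (RingHom.id A) h = h) :
    asE q (RingHom.id A) h h e = RingHom.id _ := by
  refine as_ext ?_ ?_
  · rw [asH_comp]
    rfl
  · rw [asH_R, map_zero, add_zero]
    rfl

theorem asE_inv {A A' : Type} [CommRing A] [CommRing A'] (φ : A →+* A') (ψ : A' →+* A)
    (h : A) (h' : A') (e : φ h = h') (e' : ψ h' = h) (hc : ψ.comp φ = RingHom.id A) :
    (asE q ψ h' h e').comp (asE q φ h h' e) = RingHom.id _ := by
  rw [asE_comp φ ψ h h' h e e' (by rw [RingHom.comp_apply, e, e'])]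
  refine as_ext ?_ ?_
  · rw [asH_comp, hc]
    rfl
  · rw [asH_R, map_zero, add_zero]
    rfl

/-- the isomorphism -/
noncomputable def isoE {A A' : Type} [CommRing A] [CommRing A'] [Algebra k A] [Algebra k A']
    (q : ℕ) (e : A ≃ₐ[k] A') (a : A) (a' : A') (ha : e a = a') : AS1 q A a ≃+* AS1 q A' a' :=
  RingEquiv.ofRingHom (asE q (e : A →+* A') a a' ha)
    (asE q (e.symm : A' →+* A) a' a (by rw [← ha]; exact e.symm_apply_apply a))
    (asE_inv _ _ _ _ _ _ (RingHom.ext fun x => e.apply_symm_apply x))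
    (asE_inv _ _ _ _ _ _ (RingHom.ext fun x => e.symm_apply_apply x))

theorem bijP_iso (hR : R.Ax) (hk : Setg p m q t k) (n : ℤ) {A A' : Type} [CommRing A]
    [CommRing A'] [IsNoetherianRing A] [IsNoetherianRing A'] [Algebra k A] [Algebra k A']
    (e : A ≃ₐ[k] A') (a : A) (a' : A') (ha : e a = a') :
    BijP (R.pl n ((isoE q e a a' ha : AS1 q A a ≃+* AS1 q A' a') : AS1 q A a →+* AS1 q A' a'))
      (R.P n q a) (R.P n q a') := by
  have ha' : e.symm a' = a := by rw [← ha]; exact e.symm_apply_apply a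
  have := as_noeth (q := q) a
  have := as_noeth (q := q) a'
  have f1 : ((isoE q e a a' ha : AS1 q A a ≃+* AS1 q A' a') : AS1 q A a →+* AS1 q A' a').Flat :=
    flat_of_equiv _
  have f2 : ((isoE q e a a' ha).symm : AS1 q A' a' →+* AS1 q A a).Flat := flat_of_equiv _
  have c1 : ∀ x, R.pl n ((isoE q e a a' ha).symm : AS1 q A' a' →+* AS1 q A a)
      (R.pl n ((isoE q e a a' ha : AS1 q A a ≃+* AS1 q A' a') :
        AS1 q A a →+* AS1 q A' a') x) = x := by
    intro x
    rw [← hR.pl_comp n _ _ f1 f2]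
    have h2 : ((isoE q e a a' ha).symm : AS1 q A' a' →+* AS1 q A a).comp
      ((isoE q e a a' ha : AS1 q A a ≃+* AS1 q A' a') :
        AS1 q A a →+* AS1 q A' a') = RingHom.id _ :=
      RingHom.ext fun x => (isoE q e a a' ha).symm_apply_apply x
    rw [h2, hR.pl_id]
  have c2 : ∀ x, R.pl n ((isoE q e a a' ha : AS1 q A a ≃+* AS1 q A' a') :
        AS1 q A a →+* AS1 q A' a')
      (R.pl n ((isoE q e a a' ha).symm : AS1 q A' a' →+* AS1 q A a) x) = x := by
    intro x
    rw [← hR.pl_comp n _ _ f2 f1]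
    have h2 : ((isoE q e a a' ha : AS1 q A a ≃+* AS1 q A' a') :
        AS1 q A a →+* AS1 q A' a').comp
      ((isoE q e a a' ha).symm : AS1 q A' a' →+* AS1 q A a) = RingHom.id _ :=
      RingHom.ext fun x => (isoE q e a a' ha).apply_symm_apply x
    rw [h2, hR.pl_id]
  refine ⟨fun x hx => ?_, fun x _ hx => ?_, fun y hy => ?_⟩
  · exact mem_P hR hk n (e : A →+* A') (flat_of_equiv e.toRingEquiv) a a' ha x hx
  · rw [← c1 x, hx, map_zero]
  · refine ⟨_, ?_, c2 y⟩
    exact mem_P hR hk n (e.symm : A' →+* A) (flat_of_equiv e.symm.toRingEquiv) a' a ha' y hy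

theorem evU_alg {W : Type} [CommRing W] [Algebra k W] (a : k) :
    (evU a : W[X][X] →+* W[X]).comp (algebraMap k W[X][X]) = algebraMap k W[X] := by
  refine RingHom.ext fun c => ?_
  show mapRingHom (evalRingHom (algebraMap k W a)) (C (C (algebraMap k W c))) =
    C (algebraMap k W c)
  rw [coe_mapRingHom, map_C, coe_evalRingHom, eval_C]

theorem evU_surj {W : Type} [CommRing W] [Algebra k W] (a : k) :
    Surjective (evU a : W[X][X] →+* W[X]) := by
  refine Polynomial.map_surjective _ fun w => ⟨C w, ?_⟩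
  rw [coe_evalRingHom, eval_C]

theorem main (hGP : St_GP.{u}) (hG4 : St_G4.{u}) (hOA : St_OA.{u}) (hR : R.Ax)
    (hk : Setg p m q t k) (hp : R.PInv p) (W : Type) [CommRing W] [IsNoetherianRing W]
    [Algebra k W] (h : W) (c : ℕ) (hc : R.HasBP q k W h c) (r : ℕ) (A : Type) [CommRing A]
    [Algebra k A] (a : A) (hr : Rl q k W h r A a) :
    IsNoetherianRing A ∧ HBI R q k A a (Fin (q ^ r * c)) := by
  induction hr with
  | refl =>
    refine ⟨inferInstance, ?_⟩
    rw [pow_zero, one_mul]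
    exact hc
  | iso r A A' e a a' ha hr ih =>
    obtain ⟨hN, ih⟩ := ih
    have hN' : IsNoetherianRing A' := isNoetherianRing_of_ringEquiv A e.toRingEquiv
    refine ⟨hN', ?_⟩
    have := as_noeth (q := q) a
    refine hbi_one (fun n => R.pl n ((isoE q e a a' ha : AS1 q A a ≃+* AS1 q A' a') :
      AS1 q A a →+* AS1 q A' a')) (fun ω hω => ?_) (fun n => bijP_iso hR hk n e a a' ha) ih
    refine (hOA R hR p m q t k hk).2.1 _ _ _ ?_ ω hω
    exact asH_alg (e : A →+* A') a a' 0 (asC_zero' q _ a a' ha)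
      (RingHom.ext fun c => e.commutes c)
  | poly r A a hr ih =>
    obtain ⟨hN, ih⟩ := ih
    refine ⟨inferInstance, ?_⟩
    exact hbi_one _ (fun ω hω => (hOA R hR p m q t k hk).2.2 A a ω hω)
      (fun n => hGP R hR p m q t k hk n A a) ih
  | hyp r A a hr ih =>
    obtain ⟨hN, ih⟩ := ih
    refine ⟨inferInstance, ?_⟩
    have := hk.finite
    let _ : Fintype {a : k // a ^ (q ^ 2) = a} := Fintype.ofFinite _
    have h1 := fun n => hG4 R hR p m q t k hk hp n A a
    have h2 : HBI R q k A[X][X] (hyf q a) ({a : k // a ^ (q ^ 2) = a} × Fin (q ^ r * c)) := by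
      refine hbi_fam (fun n b => (R.pu n (hyi hk a b)).comp
        (R.pl n (asE q (C : A →+* A[X]) a (C a) rfl))) (fun b ω hω => ?_)
        (fun n z hz => (h1 n).1 z hz) (fun n z hz h0 => (h1 n).2.1 z hz h0)
        (fun n x hx => (h1 n).2.2 x hx) ih
      have h3 := (hOA R hR p m q t k hk).2.2 A a ω hω
      have := as_noeth (q := q) (hyf q a)
      exact (hOA R hR p m q t k hk).1 _ _ (hyi hk a b)
        (asH_surj _ _ _ _ _ (evU_surj b.1)) (asH_alg _ _ _ _ _ (evU_alg b.1)) _ h3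
    refine hbi_equiv (Fintype.equivOfCardEq ?_) h2
    rw [Fintype.card_prod, Fintype.card_fin, Fintype.card_fin, ← Nat.card_eq_fintype_card,
      hk.fq_card_sq]
    ring

end OC

theorem thm_OC (hGP : St_GP.{u}) (hG4 : St_G4.{u}) (hOA : St_OA.{u}) : St_OC.{u} :=
  fun _ hR _ _ _ _ _ _ hk hp W _ _ _ h c hc r A _ _ a hr =>
    (OC.main hGP hG4 hOA hR hk hp W h c hc r A a hr).2

end Pool.Agent.KTX
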