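import Pool.Agent.KTX.StG

/-!
# KTX [RR]: `A[y] / (y ^ q + y - h)` is reduced for reduced `A`
-/

set_option autoImplicit false

namespace Pool.Agent.KTX

open Polynomial Function Pool.Agent.HPow

namespace RR

theorem core (p m : ℕ) (hp : p.Prime) (hm : 1 ≤ m) (A : Type) [CommRing A] [CharP A p]
    [_root_.IsReduced A] [Nontrivial A] (h : A) :
    _root_.IsReduced (AdjoinRoot (X ^ (p ^ m) + X - C h : A[X])) := by
  have hq1 : 1 < p ^ m := Nat.one_lt_pow (by omega) hp.one_lt
  have hfp : Fact p.Prime := ⟨hp⟩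
  have hE : ExpChar A p := ExpChar.prime hp
  set g : A[X] := X ^ (p ^ m) + X - C h with hg
  have hdeg : (X - C h : A[X]).degree < (p ^ m : ℕ) := by
    rw [degree_X_sub_C]
    exact_mod_cast hq1
  have hg' : g = X ^ (p ^ m) + (X - C h) := by rw [hg]; ring
  have hmon : g.Monic := by
    rw [hg']
    exact monic_X_pow_add hdeg
  have hgd : g.natDegree = p ^ m := by
    rw [hg', natDegree_add_eq_left_of_natDegree_lt, natDegree_X_pow]
    rw [natDegree_X_sub_C, natDegree_X_pow]
    exact hq1
  refine (isReduced_iff_pow_one_lt (p ^ m) hq1).2 fun x hx => ?_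
  obtain ⟨f, rfl⟩ := AdjoinRoot.mk_surjective x
  have hfr : AdjoinRoot.mk g f = AdjoinRoot.mk g (f %ₘ g) := by
    rw [AdjoinRoot.mk_eq_mk]
    refine ⟨f /ₘ g, ?_⟩
    linear_combination - modByMonic_add_div f g
  have hrd : (f %ₘ g).natDegree < p ^ m := by
    rw [← hgd]
    exact natDegree_modByMonic_lt f hmon (by
      intro h1
      rw [h1, natDegree_one] at hgd
      omega)
  rw [hfr] at hx ⊢
  generalize f %ₘ g = r at hx hrd ⊢
  have h1 : r ^ p ^ m = expand A (p ^ m) (r.map (iterateFrobenius A p m)) := by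
    rw [← map_expand, map_iterateFrobenius_expand]
  have hXq : AdjoinRoot.mk g (C h - X) = AdjoinRoot.mk g (X ^ p ^ m) := by
    rw [AdjoinRoot.mk_eq_mk]
    refine ⟨-1, ?_⟩
    rw [hg]
    ring
  have h2 : AdjoinRoot.mk g ((r.map (iterateFrobenius A p m)).comp (C h - X)) = 0 := by
    rw [← hx, ← map_pow, h1, expand_eq_comp_X_pow, Polynomial.comp, Polynomial.comp, hom_eval₂,
      hom_eval₂, hXq]
  have h3 : (r.map (iterateFrobenius A p m)).comp (C h - X) = 0 := by
    by_contra h0
    refine hmon.not_dvd_of_natDegree_lt h0 ?_ (AdjoinRoot.mk_eq_zero.1 h2)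
    rw [hgd]
    refine lt_of_le_of_lt (natDegree_comp_le.trans ?_) hrd
    have h4 : (C h - X : A[X]).natDegree ≤ 1 := by compute_degree
    calc _ ≤ (r.map (iterateFrobenius A p m)).natDegree * 1 := Nat.mul_le_mul_left _ h4
      _ ≤ r.natDegree := by rw [mul_one]; exact natDegree_map_le
  have h5 : r.map (iterateFrobenius A p m) = 0 := by
    have h6 : ((r.map (iterateFrobenius A p m)).comp (C h - X)).comp (C h - X) =
        r.map (iterateFrobenius A p m) := by
      rw [Polynomial.comp_assoc, sub_comp, C_comp, X_comp, sub_sub_cancel, comp_X]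
    rw [← h6, h3, zero_comp]
  have h7 : r = 0 := by
    ext i
    have h8 := congrArg (fun s => coeff s i) h5
    simp only [coeff_map, coeff_zero, iterateFrobenius_def] at h8
    rw [coeff_zero]
    exact IsNilpotent.eq_zero ⟨_, h8⟩
  rw [h7, map_zero]

end RR

theorem thm_RR : St_RR := by
  intro p m q t k _ hk A _ _ _ h
  rcases subsingleton_or_nontrivial A with hA | hA
  · have h1 : Subsingleton (AS1 q A h) := by
      refine subsingleton_of_zero_eq_one ?_
      rw [← map_zero (AdjoinRoot.of (X ^ q + X - C h)), ← map_one (AdjoinRoot.of (X ^ q + X - C h))]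
      exact congrArg _ (Subsingleton.elim _ _)
    exact ⟨fun x _ => Subsingleton.elim _ _⟩
  · have := hk.charP
    have : CharP A p := charP_of_injective_algebraMap (algebraMap k A).injective p
    have h1 := RR.core p m hk.hp hk.hm A h
    rw [← hk.hq] at h1
    exact h1

end Pool.Agent.KTX
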