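import Pool.Agent.KTX.G5
import Pool.Agent.KTX.OA
import Pool.Agent.KTX.OB
import Pool.Agent.KTX.OC
import Pool.Agent.KTX.RR

/-!
# KTX, module G6: bases of operations
-/

set_option autoImplicit false
set_option linter.unusedSectionVars false
set_option linter.style.haveILetI false

namespace Pool.Agent.KTX

open Function Pool.Agent.HPow

universe u

namespace G6

variable {p m q t : ℕ} {k : Type} [Field k]

theorem pu_bij {R : RD.{u}} (hR : R.Ax) (n : ℤ) {A B : Type} [CommRing A] [CommRing B]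
    [IsNoetherianRing A] [IsNoetherianRing B] (e : A ≃+* B) :
    Bijective (R.pu n (e : A →+* B)) := by
  have hf : (e : A →+* B).Finite := finite_of_surj _ e.surjective
  have hf' : (e.symm : B →+* A).Finite := finite_of_surj _ e.symm.surjective
  have h1 : ∀ x, R.pu n (e : A →+* B) (R.pu n (e.symm : B →+* A) x) = x := by
    intro x
    rw [← hR.pu_comp n _ _ hf hf']
    have h : (e.symm : B →+* A).comp (e : A →+* B) = RingHom.id A :=
      RingHom.ext fun a => e.symm_apply_apply a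
    rw [G1.pu_congr R n h, hR.pu_id]
  have h2 : ∀ x, R.pu n (e.symm : B →+* A) (R.pu n (e : A →+* B) x) = x := by
    intro x
    rw [← hR.pu_comp n _ _ hf' hf]
    have h : (e : A →+* B).comp (e.symm : B →+* A) = RingHom.id B :=
      RingHom.ext fun a => e.apply_symm_apply a
    rw [G1.pu_congr R n h, hR.pu_id]
  exact ⟨fun x y hxy => by rw [← h2 x, ← h2 y, hxy], fun x => ⟨_, h1 x⟩⟩

/-- transfer along an isomorphism -/
theorem hasB_iso {R : RD.{u}} (hR : R.Ax) (hk : Setg p m q t k) {V V' : Type} [CommRing V]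
    [CommRing V'] [Algebra k V] [Algebra k V'] [IsNoetherianRing V'] (e : V ≃ₐ[k] V') (b : ℕ)
    (h : R.HasB k V' b) : R.HasB k V b := by
  haveI : IsNoetherianRing V :=
    isNoetherianRing_of_surjective V' V (e.symm.toRingEquiv : V' →+* V) e.symm.surjective
  obtain ⟨ω, hω, hb⟩ := h
  refine ⟨fun a n => (R.pu n (e.toRingEquiv : V →+* V')).comp (ω a n), fun a => ?_, fun n => ?_⟩
  · exact (thm_OA R hR p m q t k hk).1 V V' (e.toRingEquiv : V →+* V') e.surjective
      (RingHom.ext fun c => e.commutes c) (ω a) (hω a)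
  · have h1 : (fun t : Fin b → R.T n k => ∑ a, (R.pu n (e.toRingEquiv : V →+* V')).comp
        (ω a n) (t a)) = (R.pu n (e.toRingEquiv : V →+* V')) ∘ fun t => ∑ a, ω a n (t a) := by
      funext t
      rw [comp_apply, map_sum]
      rfl
    rw [h1]
    exact (pu_bij hR n e.toRingEquiv).comp (hb n)

/-- polynomial rings -/
theorem hasB_poly {R : RD.{u}} (hR : R.Ax) (N : ℕ) : R.HasB k (MvPolynomial (Fin N) k) 1 := by
  refine ⟨fun _ n => (R.pu n ((AlgHom.id k (MvPolynomial (Fin N) k) :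
    MvPolynomial (Fin N) k →+* MvPolynomial (Fin N) k))).comp (R.pl n (algebraMap k
      (MvPolynomial (Fin N) k))), fun _ => ?_, fun n => ?_⟩
  · exact RD.IsOp.gen (R := R) (k := k) (V := MvPolynomial (Fin N) k)
      (MvPolynomial (Fin N) k) (AlgHom.id k _) surjective_id
  · have h1 : (fun t : Fin 1 → R.T n k => ∑ a : Fin 1, (R.pu n
        ((AlgHom.id k (MvPolynomial (Fin N) k) :
          MvPolynomial (Fin N) k →+* MvPolynomial (Fin N) k))).comp
        (R.pl n (algebraMap k (MvPolynomial (Fin N) k))) (t a)) =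
        (R.pl n (MvPolynomial.C : k →+* MvPolynomial (Fin N) k)) ∘ fun t => t 0 := by
      funext t
      rw [Fin.sum_univ_one]
      exact hR.pu_id n _ _
    rw [h1]
    refine (G5.mvC_bij hR n k N).comp ⟨fun x y hxy => ?_, fun x => ⟨fun _ => x, rfl⟩⟩
    funext i
    rw [Subsingleton.elim i 0]
    exact hxy

/-- from `P` to the whole group -/
theorem hasB_of_P {R : RD.{u}} (hR : R.Ax) (hk : Setg p m q t k) (hp : R.PInv p) {A : Type}
    [CommRing A] [IsNoetherianRing A] [Algebra k A] [_root_.IsReduced A] (a : A) (c : ℕ)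
    (hA : ∀ n, Bijective (R.pl n (algebraMap k A))) (hAf : (algebraMap k A).Flat)
    (h : R.HasBP q k A a c) : R.HasB k (AS1 q A a) (c + 1) := by
  haveI hN : IsNoetherianRing (AS1 q A a) := as_noeth a
  haveI hRd : _root_.IsReduced (AS1 q A a) := thm_RR p m q t k hk A a
  obtain ⟨ω, hω, hb⟩ := h
  let ω0 : ∀ n : ℤ, R.T n k →+ R.T n (AS1 q A a) := fun n =>
    (R.pu n ((AlgHom.id k (AS1 q A a) : AS1 q A a →+* AS1 q A a))).comp
      (R.pl n (algebraMap k (AS1 q A a)))
  have h0 : ∀ n x, ω0 n x = R.pl n (asO q a) (R.pl n (algebraMap k A) x) := by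
    intro n x
    rw [← hR.pl_comp n _ _ hAf (asO_flat hk a)]
    exact hR.pu_id n _ _
  refine ⟨Fin.cons ω0 ω, fun i => ?_, fun n => ?_⟩
  · refine Fin.cases ?_ (fun j => ?_) i
    · rw [Fin.cons_zero]
      exact RD.IsOp.gen (R := R) (k := k) (V := AS1 q A a) (AS1 q A a) (AlgHom.id k _)
        surjective_id
    · rw [Fin.cons_succ]
      exact hω j
  · obtain ⟨hb1, hb2, hb3⟩ := hb n
    obtain ⟨-, -, g3, g4⟩ := thm_G1 R hR p m q t k hk n A a
    have hsum : ∀ t : Fin (c + 1) → R.T n k,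
        ∑ i, (Fin.cons ω0 ω : Fin (c + 1) → ∀ n : ℤ, R.T n k →+ R.T n (AS1 q A a)) i n (t i) =
        R.pl n (asO q a) (R.pl n (algebraMap k A) (t 0)) + ∑ i : Fin c, ω i n (t i.succ) := by
      intro t
      rw [Fin.sum_univ_succ, Fin.cons_zero, h0]
      rfl
    let F : (Fin (c + 1) → R.T n k) →+ R.T n (AS1 q A a) :=
      AddMonoidHom.mk' (fun t => ∑ i, (Fin.cons ω0 ω : Fin (c + 1) → ∀ n : ℤ,
        R.T n k →+ R.T n (AS1 q A a)) i n (t i)) (fun t t' => by
          simp only [Pi.add_apply, map_add, Finset.sum_add_distrib])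
    show Bijective F
    refine ⟨?_, fun x => ?_⟩
    · rw [injective_iff_map_eq_zero]
      intro t ht
      have h1 : F t = R.pl n (asO q a) (R.pl n (algebraMap k A) (t 0)) +
        ∑ i : Fin c, ω i n (t i.succ) := hsum t
      rw [h1] at ht
      obtain ⟨h2, h3⟩ := g4 hp _ _ (hb1 fun i => t i.succ) ht
      have h4 := hb2 _ h3
      have h5 : t 0 = 0 := (hA n).1 (by rw [h2, map_zero])
      funext i
      refine Fin.cases h5 (fun j => ?_) i
      exact congrFun h4 j
    · obtain ⟨y, z, hz, rfl⟩ := g3 hp x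
      obtain ⟨y', rfl⟩ := (hA n).2 y
      obtain ⟨t', rfl⟩ := hb3 z hz
      refine ⟨Fin.cons y' t', ?_⟩
      have h1 : F (Fin.cons y' t') = _ := hsum (Fin.cons y' t')
      rw [h1, Fin.cons_zero]
      rfl

end G6

/-- the module -/
theorem thm_G6 (hG4 : St_G4.{u}) : St_G6.{u} := by
  intro R hR p m q t k _ hk hp c V _ _ hV
  obtain ⟨rfl, N, ⟨e⟩⟩ | ⟨N, b, hb, he, rfl, ⟨e⟩⟩ := hV
  · exact G6.hasB_iso hR hk e 1 (G6.hasB_poly hR N)
  · let r := Nat.card {i // b i ≠ 0}
    let a : MvPolynomial (Fin N) k :=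
      ∑ i, MvPolynomial.C (b i) * MvPolynomial.X i ^ (q + 1)
    haveI hN : IsNoetherianRing (AS1 q (MvPolynomial (Fin N) k) a) := as_noeth a
    refine G6.hasB_iso hR hk e _ ?_
    have h1 := thm_DG p m q t k hk k 0 N b hb he
    have h2 : (MvPolynomial.C (0 : k) + ∑ i, MvPolynomial.C (algebraMap k k (b i)) *
        MvPolynomial.X i ^ (q + 1) : MvPolynomial (Fin N) k) = a := by
      rw [MvPolynomial.C_0, zero_add]
      rfl
    rw [h2] at h1
    have h3 := thm_OC thm_GP hG4 thm_OA R hR p m q t k hk hp k 0 (q - 1)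
      (thm_OB R hR p m q t k hk) r (MvPolynomial (Fin N) k) a h1
    have h4 := G6.hasB_of_P hR hk hp a (q ^ r * (q - 1)) (fun n => G5.mvC_bij hR n k N)
      (G5.mvC_flat k N) h3
    have h5 : 1 + (q - 1) * q ^ r = q ^ r * (q - 1) + 1 := by
      rw [add_comm, mul_comm]
    rw [h5]
    exact h4

end Pool.Agent.KTX
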