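import Pool.Agent.KTX.G1

/-!
# KTX, module GC: `W[c] / (c ^ (q ^ 2) - c)`
-/

set_option autoImplicit false
set_option linter.unusedSectionVars false
set_option linter.style.haveILetI false

namespace Pool.Agent.KTX

open Polynomial Function Pool.Agent.HPow

namespace GC

variable {p m q t : ℕ} {k : Type} [Field k]

theorem fr_pow (hk : Setg p m q t k) (x : k) (hx : x ^ (q ^ 2) = x) (h : x ≠ 0) :
    x ^ (q ^ 2 - 1) = 1 := by
  have h2 : 1 ≤ q ^ 2 := Nat.one_le_pow _ _ (by have := hk.q_two_le; omega)
  have h1 : x ^ (q ^ 2 - 1) * x = 1 * x := by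
    rw [← pow_succ, Nat.sub_add_cancel h2, hx, one_mul]
  exact mul_right_cancel₀ h h1

theorem sub_pow2 (hk : Setg p m q t k) (x y : k) :
    (x - y) ^ (q ^ 2) = x ^ (q ^ 2) - y ^ (q ^ 2) := by
  rw [sq, pow_mul, pow_mul, pow_mul, hk.sub_pow (B := k) x y, hk.sub_pow (B := k)]

/-- the evaluation -/
noncomputable def ev (W : Type) [CommRing W] [Algebra k W] (a : {a : k // a ^ (q ^ 2) = a}) :
    WQ q W →+* W :=
  Ideal.Quotient.lift _ (evalRingHom (algebraMap k W a.1)) (by
    intro P hP
    obtain ⟨Q, rfl⟩ := Ideal.mem_span_singleton'.1 hP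
    rw [coe_evalRingHom, eval_mul, eval_sub, eval_pow, eval_X, ← map_pow, a.2, sub_self,
      mul_zero])

theorem ev_mk (W : Type) [CommRing W] [Algebra k W] (a : {a : k // a ^ (q ^ 2) = a})
    (P : W[X]) : ev W a (Ideal.Quotient.mk _ P) = P.eval (algebraMap k W a.1) :=
  Ideal.Quotient.lift_mk _ _ _

/-- the idempotents -/
noncomputable def idm (W : Type) [CommRing W] [Algebra k W] (a : {a : k // a ^ (q ^ 2) = a}) :
    WQ q W := Ideal.Quotient.mk _ (1 - (X - C (algebraMap k W a.1)) ^ (q ^ 2 - 1))

open Classical in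
theorem ev_idm (hk : Setg p m q t k) (W : Type) [CommRing W] [Algebra k W]
    (a b : {a : k // a ^ (q ^ 2) = a}) : ev W b (idm W a) = if a = b then 1 else 0 := by
  have h2 : 1 < q ^ 2 := hk.fq_one_lt (by norm_num)
  unfold idm
  rw [ev_mk, eval_sub, eval_one, eval_pow, eval_sub, eval_X, eval_C, ← map_sub, ← map_pow]
  by_cases h : a = b
  · rw [if_pos h, h, sub_self, zero_pow (by omega), map_zero, sub_zero]
  · rw [if_neg h, fr_pow hk, map_one, sub_self]
    · rw [sub_pow2 hk, a.2, b.2]
    · intro h1
      exact h (Subtype.ext (sub_eq_zero.1 h1).symm)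

theorem inj (hk : Setg p m q t k) (W : Type) [CommRing W] [Algebra k W] :
    Injective fun (c : WQ q W) (a : {a : k // a ^ (q ^ 2) = a}) => ev W a c := by
  classical
  haveI := hk.finite
  letI : Fintype {a : k // a ^ (q ^ 2) = a} := Fintype.ofFinite _
  rcases subsingleton_or_nontrivial W with hW | hW
  · intro x y _
    obtain ⟨x, rfl⟩ := Ideal.Quotient.mk_surjective x
    obtain ⟨y, rfl⟩ := Ideal.Quotient.mk_surjective y
    rw [Subsingleton.elim x y]
  · have hm : (X ^ (q ^ 2) - X : W[X]).Monic := monic_X_pow_sub (by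
      rw [degree_X]
      exact_mod_cast hk.fq_one_lt (n := 2) (by norm_num))
    let pb := AdjoinRoot.powerBasis' hm
    have hnat : (X ^ (q ^ 2) - X : W[X]).natDegree = q ^ 2 := by
      rw [natDegree_sub_eq_left_of_natDegree_lt, natDegree_X_pow]
      rw [natDegree_X_pow, natDegree_X]
      exact hk.fq_one_lt (n := 2) (by norm_num)
    have hdim : pb.dim = q ^ 2 := (AdjoinRoot.powerBasis'_dim hm).trans hnat
    have hcard : Fintype.card {a : k // a ^ (q ^ 2) = a} = q ^ 2 := by
      rw [← Nat.card_eq_fintype_card, hk.fq_card_sq]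
    let f : AdjoinRoot (X ^ (q ^ 2) - X : W[X]) →ₗ[W] ({a : k // a ^ (q ^ 2) = a} → W) :=
      { toFun := fun c a => ev W a c
        map_add' := fun c d => by
          funext a
          exact map_add (ev W a) c d
        map_smul' := fun u c => by
          funext a
          show ev W a (u • c) = u * ev W a c
          have h1 : u • c = AdjoinRoot.of _ u * c := Algebra.smul_def u c
          rw [h1]
          refine (map_mul (ev W a) _ _).trans ?_
          congr 1
          refine (ev_mk W a (C u)).trans ?_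
          rw [eval_C] }
    refine (G1.bij_of_surj (pb.basis.reindex (finCongr hdim)) hcard f ?_).1
    intro z
    refine ⟨∑ a, Ideal.Quotient.mk _ (C (z a)) * idm W a, ?_⟩
    funext b
    show ev W b (∑ a, Ideal.Quotient.mk _ (C (z a)) * idm W a) = z b
    rw [map_sum]
    have h4 : ∀ a, ev W b (Ideal.Quotient.mk _ (C (z a)) * idm W a) =
        if a = b then z a else 0 := by
      intro a
      rw [map_mul, ev_idm hk, ev_mk, eval_C, mul_ite, mul_one, mul_zero]
    rw [Finset.sum_congr rfl fun a _ => h4 a, Finset.sum_ite_eq' Finset.univ b z,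
      if_pos (Finset.mem_univ _)]

end GC

/-- the module -/
theorem thm_GC : St_GC := by
  intro p m q t k _ hk W _ _
  classical
  haveI := hk.finite
  letI : Fintype {a : k // a ^ (q ^ 2) = a} := Fintype.ofFinite _
  refine ⟨fun a => GC.ev W a, fun a => RingHom.ext fun P => GC.ev_mk W a P, fun x y hxy => ?_,
    fun z => ?_⟩
  · ext i
    refine GC.inj hk W ?_
    funext a
    have h1 := congrArg (fun P : W[X] => P.coeff i) (congrFun hxy a)
    show GC.ev W a (x.coeff i) = GC.ev W a (y.coeff i)
    have h2 : ∀ P : (WQ q W)[X], (mapRingHom (GC.ev W a) P).coeff i = GC.ev W a (P.coeff i) := by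
      intro P
      rw [coe_mapRingHom, coeff_map]
    rw [← h2, ← h2]
    exact h1
  · let ι : W →+* WQ q W := (Ideal.Quotient.mk _).comp C
    refine ⟨∑ a, C (GC.idm W a) * mapRingHom ι (z a), ?_⟩
    funext b
    show mapRingHom (GC.ev W b) (∑ a, C (GC.idm W a) * mapRingHom ι (z a)) = z b
    rw [map_sum]
    have hι : (mapRingHom (GC.ev W b)).comp (mapRingHom ι) = RingHom.id W[X] := by
      refine Polynomial.ringHom_ext (fun w => ?_) ?_
      · show mapRingHom (GC.ev W b) (mapRingHom ι (C w)) = C w
        rw [coe_mapRingHom, coe_mapRingHom, map_C, map_C]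
        congr 1
        refine (GC.ev_mk W b (C w)).trans ?_
        rw [eval_C]
      · show mapRingHom (GC.ev W b) (mapRingHom ι X) = X
        rw [coe_mapRingHom, coe_mapRingHom, map_X, map_X]
    have h4 : ∀ a, mapRingHom (GC.ev W b) (C (GC.idm W a) * mapRingHom ι (z a)) =
        if a = b then z a else 0 := by
      intro a
      have h5 : mapRingHom (GC.ev W b) (mapRingHom ι (z a)) = z a := DFunLike.congr_fun hι (z a)
      rw [map_mul, h5]
      have h6 : mapRingHom (GC.ev W b) (C (GC.idm W a)) = C (if a = b then 1 else 0) := by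
        rw [coe_mapRingHom, map_C, GC.ev_idm hk]
      rw [h6]
      by_cases h : a = b
      · rw [if_pos h, if_pos h, C_1, one_mul]
      · rw [if_neg h, if_neg h, C_0, zero_mul]
    rw [Finset.sum_congr rfl fun a _ => h4 a, Finset.sum_ite_eq' Finset.univ b z,
      if_pos (Finset.mem_univ _)]

end Pool.Agent.KTX
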