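import Pool.Agent.KTX.StG

/-!
# KTX, module GX: finite products and the part `P`
-/

set_option autoImplicit false
set_option linter.unusedSectionVars false
set_option linter.style.haveILetI false

namespace Pool.Agent.KTX

open CategoryTheory Polynomial Function Pool.Agent.HPow

universe u

namespace GX

theorem asE_ker {q : ℕ} {A A' : Type} [CommRing A] [CommRing A'] (φ : A →+* A') (h : A) (h' : A')
    (e : φ h = h') (hφ : Surjective φ) (s : A) (hs : RingHom.ker φ = Ideal.span {s}) :
    RingHom.ker (asE q φ h h' e) = Ideal.span {asO q h s} := by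
  subst e
  exact asM_ker φ h hφ s hs

theorem asE_O {q : ℕ} {A A' : Type} [CommRing A] [CommRing A'] (φ : A →+* A') (h : A) (h' : A')
    (e : φ h = h') (a : A) : asE q φ h h' e (asO q h a) = asO q h' (φ a) := asH_O _ _ _ _ _ _

/-- the idempotents of a finite product -/
structure Idm {A : Type} [CommRing A] {I : Type} [Fintype I] {D : I → Type} [∀ i, CommRing (D i)]
    (π : ∀ i, A →+* D i) (ε : I → A) : Prop where
  one : ∀ i, π i (ε i) = 1
  off : ∀ i j, i ≠ j → π j (ε i) = 0
  sum : ∑ i, ε i = 1
  surj : ∀ i, Surjective (π i)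
  ker : ∀ i, RingHom.ker (π i) = Ideal.span {1 - ε i}
  idem : ∀ i, IsIdempotentElem (ε i)
  iff : ∀ i (x y : A), π i x = π i y ↔ ε i * x = ε i * y

theorem idm {A : Type} [CommRing A] {I : Type} [Fintype I] {D : I → Type} [∀ i, CommRing (D i)]
    (π : ∀ i, A →+* D i) (hπ : Bijective fun (c : A) (i : I) => π i c) :
    ∃ ε : I → A, Idm π ε := by
  classical
  have h1 : ∀ i : I, ∃ a : A, ∀ j, π j a = if i = j then 1 else 0 := by
    intro i
    obtain ⟨a, ha⟩ := hπ.2 (fun j => if i = j then 1 else 0)
    exact ⟨a, fun j => congrFun ha j⟩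
  choose ε hε using h1
  have hone : ∀ i, π i (ε i) = 1 := fun i => by rw [hε, if_pos rfl]
  have hoff : ∀ i j, i ≠ j → π j (ε i) = 0 := fun i j h => by rw [hε, if_neg h]
  have hext : ∀ x y : A, (∀ i, π i x = π i y) → x = y := fun x y h => hπ.1 (funext h)
  have hsurj : ∀ i, Surjective (π i) := by
    intro i z
    obtain ⟨a, ha⟩ := hπ.2 (Function.update 0 i z)
    refine ⟨a, ?_⟩
    have := congrFun ha i
    rw [Function.update_self] at this
    exact this
  have hiff : ∀ i (x y : A), π i x = π i y ↔ ε i * x = ε i * y := by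
    intro i x y
    constructor
    · intro h
      refine hext _ _ fun j => ?_
      rw [map_mul, map_mul]
      by_cases hij : i = j
      · subst hij
        rw [h]
      · rw [hoff i j hij, zero_mul, zero_mul]
    · intro h
      have h2 := congrArg (π i) h
      rw [map_mul, map_mul, hone, one_mul, one_mul] at h2
      exact h2
  have hidem : ∀ i, IsIdempotentElem (ε i) := by
    intro i
    have h2 := (hiff i (ε i) 1).1 (by rw [hone, map_one])
    rw [mul_one] at h2
    exact h2
  refine ⟨ε, ⟨hone, hoff, ?_, hsurj, ?_, hidem, hiff⟩⟩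
  · refine hext _ _ fun j => ?_
    rw [map_sum, map_one, Finset.sum_eq_single j]
    · exact hone j
    · intro i _ hij
      exact hoff i j hij
    · intro h
      exact absurd (Finset.mem_univ j) h
  · intro i
    ext x
    rw [RingHom.mem_ker, Ideal.mem_span_singleton]
    constructor
    · intro h
      have h2 := (hiff i x 0).1 (by rw [h, map_zero])
      rw [mul_zero] at h2
      exact ⟨x, by rw [sub_mul, one_mul, h2, sub_zero]⟩
    · rintro ⟨c, rfl⟩
      rw [map_mul, map_sub, map_one, hone, sub_self, zero_mul]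

theorem idm_flat {A : Type} [CommRing A] {I : Type} [Fintype I] {D : I → Type}
    [∀ i, CommRing (D i)] {π : ∀ i, A →+* D i} {ε : I → A} (h : Idm π ε) (i : I) :
    (π i).Flat := by
  letI := (π i).toAlgebra
  haveI : IsLocalization.Away (ε i) (D i) :=
    IsLocalization.away_of_isIdempotentElem_of_mul (h.idem i) (h.iff i) (h.surj i)
  haveI : Module.Flat A (D i) := IsLocalization.flat (D i) (Submonoid.powers (ε i))
  exact RingHom.flat_algebraMap_iff.2 inferInstance

/-- the ring `A[y] / (y ^ q + y - h)` is a finite product -/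
theorem as_prod {q : ℕ} {A : Type} [CommRing A] {I : Type} [Fintype I] {D : I → Type}
    [∀ i, CommRing (D i)] {π : ∀ i, A →+* D i} {ε : I → A} (hi : Idm π ε) (h : A)
    (h' : ∀ i, D i) (e : ∀ i, π i h = h' i) :
    Bijective fun (b : AS1 q A h) (i : I) => asE q (π i) h (h' i) (e i) b := by
  constructor
  · intro b b' hb
    have h1 : ∀ i, asO q h (ε i) * (b - b') = 0 := by
      intro i
      have h2 : b - b' ∈ RingHom.ker (asE q (π i) h (h' i) (e i)) := by
        rw [RingHom.mem_ker, map_sub, sub_eq_zero]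
        exact congrFun hb i
      rw [asE_ker (π i) h (h' i) (e i) (hi.surj i) (1 - ε i) (hi.ker i),
        Ideal.mem_span_singleton] at h2
      obtain ⟨c, hc⟩ := h2
      rw [hc, ← mul_assoc, ← map_mul, mul_sub, mul_one, (hi.idem i).eq, sub_self, map_zero,
        zero_mul]
    have h3 : (∑ i, asO q h (ε i)) * (b - b') = 0 := by
      rw [Finset.sum_mul]
      exact Finset.sum_eq_zero fun i _ => h1 i
    rw [← map_sum, hi.sum, map_one, one_mul, sub_eq_zero] at h3
    exact h3
  · intro z
    have h1 : ∀ i, ∃ b, asE q (π i) h (h' i) (e i) b = z i := fun i =>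
      asH_surj (π i) h (h' i) 0 _ (hi.surj i) (z i)
    choose b hb using h1
    refine ⟨∑ i, asO q h (ε i) * b i, funext fun j => ?_⟩
    show asE q (π j) h (h' j) (e j) (∑ i, asO q h (ε i) * b i) = z j
    rw [map_sum, Finset.sum_eq_single j]
    · rw [map_mul, asE_O, hi.one, map_one, one_mul, hb]
    · intro i _ hij
      rw [map_mul, asE_O, hi.off i j hij, map_zero, zero_mul]
    · intro hj
      exact absurd (Finset.mem_univ j) hj

/-- the homomorphism to the zero ring -/
def toP (C : Type) [CommRing C] : C →+* PUnit.{1} where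
  toFun _ := 0
  map_one' := rfl
  map_mul' _ _ := rfl
  map_zero' := rfl
  map_add' _ _ := rfl

theorem sub_of {D : Type} [CommRing D] (h : (1 : D) = 0) : Subsingleton D :=
  ⟨fun a b => by rw [← mul_one a, ← mul_one b, h, mul_zero, mul_zero]⟩

/-- disjoint closed subschemes -/
theorem pl_pu_zero (R : RD.{u}) (hR : R.Ax) (n : ℤ) {B C C' : Type} [CommRing B] [CommRing C]
    [CommRing C'] [IsNoetherianRing B] [IsNoetherianRing C'] (f : B →+* C) (g : B →+* C')
    (hf : f.Finite) (hg : g.Flat) (s : B) (h1 : f s = 1) (h2 : g s = 0) (x : R.T n C) :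
    R.pl n g (R.pu n f x) = 0 := by
  have hp : IsPushout (CommRingCat.ofHom f) (CommRingCat.ofHom g)
      (CommRingCat.ofHom (toP C)) (CommRingCat.ofHom (toP C')) := by
    refine isPushout_of _ _ _ _ rfl (fun D _ u v huv => ?_) (fun D _ w w' _ _ => ?_)
    · have h3 : (1 : D) = 0 := by
        have h4 := DFunLike.congr_fun huv s
        rw [RingHom.comp_apply, RingHom.comp_apply, h1, h2, map_one, map_zero] at h4
        exact h4
      haveI := sub_of h3
      exact ⟨{ toFun := fun _ => 0, map_one' := Subsingleton.elim _ _,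
               map_mul' := fun _ _ => Subsingleton.elim _ _,
               map_zero' := Subsingleton.elim _ _,
               map_add' := fun _ _ => Subsingleton.elim _ _ },
        RingHom.ext fun _ => Subsingleton.elim _ _, RingHom.ext fun _ => Subsingleton.elim _ _⟩
    · refine RingHom.ext fun x => ?_
      rw [show x = 0 from rfl, map_zero, map_zero]
  rw [hR.bc n f g (toP C) (toP C') hf hg hp x, hR.zero n PUnit.{1} (R.pl n (toP C) x), map_zero]

end GX

theorem thm_GX : St_GX.{u} := by
  intro R hR p m q t k _ hk n A _ _ _ I _ D _ _ π hπ h h' e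
  obtain ⟨ε, hε⟩ := GX.idm π hπ
  have hq : q ≠ 0 := by
    have := hk.q_two_le
    omega
  haveI hB : IsNoetherianRing (AS1 q A h) := as_noeth h
  haveI hD : ∀ i, IsNoetherianRing (D i) := fun i =>
    isNoetherianRing_of_surjective _ _ (π i) (hε.surj i)
  haveI hBi : ∀ i, IsNoetherianRing (AS1 q (D i) (h' i)) := fun i => as_noeth (h' i)
  have hfl : ∀ i, (π i).Flat := GX.idm_flat hε
  have hfi : ∀ i, (π i).Finite := fun i => finite_of_surj _ (hε.surj i)
  have hsq : ∀ i, IsPushout (CommRingCat.ofHom (asO q h)) (CommRingCat.ofHom (π i))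
      (CommRingCat.ofHom (asE q (π i) h (h' i) (e i))) (CommRingCat.ofHom (asO q (h' i))) :=
    fun i => asH_pushout hk (π i) h (h' i) 0 _ (by rw [e i, zero_pow hq, add_zero, add_zero])
  have hEfl : ∀ i, (asE q (π i) h (h' i) (e i)).Flat := fun i => flat_of_pushout (hsq i) (hfl i)
  have hEfi : ∀ i, (asE q (π i) h (h' i) (e i)).Finite := fun i =>
    finite_of_surj _ (asH_surj (π i) h (h' i) 0 _ (hε.surj i))
  have hprod := hR.prod n (C := AS1 q A h) (fun i => asE q (π i) h (h' i) (e i))
    (GX.as_prod hε h h' e)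
  have hpl : ∀ (z : ∀ i, R.T n (AS1 q (D i) (h' i))) (j : I),
      R.pl n (asE q (π j) h (h' j) (e j))
        (∑ i, R.pu n (asE q (π i) h (h' i) (e i)) (z i)) = z j := by
    intro z j
    rw [map_sum, Finset.sum_eq_single j]
    · exact hprod.2 j (z j)
    · intro i _ hij
      refine GX.pl_pu_zero R hR n _ _ (hEfi i) (hEfl j) (asO q h (ε i)) ?_ ?_ (z i)
      · rw [GX.asE_O, hε.one, map_one]
      · rw [GX.asE_O, hε.off i j hij, map_zero]
    · intro hj
      exact absurd (Finset.mem_univ j) hj
  refine ⟨fun z hz => ?_, fun z _ h0 => ?_, fun x hx => ?_⟩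
  · show R.pu n (asO q h) (∑ i, R.pu n (asE q (π i) h (h' i) (e i)) (z i)) = 0
    rw [map_sum]
    refine Finset.sum_eq_zero fun i _ => ?_
    rw [← hR.pu_comp n (asO q h) (asE q (π i) h (h' i) (e i)) (asO_finite hk h) (hEfi i) (z i),
      asH_comp, hR.pu_comp n (π i) (asO q (h' i)) (hfi i) (asO_finite hk (h' i)) (z i)]
    have h1 : R.pu n (asO q (h' i)) (z i) = 0 := hz i
    rw [h1, map_zero]
  · funext j
    have h1 := hpl z j
    rw [h0, map_zero] at h1
    exact h1.symm
  · refine ⟨fun i => R.pl n (asE q (π i) h (h' i) (e i)) x, fun i => ?_, (hprod.1 x).symm⟩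
    show R.pu n (asO q (h' i)) (R.pl n (asE q (π i) h (h' i) (e i)) x) = 0
    have h1 : R.pu n (asO q h) x = 0 := hx
    rw [← hR.bc n (asO q h) (π i) (asE q (π i) h (h' i) (e i)) (asO q (h' i)) (asO_finite hk h)
      (hfl i) (hsq i) x, h1, map_zero]

end Pool.Agent.KTX
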