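import Pool.Agent.KTX.St

/-!
# KTX: O0 (helper2): every morphism to the spectrum of a field is flat
-/

set_option autoImplicit false

namespace Pool.Agent.KTX

open CategoryTheory AlgebraicGeometry

theorem thm_O0 : St_O0 := by
  intro k _ Y π
  have h1 : Subsingleton (Sp k : Scheme.{0}) := inferInstanceAs (Subsingleton (PrimeSpectrum k))
  infer_instance

end Pool.Agent.KTX
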