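import Pool.Agent.KTX.St

/-!
# KTX: O1 (helper2): bases of operations and surjective closed immersions
-/

set_option autoImplicit false

namespace Pool.Agent.KTX

open CategoryTheory AlgebraicGeometry

universe u

namespace O1

lemma pull_congr (T : STh.{u}) {X Y : Scheme.{0}} (f g : X ⟶ Y) [Flat f] [Flat g]
    (h : f = g) : T.pull f = T.pull g := by
  subst h
  rfl

lemma push_congr (T : STh.{u}) {X Y : Scheme.{0}} (f g : X ⟶ Y) [IsFinite f] [IsFinite g]
    (h : f = g) : T.push f = T.push g := by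
  subst h
  rfl

lemma zero_of_empty (T : STh.{u}) (X : Scheme.{0}) [IsNoetherian X] (hX : IsEmpty X)
    (x : T.T X) : x = 0 := by
  have h := T.ex0 (𝟙 X) (𝟙 X) (by
    ext y
    exact (hX.false y).elim) x
  rwa [T.push_id, T.pull_id] at h

lemma push_bij (T : STh.{u}) {M Y : Scheme.{0}} [IsNoetherian Y] (s : M ⟶ Y)
    [IsClosedImmersion s] (hs : Function.Surjective s) : Function.Bijective (T.push s) := by
  refine ⟨T.dev s hs, ?_⟩
  intro x
  let E : Scheme.{0} := (⊥ : Y.Opens).toScheme
  have hE : IsEmpty E := ⟨fun y => y.2⟩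
  have h1 : IsLocallyNoetherian E :=
    inferInstanceAs (IsLocallyNoetherian (⊥ : Y.Opens).toScheme)
  have h2 : CompactSpace E := inferInstance
  have h3 : IsNoetherian E := { }
  obtain ⟨z, hz⟩ := T.ex s (⊥ : Y.Opens).ι (by
    rw [hs.range_eq]
    ext y
    simp) x (zero_of_empty T E hE _)
  exact ⟨z, hz⟩

variable (L : LThy.{u}) (k : Type) [Field k] {Y M : Scheme.{0}} [IsNoetherian Y] (π : Y ⟶ Sp k)
  (s : M ⟶ Y) [IsClosedImmersion s]

/-- operations of `M` give operations of `Y` -/
lemma op_push (ω : ∀ n : ℤ, (L.th n).T (Sp k) →+ (L.th n).T M) (h : L.IsOp k (s ≫ π) ω) :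
    L.IsOp k π (fun n => ((L.th n).push s).comp (ω n)) := by
  induction h with
  | gen M' i =>
    rename_i hN hR hi hF
    have hF' : Flat ((i ≫ s) ≫ π) := by
      rw [Category.assoc]
      exact hF
    have h1 := LThy.IsOp.gen (L := L) (k := k) (π := π) M' (i ≫ s)
    have h2 : (fun n : ℤ => ((L.th n).push s).comp (((L.th n).push i).comp
        ((L.th n).pull (i ≫ s ≫ π)))) =
        fun n : ℤ => ((L.th n).push (i ≫ s)).comp ((L.th n).pull ((i ≫ s) ≫ π)) := by
      funext n
      ext x
      rw [pull_congr (L.th n) ((i ≫ s) ≫ π) (i ≫ s ≫ π) (Category.assoc _ _ _)]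
      simp only [AddMonoidHom.comp_apply]
      rw [(L.th n).push_comp]
    rw [h2]
    exact h1
  | zero =>
    have h2 : (fun n : ℤ => ((L.th n).push s).comp (0 : (L.th n).T (Sp k) →+ (L.th n).T M)) =
        fun _ => 0 := by
      funext n
      ext x
      simp
    rw [h2]
    exact LThy.IsOp.zero
  | add ω ω' _ _ ih ih' =>
    have h2 : (fun n : ℤ => ((L.th n).push s).comp (ω n + ω' n)) =
        fun n : ℤ => ((L.th n).push s).comp (ω n) + ((L.th n).push s).comp (ω' n) := by
      funext n
      ext x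
      simp
    rw [h2]
    exact LThy.IsOp.add _ _ ih ih'
  | neg ω _ ih =>
    have h2 : (fun n : ℤ => ((L.th n).push s).comp (- ω n)) =
        fun n : ℤ => - ((L.th n).push s).comp (ω n) := by
      funext n
      ext x
      simp
    rw [h2]
    exact LThy.IsOp.neg _ ih

/-- operations of `Y` come from operations of `M` -/
lemma op_lift (h0 : St_O0) (hs : Function.Surjective s)
    (ω : ∀ n : ℤ, (L.th n).T (Sp k) →+ (L.th n).T Y)
    (h : L.IsOp k π ω) : ∃ ω₀ : ∀ n : ℤ, (L.th n).T (Sp k) →+ (L.th n).T M,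
      L.IsOp k (s ≫ π) ω₀ ∧ ω = fun n => ((L.th n).push s).comp (ω₀ n) := by
  induction h with
  | gen N i =>
    rename_i hN hR hi hF
    have hsurj : Surjective s := ⟨hs⟩
    have h1 : IsIso (Limits.pullback.fst i s) :=
      isIso_of_isClosedImmersion_of_surjective (Limits.pullback.fst i s)
    let e : N ⟶ M := inv (Limits.pullback.fst i s) ≫ Limits.pullback.snd i s
    have he : e ≫ s = i := by
      show (inv (Limits.pullback.fst i s) ≫ Limits.pullback.snd i s) ≫ s = i
      rw [Category.assoc, ← Limits.pullback.condition, IsIso.inv_hom_id_assoc]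
    have hec : IsClosedImmersion e := by
      show IsClosedImmersion (inv (Limits.pullback.fst i s) ≫ Limits.pullback.snd i s)
      infer_instance
    have hFe : Flat (e ≫ s ≫ π) := h0 k N _
    refine ⟨fun n => ((L.th n).push e).comp ((L.th n).pull (e ≫ s ≫ π)),
      LThy.IsOp.gen (L := L) (k := k) (π := s ≫ π) N e, ?_⟩
    funext n
    ext x
    have h2 : i ≫ π = e ≫ s ≫ π := by rw [← Category.assoc, he]
    rw [pull_congr (L.th n) (i ≫ π) (e ≫ s ≫ π) h2]
    simp only [AddMonoidHom.comp_apply]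
    rw [← (L.th n).push_comp, push_congr (L.th n) (e ≫ s) i he]
  | zero =>
    refine ⟨fun _ => 0, LThy.IsOp.zero, ?_⟩
    funext n
    ext x
    simp
  | add ω ω' _ _ ih ih' =>
    obtain ⟨a, ha, hae⟩ := ih
    obtain ⟨a', ha', hae'⟩ := ih'
    refine ⟨fun n => a n + a' n, LThy.IsOp.add _ _ ha ha', ?_⟩
    funext n
    ext x
    rw [hae, hae']
    simp
  | neg ω _ ih =>
    obtain ⟨a, ha, hae⟩ := ih
    refine ⟨fun n => - a n, LThy.IsOp.neg _ ha, ?_⟩
    funext n
    ext x
    rw [hae]
    simp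

end O1

theorem thm_O1 (h0 : St_O0) : St_O1.{u} := by
  intro L k _ Y M _ π s _ hs b
  constructor
  · rintro ⟨ω, hω, hb⟩
    refine ⟨fun a n => ((L.th n).push s).comp (ω a n), fun a => O1.op_push L k π s (ω a) (hω a),
      ?_⟩
    intro n
    have h1 : (fun t : Fin b → (L.th n).T (Sp k) =>
        ∑ a, ((L.th n).push s).comp (ω a n) (t a)) =
        (L.th n).push s ∘ fun t : Fin b → (L.th n).T (Sp k) => ∑ a, ω a n (t a) := by
      funext t
      simp only [Function.comp_apply, map_sum, AddMonoidHom.comp_apply]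
    show Function.Bijective (fun t : Fin b → (L.th n).T (Sp k) =>
        ∑ a, ((L.th n).push s).comp (ω a n) (t a))
    rw [h1]
    exact (O1.push_bij (L.th n) s hs).comp (hb n)
  · rintro ⟨ω, hω, hb⟩
    choose ω₀ hω₀ he using fun a => O1.op_lift L k π s h0 hs (ω a) (hω a)
    refine ⟨ω₀, hω₀, ?_⟩
    intro n
    have h1 : (fun t : Fin b → (L.th n).T (Sp k) => ∑ a, ω a n (t a)) =
        (L.th n).push s ∘ fun t : Fin b → (L.th n).T (Sp k) => ∑ a, ω₀ a n (t a) := by
      funext t
      simp only [Function.comp_apply, map_sum]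
      refine Finset.sum_congr rfl fun a _ => ?_
      rw [he a]
      rfl
    have h2 := hb n
    rw [h1] at h2
    exact (O1.push_bij (L.th n) s hs).of_comp_iff' _ |>.mp h2

end Pool.Agent.KTX
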