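import Pool.Agent.KTX.St
import Pool.Agent.THY.Fermat

/-!
# KTX, module O4: Fermat hypersurfaces of even dimension are filtered by Hermitian pieces, with counts
-/

set_option autoImplicit false

noncomputable section

namespace Pool.Agent.KTX

open CategoryTheory AlgebraicGeometry TopologicalSpace Function Pool.Agent.KSS Pool.Agent.HPow
open Pool.Agent.KSS.Q3d

namespace O4

/-! ### the pieces of the first kind -/

section iso

variable {p m q t : ℕ} {k : Type} [Field k]

/-- the pieces of the first kind as rings `AS1` -/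
theorem iso_V (h : Setg p m q t k) (j r : ℕ) :
    Nonempty (VV h (ff k q j r) ≃ₐ[k] AS1 q (MvPolynomial (Fin (j + r)) k)
      (∑ i, MvPolynomial.C (THY.aF k j r 0 i) * MvPolynomial.X i ^ (q + 1))) := by
  obtain ⟨τ, hτ⟩ := h.exists_tau
  have hq := h.q_two_le
  have hτB : ∀ (B : Type) [CommRing B] [Algebra k B],
      algebraMap k B τ ^ q + algebraMap k B τ = 1 := by
    intro B _ _
    rw [← map_pow, ← map_add, add_comm, hτ, map_one]
  set f0 : MvPolynomial (Fin (j + r)) k :=
    ∑ i, MvPolynomial.C (THY.aF k j r 0 i) * MvPolynomial.X i ^ (q + 1) with hf0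
  set PP0 : Polynomial (MvPolynomial (Fin (j + r)) k) :=
    Polynomial.X ^ q + Polynomial.X - Polynomial.C f0 with hPP0
  let Y : AdjoinRoot PP0 := AdjoinRoot.root PP0
  let Z : Fin (j + r) → AdjoinRoot PP0 := fun b => AdjoinRoot.of PP0 (MvPolynomial.X b)
  have hCB : ∀ c : k, AdjoinRoot.of PP0 (MvPolynomial.C c) = algebraMap k (AdjoinRoot PP0) c := by
    intro c
    rw [AdjoinRoot.algebraMap_eq']
    rfl
  have hYZ : Y ^ q + Y = - ∑ b : Fin r, Z (Fin.natAdd j b) ^ (q + 1) := by
    rw [← THY.aF_sum (k := k) q j r Z]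
    have h1 := AdjoinRoot.eval₂_root PP0
    rw [hPP0, Polynomial.eval₂_sub, Polynomial.eval₂_add, Polynomial.eval₂_pow,
      Polynomial.eval₂_X, Polynomial.eval₂_C, sub_eq_zero] at h1
    refine h1.trans ((congrArg (AdjoinRoot.of PP0) hf0).trans ?_)
    rw [map_sum]
    refine Finset.sum_congr rfl fun b _ => ?_
    rw [map_mul, map_pow]
    exact congrArg (· * _) (hCB _)
  obtain ⟨F, hF⟩ := V_lift h (ff k q j r) (B := AdjoinRoot PP0)
    (MvPolynomial.aeval (Sum.elim (fun _ : Fin 1 => Y - algebraMap k (AdjoinRoot PP0) τ)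
      Z)) (by
      rw [MvPolynomial.aeval_X, Sum.elim_inl, h.sub_pow, THY.ff_aeval]
      have h2 : ∑ b : Fin r, (MvPolynomial.aeval (R := k) (Sum.elim
          (fun _ : Fin 1 => Y - algebraMap k (AdjoinRoot PP0) τ) Z)
            (MvPolynomial.X (Sum.inr (Fin.natAdd j b)))) ^ (q + 1) =
          ∑ b : Fin r, Z (Fin.natAdd j b) ^ (q + 1) := by
        refine Finset.sum_congr rfl fun b _ => ?_
        rw [MvPolynomial.aeval_X, Sum.elim_inr]
      rw [h2]
      have h3 := hτB (AdjoinRoot PP0)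
      linear_combination hYZ - h3)
  have hFy : F (vy h (ff k q j r)) = Y - algebraMap k _ τ := by
    refine (hF _).trans ?_
    rw [MvPolynomial.aeval_X, Sum.elim_inl]
  have hFx : ∀ b, F (vx h (ff k q j r) b) = Z b := by
    intro b
    refine (hF _).trans ?_
    rw [MvPolynomial.aeval_X, Sum.elim_inr]
  let G : AdjoinRoot PP0 →ₐ[k] VV h (ff k q j r) := AdjoinRoot.liftAlgHom PP0
    (MvPolynomial.aeval (vx h (ff k q j r))) (vy h (ff k q j r) + algebraMap k _ τ) (by
      have h1 := V_rel h (ff k q j r)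
      rw [THY.ff_aeval] at h1
      have h2 : MvPolynomial.aeval (vx h (ff k q j r)) f0 =
          - ∑ b : Fin r, vx h (ff k q j r) (Fin.natAdd j b) ^ (q + 1) := by
        rw [← THY.aF_sum (k := k) q j r (vx h (ff k q j r)), hf0, map_sum]
        refine Finset.sum_congr rfl fun b _ => ?_
        rw [map_mul, map_pow, MvPolynomial.aeval_C, MvPolynomial.aeval_X]
      rw [hPP0, Polynomial.eval₂_sub, Polynomial.eval₂_add, Polynomial.eval₂_pow,
        Polynomial.eval₂_X, Polynomial.eval₂_C, h.add_pow]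
      show _ - MvPolynomial.aeval (vx h (ff k q j r)) f0 = 0
      rw [h2]
      linear_combination h1 + hτB (VV h (ff k q j r)))
  have hGy : G Y = vy h (ff k q j r) + algebraMap k _ τ := AdjoinRoot.liftAlgHom_root _ _ _ _
  have hGx : ∀ b, G (Z b) = vx h (ff k q j r) b := by
    intro b
    refine (AdjoinRoot.liftAlgHom_of _ _ _ _ _).trans ?_
    rw [MvPolynomial.aeval_X]
  have hGF : G.comp F = AlgHom.id k _ := by
    apply V_ext
    · show G (F _) = _
      rw [hFy, map_sub, hGy, AlgHom.commutes]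
      show _ = vy h (ff k q j r)
      ring
    · intro b
      show G (F _) = _
      rw [hFx, hGx]
      rfl
  have hFG : (F : VV h (ff k q j r) →+* AdjoinRoot PP0).comp (G : AdjoinRoot PP0 →+* _) =
      RingHom.id _ := by
    apply AdjoinRoot.ringHom_ext
    · apply MvPolynomial.ringHom_ext
      · intro c
        show F (G (AdjoinRoot.of PP0 (MvPolynomial.C c))) = AdjoinRoot.of PP0 (MvPolynomial.C c)
        rw [hCB, AlgHom.commutes, AlgHom.commutes]
      · intro b
        show F (G (Z b)) = Z b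
        rw [hGx, hFx]
    · show F (G Y) = Y
      rw [hGy, map_add, hFy, AlgHom.commutes]
      ring
  refine ⟨AlgEquiv.ofAlgHom F G ?_ hGF⟩
  apply AlgHom.ext
  intro x
  exact DFunLike.congr_fun hFG x

/-- the pieces of the first kind and their counts -/
theorem fp_V (h : Setg p m q t k) (j r : ℕ) (hr : Even r) :
    KTX.FP q k (1 + (q - 1) * q ^ r) (VV h (ff k q j r)) := by
  have hq := h.q_two_le
  have e : Fin r ≃ {b // THY.aF k j r 0 b ≠ 0} := Equiv.ofBijective
    (fun b => ⟨Fin.natAdd j b, by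
      rw [THY.aF_nat]
      exact neg_ne_zero.2 one_ne_zero⟩) (by
    constructor
    · intro b b' hb
      have h1 := congrArg Subtype.val hb
      exact Fin.natAdd_injective _ _ h1
    · rintro ⟨b, hb⟩
      by_cases hbj : (b : ℕ) < j
      · refine (hb ?_).elim
        unfold THY.aF
        rw [if_pos hbj]
      · refine ⟨⟨b - j, by omega⟩, Subtype.ext (Fin.ext ?_)⟩
        show j + ((b : ℕ) - j) = b
        omega)
  have hcard : Nat.card {b // THY.aF k j r 0 b ≠ 0} = r := by
    rw [← Nat.card_congr e, Nat.card_eq_fintype_card, Fintype.card_fin]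
  refine Or.inr ⟨j + r, THY.aF k j r 0, fun b => ?_, ?_, ?_, iso_V h j r⟩
  · unfold THY.aF
    split_ifs
    · exact zero_pow (by omega)
    · have h1 := h.neg_pow (B := k) (1 : k)
      rw [one_pow] at h1
      exact h1
  · rw [hcard]
    exact hr
  · rw [hcard]

end iso

/-! ### closed subschemes of projective space -/

attribute [local instance] MvPolynomial.gradedAlgebra

/-- one step of the filtration of a closed subscheme of projective space -/
theorem pfil_proj {k : Type} [Field k]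
    {P : ℕ → (V : Type) → [CommRing V] → [Algebra k V] → Prop} (n : ℕ) (Z : Scheme.{0})
    (i : Z ⟶ PP k n) [IsClosedImmersion i] (V : Type) [CommRing V] [Algebra k V]
    [_root_.IsReduced V] (θ : MvPolynomial (Fin n) k →ₐ[k] V) (S : Set (MvPolynomial (Fin n) k))
    (M : MvPolynomial (Fin n) k) (b c : ℕ) (hV : P c V) (hθ : Surjective θ)
    (hM : M.IsHomogeneous 1)
    (hS : ∀ f ∈ S, ∃ d, f.IsHomogeneous d) (hθM : θ M = 1) (hθS : ∀ f ∈ S, θ f = 0)
    (hker : RingHom.ker θ.toRingHom ≤ Ideal.span ({M - 1} ∪ S))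
    (hrange : ∀ x : PP k n, (∀ f ∈ S, x ∈ ZL f) → x ∉ ZL M → x ∈ Set.range i)
    (hT : PFilN k P Z (i ≫ PPπ k n) b {y | (∀ f ∈ S, i y ∈ ZL f) ∧ i y ∈ ZL M}) :
    PFilN k P Z (i ≫ PPπ k n) (b + c) {y | ∀ f ∈ S, i y ∈ ZL f} := by
  obtain ⟨hU, c0, hc, hcπ, -, hcr⟩ := thm_Q3a k n M
    ((MvPolynomial.mem_homogeneousSubmodule _ _).2 hM) V θ hθ hθM
  have hr : ∀ x : PP k n, x ∈ Set.range (c0 ≫ Scheme.Opens.ι _) ↔
      (∀ f ∈ S, x ∈ ZL f) ∧ x ∉ ZL M := by
    intro x
    rw [hcr]
    constructor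
    · rintro ⟨h1, h2⟩
      refine ⟨fun f hf => ?_, h1⟩
      obtain ⟨d, hd⟩ := hS f hf
      exact h2 d f hd (hθS f hf)
    · rintro ⟨h1, h2⟩
      refine ⟨h2, fun d a hd h0 => ?_⟩
      have h3 : a ∈ Ideal.span ({M - 1} ∪ S) := hker h0
      obtain ⟨e, he⟩ := thm_Q3g k n S hS M a d hM hd h3
      have h4 : Ideal.span S ≤ x.asHomogeneousIdeal.toIdeal := by
        rw [Ideal.span_le]
        exact fun f hf => h1 f hf
      have hp : x.asHomogeneousIdeal.toIdeal.IsPrime := x.isPrime
      rcases hp.mem_or_mem (h4 he) with h5 | h5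
      · exact (h2 (hp.mem_of_pow_mem e h5)).elim
      · exact h5
  have hsub : Set.range (c0 ≫ Scheme.Opens.ι _) ⊆ Set.range i := by
    intro x hx
    obtain ⟨h1, h2⟩ := (hr x).1 hx
    exact hrange x h1 h2
  obtain ⟨c', hc', hcc, hcr'⟩ := thm_Q3b (PP k n) Z i _ V c0 hsub
  have hcont : Continuous i := i.continuous
  refine PFilN.step b c _ _ ?_ ?_ _ (hU.preimage i) V hV c' ?_ ?_ ?_ ?_ hT
  · exact ((q3f_closedS S).preimage hcont).inter ((q3f_closed M).preimage hcont)
  · exact (q3f_closedS S).preimage hcont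
  · show c' ≫ _ ≫ i ≫ PPπ k n = Spec.map (CommRingCat.ofHom (algebraMap k V))
    rw [← hcπ, ← Category.assoc, ← Category.assoc, Category.assoc c', hcc, Category.assoc]
  · exact fun y hy => hy.1
  · ext y
    simp only [Set.mem_inter_iff, Set.mem_ofPred_eq, Set.mem_empty_iff_false, iff_false, not_and]
    intro hy hyU
    exact hyU hy.2
  · ext y
    rw [hcr', hr]
    constructor
    · rintro ⟨h1, h2⟩
      exact ⟨h1, fun h => h2 ⟨h1, h⟩⟩
    · rintro ⟨h1, h2⟩
      exact ⟨h1, fun h => h2 h.2⟩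

/-! ### the filtration -/

/-- the charts of the first kind -/
theorem chartA {p m q t : ℕ} {k : Type} [Field k] (h : Setg p m q t k) (n : ℕ) (z : k)
    (hz : z ^ (q + 1) = -1) (j r : ℕ) (hr : n = 2 * j + 2 + r) (her : Even r) :
    ∃ (V : Type) (_ : CommRing V) (_ : Algebra k V) (θ : MvPolynomial (Fin n) k →ₐ[k] V),
      KTX.FP q k (1 + (q - 1) * q ^ r) V ∧ _root_.IsReduced V ∧ Surjective θ ∧
      θ (Ef n z j (by omega)) = 1 ∧ θ (∑ i, MvPolynomial.X i ^ (q + 1)) = 0 ∧
      (∀ (a : ℕ) (ha : a < j), θ (Ef n z a (by omega)) = 0) ∧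
      RingHom.ker θ.toRingHom ≤ Ideal.span
        ({Ef n z j (by omega) - 1, ∑ i, MvPolynomial.X i ^ (q + 1)} ∪
          Set.range fun a : Fin j => Ef n z a (by omega)) := by
  subst hr
  obtain ⟨θ, h1, h2, h3, h4, h5, h6⟩ := THY.chartV thm_Q3c h j r z hz
  exact ⟨VV h (ff k q j r), inferInstance, inferInstance, θ, fp_V h j r her, h1, h2, h3, h4, h5, h6⟩

/-- the filtration of the Fermat hypersurface, with counts -/
theorem fermat {p m q t : ℕ} {k : Type} [Field k] (hk : Setg p m q t k) (l n : ℕ)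
    (hn : n = 2 * l + 2) (Z : Scheme.{0}) (i : Z ⟶ PP k n) [IsClosedImmersion i]
    (hi : Set.range i = ZL (∑ j, MvPolynomial.X j ^ (q + 1))) :
    PFilN k (KTX.FP q k) Z (i ≫ PPπ k n)
      (n + (q - 1) * ∑ j ∈ Finset.range (l + 1), q ^ (2 * j)) Set.univ := by
  obtain ⟨z, -, hz⟩ := hk.exists_norm (-1) (by
    rw [hk.neg_pow, one_pow]) (by
    exact neg_ne_zero.2 one_ne_zero)
  have hiF : ∀ x : PP k n, x ∈ ZL (KSS.FP k n q) → x ∈ Set.range i := by
    intro x hx
    rw [hi]
    exact hx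
  let h := l + 1
  -- second kind
  have hB : ∀ j ≤ h, PFilN k (KTX.FP q k) Z (i ≫ PPπ k n) (h - j)
      {y | ∀ f ∈ SB n q z j, i y ∈ ZL f} := by
    intro j hj
    induction hj using Nat.decreasingInduction with
    | self =>
      have h1 : {y : Z | ∀ f ∈ SB n q z h, i y ∈ ZL f} = ∅ := by
        refine Set.eq_empty_iff_forall_notMem.2 fun y hy => ?_
        exact q3_empty h (by omega) (i y) hy
      rw [h1, Nat.sub_self]
      exact PFilN.empty
    | of_succ j hj ih =>
      obtain ⟨θ, -, hVr, hθ, hθ1, hθF, hθE, hθX, hker⟩ :=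
        THY.chartB k q n z hz (Even n) j (by omega)
      have e : h - j = h - (j + 1) + 1 := by omega
      rw [e]
      refine pfil_proj n Z i _ θ (SB n q z j) (MvPolynomial.X ⟨2 * j + 1, by omega⟩) _ 1
        (Or.inl ⟨rfl, _, ⟨AlgEquiv.refl⟩⟩) hθ
        (MvPolynomial.isHomogeneous_X k _) ?_ hθ1 ?_ ?_ ?_ ?_
      · rintro f (rfl | ⟨a, ha, rfl⟩ | ⟨a, ha, -, rfl⟩)
        · exact ⟨_, q3_FP_hom n q⟩
        · exact ⟨_, q3_E_hom z a ha⟩
        · exact ⟨_, MvPolynomial.isHomogeneous_X k _⟩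
      · rintro f (rfl | ⟨a, ha, rfl⟩ | ⟨a, ha, haj, rfl⟩)
        · exact hθF
        · exact hθE a ha
        · exact hθX a haj
      · refine hker.trans (Ideal.span_mono ?_)
        rintro f ((rfl | ⟨a, ha, rfl⟩) | ⟨a, rfl⟩)
        · exact Or.inl rfl
        · exact Or.inr (Or.inr (Or.inl ⟨a, ha, rfl⟩))
        · exact Or.inr (Or.inr (Or.inr ⟨a, by omega, a.2, rfl⟩))
      · intro x hx _
        exact hiF x (hx _ (Or.inl rfl))
      · have h2 : {y : Z | (∀ f ∈ SB n q z j, i y ∈ ZL f) ∧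
            i y ∈ ZL (MvPolynomial.X ⟨2 * j + 1, by omega⟩)} =
            {y : Z | ∀ f ∈ SB n q z (j + 1), i y ∈ ZL f} := by
          ext y
          constructor
          · rintro ⟨h3, h4⟩ f (rfl | ⟨a, ha, rfl⟩ | ⟨a, ha, haj, rfl⟩)
            · exact h3 _ (Or.inl rfl)
            · exact h3 _ (Or.inr (Or.inl ⟨a, ha, rfl⟩))
            · by_cases haj' : a < j
              · exact h3 _ (Or.inr (Or.inr ⟨a, ha, haj', rfl⟩))
              · obtain rfl : a = j := by omega
                exact h4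
          · intro h3
            refine ⟨fun f hf' => h3 f ?_, h3 _ (Or.inr (Or.inr ⟨j, by omega, by omega, rfl⟩))⟩
            rcases hf' with rfl | ⟨a, ha, rfl⟩ | ⟨a, ha, haj, rfl⟩
            · exact Or.inl rfl
            · exact Or.inr (Or.inl ⟨a, ha, rfl⟩)
            · exact Or.inr (Or.inr ⟨a, ha, by omega, rfl⟩)
        rw [h2]
        exact ih
  -- first kind
  have hA : ∀ j ≤ h, PFilN k (KTX.FP q k) Z (i ≫ PPπ k n)
      (h + (h - j) + (q - 1) * ∑ a ∈ Finset.range (h - j), q ^ (2 * a))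
      {y | ∀ f ∈ SA n q z j, i y ∈ ZL f} := by
    intro j hj
    induction hj using Nat.decreasingInduction with
    | self =>
      have h1 : {y : Z | ∀ f ∈ SA n q z h, i y ∈ ZL f} =
          {y : Z | ∀ f ∈ SB n q z 0, i y ∈ ZL f} := by
        ext y
        constructor
        · rintro h3 f (rfl | ⟨a, ha, rfl⟩ | ⟨a, ha, haj, rfl⟩)
          · exact h3 _ (Or.inl rfl)
          · by_cases hah : a < h
            · exact h3 _ (Or.inr ⟨a, ha, hah, rfl⟩)
            · obtain rfl : a = h := by omega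
              exact q3_mem_last hz h (by omega) (i y) h3
          · omega
        · rintro h3 f (rfl | ⟨a, ha, haj, rfl⟩)
          · exact h3 _ (Or.inl rfl)
          · exact h3 _ (Or.inr (Or.inl ⟨a, ha, rfl⟩))
      rw [h1, Nat.sub_self, Finset.range_zero, Finset.sum_empty, mul_zero, add_zero, add_zero]
      exact hB 0 (Nat.zero_le _)
    | of_succ j hj ih =>
      obtain ⟨r, hr⟩ : ∃ r, n = 2 * j + 2 + r := ⟨n - (2 * j + 2), by omega⟩
      have hrr : r = 2 * (h - (j + 1)) := by omega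
      have hch : ∃ (V : Type) (_ : CommRing V) (_ : Algebra k V)
          (θ : MvPolynomial (Fin n) k →ₐ[k] V),
          KTX.FP q k (1 + (q - 1) * q ^ r) V ∧ _root_.IsReduced V ∧ Surjective θ ∧
          θ (Ef n z j (by omega)) = 1 ∧ θ (∑ i, MvPolynomial.X i ^ (q + 1)) = 0 ∧
          (∀ (a : ℕ) (ha : a < j), θ (Ef n z a (by omega)) = 0) ∧
          RingHom.ker θ.toRingHom ≤ Ideal.span
            ({Ef n z j (by omega) - 1, ∑ i, MvPolynomial.X i ^ (q + 1)} ∪
              Set.range fun a : Fin j => Ef n z a (by omega)) := by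
        exact chartA hk n z hz j r hr (by rw [hrr]; exact even_two_mul _)
      obtain ⟨V, _, _, θ, hV, hVr, hθ, hθ1, hθF, hθE, hker⟩ := hch
      have e : h + (h - j) + (q - 1) * ∑ a ∈ Finset.range (h - j), q ^ (2 * a) =
          h + (h - (j + 1)) + (q - 1) * ∑ a ∈ Finset.range (h - (j + 1)), q ^ (2 * a) +
            (1 + (q - 1) * q ^ r) := by
        have e1 : h - j = h - (j + 1) + 1 := by omega
        rw [e1, Finset.sum_range_succ, hrr]
        ring
      rw [e]
      refine pfil_proj n Z i V θ (SA n q z j) (Ef n z j (by omega)) _ _ hV hθ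
        (q3_E_hom z j _) ?_ hθ1 ?_ ?_ ?_ ?_
      · rintro f (rfl | ⟨a, ha, -, rfl⟩)
        · exact ⟨_, q3_FP_hom n q⟩
        · exact ⟨_, q3_E_hom z a ha⟩
      · rintro f (rfl | ⟨a, ha, haj, rfl⟩)
        · exact hθF
        · exact hθE a haj
      · refine hker.trans (Ideal.span_mono ?_)
        rintro f ((rfl | rfl) | ⟨a, rfl⟩)
        · exact Or.inl rfl
        · exact Or.inr (Or.inl rfl)
        · exact Or.inr (Or.inr ⟨a, by omega, a.2, rfl⟩)
      · intro x hx _
        exact hiF x (hx _ (Or.inl rfl))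
      · have h2 : {y : Z | (∀ f ∈ SA n q z j, i y ∈ ZL f) ∧
            i y ∈ ZL (Ef n z j (by omega))} =
            {y : Z | ∀ f ∈ SA n q z (j + 1), i y ∈ ZL f} := by
          ext y
          constructor
          · rintro ⟨h3, h4⟩ f (rfl | ⟨a, ha, haj, rfl⟩)
            · exact h3 _ (Or.inl rfl)
            · by_cases haj' : a < j
              · exact h3 _ (Or.inr ⟨a, ha, haj', rfl⟩)
              · obtain rfl : a = j := by omega
                exact h4
          · intro h3
            refine ⟨fun f hf' => h3 f ?_, h3 _ (Or.inr ⟨j, by omega, by omega, rfl⟩)⟩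
            rcases hf' with rfl | ⟨a, ha, haj, rfl⟩
            · exact Or.inl rfl
            · exact Or.inr ⟨a, ha, by omega, rfl⟩
        rw [h2]
        exact ih
  have h1 : {y : Z | ∀ f ∈ SA n q z 0, i y ∈ ZL f} = Set.univ := by
    refine Set.eq_univ_of_forall fun y => ?_
    rintro f (rfl | ⟨a, ha, haj, rfl⟩)
    · have h2 : i y ∈ Set.range i := ⟨y, rfl⟩
      rw [hi] at h2
      exact h2
    · omega
  have h2 := hA 0 (Nat.zero_le _)
  rw [h1, Nat.sub_zero] at h2
  have h3 : h + h + (q - 1) * ∑ a ∈ Finset.range h, q ^ (2 * a) =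
      n + (q - 1) * ∑ j ∈ Finset.range (l + 1), q ^ (2 * j) := by
    have h4 : h + h = n := by omega
    rw [h4]
  rw [h3] at h2
  exact h2

end O4

/-- the module -/
theorem thm_O4 : St_O4 := fun _ _ _ _ _ _ hk l Z i _ hi => O4.fermat hk l _ rfl Z i hi

end Pool.Agent.KTX
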