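import Pool.Agent.KTX.St

/-!
# KTX, module RO: from rings to schemes
-/

set_option autoImplicit false

namespace Pool.Agent.KTX

open CategoryTheory AlgebraicGeometry Pool.Agent.HPow

universe u

namespace RO

theorem pull_eq (L : LThy.{u}) (n : ℤ) {X Y : Scheme.{0}} (f g : X ⟶ Y) (h : f = g) [Flat f]
    [Flat g] : (L.th n).pull f = (L.th n).pull g := by
  subst h
  rfl

theorem sm_comp {k V C : Type} [Field k] [CommRing V] [CommRing C] [Algebra k V] [Algebra k C]
    (ρ : V →ₐ[k] C) :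
    Sm (ρ : V →+* C) ≫ Sm (algebraMap k V) = Sm (algebraMap k C) := by
  show Spec.map _ ≫ Spec.map _ = Spec.map _
  rw [← Spec.map_comp, ← CommRingCat.ofHom_comp]
  congr 2
  exact ρ.comp_algebraMap

theorem isOp (h0 : St_O0) (L : LThy.{u}) (k : Type) [Field k] (V : Type) [CommRing V]
    [Algebra k V] (ω : ∀ n : ℤ, L.toR.T n k →+ L.toR.T n V) (h : L.toR.IsOp k V ω) :
    L.IsOp k (Sm (algebraMap k V)) ω := by
  induction h with
  | gen C ρ hρ =>
    have hci : IsClosedImmersion (Sm (ρ : V →+* C)) := by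
      apply IsClosedImmersion.spec_of_surjective
      exact hρ
    have hfl : Flat (Sm (ρ : V →+* C) ≫ Sm (algebraMap k V)) := h0 _ _ _
    have hfl' : Flat (Sm (algebraMap k C)) := h0 _ _ _
    have e : (fun n => (L.toR.pu n (ρ : V →+* C)).comp (L.toR.pl n (algebraMap k C))) =
        fun n => ((L.th n).push (Sm (ρ : V →+* C))).comp
          ((L.th n).pull (Sm (ρ : V →+* C) ≫ Sm (algebraMap k V))) := by
      funext n
      rw [pull_eq L n _ _ (sm_comp ρ)]
      have e1 : L.toR.pu n (ρ : V →+* C) = (L.th n).push (Sm (ρ : V →+* C)) :=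
        dif_pos (inferInstance : IsFinite (Sm (ρ : V →+* C)))
      have e2 : L.toR.pl n (algebraMap k C) = (L.th n).pull (Sm (algebraMap k C)) := dif_pos hfl'
      exact congrArg₂ AddMonoidHom.comp e1 e2
    rw [e]
    exact LThy.IsOp.gen (Sp C) (Sm (ρ : V →+* C))
  | zero => exact LThy.IsOp.zero
  | add ω ω' _ _ h1 h2 => exact LThy.IsOp.add ω ω' h1 h2
  | neg ω _ h1 => exact LThy.IsOp.neg ω h1

end RO

/-- the module -/
theorem thm_RO (h0 : St_O0) : St_RO.{u} := by
  intro L k _ V _ _ b h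
  obtain ⟨ω, h1, h2⟩ := h
  exact ⟨ω, fun a => RO.isOp h0 L k V (ω a) (h1 a), h2⟩

end Pool.Agent.KTX
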