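import Pool.Agent.KTX.StG

/-!
# KTX, module RX: the radical extension
-/

set_option autoImplicit false
set_option linter.unusedSectionVars false
set_option linter.style.haveILetI false

namespace Pool.Agent.KTX

open Polynomial Function Pool.Agent.HPow

namespace RX

variable {p m q t : ℕ} {k : Type} [Field k]

theorem freeR_of_equiv {A B R : Type} [CommRing A] [CommRing B] [CommRing R] [Algebra A R]
    {d : ℕ} (b : Module.Basis (Fin d) A R) (e : R ≃+* B) (f : A →+* B)
    (h : ∀ a, e (algebraMap A R a) = f a) : FreeR f d := by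
  letI := f.toAlgebra
  exact ⟨b.map (AlgEquiv.ofRingEquiv (f := e) h).toLinearEquiv⟩

theorem freeR_triv {A B : Type} [CommRing A] [CommRing B] [Subsingleton A] [Subsingleton B]
    (f : A →+* B) (d : ℕ) : FreeR f d := by
  letI := f.toAlgebra
  exact ⟨Module.Basis.ofEquivFun
    { toFun := fun _ => 0
      map_add' := fun _ _ => Subsingleton.elim _ _
      map_smul' := fun _ _ => Subsingleton.elim _ _
      invFun := fun _ => 0
      left_inv := fun _ => Subsingleton.elim _ _
      right_inv := fun _ => Subsingleton.elim _ _ }⟩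

theorem exU_CC (W : Type) [CommRing W] (w : W) : exU q W (C (C w)) = C (C w) := by
  rw [coe_mapRingHom, map_C]
  congr 1
  exact expand_C q w

theorem exU_CX (W : Type) [CommRing W] : exU q W (C X) = C X ^ q := by
  rw [coe_mapRingHom, map_C, ← C_pow]
  congr 1
  exact expand_X q

theorem exU_X (W : Type) [CommRing W] : exU q W X = X := by
  rw [coe_mapRingHom, map_X]

/-- the polynomial `T ^ q - U` -/
noncomputable abbrev F (q : ℕ) (W : Type) [CommRing W] : W[X][X][X] := X ^ q - C (C X)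

theorem F_monic (hk : Setg p m q t k) (W : Type) [CommRing W] : (F q W).Monic :=
  monic_X_pow_sub (by
    refine degree_C_le.trans_lt ?_
    have := hk.q_two_le
    exact_mod_cast (by omega : 0 < q))

theorem F_deg (hk : Setg p m q t k) (W : Type) [CommRing W] [Nontrivial W] :
    (F q W).natDegree = q := by
  rw [natDegree_sub_C, natDegree_X_pow]

/-- `R → W[c][v]` -/
noncomputable def φ (q : ℕ) (W : Type) [CommRing W] : AdjoinRoot (F q W) →+* W[X][X] :=
  AdjoinRoot.lift (exU q W) (C X) (by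
    rw [eval₂_sub, eval₂_pow, eval₂_X, eval₂_C, exU_CX, sub_self])

/-- `W[c][v] → R` -/
noncomputable def ψ (q : ℕ) (W : Type) [CommRing W] : W[X][X] →+* AdjoinRoot (F q W) :=
  eval₂RingHom (eval₂RingHom (((AdjoinRoot.of (F q W)).comp C).comp C) (AdjoinRoot.root _))
    (AdjoinRoot.of _ X)

theorem φ_of (W : Type) [CommRing W] (a : W[X][X]) : φ q W (AdjoinRoot.of _ a) = exU q W a :=
  AdjoinRoot.lift_of _

theorem φ_root (W : Type) [CommRing W] : φ q W (AdjoinRoot.root _) = C X :=
  AdjoinRoot.lift_root _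

theorem ψ_CC (W : Type) [CommRing W] (w : W) :
    ψ q W (C (C w)) = AdjoinRoot.of _ (C (C w)) := by
  unfold ψ
  rw [coe_eval₂RingHom, eval₂_C, coe_eval₂RingHom, eval₂_C]
  rfl

theorem ψ_CX (W : Type) [CommRing W] : ψ q W (C X) = AdjoinRoot.root _ := by
  unfold ψ
  rw [coe_eval₂RingHom, eval₂_C, coe_eval₂RingHom, eval₂_X]

theorem ψ_X (W : Type) [CommRing W] : ψ q W X = AdjoinRoot.of _ X := by
  unfold ψ
  rw [coe_eval₂RingHom, eval₂_X]

theorem φψ (W : Type) [CommRing W] : (φ q W).comp (ψ q W) = RingHom.id _ := by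
  refine Polynomial.ringHom_ext' (Polynomial.ringHom_ext (fun w => ?_) ?_) ?_
  · show φ q W (ψ q W (C (C w))) = C (C w)
    rw [ψ_CC, φ_of, exU_CC]
  · show φ q W (ψ q W (C X)) = C X
    rw [ψ_CX, φ_root]
  · show φ q W (ψ q W X) = X
    rw [ψ_X, φ_of, exU_X]

theorem root_pow (W : Type) [CommRing W] :
    (AdjoinRoot.root (F q W)) ^ q = AdjoinRoot.of (F q W) (C X) := by
  have h1 := AdjoinRoot.eval₂_root (F q W)
  rw [eval₂_sub, eval₂_pow, eval₂_X, eval₂_C] at h1
  exact sub_eq_zero.1 h1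

theorem ψφ (W : Type) [CommRing W] : (ψ q W).comp (φ q W) = RingHom.id _ := by
  have h1 : ∀ a, ψ q W (exU q W a) = AdjoinRoot.of (F q W) a := by
    have h2 : (ψ q W).comp (exU q W) = AdjoinRoot.of (F q W) := by
      refine Polynomial.ringHom_ext' (Polynomial.ringHom_ext (fun w => ?_) ?_) ?_
      · show ψ q W (exU q W (C (C w))) = AdjoinRoot.of (F q W) (C (C w))
        rw [exU_CC, ψ_CC]
      · show ψ q W (exU q W (C X)) = AdjoinRoot.of (F q W) (C X)
        rw [exU_CX, map_pow, ψ_CX, root_pow]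
      · show ψ q W (exU q W X) = AdjoinRoot.of (F q W) X
        rw [exU_X, ψ_X]
    exact fun a => DFunLike.congr_fun h2 a
  refine RingHom.ext fun x => isol_ext1 _ _ (fun a => ?_) ?_ x
  · show ψ q W (φ q W (AdjoinRoot.of _ a)) = AdjoinRoot.of _ a
    rw [φ_of, h1]
  · show ψ q W (φ q W (AdjoinRoot.root _)) = AdjoinRoot.root _
    rw [φ_root, ψ_CX]

theorem pows (hk : Setg p m q t k) (W : Type) [CommRing W] [Algebra k W] (x : W[X][X]) :
    ∃ a : W[X][X], exU q W a = x ^ q := by
  have hadd : ∀ x y : W[X][X], (∃ a, exU q W a = x ^ q) → (∃ a, exU q W a = y ^ q) →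
      ∃ a, exU q W a = (x + y) ^ q := by
    rintro x y ⟨a, ha⟩ ⟨b, hb⟩
    exact ⟨a + b, by rw [map_add, ha, hb, hk.add_pow]⟩
  have hmul : ∀ x y : W[X][X], (∃ a, exU q W a = x ^ q) → (∃ a, exU q W a = y ^ q) →
      ∃ a, exU q W a = (x * y) ^ q := by
    rintro x y ⟨a, ha⟩ ⟨b, hb⟩
    exact ⟨a * b, by rw [map_mul, ha, hb, mul_pow]⟩
  have hCC : ∀ w : W, ∃ a : W[X][X], exU q W a = (C (C w)) ^ q := fun w =>
    ⟨C (C (w ^ q)), by rw [exU_CC, ← C_pow, ← C_pow]⟩
  have hCX : ∃ a : W[X][X], exU q W a = (C X) ^ q := ⟨C X, exU_CX W⟩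
  have hX : ∃ a : W[X][X], exU q W a = X ^ q := ⟨X ^ q, by rw [map_pow, exU_X]⟩
  have hC : ∀ P : W[X], ∃ a : W[X][X], exU q W a = (C P) ^ q := by
    intro P
    induction P using Polynomial.induction_on with
    | C w => exact hCC w
    | add P Q hP hQ =>
      rw [C_add]
      exact hadd _ _ hP hQ
    | monomial n w ih =>
      rw [pow_succ, ← mul_assoc, C_mul]
      exact hmul _ _ ih hCX
  induction x using Polynomial.induction_on with
  | C P => exact hC P
  | add P Q hP hQ => exact hadd _ _ hP hQ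
  | monomial n P ih =>
    rw [pow_succ, ← mul_assoc]
    exact hmul _ _ ih hX

end RX

/-- the module -/
theorem thm_RX : St_RX := by
  intro p m q t k _ hk W _ _
  refine ⟨?_, RX.pows hk W⟩
  rcases subsingleton_or_nontrivial W with hW | hW
  · haveI : Subsingleton W[X] := inferInstance
    haveI h1 : Subsingleton W[X][X] := inferInstance
    exact RX.freeR_triv _ _
  · let pb := AdjoinRoot.powerBasis' (RX.F_monic hk W)
    have hdim : pb.dim = q :=
      (AdjoinRoot.powerBasis'_dim (RX.F_monic hk W)).trans (RX.F_deg hk W)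
    exact RX.freeR_of_equiv (pb.basis.reindex (finCongr hdim))
      (RingEquiv.ofRingHom (RX.φ q W) (RX.ψ q W) (RX.φψ W) (RX.ψφ W)) (exU q W)
      (fun a => RX.φ_of W a)

end Pool.Agent.KTX
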