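import Pool.Agent.KTX.Defs
import Pool.Agent.KTH.R1

/-!
# KTX: the graded theory `X ↦ T_n (X × S)`
-/

set_option autoImplicit false

namespace Pool.Agent.KTX

open CategoryTheory AlgebraicGeometry Pool.Agent.KTH

universe u

namespace Rel

theorem pull_congr (T : STh.{u}) {X Y : Scheme.{0}} (f g : X ⟶ Y) [Flat f] [Flat g]
    (h : f = g) (x : T.T Y) : T.pull f x = T.pull g x := by
  subst h
  rfl

theorem push_congr (T : STh.{u}) {X Y : Scheme.{0}} (f g : X ⟶ Y) [IsFinite f]
    [IsFinite g] (h : f = g) (x : T.T X) : T.push f x = T.push g x := by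
  subst h
  rfl

variable (S : Scheme.{0})

theorem flat {X Y : Scheme.{0}} (f : X ⟶ Y) (h : Flat f) : Flat (pmap f S) :=
  ((thm_R1 S).2.2.2.1 X Y f).1 h

theorem finite {X Y : Scheme.{0}} (f : X ⟶ Y) (h : IsFinite f) : IsFinite (pmap f S) :=
  ((thm_R1 S).2.2.2.1 X Y f).2.1 h

theorem closed {X Y : Scheme.{0}} (f : X ⟶ Y) (h : IsClosedImmersion f) :
    IsClosedImmersion (pmap f S) := ((thm_R1 S).2.2.2.1 X Y f).2.2.1 h

theorem opn {X Y : Scheme.{0}} (f : X ⟶ Y) (h : IsOpenImmersion f) :
    IsOpenImmersion (pmap f S) := ((thm_R1 S).2.2.2.1 X Y f).2.2.2.1 h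

theorem range_compl {Z X U : Scheme.{0}} (i : Z ⟶ X) (j : U ⟶ X)
    (h : Set.range i = (Set.range j)ᶜ) : Set.range (pmap i S) = (Set.range (pmap j S))ᶜ := by
  rw [((thm_R1 S).2.2.2.1 _ _ i).2.2.2.2.2, ((thm_R1 S).2.2.2.1 _ _ j).2.2.2.2.2, h,
    Set.preimage_compl]

theorem noeth (hS : LocallyOfFiniteType (Limits.terminal.from S))
    (hq : QuasiCompact (Limits.terminal.from S)) {X : Scheme.{0}} (h : IsNoetherian X) :
    IsNoetherian (px X S) := (thm_R1 S).2.2.2.2.2 X h hS hq

theorem cart {X' X Y' Y : Scheme.{0}} {g' : X' ⟶ X} {f' : X' ⟶ Y'} {f : X ⟶ Y} {g : Y' ⟶ Y}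
    (h : IsPullback g' f' f g) :
    IsPullback (pmap g' S) (pmap f' S) (pmap f S) (pmap g S) :=
  (thm_R1 S).2.2.2.2.1 X' X Y' Y g' f' f g h

end Rel

/-- the theory `X ↦ T (X × S)` -/
noncomputable def STh.rel (T : STh.{u}) (S : Scheme.{0})
    (hS : LocallyOfFiniteType (Limits.terminal.from S))
    (hq : QuasiCompact (Limits.terminal.from S)) : STh.{u} where
  T := fun X => T.T (px X S)
  grp := fun X => T.grp (px X S)
  pull := fun {X Y} f hf => @STh.pull T (px X S) (px Y S) (pmap f S) (Rel.flat S f hf)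
  push := fun {X Y} f hf => @STh.push T (px X S) (px Y S) (pmap f S) (Rel.finite S f hf)
  pull_id := by
    intro X hX x
    have := Rel.noeth S hS hq hX
    have : Flat (pmap (𝟙 X) S) := Rel.flat S _ inferInstance
    exact (Rel.pull_congr T (pmap (𝟙 X) S) (𝟙 _) ((thm_R1 S).1 X) x).trans (T.pull_id _ x)
  pull_comp := by
    intro X Y Z hX hY hZ f g hf hg x
    have := Rel.noeth S hS hq hX
    have := Rel.noeth S hS hq hY
    have := Rel.noeth S hS hq hZ
    have : Flat (pmap f S) := Rel.flat S f hf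
    have : Flat (pmap g S) := Rel.flat S g hg
    have : Flat (pmap (f ≫ g) S) := Rel.flat S _ inferInstance
    exact (Rel.pull_congr T (pmap (f ≫ g) S) (pmap f S ≫ pmap g S)
      ((thm_R1 S).2.1 X Y Z f g) x).trans (T.pull_comp _ _ x)
  push_id := by
    intro X hX x
    have := Rel.noeth S hS hq hX
    have : IsFinite (pmap (𝟙 X) S) := Rel.finite S _ inferInstance
    exact (Rel.push_congr T (pmap (𝟙 X) S) (𝟙 _) ((thm_R1 S).1 X) x).trans (T.push_id _ x)
  push_comp := by
    intro X Y Z hZ f g hf hg x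
    have := Rel.noeth S hS hq hZ
    have : IsFinite (pmap f S) := Rel.finite S f hf
    have : IsFinite (pmap g S) := Rel.finite S g hg
    have : IsFinite (pmap (f ≫ g) S) := Rel.finite S _ inferInstance
    exact (Rel.push_congr T (pmap (f ≫ g) S) (pmap f S ≫ pmap g S)
      ((thm_R1 S).2.1 X Y Z f g) x).trans (T.push_comp _ _ x)
  bc := by
    intro X' X Y' Y hY hY' g' f' f g hg hf hg' hf' hp x
    have := Rel.noeth S hS hq hY
    have := Rel.noeth S hS hq hY'
    have : Flat (pmap g S) := Rel.flat S g hg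
    have : Flat (pmap g' S) := Rel.flat S g' hg'
    have : IsFinite (pmap f S) := Rel.finite S f hf
    have : IsFinite (pmap f' S) := Rel.finite S f' hf'
    exact T.bc (pmap g' S) (pmap f' S) (pmap f S) (pmap g S) (Rel.cart S hp) x
  ex := by
    intro Z X U hX i j hi hj hr x hx
    have := Rel.noeth S hS hq hX
    have : IsClosedImmersion (pmap i S) := Rel.closed S i hi
    have : IsOpenImmersion (pmap j S) := Rel.opn S j hj
    exact T.ex (pmap i S) (pmap j S) (Rel.range_compl S i j hr) x hx
  ex0 := by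
    intro Z X U hX i j hi hj hr z
    have := Rel.noeth S hS hq hX
    have : IsClosedImmersion (pmap i S) := Rel.closed S i hi
    have : IsOpenImmersion (pmap j S) := Rel.opn S j hj
    exact T.ex0 (pmap i S) (pmap j S) (Rel.range_compl S i j hr) z
  dev := by
    intro Z X hX i hi hs
    have := Rel.noeth S hS hq hX
    have : IsClosedImmersion (pmap i S) := Rel.closed S i hi
    exact T.dev (pmap i S) (((thm_R1 S).2.2.2.1 _ _ i).2.2.2.2.1 hs)
  hom := by
    intro X Y hX R hR f g h hf hp
    have := Rel.noeth S hS hq hX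
    have : Flat (pmap f S) := Rel.flat S f hf
    exact T.hom R (pmap f S) (pfst Y S ≫ g) (pfst X S ≫ h)
      (((thm_R1 S).2.2.1 Y X f).paste_vert hp)
  free := by
    intro X Y hX R R' hR hR' hA d b f g h hf hfin hp x
    have := Rel.noeth S hS hq hX
    have : Flat (pmap f S) := Rel.flat S f hf
    have : IsFinite (pmap f S) := Rel.finite S f hfin
    exact T.free R R' d b (pmap f S) (pfst Y S ≫ g) (pfst X S ≫ h)
      (((thm_R1 S).2.2.1 Y X f).paste_vert hp) x

/-- the graded theory `X ↦ T_n (X × S)` -/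
noncomputable def LThy.rel (L : LThy.{u}) (S : Scheme.{0})
    (hS : LocallyOfFiniteType (Limits.terminal.from S))
    (hq : QuasiCompact (Limits.terminal.from S)) : LThy.{u} where
  th := fun n => (L.th n).rel S hS hq
  bd := fun n {Z X U} i j hi hj => @LThy.bd L n (px Z S) (px X S) (px U S) (pmap i S) (pmap j S)
    (Rel.closed S i hi) (Rel.opn S j hj)
  bd_pull := by
    intro n Z X U hX i j hi hj hr x
    have := Rel.noeth S hS hq hX
    have : IsClosedImmersion (pmap i S) := Rel.closed S i hi
    have : IsOpenImmersion (pmap j S) := Rel.opn S j hj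
    exact L.bd_pull n (pmap i S) (pmap j S) (Rel.range_compl S i j hr) x
  exU := by
    intro n Z X U hX i j hi hj hr u hu
    have := Rel.noeth S hS hq hX
    have : IsClosedImmersion (pmap i S) := Rel.closed S i hi
    have : IsOpenImmersion (pmap j S) := Rel.opn S j hj
    exact L.exU n (pmap i S) (pmap j S) (Rel.range_compl S i j hr) u hu
  push_bd := by
    intro n Z X U hX i j hi hj hr u
    have := Rel.noeth S hS hq hX
    have : IsClosedImmersion (pmap i S) := Rel.closed S i hi
    have : IsOpenImmersion (pmap j S) := Rel.opn S j hj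
    exact L.push_bd n (pmap i S) (pmap j S) (Rel.range_compl S i j hr) u
  exZ := by
    intro n Z X U hX i j hi hj hr z hz
    have := Rel.noeth S hS hq hX
    have : IsClosedImmersion (pmap i S) := Rel.closed S i hi
    have : IsOpenImmersion (pmap j S) := Rel.opn S j hj
    exact L.exZ n (pmap i S) (pmap j S) (Rel.range_compl S i j hr) z hz
  nat := by
    intro n Z X U Z' X' U' hX hX' i j i' j' a g b hi hj hi' hj' ha hg hb hr h1 h2 u
    have := Rel.noeth S hS hq hX
    have := Rel.noeth S hS hq hX'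
    have : IsClosedImmersion (pmap i S) := Rel.closed S i hi
    have : IsOpenImmersion (pmap j S) := Rel.opn S j hj
    have : IsClosedImmersion (pmap i' S) := Rel.closed S i' hi'
    have : IsOpenImmersion (pmap j' S) := Rel.opn S j' hj'
    have : Flat (pmap a S) := Rel.flat S a ha
    have : Flat (pmap g S) := Rel.flat S g hg
    have : Flat (pmap b S) := Rel.flat S b hb
    exact L.nat n (pmap i S) (pmap j S) (pmap i' S) (pmap j' S) (pmap a S) (pmap g S) (pmap b S)
      (Rel.range_compl S i j hr) (Rel.cart S h1) (Rel.cart S h2) u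

theorem LThy.rel_PInv (L : LThy.{u}) (S : Scheme.{0})
    (hS : LocallyOfFiniteType (Limits.terminal.from S))
    (hq : QuasiCompact (Limits.terminal.from S)) (p : ℕ) (h : L.PInv p) :
    (L.rel S hS hq).PInv p := fun n X => h n (px X S)

end Pool.Agent.KTX
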