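import Pool.Agent.KTX.F
import Pool.Agent.KTX.R0
import Pool.Agent.KTX.O0
import Pool.Agent.KTX.O1
import Pool.Agent.KTX.O2
import Pool.Agent.KTX.O3
import Pool.Agent.KTX.O4
import Pool.Agent.KTX.RO
import Pool.Agent.KTX.G3
import Pool.Agent.KTX.G4
import Pool.Agent.KTX.G6
import Pool.Agent.KTX.GC
import Pool.Agent.KTX.GX
import Pool.Agent.KTX.RX
import Pool.Agent.KTX.Rel

/-!
# KTX, assembly
-/

set_option autoImplicit false

namespace Pool.Agent.KTX

universe u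

theorem all_G4 : St_G4.{u} := thm_G4 thm_G3 thm_GX thm_GC thm_RX

theorem all_G5 : St_G5.{u} := thm_G5 all_G4

theorem all_F : St_F.{u} :=
  thm_F thm_R0 (thm_O3 (thm_O1 thm_O0) (thm_O2 thm_O0)) thm_O4 (thm_RO thm_O0) (thm_G6 all_G4)

end Pool.Agent.KTX
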