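import Pool.Agent.KTX.StG
import Pool.Agent.HPow.HypA

/-!
# KTX, module DG: diagonal forms (helper82)
-/

set_option autoImplicit false

namespace Pool.Agent.KTX

open Polynomial Function Pool.Agent.HPow

namespace DG

variable {p m q t : ℕ} {k : Type} [Field k]

/-- the diagonal form -/
noncomputable abbrev fm (q : ℕ) {W : Type} [CommRing W] [Algebra k W] (h : W) (N : ℕ)
    (b : Fin N → k) : MvPolynomial (Fin N) W := MvPolynomial.C h +
        ∑ i, MvPolynomial.C (algebraMap k W (b i)) * MvPolynomial.X i ^ (q + 1)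

/-- the first variable -/
noncomputable def e1 (k : Type) [Field k] (W : Type) [CommRing W] [Algebra k W] (N : ℕ) :
    MvPolynomial (Fin (N + 1)) W ≃ₐ[k] (MvPolynomial (Fin N) W)[X] :=
  (MvPolynomial.finSuccEquiv W N).restrictScalars k

theorem e1_fm (q : ℕ) {W : Type} [CommRing W] [Algebra k W] (h : W) (N : ℕ)
    (b : Fin (N + 1) → k) :
    e1 k W N (fm q h (N + 1) b) = C (fm q h N fun i => b i.succ) +
      C (algebraMap k _ (b 0)) * X ^ (q + 1) := by
  change MvPolynomial.finSuccEquiv W N (fm q h (N + 1) b) = _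
  have hC : ∀ w : W, MvPolynomial.finSuccEquiv W N (MvPolynomial.C w) = C (MvPolynomial.C w) :=
    fun w => (MvPolynomial.finSuccEquiv W N).commutes w
  unfold fm
  rw [map_add, map_sum, hC, Fin.sum_univ_succ, map_mul, map_pow, hC,
    MvPolynomial.finSuccEquiv_X_zero, C_add, map_sum]
  have h1 : ∀ i : Fin N, MvPolynomial.finSuccEquiv W N
      (MvPolynomial.C (algebraMap k W (b i.succ)) * MvPolynomial.X i.succ ^ (q + 1)) =
      C (MvPolynomial.C (algebraMap k W (b i.succ)) * MvPolynomial.X i ^ (q + 1)) := by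
    intro i
    rw [map_mul, map_pow, hC, MvPolynomial.finSuccEquiv_X_succ, C_mul, C_pow]
  rw [Finset.sum_congr rfl fun i _ => h1 i]
  have h2 : (algebraMap k (MvPolynomial (Fin N) W) (b 0)) =
    MvPolynomial.C (algebraMap k W (b 0)) := rfl
  rw [h2]
  ring

/-- the linear change of variables -/
theorem lin (hk : Setg p m q t k) {A : Type} [CommRing A] [Algebra k A] (a : A) (b1 b2 : k)
    (hb1 : b1 ^ q = b1) (hb2 : b2 ^ q = b2) (hb10 : b1 ≠ 0) (hb20 : b2 ≠ 0) :
    ∃ e : A[X][X] ≃ₐ[k] A[X][X], e (hyf q a) = C (C a + C (algebraMap k A b1) * X ^ (q + 1)) +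
      C (algebraMap k A[X] b2) * X ^ (q + 1) := by
  obtain ⟨τ, hτ⟩ := hk.exists_tau
  obtain ⟨l1, hl1, hl1'⟩ := hk.exists_norm b1 hb1 hb10
  have hb2' : (-b2) ^ q = -b2 := by
    have := hk.neg_pow b2
    rw [this, hb2]
  obtain ⟨l2, hl2, hl2'⟩ := hk.exists_norm (-b2) hb2' (neg_ne_zero.mpr hb20)
  set cS : k →+* A[X][X] := algebraMap k A[X][X] with hcS
  let f : A[X][X] →ₐ[A] A[X][X] := aevalAeval
    ((1 - cS τ) * (cS l1 * C X) + cS τ * (cS l2 * X)) (cS l1 * C X - cS l2 * X)
  let g : A[X][X] →ₐ[A] A[X][X] := aevalAeval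
    (cS l1⁻¹ * (C X + cS τ * X)) (cS l2⁻¹ * (C X + (cS τ - 1) * X))
  have hc : ∀ (φ : A[X][X] →ₐ[A] A[X][X]) (x : k), φ (cS x) = cS x := fun φ x =>
    (φ.restrictScalars k).commutes x
  have hf0 : f (C X) = (1 - cS τ) * (cS l1 * C X) + cS τ * (cS l2 * X) := aevalAeval_X _ _
  have hf1 : f X = cS l1 * C X - cS l2 * X := aevalAeval_Y _ _
  have hg0 : g (C X) = cS l1⁻¹ * (C X + cS τ * X) := aevalAeval_X _ _
  have hg1 : g X = cS l2⁻¹ * (C X + (cS τ - 1) * X) := aevalAeval_Y _ _
  obtain ⟨a1, a2, a3, a4⟩ := hypa_lin (f : A[X][X] →+* A[X][X]) (g : A[X][X] →+* A[X][X]) cS cS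
    τ l1 l2 hl1 hl2 (C X) X (C X) X (hc f) (hc g) hf0 hf1 hg0 hg1
  have h1 : (f.restrictScalars k).comp (g.restrictScalars k) = AlgHom.id k _ := by
    have e : (f : A[X][X] →+* A[X][X]).comp (g : A[X][X] →+* A[X][X]) = RingHom.id _ := by
      apply ringHom_ext'
      · apply ringHom_ext'
        · exact RingHom.ext fun x => (congrArg f (g.commutes x)).trans (f.commutes x)
        · exact a3
      · exact a4
    exact AlgHom.ext fun x => DFunLike.congr_fun e x
  have h2 : (g.restrictScalars k).comp (f.restrictScalars k) = AlgHom.id k _ := by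
    have e : (g : A[X][X] →+* A[X][X]).comp (f : A[X][X] →+* A[X][X]) = RingHom.id _ := by
      apply ringHom_ext'
      · apply ringHom_ext'
        · exact RingHom.ext fun x => (congrArg g (f.commutes x)).trans (g.commutes x)
        · exact a1
      · exact a2
    exact AlgHom.ext fun x => DFunLike.congr_fun e x
  refine ⟨AlgEquiv.ofAlgHom (f.restrictScalars k) (g.restrictScalars k) h1 h2, ?_⟩
  change f (hyf q a) = _
  have h3 := hypa_form hk cS τ l1 l2 b1 b2 hτ hl1' hl2' (C X) X
  have h4 : f (C (C a)) = C (C a) := f.commutes a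
  unfold hyf
  rw [map_add, map_add, map_mul, map_mul, map_pow, C_pow, map_pow, hf0, hf1, h3, h4, C_add, C_mul,
    C_pow, add_assoc]
  rfl

/-- the number of the nonzero coefficients -/
theorem nz_succ (N : ℕ) (b : Fin (N + 1) → k) :
    (b 0 = 0 → Nat.card {i // b i ≠ 0} = Nat.card {i : Fin N // b i.succ ≠ 0}) ∧
    (b 0 ≠ 0 → Nat.card {i // b i ≠ 0} = Nat.card {i : Fin N // b i.succ ≠ 0} + 1) := by
  classical
  have h1 := Fin.card_filter_univ_succ fun i => b i ≠ 0
  have h2 : Nat.card {i // b i ≠ 0} = (Finset.univ.filter fun i => b i ≠ 0).card := by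
    rw [Nat.card_eq_fintype_card, Fintype.card_subtype]
  have h3 : Nat.card {i : Fin N // b i.succ ≠ 0} =
      (Finset.univ.filter fun i : Fin N => b i.succ ≠ 0).card := by
    rw [Nat.card_eq_fintype_card, Fintype.card_subtype]
  rw [h2, h3, h1]
  constructor
  · intro h
    rw [if_neg (not_not.2 h)]
  · intro h
    rw [if_pos h]

theorem map_C' {A B : Type} [CommRing A] [CommRing B] [Algebra k A] [Algebra k B] (e : A ≃ₐ[k] B)
    (x : A) : (mapAlgEquiv e) (C x) = C (e x) := by
  rw [coe_mapAlgEquiv, map_C]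
  rfl

theorem map_X' {A B : Type} [CommRing A] [CommRing B] [Algebra k A] [Algebra k B]
    (e : A ≃ₐ[k] B) : (mapAlgEquiv e) X = X := by
  rw [coe_mapAlgEquiv, map_X]

theorem main (hk : Setg p m q t k) {W : Type} [CommRing W] [Algebra k W] (h : W) (N : ℕ) :
    ∀ b : Fin N → k, (∀ i, b i ^ q = b i) →
    (Even (Nat.card {i // b i ≠ 0}) →
      Rl q k W h (Nat.card {i // b i ≠ 0}) (MvPolynomial (Fin N) W) (fm q h N b)) ∧
    (¬ Even (Nat.card {i // b i ≠ 0}) → ∃ (r : ℕ) (A : Type) (_ : CommRing A) (_ : Algebra k A)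
      (a : A) (c : k) (e : MvPolynomial (Fin N) W ≃ₐ[k] A[X]),
      Nat.card {i // b i ≠ 0} = r + 1 ∧ c ≠ 0 ∧ c ^ q = c ∧ Rl q k W h r A a ∧
        e (fm q h N b) = C a + C (algebraMap k A c) * X ^ (q + 1)) := by
  induction N with
  | zero =>
    intro b hb
    have h0 : Nat.card {i // b i ≠ 0} = 0 := by
      rw [Nat.card_eq_zero]
      left
      exact ⟨fun i => i.1.elim0⟩
    refine ⟨fun _ => ?_, fun h1 => absurd (by rw [h0]; exact Even.zero) h1⟩
    rw [h0]
    refine Rl.iso 0 W _ ((MvPolynomial.isEmptyAlgEquiv W (Fin 0)).restrictScalars k).symm h _ ?_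
      Rl.refl
    change (MvPolynomial.isEmptyAlgEquiv W (Fin 0)).symm h = _
    rw [MvPolynomial.isEmptyAlgEquiv_symm_apply]
    simp [fm]
  | succ N ih =>
    intro b hb
    obtain ⟨ihe, iho⟩ := ih (fun i => b i.succ) fun i => hb i.succ
    obtain ⟨n0, n1⟩ := nz_succ N b
    have hfm := e1_fm q h N b
    by_cases hb0 : b 0 = 0
    · rw [n0 hb0]
      rw [hb0, map_zero, map_zero, zero_mul, add_zero] at hfm
      constructor
      · intro he
        refine Rl.iso _ _ _ (e1 k W N).symm _ _ ?_ (Rl.poly _ _ _ (ihe he))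
        rw [← hfm, AlgEquiv.symm_apply_apply]
      · intro ho
        obtain ⟨r, A, _, _, a, c, e, hr, hc, hcq, hR, hef⟩ := iho ho
        refine ⟨r, A[X], inferInstance, inferInstance, C a, c,
          (e1 k W N).trans ((mapAlgEquiv e).trans (Bivariate.swap.restrictScalars k)), hr, hc,
          hcq, Rl.poly _ _ _ hR, ?_⟩
        rw [AlgEquiv.trans_apply, AlgEquiv.trans_apply, hfm]
        rw [map_C', hef]
        change Bivariate.swap (C (C a + C (algebraMap k A c) * X ^ (q + 1))) = _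
        rw [Bivariate.swap_C, Polynomial.map_add, Polynomial.map_mul, Polynomial.map_pow, map_C,
          map_C, map_X]
        rfl
    · rw [n1 hb0]
      constructor
      · intro he
        have ho : ¬ Even (Nat.card {i : Fin N // b i.succ ≠ 0}) := by
          rwa [Nat.even_add_one] at he
        obtain ⟨r, A, _, _, a, c, e, hr, hc, hcq, hR, hef⟩ := iho ho
        obtain ⟨l, hl⟩ := lin hk a c (b 0) hcq (hb 0) hc hb0
        rw [hr]
        refine Rl.iso _ _ _ (l.trans ((mapAlgEquiv e).symm.trans (e1 k W N).symm)) _ _ ?_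
          (Rl.hyp _ _ _ hR)
        rw [AlgEquiv.trans_apply, AlgEquiv.trans_apply, hl, AlgEquiv.symm_apply_eq, hfm,
          AlgEquiv.symm_apply_eq, map_add (mapAlgEquiv e), map_mul (mapAlgEquiv e),
          map_pow (mapAlgEquiv e), map_C', map_C', hef, map_X', e.commutes]
      · intro ho
        have he : Even (Nat.card {i : Fin N // b i.succ ≠ 0}) := by
          rwa [Nat.even_add_one, not_not] at ho
        exact ⟨_, _, inferInstance, inferInstance, _, b 0, e1 k W N, rfl, hb0, hb 0, ihe he, hfm⟩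

end DG

theorem thm_DG : St_DG := by
  intro p m q t k _ hk W _ _ h N b hb he
  exact (DG.main hk h N b hb).1 he

end Pool.Agent.KTX
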