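import Pool.Agent.KTX.St

/-!
# KTX, module F: the theorem on Fermat hypersurfaces
-/

set_option autoImplicit false

namespace Pool.Agent.KTX

open CategoryTheory AlgebraicGeometry Pool.Agent.HPow

universe u

attribute [local instance] MvPolynomial.gradedAlgebra

namespace FF

theorem noeth0 (k : Type) [Field k] (n : ℕ) :
    IsNoetherianRing (MvPolynomial.homogeneousSubmodule (Fin n) k 0) := by
  refine isNoetherianRing_of_surjective k _
    (algebraMap k (MvPolynomial.homogeneousSubmodule (Fin n) k 0)) ?_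
  rintro ⟨f, hf⟩
  rw [MvPolynomial.mem_homogeneousSubmodule] at hf
  refine ⟨f.coeff 0, Subtype.ext ?_⟩
  show algebraMap k (MvPolynomial (Fin n) k) (f.coeff 0) = f
  exact (MvPolynomial.totalDegree_eq_zero_iff_eq_C.1
    ((MvPolynomial.totalDegree_zero_iff_isHomogeneous _).2 hf)).symm

theorem ft (k : Type) [Field k] (n : ℕ) :
    Algebra.FiniteType (MvPolynomial.homogeneousSubmodule (Fin n) k 0)
      (MvPolynomial (Fin n) k) := by
  have h : IsScalarTower k (MvPolynomial.homogeneousSubmodule (Fin n) k 0)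
      (MvPolynomial (Fin n) k) :=
    IsScalarTower.of_algebraMap_eq (R := k)
      (S := MvPolynomial.homogeneousSubmodule (Fin n) k 0) (A := MvPolynomial (Fin n) k)
      fun _ => rfl
  exact Algebra.FiniteType.of_restrictScalars_finiteType k _ _

theorem noeth (k : Type) [Field k] (n : ℕ) : IsNoetherian (Pool.Agent.KSS.PP k n) := by
  have h1 := ft k n
  have h2 := noeth0 k n
  have h3 : IsLocallyNoetherian (Pool.Agent.KSS.PP k n) :=
    LocallyOfFiniteType.isLocallyNoetherian
      (Proj.toSpecZero (MvPolynomial.homogeneousSubmodule (Fin n) k))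
  have h4 : CompactSpace (Pool.Agent.KSS.PP k n) :=
    QuasiCompact.compactSpace_of_compactSpace
      (Proj.toSpecZero (MvPolynomial.homogeneousSubmodule (Fin n) k))
  exact { }

theorem noethX (k : Type) [Field k] (n : ℕ) (X : Scheme.{0}) (i : X ⟶ Pool.Agent.KSS.PP k n)
    [IsClosedImmersion i] : IsNoetherian X := by
  have h1 := noeth k n
  have h3 : IsLocallyNoetherian X := LocallyOfFiniteType.isLocallyNoetherian i
  have h4 : CompactSpace X := QuasiCompact.compactSpace_of_compactSpace i
  exact { }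

end FF

/-- the module -/
theorem thm_F (hR0 : St_R0.{u}) (hO3 : St_O3.{u}) (hO4 : St_O4) (hRO : St_RO.{u})
    (hG6 : St_G6.{u}) : St_F.{u} := by
  intro L p m q t k _ hk hp l X i _ hi n
  have h1 := hO4 p m q t k hk l X i hi
  have h2 : ∀ (c : ℕ) (V : Type) [CommRing V] [Algebra k V], FP q k c V →
      L.HasB k (Sm (algebraMap k V)) c := by
    intro c V _ _ hV
    refine hRO L k V c (hG6 L.toR (hR0 L) p m q t k hk ?_ c V hV)
    intro n A _
    exact hp n (Sp A)
  have hN : IsNoetherian X := FF.noethX k _ X i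
  have h3 := hO3 L k (FP q k) X _ _ _ h2 h1 X (𝟙 X) (by
    rw [Set.range_eq_univ]
    exact fun x => ⟨x, rfl⟩)
  rw [Category.id_comp] at h3
  obtain ⟨ω, -, hω⟩ := h3
  exact ⟨(AddEquiv.ofBijective (AddMonoidHom.mk' (fun t : Fin _ → (L.th n).T (Sp k) =>
    ∑ a, ω a n (t a)) (by
      intro t t'
      simp only [Pi.add_apply, map_add, Finset.sum_add_distrib])) (hω n)).symm⟩

end Pool.Agent.KTX
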