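import Pool.Agent.KTX.StG

/-!
# KTX, module G1: Galois theory of `A[y] / (y ^ q + y - h)`
-/

set_option autoImplicit false
set_option linter.unusedSectionVars false
set_option linter.style.haveILetI false

namespace Pool.Agent.KTX

open CategoryTheory AlgebraicGeometry Polynomial Function Pool.Agent.HPow

universe u

namespace G1

variable {p m q t : ℕ} {k : Type} [Field k]

/-- a surjective homomorphism between free modules of the same rank is bijective -/
theorem bij_of_surj {U M ι : Type} [CommRing U] [AddCommGroup M] [Module U M] [Fintype ι] {d : ℕ}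
    (b : Module.Basis (Fin d) U M) (hd : Fintype.card ι = d) (f : M →ₗ[U] (ι → U))
    (hf : Surjective f) : Bijective f := by
  refine ⟨?_, hf⟩
  let e : ι ≃ Fin d := (Fintype.equivFinOfCardEq hd)
  let g : (ι → U) ≃ₗ[U] M := (LinearEquiv.funCongrLeft U U e.symm).trans b.equivFun.symm
  have h1 : Surjective (f.comp (g : (ι → U) →ₗ[U] M)) := hf.comp g.surjective
  have h2 : Injective (f.comp (g : (ι → U) →ₗ[U] M)) :=
    OrzechProperty.injective_of_surjective_endomorphism _ h1
  intro x y hxy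
  have h3 : g.symm x = g.symm y := h2 (by
    show f (g (g.symm x)) = f (g (g.symm y))
    rw [g.apply_symm_apply, g.apply_symm_apply, hxy])
  exact g.symm.injective h3

/-- the factors of a finite product are flat -/
theorem flat_of_pi {I C : Type} [Fintype I] [CommRing C] {D : I → Type} [∀ i, CommRing (D i)]
    (π : ∀ i, C →+* D i) (h : Bijective fun (c : C) (i : I) => π i c) (i : I) : (π i).Flat := by
  have e1 : (RingHom.pi π).Flat := RingHom.Flat.of_bijective h
  have e2 : (Pi.evalRingHom D i).Flat := by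
    haveI h3 : IsOpenImmersion (Spec.map (CommRingCat.ofHom (Pi.evalRingHom D i))) :=
      inferInstance
    haveI h4 : Flat (Spec.map (CommRingCat.ofHom (Pi.evalRingHom D i))) := inferInstance
    rw [Flat.SpecMap_iff] at h4
    exact h4
  exact RingHom.Flat.comp e1 e2

/-- the evaluation at the root `y + b` -/
noncomputable def ev {U : Type} [CommRing U] [Algebra k U] (hk : Setg p m q t k) (g y : U)
    (hy : y ^ q + y = g) (b : {b : k // b ^ q + b = 0}) : AS1 q U g →+* U :=
  asL g (RingHom.id U) (y + algebraMap k U b.1) (by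
    rw [hk.add_pow, ← map_pow, add_add_add_comm, hy, ← map_add, b.2, map_zero, add_zero]
    rfl)

theorem tr_pow (hk : Setg p m q t k) (b b' : {b : k // b ^ q + b = 0}) (h : b ≠ b') :
    (b'.1 - b.1) ^ (q - 1) = -1 := by
  have hq := hk.q_two_le
  have h1 : b'.1 - b.1 ≠ 0 := fun h2 => h (Subtype.ext (sub_eq_zero.1 h2).symm)
  have h2 : (b'.1 - b.1) ^ (q - 1) * (b'.1 - b.1) = -1 * (b'.1 - b.1) := by
    rw [← pow_succ, Nat.sub_add_cancel (by omega), hk.sub_pow (B := k) b'.1 b.1]
    have h3 := b.2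
    have h4 := b'.2
    linear_combination h4 - h3
  exact mul_right_cancel₀ h1 h2

theorem card_eq (hk : Setg p m q t k) [Fintype {b : k // b ^ q + b = 0}] :
    Fintype.card {b : k // b ^ q + b = 0} = q := by
  rw [← Nat.card_eq_fintype_card, hk.card_tr]

/-- `U[Y] / (Y ^ q + Y - g)` is a product of `q` copies of `U` if `g = y ^ q + y` -/
theorem ev_bij (hk : Setg p m q t k) {U : Type} [CommRing U] [Algebra k U] (g y : U)
    (hy : y ^ q + y = g) :
    Bijective fun (c : AS1 q U g) (b : {b : k // b ^ q + b = 0}) => ev hk g y hy b c := by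
  classical
  haveI := hk.finite
  letI : Fintype {b : k // b ^ q + b = 0} := Fintype.ofFinite _
  have hq := hk.q_two_le
  rcases subsingleton_or_nontrivial U with hU | hU
  · haveI : Subsingleton (AS1 q U g) := (asO q g).codomain_trivial
    exact ⟨fun x y _ => Subsingleton.elim _ _, fun z => ⟨0, Subsingleton.elim _ _⟩⟩
  · obtain ⟨bs⟩ := asO_basis hk g
    let f : AS1 q U g →ₗ[U] ({b : k // b ^ q + b = 0} → U) :=
      { toFun := fun c b => ev hk g y hy b c
        map_add' := fun c d => by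
          funext b
          exact map_add _ _ _
        map_smul' := fun u c => by
          funext b
          show ev hk g y hy b (u • c) = u * ev hk g y hy b c
          rw [Algebra.smul_def, map_mul]
          congr 1
          exact asL_O _ _ _ _ _ }
    refine bij_of_surj bs (card_eq hk) f ?_
    intro z
    let e : {b : k // b ^ q + b = 0} → AS1 q U g := fun b =>
      1 + (asR q g - asO q g (y + algebraMap k U b.1)) ^ (q - 1)
    have he : ∀ b b', ev hk g y hy b' (e b) = if b = b' then 1 else 0 := by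
      intro b b'
      have h1 : ev hk g y hy b' (e b) = 1 + (algebraMap k U (b'.1 - b.1)) ^ (q - 1) := by
        show ev hk g y hy b' (1 + (asR q g - asO q g (y + algebraMap k U b.1)) ^ (q - 1)) = _
        rw [map_add, map_one, map_pow, map_sub]
        have h2 : ev hk g y hy b' (asR q g) = y + algebraMap k U b'.1 := asL_R _ _ _ _
        have h3 : ev hk g y hy b' (asO q g (y + algebraMap k U b.1)) =
            y + algebraMap k U b.1 := asL_O _ _ _ _ _
        rw [h2, h3, map_sub]
        congr 2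
        ring
      rw [h1]
      by_cases hb : b = b'
      · rw [if_pos hb, hb, sub_self, map_zero, zero_pow (by omega), add_zero]
      · rw [if_neg hb, ← map_pow, tr_pow hk b b' hb, map_neg, map_one, add_neg_cancel]
    refine ⟨∑ b, asO q g (z b) * e b, ?_⟩
    funext b'
    show ev hk g y hy b' (∑ b, asO q g (z b) * e b) = z b'
    rw [map_sum]
    have h4 : ∀ b, ev hk g y hy b' (asO q g (z b) * e b) = if b = b' then z b else 0 := by
      intro b
      rw [map_mul, he]
      have h3 : ev hk g y hy b' (asO q g (z b)) = z b := asL_O _ _ _ _ _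
      rw [h3, mul_ite, mul_one, mul_zero]
    rw [Finset.sum_congr rfl fun b _ => h4 b, Finset.sum_ite_eq' Finset.univ b' z,
      if_pos (Finset.mem_univ _)]

/-- equal homomorphisms -/
theorem pl_congr (R : RD.{u}) (n : ℤ) {A B : Type} [CommRing A] [CommRing B] {f g : A →+* B}
    (h : f = g) (x : R.T n A) : R.pl n f x = R.pl n g x := by rw [h]

theorem pu_congr (R : RD.{u}) (n : ℤ) {A B : Type} [CommRing A] [CommRing B] {f g : A →+* B}
    (h : f = g) (x : R.T n B) : R.pu n f x = R.pu n g x := by rw [h]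

theorem pu_pl {R : RD.{u}} (hR : R.Ax) (hk : Setg p m q t k) (n : ℤ) {A : Type} [CommRing A]
    [IsNoetherianRing A] (h : A) (x : R.T n A) :
    R.pu n (asO q h) (R.pl n (asO q h) x) = q • x := by
  rcases subsingleton_or_nontrivial A with hA | hA
  · rw [hR.zero n A x, map_zero, map_zero, smul_zero]
  · obtain ⟨bs⟩ := asO_basis hk h
    exact hR.free n A (AS1 q A h) q bs x

theorem pl_pu {R : RD.{u}} (hR : R.Ax) (hk : Setg p m q t k) (n : ℤ) {A : Type} [CommRing A]
    [IsNoetherianRing A] [Algebra k A] (h : A) [Fintype {b : k // b ^ q + b = 0}]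
    (x : R.T n (AS1 q A h)) : R.pl n (asO q h) (R.pu n (asO q h) x) =
      ∑ b, R.pl n ((trE hk h b : AS1 q A h ≃+* AS1 q A h) : AS1 q A h →+* AS1 q A h) x := by
  haveI hN : IsNoetherianRing (AS1 q A h) := as_noeth h
  let g : AS1 q A h := asO q h h
  haveI hN' : IsNoetherianRing (AS1 q (AS1 q A h) g) := as_noeth g
  have hy : asR q h ^ q + asR q h = g := asR_eq q h
  have hfl := asO_flat hk h
  have hpo := asH_pushout hk (asO q h) h g 0 (asC_zero _ _) (by
    rw [zero_pow (by have := hk.q_two_le; omega), add_zero, add_zero])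
  have hbj := ev_bij hk g (asR q h) hy
  have hevf := flat_of_pi _ hbj
  rw [hR.bc n _ _ _ _ (asO_finite hk h) hfl hpo x,
    (hR.prod n _ hbj).1 (R.pl n (asM q (asO q h) h) x), map_sum]
  refine Finset.sum_congr rfl fun b _ => ?_
  have hMf : (asM q (asO q h) h).Flat := flat_of_pushout hpo hfl
  have hfi : (ev hk g (asR q h) hy b).Finite := finite_of_surj _ fun z => by
    obtain ⟨c, hc⟩ := hbj.2 (fun _ => z)
    exact ⟨c, congrFun hc b⟩
  rw [← hR.pu_comp n _ _ (asO_finite hk g) hfi, ← hR.pl_comp n _ _ hMf (hevf b)]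
  have e1 : (ev hk g (asR q h) hy b).comp (asO q g) = RingHom.id _ := asL_comp _ _ _ _
  have e2 : (ev hk g (asR q h) hy b).comp (asM q (asO q h) h) =
      ((trE hk h b : AS1 q A h ≃+* AS1 q A h) : AS1 q A h →+* AS1 q A h) := by
    refine as_ext ?_ ?_
    · rw [RingHom.comp_assoc, asH_comp, ← RingHom.comp_assoc, e1]
      refine RingHom.ext fun a => ?_
      exact (trn_O hk h b a).symm
    · show ev hk g (asR q h) hy b (asM q (asO q h) h (asR q h)) = trn hk h b (asR q h)
      rw [asH_R, map_zero, add_zero, trn_R]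
      exact asL_R _ _ _ _
  rw [pu_congr R n e1, pl_congr R n e2, hR.pu_id]

/-- `q` is invertible -/
theorem q_div {R : RD.{u}} (hk : Setg p m q t k) (hp : R.PInv p) (n : ℤ) {A : Type} [CommRing A]
    (y : R.T n A) : ∃ a : R.T n A, q • a = y := by
  have h1 : ∀ (e : ℕ) (y : R.T n A), ∃ a : R.T n A, p ^ e • a = y := by
    intro e
    induction e with
    | zero => exact fun y => ⟨y, by rw [pow_zero, one_smul]⟩
    | succ e ih =>
      intro y
      obtain ⟨a, ha⟩ := ih y
      obtain ⟨b, hb⟩ := (hp n A).2 a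
      exact ⟨b, by rw [pow_succ, mul_smul, show p • b = a from hb, ha]⟩
  obtain ⟨a, ha⟩ := h1 m y
  refine ⟨a, ?_⟩
  have hq := hk.hq
  rw [← hq] at ha
  exact ha

theorem q_inj {R : RD.{u}} (hk : Setg p m q t k) (hp : R.PInv p) (n : ℤ) {A : Type} [CommRing A]
    (y : R.T n A) (hy : q • y = 0) : y = 0 := by
  have h1 : ∀ (e : ℕ) (y : R.T n A), p ^ e • y = 0 → y = 0 := by
    intro e
    induction e with
    | zero => exact fun y hy => by rwa [pow_zero, one_smul] at hy
    | succ e ih =>
      intro y hy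
      rw [pow_succ', mul_smul] at hy
      refine ih y ((hp n A).1 ?_)
      show p • (p ^ e • y) = p • 0
      rw [hy, smul_zero]
  refine h1 m y ?_
  have hq := hk.hq
  rw [← hq]
  exact hy

/-- `asH` of a finite homomorphism is finite -/
theorem asH_finite (hk : Setg p m q t k) {A A' : Type} [CommRing A] [CommRing A'] (φ : A →+* A')
    (hφ : φ.Finite) (h : A) (h' c : A') (e : AsC q φ h h' c) : (asH φ h h' c e).Finite := by
  have h1 : ((asH φ h h' c e).comp (asO q h)).Finite := by
    rw [asH_comp]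
    exact RingHom.Finite.comp (asO_finite hk h') hφ
  exact RingHom.Finite.of_comp_finite h1

theorem asH_flat (hk : Setg p m q t k) {A A' : Type} [CommRing A] [CommRing A'] [Algebra k A']
    (φ : A →+* A') (hφ : φ.Flat) (h : A) (h' c : A') (e : AsC q φ h h' c)
    (e0 : φ h = h' + (c ^ q + c)) : (asH φ h h' c e).Flat :=
  flat_of_pushout (asH_pushout hk φ h h' c e e0) hφ

/-- the push-forward to the base and pull-backs -/
theorem pu_O_pl {R : RD.{u}} (hR : R.Ax) (hk : Setg p m q t k) (n : ℤ) {A A' : Type}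
    [CommRing A] [CommRing A'] [IsNoetherianRing A] [IsNoetherianRing A'] [Algebra k A']
    (φ : A →+* A') (hφ : φ.Flat) (h : A) (h' c : A') (e : AsC q φ h h' c)
    (e0 : φ h = h' + (c ^ q + c)) (x : R.T n (AS1 q A h)) :
    R.pu n (asO q h') (R.pl n (asH φ h h' c e) x) = R.pl n φ (R.pu n (asO q h) x) :=
  (hR.bc n _ _ _ _ (asO_finite hk h) hφ (asH_pushout hk φ h h' c e e0) x).symm

/-- the push-forward to the base and push-forwards -/
theorem pu_O_pu {R : RD.{u}} (hR : R.Ax) (hk : Setg p m q t k) (n : ℤ) {A A' : Type}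
    [CommRing A] [CommRing A'] [IsNoetherianRing A]
    (φ : A →+* A') (hφ : φ.Finite) (h : A) (h' c : A') (e : AsC q φ h h' c)
    (z : R.T n (AS1 q A' h')) :
    R.pu n (asO q h) (R.pu n (asH φ h h' c e) z) = R.pu n φ (R.pu n (asO q h') z) := by
  rw [← hR.pu_comp n _ _ (asO_finite hk h) (asH_finite hk φ hφ h h' c e),
    ← hR.pu_comp n _ _ hφ (asO_finite hk h'), pu_congr R n (asH_comp φ h h' c e)]

theorem P_pl {R : RD.{u}} (hR : R.Ax) (hk : Setg p m q t k) (n : ℤ) {A A' : Type}
    [CommRing A] [CommRing A'] [IsNoetherianRing A] [IsNoetherianRing A'] [Algebra k A']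
    (φ : A →+* A') (hφ : φ.Flat) (h : A) (h' c : A') (e : AsC q φ h h' c)
    (e0 : φ h = h' + (c ^ q + c)) (x : R.T n (AS1 q A h)) (hx : x ∈ R.P n q h) :
    R.pl n (asH φ h h' c e) x ∈ R.P n q h' := by
  have h1 : R.pu n (asO q h) x = 0 := hx
  show R.pu n (asO q h') (R.pl n (asH φ h h' c e) x) = 0
  rw [pu_O_pl hR hk n φ hφ h h' c e e0, h1, map_zero]

theorem P_pu {R : RD.{u}} (hR : R.Ax) (hk : Setg p m q t k) (n : ℤ) {A A' : Type}
    [CommRing A] [CommRing A'] [IsNoetherianRing A]
    (φ : A →+* A') (hφ : φ.Finite) (h : A) (h' c : A') (e : AsC q φ h h' c)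
    (z : R.T n (AS1 q A' h')) (hz : z ∈ R.P n q h') : R.pu n (asH φ h h' c e) z ∈ R.P n q h := by
  have h1 : R.pu n (asO q h') z = 0 := hz
  show R.pu n (asO q h) (R.pu n (asH φ h h' c e) z) = 0
  rw [pu_O_pu hR hk n φ hφ h h' c e, h1, map_zero]

/-- pull-backs along isomorphisms -/
theorem pl_symm {R : RD.{u}} (hR : R.Ax) (n : ℤ) {A B : Type} [CommRing A] [CommRing B]
    [IsNoetherianRing A] [IsNoetherianRing B] (e : A ≃+* B) (x : R.T n B) :
    R.pl n (e : A →+* B) (R.pl n (e.symm : B →+* A) x) = x := by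
  rw [← hR.pl_comp n _ _ (flat_of_equiv e.symm) (flat_of_equiv e)]
  have h1 : (e : A →+* B).comp (e.symm : B →+* A) = RingHom.id B := by
    ext b
    exact e.apply_symm_apply b
  rw [pl_congr R n h1, hR.pl_id]

theorem pl_bij {R : RD.{u}} (hR : R.Ax) (n : ℤ) {A B : Type} [CommRing A] [CommRing B]
    [IsNoetherianRing A] [IsNoetherianRing B] (e : A ≃+* B) :
    Bijective (R.pl n (e : A →+* B)) := by
  refine ⟨fun x y hxy => ?_, fun x => ⟨R.pl n (e.symm : B →+* A) x, pl_symm hR n e x⟩⟩
  have h1 := pl_symm hR n e.symm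
  rw [e.symm_symm] at h1
  rw [← h1 x, ← h1 y, hxy]

/-- `pl` for the polynomial ring -/
theorem plC_bij {R : RD.{u}} (hR : R.Ax) (n : ℤ) {A : Type} [CommRing A]
    [IsNoetherianRing A] (h : A) :
    Bijective (R.pl n (asE q (C : A →+* A[X]) h (C h) rfl)) := by
  haveI hN : IsNoetherianRing (AS1 q A h) := as_noeth h
  haveI hN' : IsNoetherianRing (AS1 q A[X] (C h)) := as_noeth _
  have h1 : ∀ x, R.pl n (asE q (C : A →+* A[X]) h (C h) rfl) x =
      R.pl n ((plE q h : (AS1 q A h)[X] ≃+* AS1 q A[X] (C h)) :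
        (AS1 q A h)[X] →+* AS1 q A[X] (C h)) (R.pl n (C : AS1 q A h →+* (AS1 q A h)[X]) x) := by
    intro x
    rw [← hR.pl_comp n _ _ (poly_flat _) (flat_of_equiv _)]
    exact pl_congr R n (plE_C h).symm x
  have h2 := (pl_bij hR n (plE q h : (AS1 q A h)[X] ≃+* AS1 q A[X] (C h))).comp
    (hR.hom n (AS1 q A h))
  have h3 : (fun x => R.pl n (asE q (C : A →+* A[X]) h (C h) rfl) x) = (R.pl n ((plE q h :
      (AS1 q A h)[X] ≃+* AS1 q A[X] (C h)) : (AS1 q A h)[X] →+* AS1 q A[X] (C h))) ∘
        (R.pl n (C : AS1 q A h →+* (AS1 q A h)[X])) := funext h1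
  show Bijective (fun x => R.pl n (asE q (C : A →+* A[X]) h (C h) rfl) x)
  rw [h3]
  exact h2

end G1

/-- the module -/
theorem thm_G1 : St_G1.{u} := by
  intro R hR p m q t k _ hk n A _ _ _ h
  refine ⟨G1.pu_pl hR hk n h, fun x => G1.pl_pu hR hk n h x, fun hp x => ?_,
    fun hp a z hz h0 => ?_⟩
  · obtain ⟨a, ha⟩ := G1.q_div hk hp n (R.pu n (asO q h) x)
    refine ⟨a, x - R.pl n (asO q h) a, ?_, by abel⟩
    show R.pu n (asO q h) (x - R.pl n (asO q h) a) = 0
    rw [map_sub, G1.pu_pl hR hk, ha, sub_self]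
  · have h1 : R.pu n (asO q h) (R.pl n (asO q h) a + z) = 0 := by rw [h0, map_zero]
    have hz' : R.pu n (asO q h) z = 0 := hz
    rw [map_add, G1.pu_pl hR hk, hz', add_zero] at h1
    have ha := G1.q_inj hk hp n a h1
    refine ⟨ha, ?_⟩
    rw [ha, map_zero, zero_add] at h0
    exact h0

/-- the module GP -/
theorem thm_GP : St_GP.{u} := by
  intro R hR p m q t k _ hk n A _ _ _ h
  have hbj := G1.plC_bij (q := q) hR n h
  have hq0 : q ≠ 0 := by
    have := hk.q_two_le
    omega
  have e0 : (C h : A[X]) = C h + ((0 : A[X]) ^ q + 0) := by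
    rw [zero_pow hq0, add_zero, add_zero]
  refine ⟨fun x hx => G1.P_pl hR hk n _ (poly_flat A) _ _ _ _ e0 x hx, fun x _ h0 => ?_,
    fun y hy => ?_⟩
  · refine hbj.1 ?_
    rw [h0, map_zero]
  · obtain ⟨x, hx⟩ := hbj.2 y
    refine ⟨x, ?_, hx⟩
    show R.pu n (asO q h) x = 0
    refine (hR.hom n A).1 ?_
    have h1 := G1.pu_O_pl hR hk n (C : A →+* A[X]) (poly_flat A) h (C h) 0
      (asC_zero' q _ _ _ rfl) e0 x
    rw [← h1, map_zero, hx]
    exact hy

end Pool.Agent.KTX
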