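import Pool.Agent.KTX.G1

/-!
# KTX, module G2: dimensional reduction
-/

set_option autoImplicit false
set_option linter.unusedSectionVars false
set_option linter.style.haveILetI false

namespace Pool.Agent.KTX

open CategoryTheory AlgebraicGeometry Polynomial Function Pool.Agent.HPow

universe u

namespace G2

variable {p m q t : ℕ} {k : Type} [Field k]

theorem isLoc_flat {A V : Type} [CommRing A] [CommRing V] {s : A} {l : A →+* V}
    (h : IsLoc s l) : l.Flat := by
  letI := l.toAlgebra
  haveI : IsLocalization.Away s V := h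
  have h1 : Module.Flat A V := IsLocalization.flat V (Submonoid.powers s)
  exact h1

theorem asE_ker {A A' : Type} [CommRing A] [CommRing A'] (φ : A →+* A') (h : A) (h' : A')
    (e : φ h = h') (hφ : Surjective φ) (s : A) (hs : RingHom.ker φ = Ideal.span {s}) :
    RingHom.ker (asE q φ h h' e) = Ideal.span {asO q h s} := by
  subst e
  exact asM_ker φ h hφ s hs

/-- the translations of a polynomial ring act trivially -/
theorem ptE_triv {R : RD.{u}} (hR : R.Ax) (n : ℤ) {V : Type} [CommRing V] [IsNoetherianRing V]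
    (c : V) (u : R.T n V[X]) : R.pl n ((ptE c : V[X] ≃+* V[X]) : V[X] →+* V[X]) u = u := by
  obtain ⟨v, rfl⟩ := (hR.hom n V).2 u
  rw [← hR.pl_comp n _ _ (poly_flat V) (flat_of_equiv _)]
  exact G1.pl_congr R n (ptr_C c) v

/-- the translations and `asE` -/
theorem trE_asE (hk : Setg p m q t k) {A A' : Type} [CommRing A] [CommRing A'] [Algebra k A]
    [Algebra k A'] (φ : A →+* A') (hφ : ∀ b : k, φ (algebraMap k A b) = algebraMap k A' b)
    (h : A) (h' : A') (e : φ h = h') (b : {b : k // b ^ q + b = 0}) (a : AS1 q A h) :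
    trE hk h' b (asE q φ h h' e a) = asE q φ h h' e (trE hk h b a) := by
  have h1 : (trn hk h' b).comp (asE q φ h h' e) = (asE q φ h h' e).comp (trn hk h b) := by
    refine as_ext ?_ ?_
    · refine RingHom.ext fun x => ?_
      show trn hk h' b (asE q φ h h' e (asO q h x)) = asE q φ h h' e (trn hk h b (asO q h x))
      rw [asH_O, trn_O, trn_O, asH_O]
    · show trn hk h' b (asE q φ h h' e (asR q h)) = asE q φ h h' e (trn hk h b (asR q h))
      rw [asH_R, map_zero, add_zero, trn_R, trn_R, map_add, asH_R, map_zero, add_zero, asH_O, hφ]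
  exact DFunLike.congr_fun h1 a

/-- the restriction of a translate to the locus where `g` is invertible -/
theorem elm_triv {R : RD.{u}} (hR : R.Ax) (hk : Setg p m q t k) (n : ℤ) {W V : Type} [CommRing W]
    [CommRing V] [IsNoetherianRing W] [IsNoetherianRing V] [Algebra k W] (g h : W) (H : W[X])
    (hH : H = C g * X + C h) (ι : W →+* V) (gi : V) (hgi : ι g * gi = 1)
    (hfl : (elm (q := q) g h H hH ι gi hgi).Flat) (b : {b : k // b ^ q + b = 0})
    (x : R.T n (AS1 q W[X] H)) :
    R.pl n (elm (q := q) g h H hH ι gi hgi)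
      (R.pl n ((trE hk H b : AS1 q W[X] H ≃+* _) : AS1 q W[X] H →+* AS1 q W[X] H) x) =
      R.pl n (elm (q := q) g h H hH ι gi hgi) x := by
  haveI hN : IsNoetherianRing (AS1 q W[X] H) := as_noeth H
  rw [← hR.pl_comp n _ _ (flat_of_equiv _) hfl]
  have h1 : (elm (q := q) g h H hH ι gi hgi).comp
      ((trE hk H b : AS1 q W[X] H ≃+* _) : AS1 q W[X] H →+* AS1 q W[X] H) =
      ((ptE (ι (algebraMap k W b.1)) : V[X] ≃+* V[X]) : V[X] →+* V[X]).comp
        (elm (q := q) g h H hH ι gi hgi) := elm_trn hk g h H hH ι gi hgi b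
  rw [G1.pl_congr R n h1, hR.pl_comp n _ _ hfl (flat_of_equiv _), ptE_triv hR]

theorem main {R : RD.{u}} (hR : R.Ax) (hk : Setg p m q t k) (hp : R.PInv p) (n : ℤ)
    (W D : Type) [CommRing W] [CommRing D] [IsNoetherianRing W] [Algebra k W] [Algebra k D]
    (φ : W →+* D) (hφ : Surjective φ) (hφk : ∀ b : k, φ (algebraMap k W b) = algebraMap k D b)
    (g h : W) (hg : RingHom.ker φ = Ideal.span {g}) (H : W[X]) (hH : H = C g * X + C h)
    (e : mapRingHom φ H = C (φ h)) :
    BijP (R.pu n (asE q (mapRingHom φ) H (C (φ h)) e))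
      (R.P n q (C (φ h) : D[X])) (R.P n q H) := by
  haveI := hk.finite
  letI : Fintype {b : k // b ^ q + b = 0} := Fintype.ofFinite _
  haveI hND : IsNoetherianRing D := isNoetherianRing_of_surjective _ _ φ hφ
  haveI hN1 : IsNoetherianRing (AS1 q W[X] H) := as_noeth H
  haveI hN2 : IsNoetherianRing (AS1 q D[X] (C (φ h))) := as_noeth _
  have hφ' : Surjective (mapRingHom φ) := map_surjective _ hφ
  have hk' : RingHom.ker (mapRingHom φ) = Ideal.span {(C g : W[X])} := by
    rw [Polynomial.ker_mapRingHom, hg, Ideal.map_span, Set.image_singleton]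
  let π := asE q (mapRingHom φ) H (C (φ h)) e
  have hπ : Surjective π := asH_surj _ _ _ _ _ hφ'
  have hπk : RingHom.ker π = Ideal.span {asO q H (C g)} := asE_ker _ _ _ _ hφ' _ hk'
  let V := Localization.Away g
  haveI hNV : IsNoetherianRing V :=
    IsLocalization.isNoetherianRing (Submonoid.powers g) V inferInstance
  let ι : W →+* V := algebraMap W V
  have hgi : ι g * IsLocalization.Away.invSelf g = 1 := IsLocalization.Away.mul_invSelf g
  let l := elm (q := q) g h H hH ι (IsLocalization.Away.invSelf g) hgi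
  have hloc : IsLoc (asO q H (C g)) l := elm_loc g h H hH ι _ hgi (isLoc_algebraMap g)
  have hfl : l.Flat := isLoc_flat hloc
  have hcard : Fintype.card {b : k // b ^ q + b = 0} = q := G1.card_eq hk
  refine ⟨fun x hx => G1.P_pu hR hk n _ (finite_of_surj _ hφ') _ _ _ _ x hx, fun z hz h0 => ?_,
    fun y hy => ?_⟩
  · obtain ⟨u, hu⟩ := hR.exZ n (asO q H (C g)) π l hπ hπk hloc z h0
    have h1 : ∀ b, R.pl n ((trE hk (C (φ h) : D[X]) b : _ ≃+* _) :
        AS1 q D[X] (C (φ h)) →+* AS1 q D[X] (C (φ h))) z = z := by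
      intro b
      have h2 := hR.nat n (asO q H (C g)) π l hπ hπk hloc (trE hk H b)
        (trE hk (C (φ h) : D[X]) b) (ptE (ι (algebraMap k W b.1)))
        (fun a => trE_asE hk (mapRingHom φ) (fun b => by
          show mapRingHom φ (C (algebraMap k W b)) = C (algebraMap k D b)
          rw [coe_mapRingHom, map_C, hφk]) H _ e b a)
        (fun a => (DFunLike.congr_fun (elm_trn hk g h H hH ι _ hgi b) a).symm) u
      rw [ptE_triv hR, hu] at h2
      exact h2
    have h3 := G1.pl_pu hR hk n (C (φ h) : D[X]) z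
    have hz' : R.pu n (asO q (C (φ h) : D[X])) z = 0 := hz
    rw [hz', map_zero, Finset.sum_congr rfl fun b _ => h1 b, Finset.sum_const,
      Finset.card_univ, hcard] at h3
    exact G1.q_inj hk hp n z h3.symm
  · have h1 : R.pl n l y = 0 := by
      refine G1.q_inj hk hp n _ ?_
      have h3 := G1.pl_pu hR hk n H y
      have hy' : R.pu n (asO q H) y = 0 := hy
      rw [hy', map_zero] at h3
      have h4 := congrArg (R.pl n l) h3
      rw [map_zero, map_sum, Finset.sum_congr rfl fun b _ =>
        elm_triv hR hk n g h H hH ι _ hgi hfl b y, Finset.sum_const,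
        Finset.card_univ, hcard] at h4
      exact h4.symm
    obtain ⟨z, hz⟩ := hR.ex n (asO q H (C g)) π l hπ hπk hloc y h1
    obtain ⟨a, z', hz', rfl⟩ := (thm_G1 R hR p m q t k hk n D[X] (C (φ h))).2.2.1 hp z
    have h5 : R.pu n π (R.pl n (asO q (C (φ h) : D[X])) a) =
        R.pl n (asO q H) (R.pu n (mapRingHom φ) a) := by
      have hq0 : q ≠ 0 := by
        have := hk.q_two_le
        omega
      exact (hR.bc n _ _ _ _ (finite_of_surj _ hφ') (asO_flat hk H)
        (asH_pushout hk (mapRingHom φ) H (C (φ h)) 0 (asC_zero' q _ _ _ e) (by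
          rw [e, zero_pow hq0, add_zero, add_zero])).flip a).symm
    rw [map_add, h5] at hz
    have h6 := (thm_G1 R hR p m q t k hk n W[X] H).2.2.2 hp (R.pu n (mapRingHom φ) a)
      (R.pu n π z' - y) (AddSubgroup.sub_mem _
        (G1.P_pu hR hk n _ (finite_of_surj _ hφ') _ _ _ _ z' hz') hy) (by
          rw [← hz]
          abel)
    rw [h6.1, map_zero, zero_add] at hz
    exact ⟨z', hz', hz⟩

end G2

/-- the module -/
theorem thm_G2 : St_G2.{u} := by
  intro R hR p m q t k _ hk hp n W D _ _ _ _ _ φ hφ g h hg e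
  letI : Algebra k D := (φ.comp (algebraMap k W)).toAlgebra
  exact G2.main hR hk hp n W D φ hφ (fun _ => rfl) g h hg _ rfl e

end Pool.Agent.KTX
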