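import Pool.Agent.KTX.StG

/-!
# KTX RI: the isomorphism `P_n a = (P_n h) ^ (q ^ r)` for the relation `Rl`
-/

set_option autoImplicit false
set_option linter.unusedSectionVars false
set_option linter.style.haveILetI false

namespace Pool.Agent.KTX

open Polynomial Function Pool.Agent.HPow

universe u

namespace RI

theorem ofBij {X Y : Type*} [AddCommGroup X] [AddCommGroup Y] {f : X →+ Y} {P : AddSubgroup X}
    {Q : AddSubgroup Y} (h : BijP f P Q) : Nonempty (P ≃+ Q) := by
  let g : P →+ Q :=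
    { toFun := fun x => ⟨f x, h.1 x x.2⟩
      map_zero' := Subtype.ext (map_zero f)
      map_add' := fun x y => Subtype.ext (map_add f (x : X) (y : X)) }
  refine ⟨AddEquiv.ofBijective g ⟨(injective_iff_map_eq_zero g).2 fun x hx =>
    Subtype.ext (h.2.1 x x.2 (congrArg Subtype.val hx)), fun y => ?_⟩⟩
  obtain ⟨x, hx, e⟩ := h.2.2 y y.2
  exact ⟨⟨x, hx⟩, Subtype.ext e⟩

theorem noeth {q : ℕ} {k : Type} [Field k] {W : Type} [CommRing W] [IsNoetherianRing W]
    [Algebra k W] {h : W} {r : ℕ} {A : Type} [CommRing A] [Algebra k A] {a : A}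
    (hr : Rl q k W h r A a) : IsNoetherianRing A := by
  induction hr with
  | refl => infer_instance
  | iso r A A' e a a' ha hr ih => exact isNoetherianRing_of_ringEquiv A e.toRingEquiv
  | poly r A a hr ih => infer_instance
  | hyp r A a hr ih => infer_instance

theorem asE_asE (q : ℕ) {A A' : Type} [CommRing A] [CommRing A'] (e : A ≃+* A') (a : A) (a' : A')
    (ha : (e : A →+* A') a = a') (ha' : (e.symm : A' →+* A) a' = a) :
    (asE q (e.symm : A' →+* A) a' a ha').comp (asE q (e : A →+* A') a a' ha) = RingHom.id _ := by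
  refine as_ext ?_ ?_
  · rw [RingHom.comp_assoc, asH_comp, ← RingHom.comp_assoc, asH_comp, RingHom.comp_assoc]
    have h1 : (e.symm : A' →+* A).comp (e : A →+* A') = RingHom.id A :=
      RingHom.ext fun x => e.symm_apply_apply x
    rw [h1]
    rfl
  · rw [RingHom.comp_apply, asH_R, map_zero, add_zero, asH_R, map_zero, add_zero]
    rfl

variable {p m q t : ℕ} {k : Type} [Field k]

theorem map_P {R : RD.{u}} (hR : R.Ax) (hk : Setg p m q t k) (n : ℤ) {A A' : Type} [CommRing A]
    [CommRing A'] [IsNoetherianRing A] (e : A ≃+* A') (a : A) (a' : A')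
    (ha : (e : A →+* A') a = a') (hs : Surjective (asE q (e : A →+* A') a a' ha)) :
    ∀ x ∈ R.P n q a', R.pu n (asE q (e : A →+* A') a a' ha) x ∈ R.P n q a := by
  intro x hx
  have hx' : R.pu n (asO q a') x = 0 := hx
  have h1 := hR.pu_comp n (asO q a) (asE q (e : A →+* A') a a' ha) (asO_finite hk a)
    (finite_of_surj _ hs) x
  have h2 := hR.pu_comp n (e : A →+* A') (asO q a') (finite_of_surj _ e.surjective)
    (asO_finite hk a') x
  rw [asH_comp, h2, hx', map_zero] at h1
  exact h1.symm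

theorem iso {R : RD.{u}} (hR : R.Ax) (hk : Setg p m q t k) (n : ℤ) {A A' : Type} [CommRing A]
    [CommRing A'] [IsNoetherianRing A] (e : A ≃+* A') (a : A) (a' : A')
    (ha : (e : A →+* A') a = a') : Nonempty (R.P n q a' ≃+ R.P n q a) := by
  haveI : IsNoetherianRing A' := isNoetherianRing_of_ringEquiv A e
  haveI := as_noeth (q := q) a
  haveI := as_noeth (q := q) a'
  have ha' : (e.symm : A' →+* A) a' = a := by
    rw [← ha]
    exact e.symm_apply_apply a
  have c1 := asE_asE q e a a' ha ha'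
  have c2 := asE_asE q e.symm a' a ha' (by simpa using ha)
  have c2' : (asE q (e : A →+* A') a a' ha).comp (asE q (e.symm : A' →+* A) a' a ha') =
      RingHom.id _ := c2
  have s1 : Surjective (asE q (e : A →+* A') a a' ha) := fun y =>
    ⟨asE q (e.symm : A' →+* A) a' a ha' y, DFunLike.congr_fun c2' y⟩
  have s2 : Surjective (asE q (e.symm : A' →+* A) a' a ha') := fun y =>
    ⟨asE q (e : A →+* A') a a' ha y, DFunLike.congr_fun c1 y⟩
  refine ofBij (f := R.pu n (asE q (e : A →+* A') a a' ha)) ⟨map_P hR hk n e a a' ha s1, ?_, ?_⟩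
  · intro x _ h0
    have h1 := hR.pu_comp n (asE q (e.symm : A' →+* A) a' a ha') (asE q (e : A →+* A') a a' ha)
      (finite_of_surj _ s2) (finite_of_surj _ s1) x
    rw [c2', hR.pu_id, h0, map_zero] at h1
    exact h1
  · intro y hy
    refine ⟨R.pu n (asE q (e.symm : A' →+* A) a' a ha') y, map_P hR hk n e.symm a' a ha' s2 y hy, ?_⟩
    have h1 := hR.pu_comp n (asE q (e : A →+* A') a a' ha) (asE q (e.symm : A' →+* A) a' a ha')
      (finite_of_surj _ s1) (finite_of_surj _ s2) y
    rw [c1, hR.pu_id] at h1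
    exact h1.symm

theorem hyp (h4 : St_G4.{u}) {R : RD.{u}} (hR : R.Ax) (hk : Setg p m q t k) (hp : R.PInv p)
    (n : ℤ) {W : Type} [CommRing W] [IsNoetherianRing W] [Algebra k W] (h : W) :
    Nonempty (R.P n q (hyf q h) ≃+ ({a : k // a ^ (q ^ 2) = a} → R.P n q h)) := by
  haveI := hk.finite
  letI : Fintype {a : k // a ^ (q ^ 2) = a} := Fintype.ofFinite _
  obtain ⟨h1, h2, h3⟩ := h4 R hR p m q t k hk hp n W h
  let f : ({a : k // a ^ (q ^ 2) = a} → R.P n q h) →+ R.P n q (hyf q h) :=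
    { toFun := fun z => ⟨∑ a, R.pu n (hyi hk h a) (R.pl n (asE q (C : W →+* W[X]) h (C h) rfl)
        (z a : R.T n (AS1 q W h))), h1 (fun a => (z a : R.T n (AS1 q W h))) fun a => (z a).2⟩
      map_zero' := Subtype.ext (by simp)
      map_add' := fun z z' => Subtype.ext (by simp [Finset.sum_add_distrib]) }
  have hf : Bijective f := by
    constructor
    · refine (injective_iff_map_eq_zero f).2 fun z hz => ?_
      have h5 := h2 (fun a => (z a : R.T n (AS1 q W h))) (fun a => (z a).2)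
        (congrArg Subtype.val hz)
      funext a
      exact Subtype.ext (congrFun h5 a)
    · intro y
      obtain ⟨z, hz, e⟩ := h3 y y.2
      exact ⟨fun a => ⟨z a, hz a⟩, Subtype.ext e⟩
  exact ⟨(AddEquiv.ofBijective f hf).symm⟩

theorem count (hk : Setg p m q t k) (r : ℕ) (X : Type*) [AddCommGroup X] :
    Nonempty (({a : k // a ^ (q ^ 2) = a} → Fin (q ^ r) → X) ≃+ (Fin (q ^ (r + 2)) → X)) := by
  haveI := hk.finite
  letI : Fintype {a : k // a ^ (q ^ 2) = a} := Fintype.ofFinite _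
  have h1 : Nat.card ({a : k // a ^ (q ^ 2) = a} × Fin (q ^ r)) = q ^ (r + 2) := by
    rw [Nat.card_prod, hk.fq_card_sq, Nat.card_fin, pow_add, mul_comm]
  have e1 : {a : k // a ^ (q ^ 2) = a} × Fin (q ^ r) ≃ Fin (q ^ (r + 2)) :=
    (Finite.equivFin _).trans (finCongr h1)
  exact ⟨((LinearEquiv.curry ℤ X {a : k // a ^ (q ^ 2) = a} (Fin (q ^ r))).symm.trans
    (LinearEquiv.funCongrLeft ℤ X e1.symm)).toAddEquiv⟩

end RI

theorem thm_RI (hGP : St_GP.{u}) (hG4 : St_G4.{u}) : St_RI.{u} := by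
  intro R hR p m q t k _ hk hp n W _ _ _ h r A _ _ a hr
  induction hr with
  | refl =>
    exact ⟨((LinearEquiv.funUnique (Fin 1) ℤ (R.P n q h)).symm.trans
      (LinearEquiv.funCongrLeft ℤ (R.P n q h) (finCongr (pow_zero q)))).toAddEquiv⟩
  | iso r A A' e a a' ha hr ih =>
    obtain ⟨E⟩ := ih
    haveI := RI.noeth hr
    obtain ⟨F⟩ := RI.iso hR hk n e.toRingEquiv a a' ha
    exact ⟨F.trans E⟩
  | poly r A a hr ih =>
    obtain ⟨E⟩ := ih
    haveI := RI.noeth hr
    obtain ⟨F⟩ := RI.ofBij (hGP R hR p m q t k hk n A a)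
    exact ⟨F.symm.trans E⟩
  | hyp r A a hr ih =>
    obtain ⟨E⟩ := ih
    haveI := RI.noeth hr
    obtain ⟨F⟩ := RI.hyp hG4 hR hk hp n a
    obtain ⟨G⟩ := RI.count hk r (R.P n q h)
    exact ⟨(F.trans (AddEquiv.piCongrRight fun _ => E)).trans G⟩

end Pool.Agent.KTX
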