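import Pool.Agent.KTX.G1
import Pool.Agent.KTX.DG
import Pool.Agent.KTX.RI

/-!
# KTX, module G5: the theorem for rings
-/

set_option autoImplicit false
set_option linter.unusedSectionVars false
set_option linter.style.haveILetI false

namespace Pool.Agent.KTX

open Function Pool.Agent.HPow

universe u

namespace G5

variable {p m q t : ℕ} {k : Type} [Field k]

theorem mvC_flat (W : Type) [CommRing W] (N : ℕ) :
    (MvPolynomial.C : W →+* MvPolynomial (Fin N) W).Flat := by
  have h : (algebraMap W (MvPolynomial (Fin N) W)).Flat :=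
    RingHom.flat_algebraMap_iff.2 inferInstance
  exact h

/-- homotopy invariance in several variables -/
theorem mvC_bij {R : RD.{u}} (hR : R.Ax) (n : ℤ) (W : Type) [CommRing W] [IsNoetherianRing W]
    (N : ℕ) : Bijective (R.pl n (MvPolynomial.C : W →+* MvPolynomial (Fin N) W)) := by
  induction N with
  | zero =>
    have h1 := G1.pl_bij hR n (MvPolynomial.isEmptyAlgEquiv W (Fin 0)).symm.toRingEquiv
    have h2 : (((MvPolynomial.isEmptyAlgEquiv W (Fin 0)).symm.toRingEquiv :
        W ≃+* MvPolynomial (Fin 0) W) : W →+* MvPolynomial (Fin 0) W) = MvPolynomial.C :=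
      RingHom.ext fun w => (MvPolynomial.isEmptyAlgEquiv W (Fin 0)).symm.commutes w
    rw [h2] at h1
    exact h1
  | succ N ih =>
    let e := (MvPolynomial.finSuccEquiv W N).symm.toRingEquiv
    have h1 := G1.pl_bij hR n e
    have h2 := (h1.comp (hR.hom n (MvPolynomial (Fin N) W))).comp ih
    have h3 : ((e : Polynomial (MvPolynomial (Fin N) W) →+* MvPolynomial (Fin (N + 1)) W).comp
        (Polynomial.C : MvPolynomial (Fin N) W →+* _)).comp
          (MvPolynomial.C : W →+* MvPolynomial (Fin N) W) = MvPolynomial.C :=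
      RingHom.ext fun w => (MvPolynomial.finSuccEquiv W N).symm.commutes w
    have h4 : (fun x => R.pl n (MvPolynomial.C : W →+* MvPolynomial (Fin (N + 1)) W) x) =
        ((R.pl n (e : Polynomial (MvPolynomial (Fin N) W) →+* MvPolynomial (Fin (N + 1)) W)) ∘
          (R.pl n (Polynomial.C : MvPolynomial (Fin N) W →+* _))) ∘
            (R.pl n (MvPolynomial.C : W →+* MvPolynomial (Fin N) W)) := by
      funext x
      rw [comp_apply, comp_apply, ← hR.pl_comp n _ _ (poly_flat _) (flat_of_equiv _),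
        ← hR.pl_comp n _ _ (mvC_flat W N) (RingHom.Flat.comp (poly_flat _) (flat_of_equiv _))]
      exact G1.pl_congr R n h3.symm x
    show Bijective (fun x => R.pl n (MvPolynomial.C : W →+* MvPolynomial (Fin (N + 1)) W) x)
    rw [h4]
    exact h2

/-- the decomposition `T n (AS1 q A h) = T n A × P n h` -/
theorem dec {R : RD.{u}} (hR : R.Ax) (hk : Setg p m q t k) (hp : R.PInv p) (n : ℤ) (A : Type)
    [CommRing A] [IsNoetherianRing A] [Algebra k A] (h : A) :
    Nonempty (R.T n A × R.P n q h ≃+ R.T n (AS1 q A h)) := by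
  obtain ⟨-, -, h3, h4⟩ := thm_G1 R hR p m q t k hk n A h
  let F : R.T n A × R.P n q h →+ R.T n (AS1 q A h) :=
    (R.pl n (asO q h)).coprod (R.P n q h).subtype
  refine ⟨AddEquiv.ofBijective F ⟨?_, fun x => ?_⟩⟩
  · rw [injective_iff_map_eq_zero]
    rintro ⟨a, z⟩ h0
    have h5 := h4 hp a z z.2 h0
    exact Prod.ext h5.1 (Subtype.ext h5.2)
  · obtain ⟨a, z, hz, rfl⟩ := h3 hp x
    exact ⟨(a, ⟨z, hz⟩), rfl⟩

end G5

/-- the module -/
theorem thm_G5 (hG4 : St_G4.{u}) : St_G5.{u} := by
  intro R hR p m q t k _ hk hp n W _ _ _ h N b hb he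
  have h1 := thm_DG p m q t k hk W h N b hb he
  obtain ⟨e1⟩ := thm_RI thm_GP hG4 R hR p m q t k hk hp n W h _ _ _ h1
  obtain ⟨e2⟩ := G5.dec hR hk hp n (MvPolynomial (Fin N) W) (MvPolynomial.C h +
    ∑ i, MvPolynomial.C (algebraMap k W (b i)) * MvPolynomial.X i ^ (q + 1))
  have e3 := AddEquiv.ofBijective _ (G5.mvC_bij hR n W N)
  exact ⟨e2.symm.trans (AddEquiv.prodCongr e3.symm e1)⟩

end Pool.Agent.KTX
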