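import Pool.Agent.KTH.Fin
import Pool.Agent.KPR.KX

/-!
# Clause (IV) of line S: the groups `K'_n(X)[1/p]` of Fermat hypersurfaces; definitions (helper94)
-/

set_option autoImplicit false

namespace Pool.Agent.KTX

open CategoryTheory AlgebraicGeometry Pool.Agent.HPow Pool.Agent.KTH Pool.Agent.KPR
open scoped TensorProduct

/-- the group `K'_n(X)[1/p]` -/
abbrev KXI (p n : ℕ) (X : Scheme.{0}) : Type 1 :=
  TensorProduct ℤ (Localization.Away (p : ℤ)) (KX n X)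

/-- the group `K'_n(Spec R)[1/p]` -/
abbrev KRI (p n : ℕ) (R : Type) [CommRing R] : Type 1 := KXI p n (Spec (CommRingCat.of R))

/-- the ring `W[x₁, …, x_N, y] / (y ^ q + y - h - ∑ b_i x_i ^ (q + 1))` -/
abbrev HRing (q : ℕ) {k : Type} [Field k] {W : Type} [CommRing W] [Algebra k W] (h : W) {N : ℕ}
    (b : Fin N → k) : Type :=
  AS1 q (MvPolynomial (Fin N) W) (MvPolynomial.C h +
    ∑ i, MvPolynomial.C (algebraMap k W (b i)) * MvPolynomial.X i ^ (q + 1))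

/-- Rings. Let `k` be a field with `q ^ (2 t)` elements, `q = p ^ m`, `m, t ≥ 1`, `W` a noetherian
`k`-algebra and `h ∈ W`. There is a group `P` with
`K'_n(W[y] / (y ^ q + y - h))[1/p] ≅ K'_n(W)[1/p] × P` and
`K'_n(W[x, y] / (y ^ q + y - h - ∑ b_i x_i ^ (q + 1)))[1/p] ≅ K'_n(W)[1/p] × P ^ (q ^ e)` for all
`b_i ∈ 𝔽_q` such that the number `e` of the nonzero `b_i` is even; and if `h = 0` the last group is
`(K'_n(W)[1/p]) ^ (1 + (q - 1) q ^ e)`. -/
def RingFormula (p n : ℕ) : Prop :=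
  ∀ (m q t : ℕ) (k : Type) [Field k], Setg p m q t k → ∀ (W : Type) [CommRing W]
    [IsNoetherianRing W] [Algebra k W], (∀ h : W, ∃ (P : Type 1) (_ : AddCommGroup P),
      Nonempty (KRI p n (AS1 q W h) ≃+ KRI p n W × P) ∧
      ∀ (N : ℕ) (b : Fin N → k), (∀ i, b i ^ q = b i) → Even (Nat.card {i // b i ≠ 0}) →
        Nonempty (KRI p n (HRing q h b) ≃+
          KRI p n W × (Fin (q ^ Nat.card {i // b i ≠ 0}) → P))) ∧
    ∀ (N : ℕ) (b : Fin N → k), (∀ i, b i ^ q = b i) → Even (Nat.card {i // b i ≠ 0}) →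
      Nonempty (KRI p n (HRing q (0 : W) b) ≃+
        (Fin (1 + (q - 1) * q ^ Nat.card {i // b i ≠ 0}) → KRI p n W))

/-- Fermat hypersurfaces. Let `k` be a field with `q ^ (2 t)` elements, `q = p ^ m`, `m, t ≥ 1`, and `X`
a closed subscheme of `ℙ^(2l+1)` over `k` whose underlying set is `∑ x_j ^ (q + 1) = 0`. For every
scheme `S` of finite type over `ℤ`, `K'_n(X × S)[1/p] ≅ (K'_n(Spec k × S)[1/p]) ^ B`,
`B = 2 l + 2 + (q - 1) (1 + q ^ 2 + … + q ^ (2 l))`. -/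
def FermatFormula (p n : ℕ) : Prop :=
  ∀ (m q t : ℕ) (k : Type) [Field k], Setg p m q t k → ∀ (l : ℕ) (X : Scheme.{0})
    (i : X ⟶ Pool.Agent.KSS.PP k (2 * l + 2)) [IsClosedImmersion i],
    Set.range i = Pool.Agent.KSS.ZL (∑ j, MvPolynomial.X j ^ (q + 1)) →
    ∀ S : Scheme.{0}, FTZ S → Nonempty (KXI p n (px X S) ≃+
      (Fin (2 * l + 2 + (q - 1) * ∑ j ∈ Finset.range (l + 1), q ^ (2 * j)) →
        KXI p n (px (Spec (CommRingCat.of k)) S)))

end Pool.Agent.KTX
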