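import Pool.Agent.KTX.Defs
import Pool.Agent.HPow.Fq
import Pool.Agent.KSS.InstSt

/-!
# KTX: statements of the modules

Clause (IV) of line S for MP_e17fa799_al (architect helper94). Every `def St_X : Prop` is one module
`Pool/Agent/KTX/X.lean` with `theorem thm_X (h.. : St_..) : St_X` in the namespace `Pool.Agent.KTX`;
the hypotheses may be any of the statements listed after `needs`.
-/

set_option autoImplicit false

namespace Pool.Agent.KTX

open CategoryTheory AlgebraicGeometry Pool.Agent.HPow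

universe u

/-! ## from schemes to rings -/

/-- **R0** (2.5 h). The restriction of a graded theory to affine schemes satisfies the axioms for
rings. `pl`, `pu`, `bd` are defined by cases: `RingHom.Flat f ↔ Flat (Sm f)`,
`RingHom.Finite f ↔ IsFinite (Sm f)` (`IsFinite.SpecMap_iff`, `Flat.SpecMap_iff` or similar), `Sm π` is a
closed immersion for `π` surjective (`IsClosedImmersion.spec_of_surjective`), `Sm l` an open immersion
(`IsOpenImmersion` for `IsLocalization.Away`), ranges: zero locus of `s` and basic open set.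
`bc`: `isPullback_SpecMap_of_isPushout`. `zero`: `ex0` for `i = j = 𝟙 ∅`. `dev`: `dev`, and `ex` with
`U = ∅`. `prod`: the open and closed subschemes `Spec (D i)` of `Spec C ≅ ∐ Spec (D i)`:
`pl (π i) ∘ pu (π j) = 0` for `i ≠ j` and `= id` for `i = j` by `bc` (the pushout of `π i`, `π j` is the
zero ring, resp. `D i`), and `x = ∑ pu (pl x)`: all `pl (π i)` of the difference vanish, and an element
all of whose restrictions vanish is zero (induction on `I` with `ex`: for the closed and open subset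
`V(e)`, `e` idempotent). `nat`: the squares with isomorphisms are cartesian. needs: nothing -/
def St_R0 : Prop := ∀ L : LThy.{u}, L.toR.Ax

/-! ## operations -/

/-- The operations `T_n (Spec k) → T_n Y` (all `n` at once) generated by `push i (pull (i ≫ π) t)` for
reduced closed subschemes `i : M → Y` of the `k`-scheme `Y`. -/
inductive LThy.IsOp (L : LThy.{u}) (k : Type) [Field k] {Y : Scheme.{0}} (π : Y ⟶ Sp k) :
    (∀ n : ℤ, (L.th n).T (Sp k) →+ (L.th n).T Y) → Prop
  | gen (M : Scheme.{0}) [IsNoetherian M] [IsReduced M] (i : M ⟶ Y) [IsClosedImmersion i]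
      [Flat (i ≫ π)] :
      LThy.IsOp L k π fun n => ((L.th n).push i).comp ((L.th n).pull (i ≫ π))
  | zero : LThy.IsOp L k π fun _ => 0
  | add (ω ω' : ∀ n : ℤ, (L.th n).T (Sp k) →+ (L.th n).T Y) (h : LThy.IsOp L k π ω)
      (h' : LThy.IsOp L k π ω') : LThy.IsOp L k π fun n => ω n + ω' n
  | neg (ω : ∀ n : ℤ, (L.th n).T (Sp k) →+ (L.th n).T Y) (h : LThy.IsOp L k π ω) :
      LThy.IsOp L k π fun n => - ω n

/-- `T_n Y` has a basis of `b` operations over `T_n (Spec k)`, for all `n`. -/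
def LThy.HasB (L : LThy.{u}) (k : Type) [Field k] {Y : Scheme.{0}} (π : Y ⟶ Sp k) (b : ℕ) :
    Prop :=
  ∃ ω : Fin b → ∀ n : ℤ, (L.th n).T (Sp k) →+ (L.th n).T Y, (∀ a, L.IsOp k π (ω a)) ∧
    ∀ n : ℤ, Function.Bijective fun t : Fin b → (L.th n).T (Sp k) => ∑ a, ω a n (t a)

/-- **O0** (30 min). Every morphism to the spectrum of a field is flat. needs: nothing -/
def St_O0 : Prop := ∀ (k : Type) [Field k] (Y : Scheme.{0}) (π : Y ⟶ Sp k), Flat π

/-- **O1** (2.5 h). Surjective closed immersions. (`→`) `push s` is bijective (`dev`; `ex` with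
`U = ∅`), operations of `M` give operations of `Y` (`gen` for `i ≫ s`, associativity). (`←`) `gen`
for `i : N → Y`, `N` reduced: the projection `N ×_Y M → N` is a surjective closed immersion to a
reduced scheme, hence an isomorphism (`isIso_of_isClosedImmersion_of_surjective` or similar), so `i`
factors over `s`. needs: O0 -/
def St_O1 : Prop := ∀ (L : LThy.{u}) (k : Type) [Field k] (Y M : Scheme.{0}) [IsNoetherian Y]
  (π : Y ⟶ Sp k) (s : M ⟶ Y) [IsClosedImmersion s], Function.Surjective s → ∀ b : ℕ,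
    (L.HasB k (s ≫ π) b ↔ L.HasB k π b)

/-- **O2** (3 h). The localization step. Operations of the open subscheme `U` lift to `Y`: `gen` for
`i : M → U`: let `M'` be the closure of the image of `M` with the reduced structure
(`IdealSheafData.vanishingIdeal`, as in `Pool/Agent/KSS`), `M' ×_Y U` is reduced (open in `M'`) with the
same range in `U` as `M`, so both are isomorphic over `U` (`N = M ×_U (M' ×_Y U)` has surjective closed
immersions to both reduced schemes); `bc` for the cartesian square, `Thy.pull_comp`. So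
`pull j : T_n Y → T_n U` is surjective for all `n`, `bd = 0` (`bd_pull`), `push i` injective for all `n`
(`exZ`), and the lifted basis of `U` together with the basis of `Z` is a basis of `Y` (`ex`, `ex0`).
needs: O0 -/
def St_O2 : Prop := ∀ (L : LThy.{u}) (k : Type) [Field k] (Y Z U : Scheme.{0}) [IsNoetherian Y]
  (π : Y ⟶ Sp k) (i : Z ⟶ Y) (j : U ⟶ Y) [IsClosedImmersion i] [IsOpenImmersion j],
  Set.range i = (Set.range j)ᶜ → ∀ b b' : ℕ, L.HasB k (i ≫ π) b → L.HasB k (j ≫ π) b' →
    L.HasB k π (b + b')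

/-! ## filtrations with counts -/

/-- A filtration by affine pieces as in `PFilK` of `Pool/Agent/THY/Fil.lean`, with a counter: the piece
`V` counts `c` if `P c V`. -/
inductive PFilN (k : Type) [Field k] (P : ℕ → (V : Type) → [CommRing V] → [Algebra k V] → Prop)
    (Y : Scheme.{0}) (π : Y ⟶ Sp k) : ℕ → Set Y → Prop
  | empty : PFilN k P Y π 0 ∅
  | step (b c : ℕ) (T T' : Set Y) (hT : IsClosed T) (hT' : IsClosed T') (U : Y.Opens)
      (hU : IsAffineOpen U) (V : Type) [CommRing V] [Algebra k V] (hV : P c V)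
      (i : Sp V ⟶ U.toScheme) [IsClosedImmersion i]
      (hi : i ≫ U.ι ≫ π = Sm (algebraMap k V))
      (hTT' : T ⊆ T') (hTU : T ∩ U = ∅) (hr : T' \ T = Set.range (i ≫ U.ι))
      (h : PFilN k P Y π b T) : PFilN k P Y π (b + c) T'

/-- **O3** (2 h). Filtered schemes have bases. Induction over `PFilN` for all `Z`, `i` (see `St_FI` in
`Pool/Agent/KTH/St.lean` and `Pool/Agent/KTH/FI.lean`): `Z_U = i ⁻¹ᵁ U` open in `Z`, `Z''` reduced closed
with the complementary range, `Z_U` and `Spec V` have the same range in `U`: `St_O1` twice. needs: O1, O2 -/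
def St_O3 : Prop := ∀ (L : LThy.{u}) (k : Type) [Field k]
  (P : ℕ → (V : Type) → [CommRing V] → [Algebra k V] → Prop) (Y : Scheme.{0}) [IsNoetherian Y]
  (π : Y ⟶ Sp k) (b : ℕ) (T : Set Y),
  (∀ (c : ℕ) (V : Type) [CommRing V] [Algebra k V], P c V →
    L.HasB k (Sm (algebraMap k V)) c) →
  PFilN k P Y π b T → ∀ (Z : Scheme.{0}) (i : Z ⟶ Y) [IsClosedImmersion i],
    Set.range i = T → L.HasB k (i ≫ π) b

/-- The pieces of the even dimensional Fermat hypersurfaces: affine spaces count `1`, the ring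
`k[x₁, …, x_N, y] / (y ^ q + y - ∑ b_i x_i ^ (q + 1))` with an even number `r` of nonzero `b_i ∈ 𝔽_q` counts
`1 + (q - 1) q ^ r`. -/
def FP (q : ℕ) (k : Type) [Field k] (c : ℕ) (V : Type) [CommRing V] [Algebra k V] : Prop :=
  (c = 1 ∧ ∃ N : ℕ, Nonempty (V ≃ₐ[k] MvPolynomial (Fin N) k)) ∨
  ∃ (N : ℕ) (b : Fin N → k), (∀ i, b i ^ q = b i) ∧ Even (Nat.card {i // b i ≠ 0}) ∧
    c = 1 + (q - 1) * q ^ Nat.card {i // b i ≠ 0} ∧
    Nonempty (V ≃ₐ[k] AS1 q (MvPolynomial (Fin N) k)
      (∑ i, MvPolynomial.C (b i) * MvPolynomial.X i ^ (q + 1)))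

/-- **O4** (3 h). The Fermat hypersurface of dimension `2 l` and degree `q + 1` with counts: copy of
`pfil_proj` (`Pool/Agent/THY/Fil.lean`) and of `fermat_fil`, `chartA`, `chartB`
(`Pool/Agent/THY/Fermat.lean`); `n = 2 l + 2`; the piece number `j` of the first kind counts
`1 + (q - 1) q ^ (2 l - 2 j)` (`j = 0, …, l`), and there are `l + 1` pieces of the second kind.
needs: nothing -/
def St_O4 : Prop := ∀ (p m q t : ℕ) (k : Type) [Field k], Setg p m q t k → ∀ (l : ℕ)
  (Z : Scheme.{0}) (i : Z ⟶ Pool.Agent.KSS.PP k (2 * l + 2)) [IsClosedImmersion i],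
    Set.range i = Pool.Agent.KSS.ZL (∑ j, MvPolynomial.X j ^ (q + 1)) →
      PFilN k (FP q k) Z (i ≫ Pool.Agent.KSS.PPπ k (2 * l + 2))
        (2 * l + 2 + (q - 1) * ∑ j ∈ Finset.range (l + 1), q ^ (2 * j)) Set.univ

/-! ## rings -/

/-- The operations on rings. -/
inductive RD.IsOp (R : RD.{u}) (k : Type) [Field k] (V : Type) [CommRing V] [Algebra k V] :
    (∀ n : ℤ, R.T n k →+ R.T n V) → Prop
  | gen (C : Type) [CommRing C] [Algebra k C] [IsNoetherianRing C] [_root_.IsReduced C]
      (ρ : V →ₐ[k] C) (hρ : Function.Surjective ρ) :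
      RD.IsOp R k V fun n => (R.pu n (ρ : V →+* C)).comp (R.pl n (algebraMap k C))
  | zero : RD.IsOp R k V fun _ => 0
  | add (ω ω' : ∀ n : ℤ, R.T n k →+ R.T n V) (h : RD.IsOp R k V ω) (h' : RD.IsOp R k V ω') :
      RD.IsOp R k V fun n => ω n + ω' n
  | neg (ω : ∀ n : ℤ, R.T n k →+ R.T n V) (h : RD.IsOp R k V ω) :
      RD.IsOp R k V fun n => - ω n

/-- `T_n V` has a basis of `b` operations over `T_n k`, for all `n`. -/
def RD.HasB (R : RD.{u}) (k : Type) [Field k] (V : Type) [CommRing V] [Algebra k V] (b : ℕ) :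
    Prop :=
  ∃ ω : Fin b → ∀ n : ℤ, R.T n k →+ R.T n V, (∀ a, R.IsOp k V (ω a)) ∧
    ∀ n : ℤ, Function.Bijective fun t : Fin b → R.T n k => ∑ a, ω a n (t a)

/-- **RO** (1 h). From rings to schemes: unfold `LThy.toR`. needs: O0 -/
def St_RO : Prop := ∀ (L : LThy.{u}) (k : Type) [Field k] (V : Type) [CommRing V] [Algebra k V]
  (b : ℕ), L.toR.HasB k V b → L.HasB k (Sm (algebraMap k V)) b

/-- **G5** (helper94). The theorem for rings. -/
def St_G5 : Prop := ∀ (R : RD.{u}), R.Ax → ∀ (p m q t : ℕ) (k : Type) [Field k],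
  Setg p m q t k → R.PInv p → ∀ (n : ℤ) (W : Type) [CommRing W] [IsNoetherianRing W]
  [Algebra k W] (h : W) (N : ℕ) (b : Fin N → k), (∀ i, b i ^ q = b i) →
  Even (Nat.card {i // b i ≠ 0}) →
    Nonempty (R.T n (AS1 q (MvPolynomial (Fin N) W) (MvPolynomial.C h +
      ∑ i, MvPolynomial.C (algebraMap k W (b i)) * MvPolynomial.X i ^ (q + 1))) ≃+
      R.T n W × (Fin (q ^ Nat.card {i // b i ≠ 0}) → R.P n q h))

/-- **G6** (helper94). Bases for the pieces. -/
def St_G6 : Prop := ∀ (R : RD.{u}), R.Ax → ∀ (p m q t : ℕ) (k : Type) [Field k],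
  Setg p m q t k → R.PInv p → ∀ (c : ℕ) (V : Type) [CommRing V] [Algebra k V],
    FP q k c V → R.HasB k V c

/-! ## the theorem -/

/-- **F** (30 min). The theorem on Fermat hypersurfaces. `R.PInv` for `L.toR` is `L.PInv`.
needs: R0, O3, O4, RO, G6 -/
def St_F : Prop := ∀ (L : LThy.{u}) (p m q t : ℕ) (k : Type) [Field k], Setg p m q t k →
  L.PInv p → ∀ (l : ℕ) (X : Scheme.{0}) (i : X ⟶ Pool.Agent.KSS.PP k (2 * l + 2))
  [IsClosedImmersion i],
    Set.range i = Pool.Agent.KSS.ZL (∑ j, MvPolynomial.X j ^ (q + 1)) →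
    ∀ n : ℤ, Nonempty ((L.th n).T X ≃+
      (Fin (2 * l + 2 + (q - 1) * ∑ j ∈ Finset.range (l + 1), q ^ (2 * j)) →
        (L.th n).T (Sp k)))

end Pool.Agent.KTX
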