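import Pool.Agent.KTX.St
import Pool.Agent.KTX.Sq

/-!
# KTX: statements of the ring level modules

Clause (IV) of line S for MP_e17fa799_al (architect helper94). Every `def St_X : Prop` is one module
`Pool/Agent/KTX/X.lean` with `theorem thm_X (h.. : St_..) : St_X` in the namespace `Pool.Agent.KTX`;
the hypotheses may be any of the statements listed after `needs`.
-/

set_option autoImplicit false
set_option linter.unusedSectionVars false

namespace Pool.Agent.KTX

open Polynomial Function Pool.Agent.HPow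

universe u

/-! ## definitions -/

/-- `f` maps `P` bijectively onto `Q` -/
def BijP {X Y : Type*} [AddCommGroup X] [AddCommGroup Y] (f : X →+ Y) (P : AddSubgroup X)
    (Q : AddSubgroup Y) : Prop :=
  (∀ x ∈ P, f x ∈ Q) ∧ (∀ x ∈ P, f x = 0 → x = 0) ∧ ∀ y ∈ Q, ∃ x ∈ P, f x = y

/-- `B` is free of rank `d` over `A` -/
def FreeR {A B : Type} [CommRing A] [CommRing B] (f : A →+* B) (d : ℕ) : Prop :=
  Nonempty (@Module.Basis (Fin d) A B _ _ f.toAlgebra.toModule)

section hyp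

variable {p m q t : ℕ} {k : Type} [Field k]

theorem asC_zero' (q : ℕ) {A A' : Type} [CommRing A] [CommRing A'] (φ : A →+* A') (h : A)
    (h' : A') (e : φ h = h') : AsC q φ h h' 0 := by
  subst e
  exact asC_zero φ h

/-- the homomorphism `A[y] / (y ^ q + y - h) → A'[y] / (y ^ q + y - h')` for `φ h = h'` -/
noncomputable abbrev asE (q : ℕ) {A A' : Type} [CommRing A] [CommRing A'] (φ : A →+* A') (h : A)
    (h' : A') (e : φ h = h') : AS1 q A h →+* AS1 q A' h' := asH φ h h' 0 (asC_zero' q φ h h' e)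

/-- the form `h + U v ^ q + U ^ q v` over `W[U][v]` -/
noncomputable def hyf (q : ℕ) {W : Type} [CommRing W] (h : W) : W[X][X] :=
  C (C h) + (C X * X ^ q + C (X ^ q) * X)

/-- the form `h + (c ^ (q ^ 2) - c) v` over `W[c][v]` -/
noncomputable def hyg (q : ℕ) {W : Type} [CommRing W] (h : W) : W[X][X] :=
  C (X ^ (q ^ 2) - X) * X + C (C h)

/-- `U ↦ a` -/
noncomputable abbrev evU {W : Type} [CommRing W] [Algebra k W] (a : k) : W[X][X] →+* W[X] :=
  mapRingHom (evalRingHom (algebraMap k W a))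

/-- the equation on the plane `U = a` -/
theorem hyf_ev {W : Type} [CommRing W] [Algebra k W] (h : W) (a : {a : k // a ^ (q ^ 2) = a}) :
    evU a.1 (hyf q h) = C h + ((C (algebraMap k W (a.1 ^ q)) * X) ^ q +
      C (algebraMap k W (a.1 ^ q)) * X) := by
  have e3 : (algebraMap k W (a.1 ^ q)) ^ q = algebraMap k W a.1 := by
    rw [← map_pow, ← pow_mul, ← sq, a.2]
  have e4 : algebraMap k W (a.1 ^ q) = algebraMap k W a.1 ^ q := map_pow _ _ _
  unfold hyf
  rw [map_add, map_add, map_mul, map_mul, map_pow, coe_mapRingHom, map_C, map_C, map_C, map_X,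
    coe_evalRingHom, eval_C, eval_X, eval_pow, eval_X, mul_pow, ← C_pow, e3, e4]

/-- the equation on the plane `U = a` -/
theorem hyf_asC (hk : Setg p m q t k) {W : Type} [CommRing W] [Algebra k W] (h : W)
    (a : {a : k // a ^ (q ^ 2) = a}) :
    AsC q (evU a.1) (hyf q h) (C h : W[X]) (C (algebraMap k W (a.1 ^ q)) * X) :=
  asC_of hk _ _ _ _ (hyf_ev h a)

/-- the closed immersion of the plane `U = a`, `y = y' + a ^ q v` -/
noncomputable def hyi (hk : Setg p m q t k) {W : Type} [CommRing W] [Algebra k W] (h : W)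
    (a : {a : k // a ^ (q ^ 2) = a}) : AS1 q W[X][X] (hyf q h) →+* AS1 q W[X] (C h) :=
  asH (evU a.1) (hyf q h) (C h) (C (algebraMap k W (a.1 ^ q)) * X) (hyf_asC hk h a)

/-- `U ↦ c ^ q` -/
noncomputable abbrev exU (q : ℕ) (W : Type) [CommRing W] : W[X][X] →+* W[X][X] :=
  mapRingHom (expand W q : W[X] →+* W[X])

/-- the equation after the radical extension -/
theorem hyf_exU {W : Type} [CommRing W] (h : W) :
    exU q W (hyf q h) = hyg q h + ((C X * X) ^ q + C X * X : W[X][X]) := by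
  have e1 : (expand W q : W[X] →+* W[X]) X = X ^ q := expand_X q
  have e2 : (expand W q : W[X] →+* W[X]) (C h) = C h := expand_C q h
  have e3 : (expand W q : W[X] →+* W[X]) (X ^ q) = X ^ (q ^ 2) := by
    rw [map_pow, e1, ← pow_mul, ← sq]
  unfold hyf hyg
  rw [map_add, map_add, map_mul, map_mul, map_pow, coe_mapRingHom, map_C, map_C, map_C, map_X,
    e2, e1, e3, C_sub, mul_pow, C_pow]
  ring

/-- the equation after the radical extension -/
theorem hyg_asC (hk : Setg p m q t k) {W : Type} [CommRing W] [Algebra k W] (h : W) :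
    AsC q (exU q W) (hyf q h) (hyg q h) (C X * X) :=
  asC_of hk _ _ _ _ (hyf_exU h)

end hyp

/-- `W[c] / (c ^ (q ^ 2) - c)` -/
abbrev WQ (q : ℕ) (W : Type) [CommRing W] : Type := W[X] ⧸ Ideal.span {(X ^ (q ^ 2) - X : W[X])}

/-- The chain of the hyperbolic planes: from `(W, h)` to `(A, a)` by isomorphisms, polynomial rings
and hyperbolic planes (two for each of them). -/
inductive Rl (q : ℕ) (k : Type) [Field k] (W : Type) [CommRing W] [Algebra k W] (h : W) :
    ℕ → (A : Type) → [CommRing A] → [Algebra k A] → A → Prop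
  | refl : Rl q k W h 0 W h
  | iso (r : ℕ) (A A' : Type) [CommRing A] [CommRing A'] [Algebra k A] [Algebra k A']
      (e : A ≃ₐ[k] A') (a : A) (a' : A') (ha : e a = a') (hr : Rl q k W h r A a) :
      Rl q k W h r A' a'
  | poly (r : ℕ) (A : Type) [CommRing A] [Algebra k A] (a : A) (hr : Rl q k W h r A a) :
      Rl q k W h r A[X] (C a)
  | hyp (r : ℕ) (A : Type) [CommRing A] [Algebra k A] (a : A) (hr : Rl q k W h r A a) :
      Rl q k W h (r + 2) A[X][X] (hyf q a)

/-- `P_n h` has a basis of `c` operations over `T_n k`, for all `n`. -/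
def RD.HasBP (R : RD.{u}) (q : ℕ) (k : Type) [Field k] (A : Type) [CommRing A] [Algebra k A]
    (h : A) (c : ℕ) : Prop :=
  ∃ ω : Fin c → ∀ n : ℤ, R.T n k →+ R.T n (AS1 q A h), (∀ a, R.IsOp k (AS1 q A h) (ω a)) ∧
    ∀ n : ℤ, (∀ t : Fin c → R.T n k, ∑ a, ω a n (t a) ∈ R.P n q h) ∧
      (∀ t : Fin c → R.T n k, ∑ a, ω a n (t a) = 0 → t = 0) ∧
      ∀ x ∈ R.P n q h, ∃ t : Fin c → R.T n k, ∑ a, ω a n (t a) = x

/-! ## algebra -/

/-- **DG** (2.5 h). Diagonal forms. Induction on `N` with `MvPolynomial.finSuccEquiv` (variable `0` is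
the new polynomial variable). State for an even number of nonzero coefficients: `Rl`; state for an
odd number `r`: `(MvPolynomial (Fin N) W, form)` is isomorphic (over `k`) to
`(A[X], C a + C b * X ^ (q + 1))` with `Rl q k W h (r - 1) A a`, `b ≠ 0`, `b ^ q = b`. A zero coefficient:
`Rl.poly` (even), `A[X][Y] ≃ A[Y][X]` (odd, `Polynomial.Bivariate.swap`). Two nonzero coefficients:
`A[X1][X2]` with `C (C a) + C (C b1 * X ^ (q + 1)) + C (C b2) * X ^ (q + 1)` is `A[U][v]` with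
`hyf q a` by the linear change of variables of `Pool/Agent/HPow/HypA.lean` (`hypa_lin`, `hypa_form`,
`Setg.exists_tau`, `Setg.exists_norm`), and `Rl.hyp`. needs: nothing -/
def St_DG : Prop := ∀ (p m q t : ℕ) (k : Type) [Field k], Setg p m q t k →
  ∀ (W : Type) [CommRing W] [Algebra k W] (h : W) (N : ℕ) (b : Fin N → k),
    (∀ i, b i ^ q = b i) → Even (Nat.card {i // b i ≠ 0}) →
      Rl q k W h (Nat.card {i // b i ≠ 0}) (MvPolynomial (Fin N) W) (MvPolynomial.C h +
        ∑ i, MvPolynomial.C (algebraMap k W (b i)) * MvPolynomial.X i ^ (q + 1))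

/-- **RR** (1.5 h). `A[y] / (y ^ q + y - h)` is reduced for reduced `A`. If `x ^ q = 0`,
`x = ∑ a_i y ^ i` (`i < q`): the `A`-algebra isomorphism
`A[y'] / (y' ^ q + y' - h ^ q) → A[y] / (y ^ q + y - h)`, `y' ↦ h - y` (inverse `y ↦ h - y'`), maps
`∑ a_i ^ q y' ^ i` to `x ^ q` (`y ^ q = h - y`), so `a_i ^ q = 0`. needs: nothing -/
def St_RR : Prop := ∀ (p m q t : ℕ) (k : Type) [Field k], Setg p m q t k →
  ∀ (A : Type) [CommRing A] [Algebra k A] [_root_.IsReduced A] (h : A),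
    _root_.IsReduced (AS1 q A h)

/-- **RX** (1.5 h). The radical extension `W[U][v] → W[c][v]`, `U ↦ c ^ q`, is free of rank `q`, and
`q`-th powers come from `W[U][v]`. (Basis: for instance the isomorphism of
`AdjoinRoot (X ^ q - C (C X) : W[X][X][X])` with `W[X][X]`, root `↦ C X`, and `powerBasis'`. The powers:
`x ↦ x ^ q` is additive.) needs: nothing -/
def St_RX : Prop := ∀ (p m q t : ℕ) (k : Type) [Field k], Setg p m q t k →
  ∀ (W : Type) [CommRing W] [Algebra k W], FreeR (exU q W) q ∧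
    ∀ x : W[X][X], ∃ a : W[X][X], exU q W a = x ^ q

/-- **GC** (1.5 h). `W[c] / (c ^ (q ^ 2) - c)` is the product of `q ^ 2` copies of `W` (evaluation at
the elements `a` of `k` with `a ^ (q ^ 2) = a`; `Setg.fq_splits_sq`, `Setg.fq_card_sq` in
`Pool/Agent/HPow/Fq.lean`), and the same for the polynomial rings in one more variable.
Idempotents: the images of the Lagrange polynomials. needs: nothing -/
def St_GC : Prop := ∀ (p m q t : ℕ) (k : Type) [Field k], Setg p m q t k →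
  ∀ (W : Type) [CommRing W] [Algebra k W],
    ∃ ε : ∀ _ : {a : k // a ^ (q ^ 2) = a}, WQ q W →+* W,
      (∀ a, (ε a).comp (Ideal.Quotient.mk (Ideal.span {(X ^ (q ^ 2) - X : W[X])})) =
        evalRingHom (algebraMap k W a.1)) ∧
      Bijective fun (c : (WQ q W)[X]) (a : {a : k // a ^ (q ^ 2) = a}) => mapRingHom (ε a) c

/-! ## theories -/

/-- **G3** (2 h). Radical extensions. (1) `pu f (pl f x) = q x` (`free`). (2) `pl f (pu f x) = q x`:
for `D = A₁ ⊗ A₁` (`CommRingCat.isPushout_tensorProduct` or `IsPushout` of `AS`-free type), `i₁`, `i₂`, the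
multiplication `μ : D → A₁` is surjective with nilpotent kernel (generated by `x ⊗ 1 - 1 ⊗ x`, whose
`q`-th powers vanish), so `pl i₂ x = pu μ y` by `dev`; `pu i₂`: `q x = y` (`free` for `i₂`: basis of the
base change; `μ ∘ i₂ = id`); `pu i₁`: `pl f (pu f x) = pu i₁ (pl i₂ x) = y` (`bc`). (3) Apply (1), (2) to
`asH f h h' c e : B → B₁`: it is free of rank `q` by base change (`asH_pushout`), and `q`-th powers of
elements of `B₁` come from `B`. So `pu (asH ..)` and `pl (asH ..)` are bijective on `T n` (`q = p ^ m` is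
invertible), and they map `P` to `P`: `pu O ∘ pu (asH ..) = pu f ∘ pu O`, `pu O ∘ pl (asH ..) = pl f ∘ pu O`
(`bc` for `asH_pushout`); for the surjectivity note that `pu f` is injective on `T n A₁`.
needs: nothing -/
def St_G3 : Prop := ∀ (R : RD.{u}), R.Ax → ∀ (p m q t : ℕ) (k : Type) [Field k],
  Setg p m q t k → R.PInv p → ∀ (n : ℤ) (A A₁ : Type) [CommRing A] [CommRing A₁]
  [IsNoetherianRing A] [Algebra k A] [Algebra k A₁] (f : A →+* A₁), FreeR f q →
  (∀ x : A₁, ∃ a : A, f a = x ^ q) → ∀ (h : A) (h' c : A₁) (e : AsC q f h h' c),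
    f h = h' + (c ^ q + c) → BijP (R.pu n (asH f h h' c e)) (R.P n q h') (R.P n q h)

/-- **GX** (2 h). Finite products. `B = AS1 q C h → B_i = AS1 q (D_i) (h' i)` is surjective with kernel
generated by the image of `1 - e_i` (`e_i` the idempotents of `C`), so `B` is the product of the
`B_i` as well; the axiom `prod`, and `pl (π_j) ∘ pu (π_i) = 0` for `i ≠ j` (`bc` with the zero ring,
axiom `zero`; flat: `IsLocalization.away_of_isIdempotentElem` or similar). `P`: `pu O ∘ pu = pu ∘ pu O`,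
`pu O ∘ pl = pl ∘ pu O` (`bc` for `asH_pushout`). needs: nothing -/
def St_GX : Prop := ∀ (R : RD.{u}), R.Ax → ∀ (p m q t : ℕ) (k : Type) [Field k],
  Setg p m q t k → ∀ (n : ℤ) (A : Type) [CommRing A] [IsNoetherianRing A] [Algebra k A]
  (I : Type) [Fintype I] (D : I → Type) [∀ i, CommRing (D i)] [∀ i, Algebra k (D i)]
  (π : ∀ i, A →+* D i), (Bijective fun (c : A) (i : I) => π i c) →
  ∀ (h : A) (h' : ∀ i, D i) (e : ∀ i, π i h = h' i),
    (∀ z : ∀ i, R.T n (AS1 q (D i) (h' i)), (∀ i, z i ∈ R.P n q (h' i)) →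
      ∑ i, R.pu n (asE q (π i) h (h' i) (e i)) (z i) ∈ R.P n q h) ∧
    (∀ z : ∀ i, R.T n (AS1 q (D i) (h' i)), (∀ i, z i ∈ R.P n q (h' i)) →
      ∑ i, R.pu n (asE q (π i) h (h' i) (e i)) (z i) = 0 → z = 0) ∧
    ∀ x ∈ R.P n q h, ∃ z : ∀ i, R.T n (AS1 q (D i) (h' i)), (∀ i, z i ∈ R.P n q (h' i)) ∧
      ∑ i, R.pu n (asE q (π i) h (h' i) (e i)) (z i) = x

/-- **G1** (helper94). Galois theory: `pu O (pl O x) = q x`, `pl O (pu O x) = ∑ pl (σ_b) x`, and
`T n (AS1 q A h) = T n A × P n h`. -/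
def St_G1 : Prop := ∀ (R : RD.{u}), R.Ax → ∀ (p m q t : ℕ) (k : Type) [Field k]
  (hk : Setg p m q t k) (n : ℤ) (A : Type) [CommRing A] [IsNoetherianRing A] [Algebra k A]
  (h : A), (∀ x : R.T n A, R.pu n (asO q h) (R.pl n (asO q h) x) = q • x) ∧
  (∀ [Fintype {b : k // b ^ q + b = 0}] (x : R.T n (AS1 q A h)),
    R.pl n (asO q h) (R.pu n (asO q h) x) =
      ∑ b, R.pl n ((trE hk h b : AS1 q A h ≃+* AS1 q A h) : AS1 q A h →+* AS1 q A h) x) ∧
  (R.PInv p → ∀ x : R.T n (AS1 q A h), ∃ (a : R.T n A), ∃ z ∈ R.P n q h,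
    x = R.pl n (asO q h) a + z) ∧
  (R.PInv p → ∀ (a : R.T n A), ∀ z ∈ R.P n q h, R.pl n (asO q h) a + z = 0 → a = 0 ∧ z = 0)

/-- **GP** (helper94). Homotopy invariance for `P`. -/
def St_GP : Prop := ∀ (R : RD.{u}), R.Ax → ∀ (p m q t : ℕ) (k : Type) [Field k],
  Setg p m q t k → ∀ (n : ℤ) (A : Type) [CommRing A] [IsNoetherianRing A] [Algebra k A]
  (h : A), BijP (R.pl n (asE q (C : A →+* A[X]) h (C h) rfl)) (R.P n q h)
    (R.P n q (C h : A[X]))

/-- **G2** (helper94). Dimensional reduction. -/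
def St_G2 : Prop := ∀ (R : RD.{u}), R.Ax → ∀ (p m q t : ℕ) (k : Type) [Field k],
  Setg p m q t k → R.PInv p → ∀ (n : ℤ) (W D : Type) [CommRing W] [CommRing D]
  [IsNoetherianRing W] [Algebra k W] [Algebra k D] (φ : W →+* D), Surjective φ → ∀ g h : W,
  RingHom.ker φ = Ideal.span {g} → ∀ e : mapRingHom φ (C g * X + C h) = C (φ h),
    BijP (R.pu n (asE q (mapRingHom φ) (C g * X + C h) (C (φ h)) e))
      (R.P n q (C (φ h) : D[X])) (R.P n q (C g * X + C h : W[X]))

/-- **G4** (helper94). The hyperbolic plane. needs: G1, G2, G3, GP, GC, GX, RX -/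
def St_G4 : Prop := ∀ (R : RD.{u}), R.Ax → ∀ (p m q t : ℕ) (k : Type) [Field k]
  (hk : Setg p m q t k), R.PInv p → ∀ (n : ℤ) (W : Type) [CommRing W] [IsNoetherianRing W]
  [Algebra k W] (h : W) [Fintype {a : k // a ^ (q ^ 2) = a}],
    (∀ z : {a : k // a ^ (q ^ 2) = a} → R.T n (AS1 q W h), (∀ a, z a ∈ R.P n q h) →
      ∑ a, R.pu n (hyi hk h a) (R.pl n (asE q (C : W →+* W[X]) h (C h) rfl) (z a)) ∈
        R.P n q (hyf q h)) ∧
    (∀ z : {a : k // a ^ (q ^ 2) = a} → R.T n (AS1 q W h), (∀ a, z a ∈ R.P n q h) →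
      ∑ a, R.pu n (hyi hk h a) (R.pl n (asE q (C : W →+* W[X]) h (C h) rfl) (z a)) = 0 →
        z = 0) ∧
    ∀ x ∈ R.P n q (hyf q h), ∃ z : {a : k // a ^ (q ^ 2) = a} → R.T n (AS1 q W h),
      (∀ a, z a ∈ R.P n q h) ∧
      ∑ a, R.pu n (hyi hk h a) (R.pl n (asE q (C : W →+* W[X]) h (C h) rfl) (z a)) = x

/-! ## operations -/

/-- **OA** (1.5 h). Transfer of operations. (1) closed immersions: `gen C ρ` goes to `gen C (ρ ∘ i)`
(`pu_comp`). (2) isomorphisms: `pl e = pu e⁻¹`. (3) polynomial rings: `gen C ρ` goes to `gen C[X] ρ'`,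
`ρ' : AS1 q A[X] (C h) ≃ (AS1 q A h)[X] → C[X]` (`plE` of `Sq.lean`), by `bc` (a pushout square) and
`pl_comp`; all maps are homomorphisms of `k`-algebras. needs: nothing -/
def St_OA : Prop := ∀ (R : RD.{u}), R.Ax → ∀ (p m q t : ℕ) (k : Type) [Field k],
  Setg p m q t k →
  (∀ (V V' : Type) [CommRing V] [CommRing V'] [IsNoetherianRing V] [Algebra k V]
    [Algebra k V'] (i : V →+* V'), Surjective i → i.comp (algebraMap k V) = algebraMap k V' →
    ∀ ω : ∀ n : ℤ, R.T n k →+ R.T n V', R.IsOp k V' ω →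
      R.IsOp k V fun n => (R.pu n i).comp (ω n)) ∧
  (∀ (V V' : Type) [CommRing V] [CommRing V'] [IsNoetherianRing V] [Algebra k V]
    [Algebra k V'] (i : V ≃+* V'), (i : V →+* V').comp (algebraMap k V) = algebraMap k V' →
    ∀ ω : ∀ n : ℤ, R.T n k →+ R.T n V, R.IsOp k V ω →
      R.IsOp k V' fun n => (R.pl n (i : V →+* V')).comp (ω n)) ∧
  ∀ (A : Type) [CommRing A] [IsNoetherianRing A] [Algebra k A] (h : A)
    (ω : ∀ n : ℤ, R.T n k →+ R.T n (AS1 q A h)), R.IsOp k (AS1 q A h) ω →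
      R.IsOp k (AS1 q A[X] (C h)) fun n =>
        (R.pl n (asE q (C : A →+* A[X]) h (C h) rfl)).comp (ω n)

/-- **OB** (1.5 h). The point: `AS1 q k 0` is the product of the `k_b`, `b ^ q + b = 0`
(`Setg.fq_splits_tr`, `Setg.card_tr`), and `P n 0 = {∑ pu pt_b t_b : ∑ t_b = 0}` has the basis
`pu pt_b - pu pt_0`, `b ≠ 0` (axiom `prod`; `pl (pt_b') ∘ pu (pt_b) = 0` for `b ≠ b'`: `bc` with the zero
ring, axiom `zero`). needs: nothing -/
def St_OB : Prop := ∀ (R : RD.{u}), R.Ax → ∀ (p m q t : ℕ) (k : Type) [Field k],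
  Setg p m q t k → R.HasBP q k k (0 : k) (q - 1)

/-- **OC** (2 h). The steps for `HasBP`, and `Rl` as a whole (induction; `A` noetherian for `W`
noetherian). Isomorphisms (`asE q e`), `poly` (`GP`, `OA` (3)), `hyp` (`G4`, `OA`; the operations
`pu (hyi a) ∘ pl (asE C) ∘ ω_i`; number `q ^ 2 * c` by `Setg.fq_card_sq`). needs: GP, G4, OA -/
def St_OC : Prop := ∀ (R : RD.{u}), R.Ax → ∀ (p m q t : ℕ) (k : Type) [Field k],
  Setg p m q t k → R.PInv p → ∀ (W : Type) [CommRing W] [IsNoetherianRing W] [Algebra k W]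
  (h : W) (c : ℕ), R.HasBP q k W h c → ∀ (r : ℕ) (A : Type) [CommRing A] [Algebra k A]
  (a : A), Rl q k W h r A a → R.HasBP q k A a (q ^ r * c)

/-- **G5'** (1.5 h). The isomorphism for `Rl` (induction; `A` noetherian for `W` noetherian).
needs: GP, G4 -/
def St_RI : Prop := ∀ (R : RD.{u}), R.Ax → ∀ (p m q t : ℕ) (k : Type) [Field k],
  Setg p m q t k → R.PInv p → ∀ (n : ℤ) (W : Type) [CommRing W] [IsNoetherianRing W]
  [Algebra k W] (h : W) (r : ℕ) (A : Type) [CommRing A] [Algebra k A] (a : A),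
    Rl q k W h r A a → Nonempty (R.P n q a ≃+ (Fin (q ^ r) → R.P n q h))

end Pool.Agent.KTX
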